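import Mathlib

/-!
Hadamard's lemma and the extension of even functions to rotation invariant functions.
-/

set_option autoImplicit false

namespace Pool.Agent.H812

open Topology Filter Metric Set MeasureTheory
open scoped ContDiff

section had

variable {E G : Type*} [NormedAddCommGroup E] [NormedSpace ℝ E] [FiniteDimensional ℝ E]
  [NormedAddCommGroup G] [NormedSpace ℝ G] [FiniteDimensional ℝ G]

theorem integrableOn_Icc_of_cont {G' : Type*} [NormedAddCommGroup G'] [NormedSpace ℝ G']
    [FiniteDimensional ℝ G'] {f : ℝ → G'} (hf : Continuous f) :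
    Integrable f (volume.restrict (Icc (0 : ℝ) 1)) :=
  hf.continuousOn.integrableOn_compact isCompact_Icc

theorem int_hasFDerivAt {f : ℝ × E → G} (hf : ContDiff ℝ 1 f) (z : E) :
    HasFDerivAt (fun z => ∫ t in Icc (0 : ℝ) 1, f (t, z))
      (∫ t in Icc (0 : ℝ) 1, (fderiv ℝ f (t, z)).comp (ContinuousLinearMap.inr ℝ ℝ E)) z := by
  have : ProperSpace E := FiniteDimensional.proper_real E
  have hc : Continuous f := hf.continuous
  have hc' : Continuous fun p : ℝ × E =>
      (fderiv ℝ f p).comp (ContinuousLinearMap.inr ℝ ℝ E) :=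
    (hf.continuous_fderiv one_ne_zero).clm_comp continuous_const
  have hcomp : IsCompact (Icc (0 : ℝ) 1 ×ˢ closedBall z 1) :=
    isCompact_Icc.prod (isCompact_closedBall z 1)
  obtain ⟨C, hC⟩ := (hcomp.image hc'.norm).bddAbove
  refine hasFDerivAt_integral_of_dominated_of_fderiv_le (𝕜 := ℝ) (s := closedBall z 1)
    (bound := fun _ => C) (F := fun y t => f (t, y))
    (F' := fun y t => (fderiv ℝ f (t, y)).comp (ContinuousLinearMap.inr ℝ ℝ E))
    (closedBall_mem_nhds z one_pos) ?_ ?_ ?_ ?_ ?_ ?_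
  · refine Eventually.of_forall fun y => ?_
    exact (integrableOn_Icc_of_cont (hc.comp (continuous_id.prodMk continuous_const))).1
  · exact integrableOn_Icc_of_cont (hc.comp (continuous_id.prodMk continuous_const))
  · exact (integrableOn_Icc_of_cont (hc'.comp (continuous_id.prodMk continuous_const))).1
  · rw [ae_restrict_iff' measurableSet_Icc]
    refine Eventually.of_forall fun t ht y hy => ?_
    exact hC ⟨(t, y), ⟨ht, hy⟩, rfl⟩
  · exact integrable_const _
  · refine Eventually.of_forall fun t y _ => ?_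
    have h1 : HasFDerivAt (fun y : E => ((t, y) : ℝ × E)) (ContinuousLinearMap.inr ℝ ℝ E) y :=
      hasFDerivAt_prodMk_right t y
    exact ((hf.differentiable one_ne_zero) (t, y)).hasFDerivAt.comp y h1

theorem int_contDiff_nat (n : ℕ) : ∀ (f : ℝ × E → G), ContDiff ℝ ∞ f →
    ContDiff ℝ n fun z => ∫ t in Icc (0 : ℝ) 1, f (t, z) := by
  induction n with
  | zero =>
    intro f hf
    rw [Nat.cast_zero, contDiff_zero]
    exact Differentiable.continuous (𝕜 := ℝ)
      fun x => (int_hasFDerivAt (hf.of_le (by exact_mod_cast le_top)) x).differentiableAt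
  | succ n ih =>
    intro f hf
    have hf1 : ContDiff ℝ 1 f := hf.of_le (by exact_mod_cast le_top)
    rw [Nat.cast_succ, contDiff_succ_iff_fderiv_apply]
    refine ⟨fun x => (int_hasFDerivAt hf1 x).differentiableAt, by simp, fun v => ?_⟩
    have h1 : (fun x => fderiv ℝ (fun z => ∫ t in Icc (0 : ℝ) 1, f (t, z)) x v) =
        fun z => ∫ t in Icc (0 : ℝ) 1, fderiv ℝ f (t, z) (0, v) := by
      funext x
      rw [(int_hasFDerivAt hf1 x).fderiv, ContinuousLinearMap.integral_apply]
      · rfl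
      · refine integrableOn_Icc_of_cont (Continuous.clm_comp ?_ continuous_const)
        exact (hf1.continuous_fderiv one_ne_zero).comp
          (continuous_id.prodMk continuous_const)
    rw [h1]
    refine ih (fun p => fderiv ℝ f p (0, v)) ?_
    exact (hf.fderiv_right (m := ∞) (by simp)).clm_apply contDiff_const

/-- Hadamard's lemma -/
theorem hadamard (u : ℝ × E → G) (hu : ContDiff ℝ ∞ u) (h0 : ∀ y, u (0, y) = 0) :
    ∃ v : ℝ × E → G, ContDiff ℝ ∞ v ∧ (∀ x y, u (x, y) = x • v (x, y)) ∧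
      ∀ y, v (0, y) = fderiv ℝ u (0, y) (1, 0) := by
  refine ⟨fun p => ∫ t in Icc (0 : ℝ) 1, fderiv ℝ u (t * p.1, p.2) (1, 0), ?_, ?_, ?_⟩
  · rw [contDiff_infty]
    intro n
    refine int_contDiff_nat n (fun q : ℝ × (ℝ × E) => fderiv ℝ u (q.1 * q.2.1, q.2.2) (1, 0)) ?_
    have h1 : ContDiff ℝ ∞ fun q : ℝ × (ℝ × E) => ((q.1 * q.2.1, q.2.2) : ℝ × E) :=
      (contDiff_fst.mul (contDiff_fst.comp contDiff_snd)).prodMk
        (contDiff_snd.comp contDiff_snd)
    exact ((hu.fderiv_right (m := ∞) (by simp)).comp h1).clm_apply contDiff_const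
  · intro x y
    have h1 : ∀ t : ℝ, HasDerivAt (fun t : ℝ => u (t * x, y))
        (x • fderiv ℝ u (t * x, y) (1, 0)) t := by
      intro t
      have h2 : HasFDerivAt u (fderiv ℝ u (t * x, y)) (t * x, y) :=
        ((hu.differentiable (by simp)) _).hasFDerivAt
      have h3 : HasDerivAt (fun t : ℝ => ((t * x, y) : ℝ × E)) (x, 0) t := by
        have h4 : HasDerivAt (fun t : ℝ => t * x) x t := by
          simpa using (hasDerivAt_id t).mul_const x
        exact h4.prodMk (hasDerivAt_const t y)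
      have h5 := h2.comp_hasDerivAt t h3
      have h6 : ((x, 0) : ℝ × E) = x • ((1, 0) : ℝ × E) := by simp
      rw [h6, map_smul] at h5
      exact h5
    have h2 : ∫ t in (0 : ℝ)..1, x • fderiv ℝ u (t * x, y) (1, 0) = u (1 * x, y) - u (0 * x, y) := by
      apply intervalIntegral.integral_eq_sub_of_hasDerivAt (fun t _ => h1 t)
      apply Continuous.intervalIntegrable
      refine Continuous.const_smul (Continuous.clm_apply ?_ continuous_const) _
      exact (hu.continuous_fderiv (by simp)).comp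
        ((continuous_id.mul continuous_const).prodMk continuous_const)
    rw [one_mul, zero_mul, h0, sub_zero, intervalIntegral.integral_smul,
      intervalIntegral.integral_of_le zero_le_one, ← integral_Icc_eq_integral_Ioc] at h2
    exact h2.symm
  · intro y
    simp

end had

section even

variable {V F G : Type*} [NormedAddCommGroup V] [InnerProductSpace ℝ V] [FiniteDimensional ℝ V]
  [NormedAddCommGroup F] [NormedSpace ℝ F] [FiniteDimensional ℝ F]
  [NormedAddCommGroup G] [NormedSpace ℝ G] [FiniteDimensional ℝ G]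

theorem deriv_odd {u : ℝ × F → G} (hu : Differentiable ℝ u)
    (he : ∀ x y, u (-x, y) = u (x, y)) (x : ℝ) (y : F) (v : F) (s : ℝ) :
    fderiv ℝ u (-x, y) (s, v) = fderiv ℝ u (x, y) (-s, v) := by
  have h1 : u = u ∘ fun p : ℝ × F => (-p.1, p.2) := by
    funext p; exact (he p.1 p.2).symm
  have h2 : HasFDerivAt (fun p : ℝ × F => ((-p.1, p.2) : ℝ × F))
      ((-(ContinuousLinearMap.fst ℝ ℝ F)).prod (ContinuousLinearMap.snd ℝ ℝ F)) (-x, y) :=
    (hasFDerivAt_fst.neg).prodMk hasFDerivAt_snd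
  have h3 : HasFDerivAt u (fderiv ℝ u (x, y)) ((fun p : ℝ × F => ((-p.1, p.2) : ℝ × F)) (-x, y)) := by
    show HasFDerivAt u (fderiv ℝ u (x, y)) (- -x, y)
    rw [neg_neg]
    exact (hu _).hasFDerivAt
  have h4 := h3.comp (-x, y) h2
  rw [← h1] at h4
  rw [h4.fderiv]
  rfl

theorem even_hasFDerivAt {u ũ : ℝ × F → G} (hu : Differentiable ℝ u)
    (he : ∀ x y, u (-x, y) = u (x, y))
    (hũ : ∀ x y, fderiv ℝ u (x, y) (1, 0) = x • ũ (x, y)) (v : V) (y : F) :
    HasFDerivAt (fun p : V × F => u (‖p.1‖, p.2))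
      ((((innerSL ℝ v).comp (ContinuousLinearMap.fst ℝ V F)).smulRight (ũ (‖v‖, y))) +
        (fderiv ℝ u (‖v‖, y)).comp
          ((ContinuousLinearMap.inr ℝ ℝ F).comp (ContinuousLinearMap.snd ℝ V F))) (v, y) := by
  rcases eq_or_ne v 0 with rfl | hv
  · have h1 : HasFDerivAt u (fderiv ℝ u (0, y)) (0, y) := (hu _).hasFDerivAt
    rw [norm_zero]
    rw [hasFDerivAt_iff_isLittleO] at h1 ⊢
    have h2 : Tendsto (fun p : V × F => ((‖p.1‖, p.2) : ℝ × F)) (𝓝 (0, y)) (𝓝 (0, y)) := by
      have h3 : Continuous fun p : V × F => ((‖p.1‖, p.2) : ℝ × F) :=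
        (continuous_norm.comp continuous_fst).prodMk continuous_snd
      have h4 := h3.tendsto (0, y)
      simpa using h4
    have h5 := h1.comp_tendsto h2
    have h6 : ((fun x' : ℝ × F => x' - (0, y)) ∘ fun p : V × F => ((‖p.1‖, p.2) : ℝ × F)) =O[𝓝 (0, y)]
        fun p : V × F => p - (0, y) := by
      apply Asymptotics.isBigO_of_le
      rintro ⟨w, z⟩
      simp [Prod.norm_def]
    refine (h5.trans_isBigO h6).congr' (Eventually.of_forall fun p => ?_) EventuallyEq.rfl
    obtain ⟨w, z⟩ := p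
    have h7 : fderiv ℝ u (0, y) (‖w‖, z - y) = fderiv ℝ u (0, y) (0, z - y) := by
      have h8 : ((‖w‖, z - y) : ℝ × F) = ‖w‖ • ((1, 0) : ℝ × F) + (0, z - y) := by simp
      rw [h8, map_add, map_smul, hũ]
      simp
    simp only [Function.comp_apply, norm_zero]
    have h9 : ((‖w‖, z) : ℝ × F) - (0, y) = (‖w‖, z - y) := by simp
    rw [h9, h7]
    simp
  · have hn : HasFDerivAt (fun w : V => ‖w‖) (‖v‖⁻¹ • innerSL ℝ v) v := by
      have h1 : DifferentiableAt ℝ (fun w : V => ‖w‖) v := (contDiffAt_norm ℝ hv).differentiableAt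
        one_ne_zero
      have h2 : HasFDerivAt (fun w : V => ‖w‖ ^ 2) (2 • innerSL ℝ v) v := by
        have := (hasStrictFDerivAt_norm_sq v).hasFDerivAt
        exact this
      have h3 : HasFDerivAt (fun w : V => ‖w‖ ^ 2) ((2 * ‖v‖) • fderiv ℝ (fun w : V => ‖w‖) v) v := by
        have := h1.hasFDerivAt.pow 2
        simpa using this
      have h4 := h2.unique h3
      have h5 : fderiv ℝ (fun w : V => ‖w‖) v = ‖v‖⁻¹ • innerSL ℝ v := by
        have hv' : ‖v‖ ≠ 0 := norm_ne_zero_iff.2 hv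
        have h6 : (2 * ‖v‖) • fderiv ℝ (fun w : V => ‖w‖) v =
            (2 * ‖v‖) • (‖v‖⁻¹ • innerSL ℝ v) := by
          rw [← h4, smul_smul, mul_assoc, mul_inv_cancel₀ hv', mul_one]
          ext w; simp
        exact smul_right_injective _ (mul_ne_zero two_ne_zero hv') h6
      rw [← h5]
      exact h1.hasFDerivAt
    have h1 : HasFDerivAt (fun p : V × F => ((‖p.1‖, p.2) : ℝ × F))
        (((‖v‖⁻¹ • innerSL ℝ v).comp (ContinuousLinearMap.fst ℝ V F)).prod
          (ContinuousLinearMap.snd ℝ V F)) (v, y) :=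
      (HasFDerivAt.comp (v, y) (f := fun p : V × F => p.1) hn hasFDerivAt_fst).prodMk
        hasFDerivAt_snd
    have h2 := HasFDerivAt.comp (v, y) (g := u) (hu (‖v‖, y)).hasFDerivAt h1
    refine h2.congr_fderiv ?_
    have hv' : ‖v‖ ≠ 0 := norm_ne_zero_iff.2 hv
    refine ContinuousLinearMap.ext fun p => ?_
    obtain ⟨w, z⟩ := p
    show fderiv ℝ u (‖v‖, y) ((‖v‖⁻¹ • innerSL ℝ v) w, z) =
      (innerSL ℝ v w) • ũ (‖v‖, y) + fderiv ℝ u (‖v‖, y) (0, z)
    have h8 : (((‖v‖⁻¹ • innerSL ℝ v) w, z) : ℝ × F) =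
        (‖v‖⁻¹ * innerSL ℝ v w) • ((1, 0) : ℝ × F) + (0, z) := by simp
    rw [h8, map_add, map_smul, hũ, smul_smul, mul_assoc, mul_comm (innerSL ℝ v w), ← mul_assoc,
      inv_mul_cancel₀ hv', one_mul]

theorem even_contDiff_nat (n : ℕ) : ∀ (u : ℝ × F → G), ContDiff ℝ ∞ u →
    (∀ x y, u (-x, y) = u (x, y)) → ContDiff ℝ n fun p : V × F => u (‖p.1‖, p.2) := by
  induction n with
  | zero =>
    intro u hu he
    rw [Nat.cast_zero, contDiff_zero]
    exact hu.continuous.comp ((continuous_norm.comp continuous_fst).prodMk continuous_snd)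
  | succ n ih =>
    intro u hu he
    have hud : Differentiable ℝ u := hu.differentiable (by simp)
    have hu1 : ContDiff ℝ ∞ fun p => fderiv ℝ u p (1, 0) :=
      (hu.fderiv_right (m := ∞) (by simp)).clm_apply contDiff_const
    obtain ⟨ũ, hũ, hũ1, -⟩ := hadamard (fun p : ℝ × F => fderiv ℝ u p (1, 0)) hu1 (fun y => by
      have h1 := deriv_odd hud he 0 y 0 1
      rw [neg_zero] at h1
      have h2 : fderiv ℝ u (0, y) (-1, 0) = - fderiv ℝ u (0, y) (1, 0) := by
        rw [← map_neg]; simp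
      rw [h2] at h1
      have h3 : (2 : ℝ) • fderiv ℝ u (0, y) (1, 0) = 0 := by
        rw [two_smul]
        nth_rewrite 1 [h1]
        simp
      exact (smul_eq_zero.1 h3).resolve_left two_ne_zero)
    have hũe : ∀ x y, ũ (-x, y) = ũ (x, y) := by
      intro x y
      rcases eq_or_ne x 0 with rfl | hx
      · rw [neg_zero]
      · have h1 := hũ1 (-x) y
        have h2 := hũ1 x y
        have h3 := deriv_odd hud he x y 0 1
        have h4 : fderiv ℝ u (x, y) (-1, 0) = - fderiv ℝ u (x, y) (1, 0) := by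
          rw [← map_neg]; simp
        rw [h3, h4, h2, neg_smul, neg_inj] at h1
        exact (smul_right_injective _ hx h1).symm
    have key := fun (p : V × F) => even_hasFDerivAt (V := V) hud he (fun x y => hũ1 x y) p.1 p.2
    rw [Nat.cast_succ, contDiff_succ_iff_fderiv_apply]
    refine ⟨fun p => (key p).differentiableAt, by simp, fun q => ?_⟩
    have h1 : (fun p : V × F => fderiv ℝ (fun p : V × F => u (‖p.1‖, p.2)) p q) =
        fun p : V × F => (inner ℝ p.1 q.1 : ℝ) • ũ (‖p.1‖, p.2) +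
          fderiv ℝ u (‖p.1‖, p.2) (0, q.2) := by
      funext p
      rw [(key p).fderiv]
      rfl
    rw [h1]
    have h2 : ContDiff ℝ n fun p : V × F => ũ (‖p.1‖, p.2) := ih ũ hũ hũe
    have h3 : ContDiff ℝ n fun p : V × F => (fun z : ℝ × F => fderiv ℝ u z (0, q.2)) (‖p.1‖, p.2) := by
      refine ih _ ((hu.fderiv_right (m := ∞) (by simp)).clm_apply contDiff_const) fun x y => ?_
      rw [deriv_odd hud he, neg_zero]
    have h4 : ContDiff ℝ n fun p : V × F => (inner ℝ p.1 q.1 : ℝ) :=
      contDiff_fst.inner ℝ contDiff_const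
    exact (h4.smul h2).add h3

/-- **Even functions** extend to smooth rotation invariant functions. -/
theorem even_contDiff {u : ℝ × F → G} (hu : ContDiff ℝ ∞ u)
    (he : ∀ x y, u (-x, y) = u (x, y)) : ContDiff ℝ ∞ fun p : V × F => u (‖p.1‖, p.2) :=
  contDiff_infty.2 fun n => even_contDiff_nat n u hu he

end even

end Pool.Agent.H812
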