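import Pool.Agent.H812.Joint

/-!
Averages of a smooth action over a compact group are smooth.
-/

set_option autoImplicit false

namespace Pool.Agent.H812

open Topology Filter Metric Set MeasureTheory
open scoped ContDiff

universe u v w

section avg

variable {K : Type v} [Group K] [TopologicalSpace K] [IsTopologicalGroup K] [CompactSpace K]
  [T2Space K] [MeasurableSpace K] [BorelSpace K] (μ : Measure K) [IsFiniteMeasure μ]
  {F : Type w} [NormedAddCommGroup F] [NormedSpace ℝ F] [FiniteDimensional ℝ F]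

theorem integrable_of_cont {F' : Type*} [NormedAddCommGroup F'] [NormedSpace ℝ F']
    [FiniteDimensional ℝ F'] {f : K → F'} (hf : Continuous f) : Integrable f μ := by
  haveI : ProperSpace F' := FiniteDimensional.proper_real F'
  exact hf.integrable_of_hasCompactSupport (HasCompactSupport.of_compactSpace f)

theorem avg_hasFDerivAt {E : Type u} [NormedAddCommGroup E] [NormedSpace ℝ E]
    [FiniteDimensional ℝ E] {b : K → E → E} (h : IsSm b) {ρ : K → E →L[ℝ] F}
    (hρ : Continuous ρ) (x : E) :
    HasFDerivAt (fun y => ∫ k, ρ k (b k⁻¹ y) ∂μ)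
      (∫ k, (ρ k).comp (fderiv ℝ (b k⁻¹) x) ∂μ) x := by
  haveI : ProperSpace F := FiniteDimensional.proper_real F
  haveI : ProperSpace E := FiniteDimensional.proper_real E
  have hF : Continuous fun p : K × E => ρ p.1 (b p.1⁻¹ p.2) :=
    (hρ.comp continuous_fst).clm_apply
      (h.cont.comp ((continuous_inv.comp continuous_fst).prodMk continuous_snd))
  have hF' : Continuous fun p : K × E => (ρ p.1).comp (fderiv ℝ (b p.1⁻¹) p.2) :=
    (hρ.comp continuous_fst).clm_comp
      (h.continuous_fderiv.comp ((continuous_inv.comp continuous_fst).prodMk continuous_snd))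
  have hcomp : IsCompact ((univ : Set K) ×ˢ closedBall x 1) :=
    isCompact_univ.prod (isCompact_closedBall x 1)
  obtain ⟨C, hC⟩ := (hcomp.image hF'.norm).bddAbove
  refine hasFDerivAt_integral_of_dominated_of_fderiv_le (𝕜 := ℝ) (s := closedBall x 1)
    (bound := fun _ => C) (F := fun y k => ρ k (b k⁻¹ y))
    (F' := fun y k => (ρ k).comp (fderiv ℝ (b k⁻¹) y)) (closedBall_mem_nhds x one_pos) ?_ ?_ ?_
    ?_ ?_ ?_
  · refine Eventually.of_forall fun y => ?_
    exact (integrable_of_cont μ (hF.comp (continuous_id.prodMk continuous_const))).1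
  · exact integrable_of_cont μ (hF.comp (continuous_id.prodMk continuous_const))
  · exact (integrable_of_cont μ (hF'.comp (continuous_id.prodMk continuous_const))).1
  · refine Eventually.of_forall fun k y hy => ?_
    exact hC ⟨(k, y), ⟨mem_univ _, hy⟩, rfl⟩
  · exact integrable_const _
  · refine Eventually.of_forall fun k y _ => ?_
    exact (ρ k).hasFDerivAt.comp y (h.diff k⁻¹ y).hasFDerivAt

theorem avg_contDiff_nat (n : ℕ) : ∀ (E : Type u) [NormedAddCommGroup E] [NormedSpace ℝ E]
    [FiniteDimensional ℝ E] (b : K → E → E) (_ : IsSm b) (ρ : K → E →L[ℝ] F)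
    (_ : Continuous ρ), ContDiff ℝ n (fun y => ∫ k, ρ k (b k⁻¹ y) ∂μ) := by
  induction n with
  | zero =>
    intro E _ _ _ b h ρ hρ
    rw [Nat.cast_zero, contDiff_zero]
    exact Differentiable.continuous (𝕜 := ℝ)
      fun x => (avg_hasFDerivAt μ h hρ x).differentiableAt
  | succ n ih =>
    intro E _ _ _ b h ρ hρ
    rw [Nat.cast_succ, contDiff_succ_iff_fderiv_apply]
    refine ⟨fun x => (avg_hasFDerivAt μ h hρ x).differentiableAt, by simp, fun v => ?_⟩
    have h1 : (fun x => fderiv ℝ (fun y => ∫ k, ρ k (b k⁻¹ y) ∂μ) x v) =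
        (fun p : E × E => ∫ k, ((ρ k).comp (ContinuousLinearMap.snd ℝ E E)) (tan b k⁻¹ p) ∂μ) ∘
          fun x => (x, v) := by
      funext x
      rw [(avg_hasFDerivAt μ h hρ x).fderiv, ContinuousLinearMap.integral_apply]
      · rfl
      · exact integrable_of_cont μ (hρ.clm_comp
          (h.continuous_fderiv.comp (continuous_inv.prodMk continuous_const)))
    rw [h1]
    refine ContDiff.comp ?_ (contDiff_id.prodMk contDiff_const)
    exact ih (E × E) (tan b) h.tan (fun k => (ρ k).comp (ContinuousLinearMap.snd ℝ E E))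
      (hρ.clm_comp continuous_const)

theorem avg_contDiff {E : Type u} [NormedAddCommGroup E] [NormedSpace ℝ E]
    [FiniteDimensional ℝ E] {b : K → E → E} (h : IsSm b) {ρ : K → E →L[ℝ] F}
    (hρ : Continuous ρ) : ContDiff ℝ ∞ (fun y => ∫ k, ρ k (b k⁻¹ y) ∂μ) :=
  contDiff_infty.2 fun n => avg_contDiff_nat μ n E b h ρ hρ

end avg

section linearize

variable {K : Type v} [Group K] [TopologicalSpace K] [IsTopologicalGroup K] [CompactSpace K]
  [T2Space K]

/-- **Bochner's linearization**: near a fixed point a smooth action of a compact group is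
conjugate to its linear part by the germ of a global smooth map with derivative one. -/
theorem exists_linearization {E : Type u} [NormedAddCommGroup E] [NormedSpace ℝ E]
    [FiniteDimensional ℝ E] {b : K → E → E} (h : IsSm b) (h0 : ∀ k, b k 0 = 0) :
    ∃ φ : E → E, ContDiff ℝ ∞ φ ∧ φ 0 = 0 ∧ fderiv ℝ φ 0 = ContinuousLinearMap.id ℝ E ∧
      ∀ k x, φ (b k x) = fderiv ℝ (b k) 0 (φ x) := by
  letI : MeasurableSpace K := borel K
  haveI : BorelSpace K := ⟨rfl⟩
  set μ : Measure K := Measure.haarMeasure ⊤ with hμ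
  haveI : IsProbabilityMeasure μ := ⟨by
    rw [hμ, ← TopologicalSpace.PositiveCompacts.coe_top]
    exact Measure.haarMeasure_self⟩
  have hρ : Continuous fun k => fderiv ℝ (b k) 0 :=
    h.continuous_fderiv.comp (continuous_id.prodMk continuous_const)
  refine ⟨fun x => ∫ k, fderiv ℝ (b k) 0 (b k⁻¹ x) ∂μ, avg_contDiff μ h hρ, ?_, ?_, ?_⟩
  · simp [h0]
  · rw [(avg_hasFDerivAt μ h hρ 0).fderiv]
    have h1 : ∀ k : K, (fderiv ℝ (b k) 0).comp (fderiv ℝ (b k⁻¹) 0) =
        ContinuousLinearMap.id ℝ E := by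
      intro k
      have h2 := h.fderiv_mul k k⁻¹ 0
      rw [mul_inv_cancel, h.fderiv_one, h0] at h2
      exact h2.symm
    simp only [h1, integral_const, probReal_univ, one_smul]
  · intro k₀ x
    have h3 : ∀ k : K, fderiv ℝ (b (k₀ * k)) 0 = (fderiv ℝ (b k₀) 0).comp (fderiv ℝ (b k) 0) := by
      intro k
      rw [h.fderiv_mul, h0]
    have h4 : ∀ k : K, fderiv ℝ (b (k₀ * k)) 0 (b (k₀ * k)⁻¹ (b k₀ x)) =
        fderiv ℝ (b k₀) 0 (fderiv ℝ (b k) 0 (b k⁻¹ x)) := by
      intro k
      rw [h3, mul_inv_rev, h.mul, ← h.mul k₀⁻¹, inv_mul_cancel, h.one]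
      rfl
    show ∫ k, fderiv ℝ (b k) 0 (b k⁻¹ (b k₀ x)) ∂μ = _
    rw [← integral_mul_left_eq_self (μ := μ)
      (fun k => fderiv ℝ (b k) 0 (b k⁻¹ (b k₀ x))) k₀]
    simp only [h4]
    refine ContinuousLinearMap.integral_comp_comm _ ?_
    refine integrable_of_cont μ (hρ.clm_apply ?_)
    exact h.cont.comp (continuous_inv.prodMk continuous_const)

end linearize

end Pool.Agent.H812
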