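import Pool.Agent.H812.Gen

/-!
The standard action of `SL(n, ℝ)` on `ℝⁿ × F` and some elements of the group.
-/

set_option autoImplicit false

namespace Pool.Agent.H812

open Topology Filter Metric Set Matrix Matrix.SpecialLinearGroup

/-- Euclidean space -/
abbrev Vn (n : ℕ) := EuclideanSpace ℝ (Fin n)

/-- the special linear group -/
abbrev SLn (n : ℕ) := SpecialLinearGroup (Fin n) ℝ

variable {n : ℕ}

/-- matrices act on Euclidean space -/
noncomputable def mv (A : Matrix (Fin n) (Fin n) ℝ) : Vn n →L[ℝ] Vn n :=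
  Matrix.toEuclideanCLM (𝕜 := ℝ) A

theorem mv_apply (A : Matrix (Fin n) (Fin n) ℝ) (v : Vn n) (i : Fin n) :
    mv A v i = ∑ j, A i j * v j := rfl

theorem mv_mul (A B : Matrix (Fin n) (Fin n) ℝ) : mv (A * B) = (mv A).comp (mv B) :=
  map_mul (Matrix.toEuclideanCLM (𝕜 := ℝ) (n := Fin n)) A B

theorem mv_one : mv (1 : Matrix (Fin n) (Fin n) ℝ) = ContinuousLinearMap.id ℝ (Vn n) :=
  map_one (Matrix.toEuclideanCLM (𝕜 := ℝ) (n := Fin n))

theorem continuous_mv : Continuous (mv : Matrix (Fin n) (Fin n) ℝ → Vn n →L[ℝ] Vn n) := by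
  let f : Matrix (Fin n) (Fin n) ℝ →ₗ[ℝ] (Vn n →L[ℝ] Vn n) :=
    { toFun := mv
      map_add' := fun a b => map_add (Matrix.toEuclideanCLM (𝕜 := ℝ) (n := Fin n)) a b
      map_smul' := fun c a => map_smul (Matrix.toEuclideanCLM (𝕜 := ℝ) (n := Fin n)) c a }
  exact LinearMap.continuous_of_finiteDimensional f

/-- the basis vectors -/
noncomputable def ee (i : Fin n) : Vn n := EuclideanSpace.single i (1 : ℝ)

theorem ee_apply (i j : Fin n) : ee i j = if j = i then (1 : ℝ) else 0 := by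
  unfold ee
  rw [PiLp.single_apply]

theorem ee_same (i : Fin n) : ee i i = (1 : ℝ) := by rw [ee_apply, if_pos rfl]

theorem ee_ne {i j : Fin n} (h : j ≠ i) : ee i j = (0 : ℝ) := by rw [ee_apply, if_neg h]

theorem norm_ee (i : Fin n) : ‖ee i‖ = (1 : ℝ) := by
  unfold ee
  rw [PiLp.norm_single, norm_one]

theorem mv_ee (A : Matrix (Fin n) (Fin n) ℝ) (i j : Fin n) : mv A (ee j) i = A i j := by
  rw [mv_apply]
  simp only [ee_apply, mul_ite, mul_one, mul_zero, Finset.sum_ite_eq', Finset.mem_univ, if_true]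

theorem mv_diagonal (d : Fin n → ℝ) (v : Vn n) (i : Fin n) :
    mv (Matrix.diagonal d) v i = d i * v i := by
  rw [mv_apply]
  simp [Matrix.diagonal_apply]

theorem vext {v w : Vn n} (h : ∀ i, v i = w i) : v = w := by
  ext i; exact h i

theorem sum_ee (v : Vn n) : v = ∑ i, v i • ee i := by
  apply vext
  intro i
  simp [ee_apply]

section prod

variable {F : Type*} [NormedAddCommGroup F] [NormedSpace ℝ F]

/-- the linear action on `ℝⁿ × F`, trivial on `F` -/
noncomputable def LL (F : Type*) [NormedAddCommGroup F] [NormedSpace ℝ F]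
    (A : Matrix (Fin n) (Fin n) ℝ) : Vn n × F →L[ℝ] Vn n × F :=
  (mv A).prodMap (ContinuousLinearMap.id ℝ F)

theorem LL_apply (A : Matrix (Fin n) (Fin n) ℝ) (v : Vn n) (y : F) :
    LL F A (v, y) = (mv A v, y) := rfl

theorem LL_mul (A B : Matrix (Fin n) (Fin n) ℝ) : LL F (A * B) = (LL F A).comp (LL F B) := by
  ext p <;> simp [LL, mv_mul]

theorem LL_one : LL F (1 : Matrix (Fin n) (Fin n) ℝ) = ContinuousLinearMap.id ℝ (Vn n × F) := by
  ext p <;> simp [LL, mv_one]

theorem LL_zero_left (A : Matrix (Fin n) (Fin n) ℝ) (y : F) : LL F A (0, y) = (0, y) := by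
  rw [LL_apply, map_zero]

theorem continuous_LL : Continuous (LL F : Matrix (Fin n) (Fin n) ℝ → _) := by
  have h1 : (LL F : Matrix (Fin n) (Fin n) ℝ → _) = fun A =>
      (ContinuousLinearMap.inl ℝ (Vn n) F).comp
        ((mv A).comp (ContinuousLinearMap.fst ℝ (Vn n) F)) +
      (ContinuousLinearMap.inr ℝ (Vn n) F).comp (ContinuousLinearMap.snd ℝ (Vn n) F) := by
    funext A
    ext p <;> simp [LL]
  rw [h1]
  exact (continuous_const.clm_comp (continuous_mv.clm_comp continuous_const)).add continuous_const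

theorem prod_ext {W : Type*} [NormedAddCommGroup W] [NormedSpace ℝ W]
    {T T' : Vn n × F →L[ℝ] W} (h1 : ∀ i, T (ee i, 0) = T' (ee i, 0))
    (h2 : ∀ y, T (0, y) = T' (0, y)) : T = T' := by
  refine ContinuousLinearMap.ext fun p => ?_
  obtain ⟨v, y⟩ := p
  have h3 : ((v, y) : Vn n × F) = (∑ i, v i • ((ee i, 0) : Vn n × F)) + (0, y) := by
    refine Prod.ext ?_ ?_
    · rw [Prod.fst_add, Prod.fst_sum]
      simp only [Prod.smul_mk, add_zero]
      exact sum_ee v
    · rw [Prod.snd_add, Prod.snd_sum]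
      simp
  rw [h3, map_add, map_add, map_sum, map_sum, h2]
  congr 1
  refine Finset.sum_congr rfl fun i _ => ?_
  rw [map_smul, map_smul, h1]

end prod

section orth

theorem IsOrth.tmul {g : SLn n} (h : IsOrth g) : g.1ᵀ * g.1 = 1 :=
  mul_eq_one_comm.1 h

theorem IsOrth.norm {g : SLn n} (h : IsOrth g) (v : Vn n) : ‖mv g.1 v‖ = ‖v‖ := by
  have h1 : ‖mv g.1 v‖ ^ 2 = ‖v‖ ^ 2 := by
    rw [← real_inner_self_eq_norm_sq, ← real_inner_self_eq_norm_sq]
    have h2 : (inner ℝ (mv g.1 v) (mv g.1 v) : ℝ) = (mv g.1 v).ofLp ⬝ᵥ g.1 *ᵥ v.ofLp := by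
      unfold mv
      rw [inner_toEuclideanCLM]
    have h3 : (inner ℝ v v : ℝ) = v.ofLp ⬝ᵥ v.ofLp := by
      rw [EuclideanSpace.inner_eq_star_dotProduct]
      simp
    rw [h2, h3]
    show (g.1 *ᵥ v.ofLp) ⬝ᵥ g.1 *ᵥ v.ofLp = _
    rw [Matrix.dotProduct_mulVec, Matrix.vecMul_mulVec, h.tmul, Matrix.vecMul_one]
  have h4 := norm_nonneg (mv g.1 v)
  have h5 := norm_nonneg v
  nlinarith [sq_nonneg (‖mv g.1 v‖ - ‖v‖), sq_nonneg (‖mv g.1 v‖ + ‖v‖)]

theorem IsOrth.one : IsOrth (1 : SLn n) := by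
  unfold IsOrth
  simp

theorem IsOrth.mul {g h : SLn n} (hg : IsOrth g) (hh : IsOrth h) : IsOrth (g * h) := by
  unfold IsOrth at *
  rw [Matrix.SpecialLinearGroup.coe_mul, Matrix.transpose_mul, Matrix.mul_assoc,
    ← Matrix.mul_assoc h.1, hh, Matrix.one_mul, hg]

theorem IsOrth.inv {g : SLn n} (hg : IsOrth g) : IsOrth g⁻¹ := by
  have h1 : g⁻¹.1 = g.1ᵀ := by
    have h2 : g⁻¹.1 * g.1 = 1 := by
      rw [← Matrix.SpecialLinearGroup.coe_mul, inv_mul_cancel]; rfl
    calc g⁻¹.1 = g⁻¹.1 * (g.1 * g.1ᵀ) := by rw [hg, Matrix.mul_one]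
      _ = g.1ᵀ := by rw [← Matrix.mul_assoc, h2, Matrix.one_mul]
  unfold IsOrth
  rw [h1, Matrix.transpose_transpose]
  exact hg.tmul

/-- the special orthogonal group as a subgroup -/
def KK (n : ℕ) : Subgroup (SLn n) where
  carrier := {g | IsOrth g}
  mul_mem' := fun ha hb => IsOrth.mul ha hb
  one_mem' := IsOrth.one
  inv_mem' := fun ha => IsOrth.inv ha

theorem KK_closed : IsClosed ((KK n : Subgroup (SLn n)) : Set (SLn n)) := by
  have h1 : Continuous fun g : SLn n => g.1 := continuous_SL_iff.1 continuous_id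
  exact isClosed_eq (h1.matrix_mul h1.matrix_transpose) continuous_const

theorem entry_le {g : SLn n} (hg : IsOrth g) (i j : Fin n) : |g.1 i j| ≤ 1 := by
  have h1 : ∑ k, g.1 i k * g.1 i k = 1 := by
    have := congrFun (congrFun hg i) i
    rw [Matrix.mul_apply, Matrix.one_apply_eq] at this
    exact this
  have h2 : g.1 i j * g.1 i j ≤ ∑ k, g.1 i k * g.1 i k :=
    Finset.single_le_sum (f := fun k => g.1 i k * g.1 i k)
      (fun k _ => mul_self_nonneg _) (Finset.mem_univ j)
  rw [abs_le]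
  constructor <;> nlinarith

theorem KK_compact : IsCompact ((KK n : Subgroup (SLn n)) : Set (SLn n)) := by
  have h1 : IsClosedEmbedding (fun g : SLn n => g.1) := isClosedEmbedding_val
  rw [h1.isEmbedding.isInducing.isCompact_iff]
  have h2 : IsClosed ((fun g : SLn n => g.1) '' ((KK n : Subgroup (SLn n)) : Set (SLn n))) :=
    h1.isClosedMap _ KK_closed
  have h3 : IsCompact {M : Matrix (Fin n) (Fin n) ℝ | ∀ i j, |M i j| ≤ 1} := by
    have : {M : Matrix (Fin n) (Fin n) ℝ | ∀ i j, |M i j| ≤ 1} =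
        Set.pi univ fun _ : Fin n => Set.pi univ fun _ : Fin n => Icc (-1 : ℝ) 1 := by
      ext M
      constructor
      · intro h i _ j _
        exact abs_le.1 (h i j)
      · intro h i j
        exact abs_le.2 (h i (mem_univ _) j (mem_univ _))
    rw [this]
    exact isCompact_univ_pi fun _ => isCompact_univ_pi fun _ => isCompact_Icc
  refine h3.of_isClosed_subset h2 ?_
  rintro M ⟨g, hg, rfl⟩
  exact fun i j => entry_le hg i j

end orth

instance instLocallyCompactSLn : LocallyCompactSpace (SLn n) := by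
  have h1 : IsClosedEmbedding (fun g : SLn n => g.1) := isClosedEmbedding_val
  have : LocallyCompactSpace (Matrix (Fin n) (Fin n) ℝ) :=
    inferInstanceAs (LocallyCompactSpace (Fin n → Fin n → ℝ))
  exact h1.locallyCompactSpace

instance instT2SLn : T2Space (SLn n) := by
  have h1 : IsClosedEmbedding (fun g : SLn n => g.1) := isClosedEmbedding_val
  have : T2Space (Matrix (Fin n) (Fin n) ℝ) := inferInstanceAs (T2Space (Fin n → Fin n → ℝ))
  exact h1.isEmbedding.t2Space

instance instBaireSLn : BaireSpace (SLn n) := inferInstance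

section elements

/-- one-parameter groups of diagonal matrices -/
noncomputable def hh {i j : Fin n} (hij : i ≠ j) (t : ℝ) : SLn n :=
  diag2n hij (Real.exp t) (Real.exp_ne_zero t)

theorem hh_coe {i j : Fin n} (hij : i ≠ j) (t : ℝ) :
    (hh hij t).1 = Matrix.diagonal fun k => if k = i then Real.exp t else
      if k = j then (Real.exp t)⁻¹ else 1 := rfl

theorem hh_add {i j : Fin n} (hij : i ≠ j) (s t : ℝ) : hh hij (s + t) = hh hij s * hh hij t := by
  apply Subtype.ext
  rw [Matrix.SpecialLinearGroup.coe_mul, hh_coe, hh_coe, hh_coe, Matrix.diagonal_mul_diagonal]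
  congr 1
  funext k
  split_ifs
  · rw [Real.exp_add]
  · rw [Real.exp_add, mul_inv]
  · rw [one_mul]

theorem hh_zero {i j : Fin n} (hij : i ≠ j) : hh hij 0 = 1 := by
  have h := hh_add hij 0 0
  rw [add_zero] at h
  exact (left_eq_mul.1 h)

theorem hh_neg {i j : Fin n} (hij : i ≠ j) (t : ℝ) : hh hij (-t) = (hh hij t)⁻¹ := by
  rw [eq_inv_iff_mul_eq_one, ← hh_add, neg_add_cancel, hh_zero]

theorem hh_nsmul {i j : Fin n} (hij : i ≠ j) (t : ℝ) (k : ℕ) :
    hh hij (k * t) = (hh hij t) ^ k := by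
  induction k with
  | zero => simp [hh_zero]
  | succ k ih => rw [Nat.cast_succ, add_mul, one_mul, hh_add, ih, pow_succ]

theorem continuous_hh {i j : Fin n} (hij : i ≠ j) : Continuous (hh hij) := by
  rw [continuous_SL_iff]
  simp only [hh_coe]
  refine Continuous.matrix_diagonal (continuous_pi fun k => ?_)
  split_ifs
  · exact Real.continuous_exp
  · exact Real.continuous_exp.inv₀ Real.exp_ne_zero
  · exact continuous_const

theorem hh_log_two {i j : Fin n} (hij : i ≠ j) :
    hh hij (Real.log 2) = diag2n hij (2 : ℝ) two_ne_zero := by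
  apply Subtype.ext
  rw [hh_coe, diag2n_coe, Real.exp_log two_pos]

/-- sign changes of two coordinates -/
noncomputable def sg {i j : Fin n} (hij : i ≠ j) : SLn n := diag2n hij (-1 : ℝ) (by norm_num)

theorem sg_coe {i j : Fin n} (hij : i ≠ j) :
    (sg hij).1 = Matrix.diagonal fun k => if k = i ∨ k = j then (-1 : ℝ) else 1 := by
  unfold sg
  rw [diag2n_coe]
  congr 1
  funext k
  by_cases h1 : k = i
  · simp [h1]
  · by_cases h2 : k = j
    · simp [h1, h2, hij.symm]
    · simp [h1, h2]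

theorem sg_orth {i j : Fin n} (hij : i ≠ j) : IsOrth (sg hij) := by
  unfold IsOrth
  rw [sg_coe, Matrix.diagonal_transpose, Matrix.diagonal_mul_diagonal]
  rw [← Matrix.diagonal_one]
  congr 1
  funext k
  split_ifs <;> norm_num

/-- the quarter turn `e_i ↦ e_j ↦ -e_i` -/
noncomputable def wt {i j : Fin n} (hij : i ≠ j) : SLn n :=
  emb hij (rot2 0 1 (by norm_num))

theorem wt_orth {i j : Fin n} (hij : i ≠ j) : IsOrth (wt hij) := rot2_orth _ _ _ hij

theorem wt_hh {i j : Fin n} (hij : i ≠ j) (t : ℝ) : wt hij * hh hij t = hh hij (-t) * wt hij := by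
  have h1 : rot2 0 1 (by norm_num) * diag2 (Real.exp t) (Real.exp_ne_zero t) =
      diag2 (Real.exp (-t)) (Real.exp_ne_zero (-t)) * rot2 0 1 (by norm_num) := by
    apply Subtype.ext
    rw [Matrix.SpecialLinearGroup.coe_mul, Matrix.SpecialLinearGroup.coe_mul, diag2_coe',
      diag2_coe']
    ext p q
    fin_cases p <;> fin_cases q <;> simp [rot2, Real.exp_neg]
  have h2 := congrArg (emb hij) h1
  rw [map_mul, map_mul, emb_diag2, emb_diag2] at h2
  exact h2

theorem diagonal_comm {g h : SLn n} {c d : Fin n → ℝ} (hg : g.1 = Matrix.diagonal c)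
    (hh : h.1 = Matrix.diagonal d) : g * h = h * g := by
  apply Subtype.ext
  rw [Matrix.SpecialLinearGroup.coe_mul, Matrix.SpecialLinearGroup.coe_mul, hg, hh,
    Matrix.diagonal_mul_diagonal, Matrix.diagonal_mul_diagonal]
  congr 1
  funext k
  exact mul_comm _ _

theorem mv_wt_i {i j : Fin n} (hij : i ≠ j) : mv (wt hij).1 (ee i) = ee j := by
  apply vext
  intro k
  rw [mv_ee, wt, emb_coe, embM_apply, ee_apply]
  by_cases h1 : k = i
  · subst h1; simp [rot2, hij]
  · by_cases h2 : k = j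
    · subst h2; simp [rot2, hij]
    · simp [rot2, h1, h2]

theorem mv_wt_j {i j : Fin n} (hij : i ≠ j) : mv (wt hij).1 (ee j) = -ee i := by
  apply vext
  intro k
  rw [mv_ee, wt, emb_coe, embM_apply]
  show _ = - (ee i k)
  rw [ee_apply]
  by_cases h1 : k = i
  · subst h1; simp [rot2, hij, hij.symm]
  · by_cases h2 : k = j
    · subst h2; simp [rot2, hij, hij.symm]
    · simp [rot2, h1, h2]

theorem mv_wt_k {i j k : Fin n} (hij : i ≠ j) (hi : k ≠ i) (hj : k ≠ j) :
    mv (wt hij).1 (ee k) = ee k := by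
  apply vext
  intro l
  rw [mv_ee, wt, emb_coe, embM_apply, ee_apply]
  simp [hi, hj]

end elements

end Pool.Agent.H812
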