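import Mathlib

/-!
Germs of smooth maps with derivative one are germs of global diffeomorphisms.
-/

set_option autoImplicit false

namespace Pool.Agent.H812

open Topology Filter Metric Set
open scoped ContDiff NNReal

variable {E : Type*} [NormedAddCommGroup E] [NormedSpace ℝ E] [FiniteDimensional ℝ E]

theorem exists_cutoff (u : E → E) (hu : ContDiff ℝ ∞ u) (h0 : u 0 = 0) (h1 : fderiv ℝ u 0 = 0)
    {c : ℝ} (hc : 0 < c) :
    ∃ w : E → E, ContDiff ℝ ∞ w ∧ (∀ᶠ x in 𝓝 0, w x = u x) ∧ ∀ x, ‖fderiv ℝ w x‖ ≤ c := by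
  let B : ContDiffBump (0 : E) := ⟨1, 2, one_pos, one_lt_two⟩
  have hB : ContDiff ℝ ∞ B := B.contDiff
  have hB1 : Continuous (fderiv ℝ B) := hB.continuous_fderiv (by simp)
  have hB2 : HasCompactSupport (fderiv ℝ B) := B.hasCompactSupport.fderiv (𝕜 := ℝ)
  obtain ⟨C, hC⟩ := hB1.bounded_above_of_compact_support hB2
  have hC0 : 0 ≤ C := (norm_nonneg _).trans (hC 0)
  set ε : ℝ := c / (1 + 2 * C) with hε
  have hε0 : 0 < ε := by positivity
  have hu1 : Continuous (fderiv ℝ u) := hu.continuous_fderiv (by simp)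
  have hud : Differentiable ℝ u := hu.differentiable (by simp)
  obtain ⟨δ, hδ, hδ'⟩ := Metric.continuousAt_iff.1 hu1.continuousAt ε hε0
  set r : ℝ := δ / 4 with hr
  have hr0 : 0 < r := by positivity
  have hdu : ∀ x, ‖x‖ ≤ 2 * r → ‖fderiv ℝ u x‖ ≤ ε := by
    intro x hx
    have h2 : dist x 0 < δ := by rw [dist_zero_right]; linarith
    have h3 := hδ' h2
    rw [h1, dist_zero_right] at h3
    exact h3.le
  have huu : ∀ x, ‖x‖ ≤ 2 * r → ‖u x‖ ≤ ε * (2 * r) := by
    intro x hx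
    have h2 := Convex.norm_image_sub_le_of_norm_fderiv_le (𝕜 := ℝ) (f := u) (C := ε)
      (s := closedBall (0 : E) (2 * r)) (x := 0) (y := x) (fun z _ => hud z)
      (fun z hz => hdu z (mem_closedBall_zero_iff.1 hz)) (convex_closedBall _ _)
      (mem_closedBall_self (by positivity)) (mem_closedBall_zero_iff.2 hx)
    rw [h0, sub_zero, sub_zero] at h2
    exact h2.trans (mul_le_mul_of_nonneg_left hx hε0.le)
  refine ⟨fun x => B (r⁻¹ • x) • u x, ?_, ?_, ?_⟩
  · exact (hB.comp (contDiff_const_smul _)).smul hu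
  · have h2 : ∀ᶠ x : E in 𝓝 0, ‖x‖ < r := by
      have := (continuous_norm (E := E)).tendsto 0
      rw [norm_zero] at this
      exact this.eventually (gt_mem_nhds hr0)
    filter_upwards [h2] with x hx
    have h3 : B (r⁻¹ • x) = 1 := by
      apply B.one_of_mem_closedBall
      rw [mem_closedBall_zero_iff, norm_smul, norm_inv, Real.norm_eq_abs, abs_of_pos hr0]
      show r⁻¹ * ‖x‖ ≤ 1
      rw [inv_mul_le_iff₀ hr0]
      linarith
    rw [h3, one_smul]
  · intro x
    have h2 : HasFDerivAt (fun x : E => B (r⁻¹ • x))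
        ((fderiv ℝ B (r⁻¹ • x)).comp (r⁻¹ • ContinuousLinearMap.id ℝ E)) x := by
      have h3 : HasFDerivAt (fun x : E => r⁻¹ • x) (r⁻¹ • ContinuousLinearMap.id ℝ E) x :=
        (hasFDerivAt_id x).const_smul _
      exact ((hB.differentiable (by simp)) (r⁻¹ • x)).hasFDerivAt.comp x h3
    have h4 := (h2.smul (hud x).hasFDerivAt).fderiv
    have h5 : fderiv ℝ (fun x => B (r⁻¹ • x) • u x) x = B (r⁻¹ • x) • fderiv ℝ u x +
      ((fderiv ℝ B (r⁻¹ • x)).comp (r⁻¹ • ContinuousLinearMap.id ℝ E)).smulRight (u x) := h4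
    rw [h5]
    by_cases hx : ‖x‖ ≤ 2 * r
    · have h6 : ‖B (r⁻¹ • x) • fderiv ℝ u x‖ ≤ ε := by
        rw [norm_smul, Real.norm_eq_abs, abs_of_nonneg B.nonneg]
        calc B (r⁻¹ • x) * ‖fderiv ℝ u x‖ ≤ 1 * ‖fderiv ℝ u x‖ :=
              mul_le_mul_of_nonneg_right B.le_one (norm_nonneg _)
          _ ≤ ε := by rw [one_mul]; exact hdu x hx
      have h7 : ‖((fderiv ℝ B (r⁻¹ • x)).comp (r⁻¹ • ContinuousLinearMap.id ℝ E)).smulRight
          (u x)‖ ≤ 2 * C * ε := by
        rw [ContinuousLinearMap.norm_smulRight_apply]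
        have h8 : ‖(fderiv ℝ B (r⁻¹ • x)).comp (r⁻¹ • ContinuousLinearMap.id ℝ E)‖ ≤
            C * r⁻¹ := by
          refine (ContinuousLinearMap.opNorm_comp_le _ _).trans ?_
          refine mul_le_mul (hC _) ?_ (norm_nonneg _) hC0
          rw [norm_smul, norm_inv, Real.norm_eq_abs, abs_of_pos hr0]
          calc r⁻¹ * ‖ContinuousLinearMap.id ℝ E‖ ≤ r⁻¹ * 1 :=
                mul_le_mul_of_nonneg_left ContinuousLinearMap.norm_id_le (by positivity)
            _ = r⁻¹ := mul_one _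
        calc _ ≤ C * r⁻¹ * (ε * (2 * r)) :=
              mul_le_mul h8 (huu x hx) (norm_nonneg _) (by positivity)
          _ = 2 * C * ε := by field_simp
      refine (norm_add_le _ _).trans ((add_le_add h6 h7).trans (le_of_eq ?_))
      rw [hε]
      field_simp
    · push Not at hx
      have h6 : ∀ᶠ z : E in 𝓝 (r⁻¹ • x), B z = 0 := by
        have h7 : 2 < ‖r⁻¹ • x‖ := by
          rw [norm_smul, norm_inv, Real.norm_eq_abs, abs_of_pos hr0, lt_inv_mul_iff₀ hr0]
          linarith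
        filter_upwards [(continuous_norm.tendsto (r⁻¹ • x)).eventually (lt_mem_nhds h7)] with z hz
        apply B.zero_of_le_dist
        rw [dist_zero_right]
        exact hz.le
      have h8 : fderiv ℝ B (r⁻¹ • x) = 0 := by
        have h9 : (B : E → ℝ) =ᶠ[𝓝 (r⁻¹ • x)] fun _ => 0 := h6
        rw [h9.fderiv_eq]
        simp
      rw [h8, h6.self_of_nhds]
      simp [hc.le]

theorem exists_global_diffeo (f : E → E) (hf : ContDiff ℝ ∞ f) (h0 : f 0 = 0)
    (h1 : fderiv ℝ f 0 = ContinuousLinearMap.id ℝ E) :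
    ∃ Φ : E ≃ₜ E, ContDiff ℝ ∞ Φ ∧ ContDiff ℝ ∞ Φ.symm ∧ ∀ᶠ x in 𝓝 0, Φ x = f x := by
  have hfd : Differentiable ℝ f := hf.differentiable (by simp)
  obtain ⟨w, hw, hwu, hwd⟩ := exists_cutoff (fun x => f x - x) (hf.sub contDiff_id)
    (by simp [h0]) (by
      have := (hfd 0).hasFDerivAt.sub (hasFDerivAt_id (𝕜 := ℝ) (0 : E))
      rw [h1, sub_self] at this
      exact this.fderiv) (show (0 : ℝ) < 1 / 2 by norm_num)
  have hwdiff : Differentiable ℝ w := hw.differentiable (by simp)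
  have hlip : LipschitzWith (1 / 2) w := by
    apply lipschitzWith_of_nnnorm_fderiv_le (𝕜 := ℝ) hwdiff
    intro x
    rw [← NNReal.coe_le_coe]
    simpa using hwd x
  have happ : ApproximatesLinearOn (fun x => x + w x)
      ((ContinuousLinearEquiv.refl ℝ E : E ≃L[ℝ] E) : E →L[ℝ] E) univ (1 / 2) := by
    intro x _ y _
    have := hlip.dist_le_mul x y
    rw [dist_eq_norm, dist_eq_norm] at this
    have h2 : x + w x - (y + w y) -
        ((ContinuousLinearEquiv.refl ℝ E : E ≃L[ℝ] E) : E →L[ℝ] E) (x - y) = w x - w y := by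
      show x + w x - (y + w y) - (x - y) = w x - w y
      abel
    show ‖x + w x - (y + w y) -
        ((ContinuousLinearEquiv.refl ℝ E : E ≃L[ℝ] E) : E →L[ℝ] E) (x - y)‖ ≤ _
    rw [h2]
    exact this
  have hcond : Subsingleton E ∨ (1 / 2 : ℝ≥0) <
      ‖((ContinuousLinearEquiv.refl ℝ E : E ≃L[ℝ] E).symm : E →L[ℝ] E)‖₊⁻¹ := by
    rcases subsingleton_or_nontrivial E with h | h
    · exact Or.inl h
    · right
      have h3 : ‖((ContinuousLinearEquiv.refl ℝ E : E ≃L[ℝ] E).symm : E →L[ℝ] E)‖₊ = 1 := by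
        rw [← NNReal.coe_inj, coe_nnnorm]
        exact ContinuousLinearMap.norm_id
      rw [h3, inv_one]
      rw [← NNReal.coe_lt_coe]
      norm_num
  let Φ : E ≃ₜ E := happ.toHomeomorph _ hcond
  have hΦ : ∀ x, Φ x = x + w x := fun x => rfl
  have hΦ' : ContDiff ℝ ∞ Φ := contDiff_id.add hw
  have hinj : ∀ x, Function.Injective (ContinuousLinearMap.id ℝ E + fderiv ℝ w x) := by
    intro x
    rw [injective_iff_map_eq_zero]
    intro v hv
    have h4 : v + fderiv ℝ w x v = 0 := hv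
    have h5 : ‖v‖ ≤ 1 / 2 * ‖v‖ := by
      have h6 : v = - fderiv ℝ w x v := eq_neg_of_add_eq_zero_left h4
      calc ‖v‖ = ‖fderiv ℝ w x v‖ := by conv_lhs => rw [h6, norm_neg]
        _ ≤ ‖fderiv ℝ w x‖ * ‖v‖ := ContinuousLinearMap.le_opNorm _ _
        _ ≤ 1 / 2 * ‖v‖ := mul_le_mul_of_nonneg_right (hwd x) (norm_nonneg _)
    have h7 : ‖v‖ ≤ 0 := by linarith
    exact norm_le_zero_iff.1 h7
  let T : E → (E ≃L[ℝ] E) := fun x =>
    (LinearEquiv.ofInjectiveEndo ((ContinuousLinearMap.id ℝ E + fderiv ℝ w x : E →L[ℝ] E) :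
      E →ₗ[ℝ] E) (hinj x)).toContinuousLinearEquiv
  have hT : ∀ x, HasFDerivAt Φ (T x : E →L[ℝ] E) x := by
    intro x
    have h8 : ((T x : E ≃L[ℝ] E) : E →L[ℝ] E) = ContinuousLinearMap.id ℝ E + fderiv ℝ w x := by
      ext v; rfl
    rw [h8]
    exact (hasFDerivAt_id x).add (hwdiff x).hasFDerivAt
  refine ⟨Φ, hΦ', Φ.contDiff_symm hT hΦ', ?_⟩
  filter_upwards [hwu] with x hx
  rw [hΦ, hx]
  abel

end Pool.Agent.H812
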