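import Mathlib

/-!
Smooth maps that contract one factor and fix the other one: the limit of the second component of
the iterates is smooth.
-/

set_option autoImplicit false

namespace Pool.Agent.H812

open Topology Filter Metric Set
open scoped ContDiff

universe u v

section cls

variable {X : Type u} {Y : Type v} [NormedAddCommGroup X] [NormedSpace ℝ X]
  [NormedAddCommGroup Y] [NormedSpace ℝ Y]

/-- smooth maps which fix `0 × Y` and whose derivative in the direction of `X` there is `κ`,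
up to terms in the direction of `Y` -/
structure Cls (κ : ℝ) (g : X × Y → X × Y) : Prop where
  smooth : ContDiff ℝ ∞ g
  fix : ∀ y, g (0, y) = (0, y)
  lin : ∀ y ξ, (fderiv ℝ g (0, y) (ξ, 0)).1 = κ • ξ

/-- the tangent map, with reordered variables -/
noncomputable def TT (g : X × Y → X × Y) (p : (X × X) × (Y × Y)) : (X × X) × (Y × Y) :=
  (((g (p.1.1, p.2.1)).1, (fderiv ℝ g (p.1.1, p.2.1) (p.1.2, p.2.2)).1),
    ((g (p.1.1, p.2.1)).2, (fderiv ℝ g (p.1.1, p.2.1) (p.1.2, p.2.2)).2))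

variable {κ : ℝ} {g : X × Y → X × Y}

theorem Cls.diff (h : Cls κ g) : Differentiable ℝ g := h.smooth.differentiable (by simp)

theorem Cls.fderiv_vert (h : Cls κ g) (y η : Y) : fderiv ℝ g (0, y) (0, η) = (0, η) := by
  have h1 : HasFDerivAt (fun y : Y => ((0, y) : X × Y)) (ContinuousLinearMap.inr ℝ X Y) y :=
    hasFDerivAt_prodMk_right 0 y
  have h2 := (h.diff (0, y)).hasFDerivAt.comp y h1
  have h3 : (g ∘ fun y : Y => ((0, y) : X × Y)) = fun y : Y => ((0, y) : X × Y) := by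
    funext y; exact h.fix y
  rw [h3] at h2
  have h4 := h1.unique h2
  have h5 := DFunLike.congr_fun h4 η
  exact h5.symm

theorem Cls.TT_fix (h : Cls κ g) (q : Y × Y) : TT g (0, q) = (0, q) := by
  unfold TT
  simp only [Prod.fst_zero, Prod.snd_zero]
  rw [h.fix, h.fderiv_vert]
  rfl

theorem Cls.TT_smooth (h : Cls κ g) : ContDiff ℝ ∞ (TT g) := by
  have h1 : ContDiff ℝ ∞ fun p : (X × X) × (Y × Y) => ((p.1.1, p.2.1) : X × Y) := by fun_prop
  have h2 : ContDiff ℝ ∞ fun p : (X × X) × (Y × Y) => ((p.1.2, p.2.2) : X × Y) := by fun_prop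
  have h3 : ContDiff ℝ ∞ fun p : (X × X) × (Y × Y) => g (p.1.1, p.2.1) := h.smooth.comp h1
  have h4 : ContDiff ℝ ∞ fun p : (X × X) × (Y × Y) =>
      fderiv ℝ g (p.1.1, p.2.1) (p.1.2, p.2.2) :=
    ((h.smooth.fderiv_right (m := ∞) (by simp)).comp h1).clm_apply h2
  exact (h3.fst.prodMk h4.fst).prodMk (h3.snd.prodMk h4.snd)

theorem Cls.second (h : Cls κ g) (y η : Y) (ξ : X) :
    (fderiv ℝ (fderiv ℝ g) (0, y) (ξ, 0) (0, η)).1 = 0 := by
  have hsym : IsSymmSndFDerivAt ℝ g (0, y) :=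
    (h.smooth.contDiffAt).isSymmSndFDerivAt (by
      rw [minSmoothness_of_isRCLikeNormedField]
      exact WithTop.coe_le_coe.2 le_top)
  rw [hsym (ξ, 0) (0, η)]
  have hd : Differentiable ℝ (fderiv ℝ g) :=
    (h.smooth.fderiv_right (m := ∞) (by simp)).differentiable (by simp)
  have h1 : HasFDerivAt (fun y : Y => ((0, y) : X × Y)) (ContinuousLinearMap.inr ℝ X Y) y :=
    hasFDerivAt_prodMk_right 0 y
  have h2 := (hd (0, y)).hasFDerivAt.comp y h1
  have h3 : HasFDerivAt (fun y : Y => (fderiv ℝ g (0, y) (ξ, 0)).1)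
      ((ContinuousLinearMap.fst ℝ X Y).comp ((ContinuousLinearMap.apply ℝ (X × Y) (ξ, 0)).comp
        ((fderiv ℝ (fderiv ℝ g) (0, y)).comp (ContinuousLinearMap.inr ℝ X Y)))) y :=
    (ContinuousLinearMap.fst ℝ X Y).hasFDerivAt.comp y
      ((ContinuousLinearMap.apply ℝ (X × Y) ((ξ, 0) : X × Y)).hasFDerivAt.comp y h2)
  have h4 : (fun y : Y => (fderiv ℝ g (0, y) (ξ, 0)).1) = fun _ => κ • ξ := by
    funext y; exact h.lin y ξ
  rw [h4] at h3
  have h5 := h3.unique (hasFDerivAt_const (κ • ξ) y)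
  exact DFunLike.congr_fun h5 η

theorem Cls.TT (h : Cls κ g) : Cls κ (TT g) where
  smooth := h.TT_smooth
  fix := h.TT_fix
  lin := by
    rintro ⟨y, η⟩ ⟨ξ, ξ'⟩
    have hz : HasFDerivAt (fun p : (X × X) × (Y × Y) => ((p.1.1, p.2.1) : X × Y))
        (((ContinuousLinearMap.fst ℝ X X).comp (ContinuousLinearMap.fst ℝ (X × X) (Y × Y))).prod
          ((ContinuousLinearMap.fst ℝ Y Y).comp (ContinuousLinearMap.snd ℝ (X × X) (Y × Y))))
        (0, (y, η)) :=
      ((((ContinuousLinearMap.fst ℝ X X).comp (ContinuousLinearMap.fst ℝ (X × X) (Y × Y))).prod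
          ((ContinuousLinearMap.fst ℝ Y Y).comp (ContinuousLinearMap.snd ℝ (X × X) (Y × Y)))) :
          (X × X) × (Y × Y) →L[ℝ] X × Y).hasFDerivAt
    have hv : HasFDerivAt (fun p : (X × X) × (Y × Y) => ((p.1.2, p.2.2) : X × Y))
        (((ContinuousLinearMap.snd ℝ X X).comp (ContinuousLinearMap.fst ℝ (X × X) (Y × Y))).prod
          ((ContinuousLinearMap.snd ℝ Y Y).comp (ContinuousLinearMap.snd ℝ (X × X) (Y × Y))))
        (0, (y, η)) :=
      ((((ContinuousLinearMap.snd ℝ X X).comp (ContinuousLinearMap.fst ℝ (X × X) (Y × Y))).prod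
          ((ContinuousLinearMap.snd ℝ Y Y).comp (ContinuousLinearMap.snd ℝ (X × X) (Y × Y)))) :
          (X × X) × (Y × Y) →L[ℝ] X × Y).hasFDerivAt
    have hd : Differentiable ℝ (fderiv ℝ g) :=
      (h.smooth.fderiv_right (m := ∞) (by simp)).differentiable (by simp)
    have h1 := HasFDerivAt.comp (g := g) ((0, (y, η)) : (X × X) × (Y × Y))
      (h.diff _).hasFDerivAt hz
    have h2 := HasFDerivAt.comp (g := fderiv ℝ g) ((0, (y, η)) : (X × X) × (Y × Y))
      (hd _).hasFDerivAt hz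
    have h3 := h2.clm_apply hv
    have h4 := (h1.fst.prodMk h3.fst).prodMk (h1.snd.prodMk h3.snd)
    have h5 : fderiv ℝ (H812.TT g) (0, (y, η)) = _ := h4.fderiv
    rw [h5]
    have h6 := h.second y η ξ
    have h7 := h.lin y ξ
    have h8 := h.lin y ξ'
    show ((fderiv ℝ g (0, y) (ξ, 0)).1, (fderiv ℝ g (0, y) (ξ', 0) +
      fderiv ℝ (fderiv ℝ g) (0, y) (ξ, 0) (0, η)).1) = κ • ((ξ, ξ') : X × X)
    rw [Prod.fst_add, h6, h7, h8, add_zero]
    rfl

theorem Cls.iterate_smooth (h : Cls κ g) (i : ℕ) : ContDiff ℝ ∞ g^[i] := by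
  induction i with
  | zero => exact contDiff_id
  | succ i ih => rw [Function.iterate_succ']; exact h.smooth.comp ih

theorem Cls.iterate_TT (h : Cls κ g) (i : ℕ) (x x' : X) (y y' : Y) :
    (H812.TT g)^[i] ((x, x'), (y, y')) =
      (((g^[i] (x, y)).1, (fderiv ℝ (g^[i]) (x, y) (x', y')).1),
        ((g^[i] (x, y)).2, (fderiv ℝ (g^[i]) (x, y) (x', y')).2)) := by
  induction i with
  | zero =>
    simp only [Function.iterate_zero, id_eq]
    have : fderiv ℝ (id : X × Y → X × Y) (x, y) = ContinuousLinearMap.id ℝ (X × Y) := fderiv_id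
    rw [this]
    rfl
  | succ i ih =>
    rw [Function.iterate_succ_apply', ih, Function.iterate_succ']
    have h1 : fderiv ℝ (g ∘ g^[i]) (x, y) =
        (fderiv ℝ g (g^[i] (x, y))).comp (fderiv ℝ g^[i] (x, y)) :=
      fderiv_comp _ (h.diff _) ((h.iterate_smooth i).differentiable (by simp) _)
    rw [h1]
    rfl

/-- local estimates -/
theorem Cls.local_est (h : Cls κ g) (hκ0 : 0 ≤ κ) (hκ : κ < 1) (y₀ : Y) :
    ∃ r > 0, ∃ C : ℝ, 0 ≤ C ∧ ∃ ν : ℝ, 0 ≤ ν ∧ ν < 1 ∧ ∀ z ∈ ball ((0, y₀) : X × Y) r, ∀ i : ℕ,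
      ‖(g^[i] z).1‖ ≤ C * ν ^ i ∧ ‖(g^[i + 1] z).2 - (g^[i] z).2‖ ≤ C * ν ^ i := by
  set ε : ℝ := (1 - κ) / 2 with hε
  have hε0 : 0 < ε := by rw [hε]; linarith
  set ν : ℝ := (1 + κ) / 2 with hν
  have hν0 : 0 ≤ ν := by rw [hν]; linarith
  have hν1 : ν < 1 := by rw [hν]; linarith
  have hκν : κ + ε = ν := by rw [hε, hν]; ring
  have hcont : Continuous (fderiv ℝ g) := h.smooth.continuous_fderiv (by simp)
  -- operators
  set P : (X × Y →L[ℝ] X × Y) → (X →L[ℝ] X) := fun T =>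
    (ContinuousLinearMap.fst ℝ X Y).comp (T.comp (ContinuousLinearMap.inl ℝ X Y)) with hP
  have hPc : Continuous P := by
    rw [hP]
    exact continuous_const.clm_comp (continuous_id.clm_comp continuous_const)
  have hP0 : P (fderiv ℝ g (0, y₀)) = κ • ContinuousLinearMap.id ℝ X := by
    ext ξ
    exact h.lin y₀ ξ
  have h1 : ∀ᶠ z in 𝓝 ((0, y₀) : X × Y), ‖P (fderiv ℝ g z) - κ • ContinuousLinearMap.id ℝ X‖ < ε := by
    have h2 : Continuous fun z => ‖P (fderiv ℝ g z) - κ • ContinuousLinearMap.id ℝ X‖ :=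
      ((hPc.comp hcont).sub continuous_const).norm
    have h3 := h2.tendsto ((0, y₀) : X × Y)
    rw [hP0, sub_self, norm_zero] at h3
    exact h3.eventually (gt_mem_nhds hε0)
  have h2 : ∀ᶠ z in 𝓝 ((0, y₀) : X × Y), ‖fderiv ℝ g z‖ < ‖fderiv ℝ g (0, y₀)‖ + 1 :=
    (hcont.norm.tendsto _).eventually (gt_mem_nhds (lt_add_one _))
  obtain ⟨ρ, hρ, hball⟩ := Metric.eventually_nhds_iff_ball.1 (h1.and h2)
  set C₀ : ℝ := ‖fderiv ℝ g (0, y₀)‖ + 1 with hC₀
  have hC₀0 : 0 < C₀ := by positivity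
  -- one step
  have step : ∀ z ∈ ball ((0, y₀) : X × Y) ρ, ‖(g z).1‖ ≤ ν * ‖z.1‖ ∧
      ‖(g z).2 - z.2‖ ≤ C₀ * ‖z.1‖ := by
    rintro ⟨x, y⟩ hz
    rw [mem_ball, Prod.dist_eq, max_lt_iff, dist_zero_right] at hz
    simp only at hz
    have hseg : ∀ w ∈ ball (0 : X) ρ, ((w, y) : X × Y) ∈ ball ((0, y₀) : X × Y) ρ := by
      intro w hw
      rw [mem_ball, Prod.dist_eq, max_lt_iff]
      exact ⟨hw, hz.2⟩
    have hd : ∀ w, HasFDerivAt (fun w : X => g (w, y))
        ((fderiv ℝ g (w, y)).comp (ContinuousLinearMap.inl ℝ X Y)) w := by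
      intro w
      exact (h.diff (w, y)).hasFDerivAt.comp w (hasFDerivAt_prodMk_left w y)
    have hx0 : (0 : X) ∈ ball (0 : X) ρ := mem_ball_self hρ
    have hx1 : x ∈ ball (0 : X) ρ := by rw [mem_ball_zero_iff]; exact hz.1
    constructor
    · have h5 : ∀ w ∈ ball (0 : X) ρ, HasFDerivWithinAt (fun w : X => (g (w, y)).1)
          (P (fderiv ℝ g (w, y))) (ball (0 : X) ρ) w := by
        intro w _
        exact ((ContinuousLinearMap.fst ℝ X Y).hasFDerivAt.comp w (hd w)).hasFDerivWithinAt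
      have h6 := Convex.norm_image_sub_le_of_norm_hasFDerivWithin_le' (𝕜 := ℝ)
        (φ := κ • ContinuousLinearMap.id ℝ X) (C := ε) h5
        (fun w hw => (hball _ (hseg w hw)).1.le) (convex_ball _ _) hx0 hx1
      rw [h.fix] at h6
      simp only [sub_zero] at h6
      calc ‖(g (x, y)).1‖ = ‖((g (x, y)).1 - (κ • ContinuousLinearMap.id ℝ X) x) + κ • x‖ := by
            congr 1
            show _ = ((g (x, y)).1 - κ • x) + κ • x
            abel
        _ ≤ ε * ‖x‖ + κ * ‖x‖ := by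
            refine (norm_add_le _ _).trans (add_le_add h6 ?_)
            rw [norm_smul, Real.norm_eq_abs, abs_of_nonneg hκ0]
        _ = ν * ‖x‖ := by rw [← hκν]; ring
    · have h5 : ∀ w ∈ ball (0 : X) ρ, HasFDerivWithinAt (fun w : X => (g (w, y)).2)
          ((ContinuousLinearMap.snd ℝ X Y).comp
            ((fderiv ℝ g (w, y)).comp (ContinuousLinearMap.inl ℝ X Y))) (ball (0 : X) ρ) w := by
        intro w _
        exact ((ContinuousLinearMap.snd ℝ X Y).hasFDerivAt.comp w (hd w)).hasFDerivWithinAt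
      have h6 := Convex.norm_image_sub_le_of_norm_hasFDerivWithin_le (𝕜 := ℝ)
        (C := C₀) h5 (fun w hw => by
          refine (ContinuousLinearMap.opNorm_comp_le _ _).trans ?_
          have h7 : ‖(fderiv ℝ g (w, y)).comp (ContinuousLinearMap.inl ℝ X Y)‖ ≤ C₀ := by
            refine (ContinuousLinearMap.opNorm_comp_le _ _).trans ?_
            calc ‖fderiv ℝ g (w, y)‖ * ‖ContinuousLinearMap.inl ℝ X Y‖ ≤ C₀ * 1 :=
                  mul_le_mul (hball _ (hseg w hw)).2.le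
                    (ContinuousLinearMap.norm_inl_le_one ℝ X Y) (norm_nonneg _) hC₀0.le
              _ = C₀ := mul_one _
          calc ‖ContinuousLinearMap.snd ℝ X Y‖ * _ ≤ 1 * C₀ :=
                mul_le_mul (ContinuousLinearMap.norm_snd_le ℝ X Y) h7 (norm_nonneg _) zero_le_one
            _ = C₀ := one_mul _) (convex_ball _ _) hx0 hx1
      rw [h.fix, sub_zero] at h6
      exact h6
  -- iterate
  set r : ℝ := min ρ (ρ / 2 * ((1 - ν) / (C₀ + (1 - ν)))) with hr
  have h1ν : 0 < 1 - ν := by linarith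
  have hr0 : 0 < r := lt_min hρ (by positivity)
  have hrρ : r ≤ ρ / 2 := by
    refine (min_le_right _ _).trans ?_
    have : (1 - ν) / (C₀ + (1 - ν)) ≤ 1 := by
      rw [div_le_one (by positivity)]; linarith
    calc ρ / 2 * ((1 - ν) / (C₀ + (1 - ν))) ≤ ρ / 2 * 1 :=
          mul_le_mul_of_nonneg_left this (by positivity)
      _ = ρ / 2 := mul_one _
  have hrC : r * C₀ / (1 - ν) ≤ ρ / 2 := by
    have h3 : r ≤ ρ / 2 * ((1 - ν) / (C₀ + (1 - ν))) := min_le_right _ _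
    calc r * C₀ / (1 - ν) ≤ (ρ / 2 * ((1 - ν) / (C₀ + (1 - ν)))) * C₀ / (1 - ν) := by gcongr
      _ = ρ / 2 * (C₀ / (C₀ + (1 - ν))) := by field_simp
      _ ≤ ρ / 2 * 1 := by
          apply mul_le_mul_of_nonneg_left _ (by positivity)
          rw [div_le_one (by positivity)]; linarith
      _ = ρ / 2 := mul_one _
  have main : ∀ z ∈ ball ((0, y₀) : X × Y) r, ∀ i : ℕ, ‖(g^[i] z).1‖ ≤ r * ν ^ i ∧
      ‖(g^[i] z).2 - z.2‖ ≤ r * C₀ * (1 - ν ^ i) / (1 - ν) ∧
      g^[i] z ∈ ball ((0, y₀) : X × Y) ρ := by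
    intro z hz i
    have hz' := hz
    rw [mem_ball, Prod.dist_eq, max_lt_iff, dist_zero_right] at hz'
    simp only at hz'
    induction i with
    | zero =>
      refine ⟨by simpa using hz'.1.le, by simp, ?_⟩
      exact ball_subset_ball (by linarith) hz
    | succ i ih =>
      obtain ⟨ih1, ih2, ih3⟩ := ih
      rw [Function.iterate_succ_apply']
      obtain ⟨s1, s2⟩ := step _ ih3
      have a1 : ‖(g (g^[i] z)).1‖ ≤ r * ν ^ (i + 1) := by
        calc _ ≤ ν * ‖(g^[i] z).1‖ := s1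
          _ ≤ ν * (r * ν ^ i) := mul_le_mul_of_nonneg_left ih1 hν0
          _ = r * ν ^ (i + 1) := by ring
      have a2 : ‖(g (g^[i] z)).2 - z.2‖ ≤ r * C₀ * (1 - ν ^ (i + 1)) / (1 - ν) := by
        have e1 : (g (g^[i] z)).2 - z.2 = ((g (g^[i] z)).2 - (g^[i] z).2) +
            ((g^[i] z).2 - z.2) := by abel
        rw [e1]
        refine (norm_add_le _ _).trans ?_
        have e2 : C₀ * ‖(g^[i] z).1‖ ≤ C₀ * (r * ν ^ i) :=
          mul_le_mul_of_nonneg_left ih1 hC₀0.le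
        have e3 : C₀ * (r * ν ^ i) + r * C₀ * (1 - ν ^ i) / (1 - ν) =
            r * C₀ * (1 - ν ^ (i + 1)) / (1 - ν) := by
          field_simp
          ring
        linarith
      refine ⟨a1, a2, ?_⟩
      rw [mem_ball, Prod.dist_eq, max_lt_iff, dist_zero_right]
      constructor
      · show ‖(g (g^[i] z)).1‖ < ρ
        have e1 : r * ν ^ (i + 1) ≤ r * 1 :=
          mul_le_mul_of_nonneg_left (pow_le_one₀ hν0 hν1.le) hr0.le
        linarith
      · show dist (g (g^[i] z)).2 y₀ < ρ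
        have e1 : dist (g (g^[i] z)).2 y₀ ≤ dist (g (g^[i] z)).2 z.2 + dist z.2 y₀ :=
          dist_triangle _ _ _
        rw [dist_eq_norm (g (g^[i] z)).2 z.2] at e1
        have e2 : r * C₀ * (1 - ν ^ (i + 1)) / (1 - ν) ≤ r * C₀ / (1 - ν) := by
          have : r * C₀ * (1 - ν ^ (i + 1)) ≤ r * C₀ * 1 :=
            mul_le_mul_of_nonneg_left (by linarith [pow_nonneg hν0 (i + 1)]) (by positivity)
          rw [mul_one] at this
          gcongr
        have e3 : dist z.2 y₀ < r := hz'.2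
        linarith
  refine ⟨r, hr0, r * (C₀ + 1), by positivity, ν, hν0, hν1, fun z hz i => ?_⟩
  obtain ⟨m1, m2, m3⟩ := main z hz i
  have hp : 0 ≤ r * ν ^ i := by positivity
  constructor
  · have : r * ν ^ i ≤ r * (C₀ + 1) * ν ^ i := by nlinarith
    linarith
  · rw [Function.iterate_succ_apply']
    calc ‖(g (g^[i] z)).2 - (g^[i] z).2‖ ≤ C₀ * ‖(g^[i] z).1‖ := (step _ m3).2
      _ ≤ C₀ * (r * ν ^ i) := mul_le_mul_of_nonneg_left m1 hC₀0.le
      _ ≤ r * (C₀ + 1) * ν ^ i := by nlinarith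

/-- the limit of the second components of the iterates -/
noncomputable def Yl [Nonempty Y] (g : X × Y → X × Y) (z : X × Y) : Y :=
  limUnder atTop fun i : ℕ => (g^[i] z).2

end cls

section limit

theorem Yl_tendsto {X : Type u} {Y : Type v} [NormedAddCommGroup X] [NormedAddCommGroup Y]
    {g : X × Y → X × Y} {z : X × Y} {y : Y}
    (h : Tendsto (fun i : ℕ => (g^[i] z).2) atTop (𝓝 y)) : Yl g z = y :=
  h.limUnder_eq

theorem Yl_iterate {X : Type u} {Y : Type v} [NormedAddCommGroup X] [NormedAddCommGroup Y]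
    (g : X × Y → X × Y) (z : X × Y) (N : ℕ) : Yl g (g^[N] z) = Yl g z := by
  unfold Yl limUnder
  have h1 : (fun i : ℕ => (g^[i] (g^[N] z)).2) =
      (fun i : ℕ => (g^[i] z).2) ∘ fun i => i + N := by
    funext i
    simp [Function.iterate_add_apply]
  rw [h1, ← Filter.map_map, Filter.map_add_atTop_eq_nat]

theorem unif_lim {Z W : Type*} [NormedAddCommGroup W] [CompleteSpace W] {s : Set Z}
    {f : ℕ → Z → W} {C ν : ℝ} (hν0 : 0 ≤ ν) (hν : ν < 1)
    (h : ∀ z ∈ s, ∀ i, ‖f (i + 1) z - f i z‖ ≤ C * ν ^ i) :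
    ∃ l : Z → W, (∀ z ∈ s, Tendsto (fun i => f i z) atTop (𝓝 (l z))) ∧
      TendstoUniformlyOn f l atTop s := by
  classical
  have h1 : ∀ z ∈ s, ∃ w, Tendsto (fun i => f i z) atTop (𝓝 w) := by
    intro z hz
    apply cauchySeq_tendsto_of_complete
    refine cauchySeq_of_le_geometric ν C hν fun i => ?_
    rw [dist_comm, dist_eq_norm]
    exact h z hz i
  choose! l hl using h1
  refine ⟨l, hl, ?_⟩
  rw [Metric.tendstoUniformlyOn_iff]
  intro ε hε
  have h2 : Tendsto (fun i : ℕ => C * ν ^ i / (1 - ν)) atTop (𝓝 (C * 0 / (1 - ν))) :=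
    ((tendsto_pow_atTop_nhds_zero_of_lt_one hν0 hν).const_mul C).div_const _
  rw [mul_zero, zero_div] at h2
  filter_upwards [h2.eventually (gt_mem_nhds hε)] with i hi z hz
  rw [dist_comm]
  refine lt_of_le_of_lt ?_ hi
  refine dist_le_of_le_geometric_of_tendsto ν C hν (fun j => ?_) (hl z hz) i
  rw [dist_comm, dist_eq_norm]
  exact h z hz j

theorem opNorm_le_of_ball' {E F : Type*} [NormedAddCommGroup E] [NormedSpace ℝ E]
    [NormedAddCommGroup F] [NormedSpace ℝ F] (T : E →L[ℝ] F) {ρ M : ℝ} (hρ : 0 < ρ)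
    (hM : 0 ≤ M) (h : ∀ v, ‖v‖ < ρ → ‖T v‖ ≤ M) : ‖T‖ ≤ 2 / ρ * M := by
  refine T.opNorm_le_bound (by positivity) fun v => ?_
  rcases eq_or_ne v 0 with rfl | hv
  · simp
  have hv' : 0 < ‖v‖ := norm_pos_iff.2 hv
  have h1 : ‖(ρ / (2 * ‖v‖)) • v‖ < ρ := by
    rw [norm_smul, Real.norm_eq_abs, abs_of_pos (by positivity)]
    have : ρ / (2 * ‖v‖) * ‖v‖ = ρ / 2 := by field_simp
    linarith
  have h2 := h _ h1
  rw [map_smul, norm_smul, Real.norm_eq_abs, abs_of_pos (by positivity)] at h2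
  have h3 : ‖T v‖ = (2 * ‖v‖ / ρ) * (ρ / (2 * ‖v‖) * ‖T v‖) := by field_simp
  rw [h3]
  calc (2 * ‖v‖ / ρ) * (ρ / (2 * ‖v‖) * ‖T v‖) ≤ (2 * ‖v‖ / ρ) * M :=
        mul_le_mul_of_nonneg_left h2 (by positivity)
    _ = 2 / ρ * M * ‖v‖ := by ring

theorem Cls.Yl_contDiffOn {κ : ℝ} (hκ0 : 0 ≤ κ) (hκ : κ < 1) (k : ℕ) :
    ∀ (X : Type u) (Y : Type v) [NormedAddCommGroup X] [NormedSpace ℝ X] [FiniteDimensional ℝ X]
    [NormedAddCommGroup Y] [NormedSpace ℝ Y] [FiniteDimensional ℝ Y] (g : X × Y → X × Y)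
    (_ : Cls κ g) (y₀ : Y), ∃ r > 0, ContDiffOn ℝ k (Yl g) (ball ((0, y₀) : X × Y) r) := by
  induction k with
  | zero =>
    intro X Y _ _ _ _ _ _ g h y₀
    have : CompleteSpace Y := FiniteDimensional.complete ℝ Y
    obtain ⟨r, hr, C, hC, ν, hν0, hν, hest⟩ := h.local_est hκ0 hκ y₀
    refine ⟨r, hr, ?_⟩
    obtain ⟨l, hl, hl'⟩ := unif_lim (s := ball ((0, y₀) : X × Y) r)
      (f := fun i z => (g^[i] z).2) hν0 hν (fun z hz i => (hest z hz i).2)
    rw [Nat.cast_zero, contDiffOn_zero]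
    have h1 : ContinuousOn l (ball ((0, y₀) : X × Y) r) :=
      hl'.continuousOn (Frequently.of_forall fun i =>
        ((h.iterate_smooth i).continuous.snd).continuousOn)
    exact h1.congr fun z hz => Yl_tendsto (hl z hz)
  | succ k ih =>
    intro X Y _ _ _ _ _ _ g h y₀
    have : CompleteSpace Y := FiniteDimensional.complete ℝ Y
    obtain ⟨r₁, hr₁, C, hC, ν, hν0, hν, hest⟩ := h.local_est hκ0 hκ y₀
    obtain ⟨r₂, hr₂, C', hC', ν', hν'0, hν', hest'⟩ := h.TT.local_est hκ0 hκ (y₀, 0)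
    obtain ⟨r₃, hr₃, hsm⟩ := ih (X × X) (Y × Y) (H812.TT g) h.TT (y₀, 0)
    set r := min r₁ (min r₂ r₃) with hr
    have hr0 : 0 < r := lt_min hr₁ (lt_min hr₂ hr₃)
    have hrr₂ : r ≤ r₂ := (min_le_right _ _).trans (min_le_left _ _)
    have hrr₃ : r ≤ r₃ := (min_le_right _ _).trans (min_le_right _ _)
    set s := ball ((0, y₀) : X × Y) r with hs
    have hs₁ : s ⊆ ball ((0, y₀) : X × Y) r₁ := ball_subset_ball (min_le_left _ _)
    -- points of the tangent space
    have hpt : ∀ z ∈ s, ∀ v : X × Y, ‖v‖ < r →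
        (((z.1, v.1), (z.2, v.2)) : (X × X) × (Y × Y)) ∈
          ball ((0, (y₀, 0)) : (X × X) × (Y × Y)) r := by
      intro z hz v hv
      rw [hs, mem_ball, Prod.dist_eq, max_lt_iff] at hz
      rw [Prod.norm_def, max_lt_iff] at hv
      simp only at hz
      rw [mem_ball, Prod.dist_eq, max_lt_iff, Prod.dist_eq, Prod.dist_eq, max_lt_iff, max_lt_iff]
      refine ⟨⟨hz.1, ?_⟩, hz.2, ?_⟩
      · simpa using hv.1
      · simpa using hv.2
    have hcl : ContDiffOn ℝ k (Yl (H812.TT g)) (ball ((0, (y₀, 0)) : (X × X) × (Y × Y)) r) :=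
      hsm.mono (ball_subset_ball hrr₃)
    -- the derivatives of the iterates
    let D : ℕ → X × Y → (X × Y →L[ℝ] Y) := fun i z =>
      (ContinuousLinearMap.snd ℝ X Y).comp (fderiv ℝ (g^[i]) z)
    have hD : ∀ i z, HasFDerivAt (fun z => (g^[i] z).2) (D i z) z := fun i z =>
      (ContinuousLinearMap.snd ℝ X Y).hasFDerivAt.comp z
        ((h.iterate_smooth i).differentiable (by simp) z).hasFDerivAt
    have hDT : ∀ i (z v : X × Y),
        (((H812.TT g)^[i] ((z.1, v.1), (z.2, v.2))).2).2 = D i z v := by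
      intro i z v
      rw [h.iterate_TT]
      rfl
    have hDest : ∀ z ∈ s, ∀ i, ‖D (i + 1) z - D i z‖ ≤ (2 / r * C') * ν' ^ i := by
      intro z hz i
      rw [mul_assoc]
      refine opNorm_le_of_ball' _ hr0 (by positivity) fun v hv => ?_
      have h1 := (hest' _ (ball_subset_ball hrr₂ (hpt z hz v hv)) i).2
      rw [sub_apply, ← hDT, ← hDT]
      refine le_trans ?_ h1
      rw [Prod.norm_def]
      exact le_max_right _ _
    obtain ⟨L, hL, hL'⟩ := unif_lim (s := s) (f := D) hν'0 hν' hDest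
    obtain ⟨l, hl, hl'⟩ := unif_lim (s := s)
      (f := fun i z => (g^[i] z).2) hν0 hν (fun z hz i => (hest z (hs₁ hz) i).2)
    have hlY : ∀ z ∈ s, Tendsto (fun i : ℕ => (g^[i] z).2) atTop (𝓝 (Yl g z)) := by
      intro z hz
      rw [Yl_tendsto (hl z hz)]
      exact hl z hz
    have hderiv : ∀ z ∈ s, HasFDerivAt (Yl g) (L z) z := fun z hz =>
      hasFDerivAt_of_tendstoUniformlyOn isOpen_ball hL' (fun i z _ => hD i z) hlY hz
    refine ⟨r, hr0, ?_⟩
    rw [Nat.cast_succ, contDiffOn_succ_iff_fderiv_of_isOpen isOpen_ball]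
    refine ⟨fun z hz => (hderiv z hz).differentiableAt.differentiableWithinAt, by simp, ?_⟩
    have hLk : ContDiffOn ℝ k L s := by
      rw [contDiffOn_clm_apply]
      intro v
      obtain ⟨t, ht0, ht⟩ : ∃ t : ℝ, 0 < t ∧ ‖t • v‖ < r := by
        refine ⟨r / (2 * (‖v‖ + 1)), by positivity, ?_⟩
        rw [norm_smul, Real.norm_eq_abs, abs_of_pos (by positivity)]
        have h1 : r / (2 * (‖v‖ + 1)) * ‖v‖ ≤ r / (2 * (‖v‖ + 1)) * (‖v‖ + 1) :=
          mul_le_mul_of_nonneg_left (by linarith) (by positivity)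
        have h2 : r / (2 * (‖v‖ + 1)) * (‖v‖ + 1) = r / 2 := by field_simp
        linarith
      have h1 : ∀ z ∈ s, L z v = t⁻¹ •
          (Yl (H812.TT g) ((z.1, (t • v).1), (z.2, (t • v).2))).2 := by
        intro z hz
        obtain ⟨l', hl'⟩ : ∃ l', Tendsto (fun i : ℕ =>
            ((H812.TT g)^[i] ((z.1, (t • v).1), (z.2, (t • v).2))).2) atTop (𝓝 l') := by
          apply cauchySeq_tendsto_of_complete
          refine cauchySeq_of_le_geometric ν' C' hν' fun i => ?_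
          rw [dist_comm, dist_eq_norm]
          exact (hest' _ (ball_subset_ball hrr₂ (hpt z hz _ ht)) i).2
        rw [Yl_tendsto hl']
        have h2 : Tendsto (fun i : ℕ => D i z (t • v)) atTop (𝓝 l'.2) := by
          have := hl'.snd_nhds
          simpa only [hDT] using this
        have h3 : Tendsto (fun i : ℕ => D i z (t • v)) atTop (𝓝 (L z (t • v))) :=
          ((ContinuousLinearMap.apply ℝ Y (t • v)).continuous.tendsto _).comp (hL z hz)
        rw [tendsto_nhds_unique h2 h3, map_smul, smul_smul, inv_mul_cancel₀ ht0.ne', one_smul]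
      refine ContDiffOn.congr ?_ h1
      have h2 : ContDiff ℝ k fun z : X × Y =>
          (((z.1, (t • v).1), (z.2, (t • v).2)) : (X × X) × (Y × Y)) := by fun_prop
      exact ((hcl.comp h2.contDiffOn fun z hz => hpt z hz _ ht).snd).const_smul _
    exact hLk.congr fun z hz => (hderiv z hz).fderiv

/-- **The limit of the second components is smooth.** -/
theorem Cls.Yl_contDiff {κ : ℝ} (hκ0 : 0 ≤ κ) (hκ : κ < 1) {X : Type u} {Y : Type v}
    [NormedAddCommGroup X] [NormedSpace ℝ X] [FiniteDimensional ℝ X]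
    [NormedAddCommGroup Y] [NormedSpace ℝ Y] [FiniteDimensional ℝ Y] {g : X × Y → X × Y}
    (h : Cls κ g) (hb : ∀ z, ∃ y, Tendsto (fun i : ℕ => g^[i] z) atTop (𝓝 (0, y))) :
    ContDiff ℝ ∞ (Yl g) := by
  rw [contDiff_infty]
  intro k
  rw [contDiff_iff_contDiffAt]
  intro z
  obtain ⟨y, hy⟩ := hb z
  obtain ⟨r, hr, hk⟩ := Cls.Yl_contDiffOn hκ0 hκ k X Y g h y
  obtain ⟨N, hN⟩ := (hy.eventually (ball_mem_nhds _ hr)).exists
  have h1 : Yl g = Yl g ∘ g^[N] := by
    funext w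
    exact (Yl_iterate g w N).symm
  rw [h1]
  refine ContDiffAt.comp z (hk.contDiffAt (isOpen_ball.mem_nhds hN)) ?_
  exact ((h.iterate_smooth N).of_le (by exact_mod_cast le_top)).contDiffAt

end limit

end Pool.Agent.H812
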