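import Pool.Agent.H812.Bas
import Pool.Agent.H812.Avg

/-!
The fixed points of an action of `SL(n, ℝ)` whose restriction to `SO(n)` is linear.
-/

set_option autoImplicit false

namespace Pool.Agent.H812

open Topology Filter Metric Set Matrix Matrix.SpecialLinearGroup
open scoped ContDiff

variable {n : ℕ}

section general

variable {H : Type*} [TopologicalSpace H] [T2Space H]

theorem fix_of {a : SLn n → H → H} [Nontrivial (Fin n)] (hone : ∀ z, a 1 z = z)
    (hmul : ∀ g h z, a (g * h) z = a g (a h z)) (hcont : Continuous fun p : SLn n × H => a p.1 p.2)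
    (z : H) {t₀ : ℝ} (ht₀ : 0 < t₀) (hK : ∀ k, IsOrth k → a k z = z)
    (hw : ∀ (i j : Fin n) (hij : i ≠ j) (t : ℝ), |t| ≤ t₀ → ∀ k, IsOrth k →
      a k (a (hh hij t) z) = a (hh hij t) z) : ∀ g, a g z = z := by
  let S : Subgroup (SLn n) :=
    { carrier := {g | a g z = z}
      mul_mem' := fun {g h} hg hh => by
        show a (g * h) z = z
        rw [hmul, hh, hg]
      one_mem' := hone z
      inv_mem' := fun {g} hg => by
        show a g⁻¹ z = z
        have h1 : a g⁻¹ (a g z) = z := by rw [← hmul, inv_mul_cancel, hone]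
        rw [show a g z = z from hg] at h1
        exact h1 }
  have hS : IsClosed (S : Set (SLn n)) :=
    isClosed_eq (hcont.comp (continuous_id.prodMk continuous_const)) continuous_const
  have hhalf : ∀ (i j : Fin n) (hij : i ≠ j) (t : ℝ), |t| ≤ t₀ → hh hij (2 * t) ∈ S := by
    intro i j hij t ht
    have h1 := hw i j hij t ht (wt hij) (wt_orth hij)
    rw [← hmul, wt_hh, hmul, hK _ (wt_orth hij)] at h1
    show a (hh hij (2 * t)) z = z
    rw [two_mul, hh_add, hmul, ← h1, ← hmul, ← hh_add, add_neg_cancel, hh_zero, hone]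
  have hall : ∀ (i j : Fin n) (hij : i ≠ j) (t : ℝ), hh hij t ∈ S := by
    intro i j hij t
    obtain ⟨k, hk⟩ := exists_nat_gt (|t| / t₀)
    have hk0 : (0 : ℝ) < k := lt_of_le_of_lt (by positivity) hk
    have h1 : t = k * (2 * (t / (2 * k))) := by field_simp
    rw [h1, hh_nsmul]
    refine S.pow_mem (hhalf i j hij _ ?_) k
    rw [abs_div, abs_of_pos (show (0 : ℝ) < 2 * k by positivity), div_le_iff₀ (by positivity)]
    rw [div_lt_iff₀ ht₀] at hk
    nlinarith [abs_nonneg t]
  have htop : S = ⊤ := closed_subgroup_eq_top S hS (fun g hg => hK g hg)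
    (fun i j hij => by rw [← hh_log_two]; exact hall i j hij _)
  intro g
  have : g ∈ S := by rw [htop]; trivial
  exact this

end general

section nearby

variable {H : Type*} [NormedAddCommGroup H]

theorem exists_small_time {a : SLn n → H → H} (hone : ∀ z, a 1 z = z)
    (hcont : Continuous fun p : SLn n × H => a p.1 p.2) {r : ℝ} (hr : 0 < r) :
    ∃ t₀ > 0, ∃ δ > 0, ∀ (i j : Fin n) (hij : i ≠ j) (t : ℝ), |t| ≤ t₀ → ∀ z, ‖z‖ < δ →
      ‖a (hh hij t) z‖ < r := by
  have h1 : ∀ᶠ p : SLn n × H in 𝓝 (1, 0), ‖a p.1 p.2‖ < r := by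
    have h2 := (hcont.norm).tendsto ((1, 0) : SLn n × H)
    simp only [hone, norm_zero] at h2
    exact h2.eventually (gt_mem_nhds hr)
  rw [nhds_prod_eq, eventually_prod_iff] at h1
  obtain ⟨pa, hpa, pb, hpb, h2⟩ := h1
  have h3 : ∀ᶠ t in 𝓝 (0 : ℝ), ∀ (i j : Fin n) (hij : i ≠ j), pa (hh hij t) := by
    rw [eventually_all]
    intro i
    rw [eventually_all]
    intro j
    by_cases hij : i ≠ j
    · have h4 := (continuous_hh hij).tendsto 0
      rw [hh_zero] at h4
      exact (h4.eventually hpa).mono fun t ht _ => ht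
    · exact Eventually.of_forall fun t h => absurd h hij
  obtain ⟨t₁, ht₁, h4⟩ := Metric.eventually_nhds_iff_ball.1 h3
  obtain ⟨δ, hδ, h5⟩ := Metric.eventually_nhds_iff_ball.1 hpb
  refine ⟨t₁ / 2, by positivity, δ, hδ, fun i j hij t ht z hz => ?_⟩
  refine h2 (h4 t ?_ i j hij) (h5 z ?_)
  · rw [mem_ball_zero_iff, Real.norm_eq_abs]
    linarith
  · rwa [mem_ball_zero_iff]

end nearby

section std

variable {F : Type*} [NormedAddCommGroup F] [NormedSpace ℝ F]

theorem exists_ne_ne (hn : 3 ≤ n) (i j : Fin n) : ∃ k : Fin n, k ≠ i ∧ k ≠ j := by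
  by_contra hcon
  push Not at hcon
  have h1 : (Finset.univ : Finset (Fin n)) ⊆ {i, j} := by
    intro k _
    rw [Finset.mem_insert, Finset.mem_singleton]
    by_cases h : k = i
    · exact Or.inl h
    · exact Or.inr (hcon k h)
  have h2 := Finset.card_le_card h1
  rw [Finset.card_univ, Fintype.card_fin] at h2
  have h3 : ({i, j} : Finset (Fin n)).card ≤ 2 := Finset.card_le_two
  omega

theorem fixed_of_signs (hn : 3 ≤ n) {v : Vn n}
    (h : ∀ (i j : Fin n) (hij : i ≠ j), mv (sg hij).1 v = v) : v = 0 := by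
  apply vext
  intro i
  obtain ⟨j, hj, -⟩ := exists_ne_ne hn i i
  have h1 := congrArg (fun w : Vn n => w i) (h i j hj.symm)
  simp only at h1
  rw [sg_coe, mv_diagonal, if_pos (Or.inl rfl)] at h1
  show v i = 0
  linarith

/-- **(IV)** The points `(0, y)` near the origin are fixed by the whole group. -/
theorem fixed_points (hn : 3 ≤ n) {a : SLn n → Vn n × F → Vn n × F} (ha : IsSm a) {r : ℝ}
    (hr : 0 < r) (hK : ∀ k, IsOrth k → ∀ z, ‖z‖ < r → a k z = LL F k.1 z) :
    ∃ δ > 0, δ ≤ r ∧ ∀ y : F, ‖y‖ < δ → ∀ g, a g (0, y) = (0, y) := by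
  have : Nontrivial (Fin n) := Fin.nontrivial_iff_two_le.2 (by omega)
  obtain ⟨t₀, ht₀, δ, hδ, hsmall⟩ := exists_small_time ha.one ha.cont hr
  refine ⟨min δ r, lt_min hδ hr, min_le_right _ _, fun y hy => ?_⟩
  have hyn : ‖((0, y) : Vn n × F)‖ = ‖y‖ := by rw [Prod.norm_def]; simp
  have hyr : ‖((0, y) : Vn n × F)‖ < r := by rw [hyn]; exact hy.trans_le (min_le_right _ _)
  have hyδ : ‖((0, y) : Vn n × F)‖ < δ := by rw [hyn]; exact hy.trans_le (min_le_left _ _)
  have hK0 : ∀ k, IsOrth k → a k (0, y) = (0, y) := fun k hk => by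
    rw [hK k hk _ hyr, LL_zero_left]
  refine fix_of ha.one ha.mul ha.cont (0, y) ht₀ hK0 fun i j hij t ht k hk => ?_
  have hz := hsmall i j hij t ht _ hyδ
  set z := a (hh hij t) (0, y) with hzdef
  have h1 : z.1 = 0 := by
    refine fixed_of_signs hn fun p q hpq => ?_
    have h2 : a (sg hpq) z = z := by
      rw [hzdef, ← ha.mul, diagonal_comm (sg_coe hpq) (hh_coe hij t), ha.mul,
        hK0 _ (sg_orth hpq)]
    rw [hK _ (sg_orth hpq) _ hz] at h2
    exact congrArg Prod.fst h2
  rw [hK k hk z hz]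
  obtain ⟨v, y'⟩ := z
  simp only at h1
  rw [h1, LL_zero_left]

end std

section deriv

variable {F : Type*} [NormedAddCommGroup F] [NormedSpace ℝ F] [FiniteDimensional ℝ F]

theorem diag_char (hn : 3 ≤ n) {T : Vn n × F →L[ℝ] Vn n × F}
    (hT : ∀ (i j : Fin n) (hij : i ≠ j), T.comp (LL F (sg hij).1) = (LL F (sg hij).1).comp T)
    (i : Fin n) : T (ee i, 0) = ((T (ee i, 0)).1 i) • ((ee i, 0) : Vn n × F) := by
  have hsg : ∀ (p q : Fin n) (hpq : p ≠ q) (k : Fin n),
      mv (sg hpq).1 (ee k) = (if k = p ∨ k = q then (-1 : ℝ) else 1) • ee k := by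
    intro p q hpq k
    apply vext
    intro l
    rw [sg_coe, mv_diagonal]
    show _ = (if k = p ∨ k = q then (-1 : ℝ) else 1) * ee k l
    rcases eq_or_ne l k with rfl | hlk
    · rfl
    · rw [ee_ne hlk, mul_zero, mul_zero]
  have hkey : ∀ (p q : Fin n) (hpq : p ≠ q), LL F (sg hpq).1 (T (ee i, 0)) =
      (if i = p ∨ i = q then (-1 : ℝ) else 1) • T (ee i, 0) := by
    intro p q hpq
    have h1 := DFunLike.congr_fun (hT p q hpq) ((ee i, 0) : Vn n × F)
    rw [ContinuousLinearMap.comp_apply, ContinuousLinearMap.comp_apply, LL_apply, hsg] at h1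
    rw [← h1]
    have h2 : (((if i = p ∨ i = q then (-1 : ℝ) else 1) • ee i, 0) : Vn n × F) =
      (if i = p ∨ i = q then (-1 : ℝ) else 1) • ((ee i, 0) : Vn n × F) := by
      split_ifs <;> simp
    rw [h2, map_smul]
  refine Prod.ext ?_ ?_
  · apply vext
    intro j
    show (T (ee i, 0)).1 j = (T (ee i, 0)).1 i * ee i j
    rcases eq_or_ne j i with rfl | hji
    · rw [ee_same, mul_one]
    · rw [ee_ne hji, mul_zero]
      obtain ⟨k, hki, hkj⟩ := exists_ne_ne hn i j
      have h1 := congrArg (fun p : Vn n × F => p.1 j) (hkey j k hkj.symm)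
      have h2 : ¬ (i = j ∨ i = k) := by
        rintro (h | h)
        · exact hji h.symm
        · exact hki h.symm
      simp only [if_neg h2, one_smul] at h1
      have h3 : (mv (sg hkj.symm).1 (T (ee i, 0)).1) j = (T (ee i, 0)).1 j := h1
      rw [sg_coe, mv_diagonal, if_pos (Or.inl rfl)] at h3
      linarith
  · show (T (ee i, 0)).2 = (T (ee i, 0)).1 i • (0 : F)
    rw [smul_zero]
    obtain ⟨k, hki, -⟩ := exists_ne_ne hn i i
    have h1 := congrArg (fun p : Vn n × F => p.2) (hkey i k hki.symm)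
    simp only [true_or, if_true] at h1
    have h3 : (T (ee i, 0)).2 = (-1 : ℝ) • (T (ee i, 0)).2 := h1
    have h4 : (2 : ℝ) • (T (ee i, 0)).2 = 0 := by
      rw [two_smul]
      nth_rewrite 1 [h3]
      simp
    exact (smul_eq_zero.1 h4).resolve_left two_ne_zero

/-- a sine -/
noncomputable def sn : ℝ := Real.sqrt (273 / 289)

theorem sn_sq : (4 / 17 : ℝ) ^ 2 + sn ^ 2 = 1 := by
  unfold sn
  rw [Real.sq_sqrt (by norm_num)]
  norm_num

theorem sn_ne : sn ≠ 0 := by
  unfold sn
  exact (Real.sqrt_pos.2 (by norm_num)).ne'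

/-- an element of order six -/
theorem order_six {i j : Fin n} (hij : i ≠ j) :
    (diag2n hij (2 : ℝ) two_ne_zero * emb hij (rot2 (4 / 17) sn sn_sq) *
      diag2n hij (2 : ℝ) two_ne_zero) ^ 3 = sg hij := by
  have hs : sn * sn = 273 / 289 := by
    have := sn_sq
    nlinarith
  have h1 : (diag2 (2 : ℝ) two_ne_zero * rot2 (4 / 17) sn sn_sq * diag2 (2 : ℝ) two_ne_zero) ^ 3 =
      diag2 (-1 : ℝ) (by norm_num) := by
    apply Subtype.ext
    have h2 : (diag2 (2 : ℝ) two_ne_zero * rot2 (4 / 17) sn sn_sq *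
        diag2 (2 : ℝ) two_ne_zero).1 = !![16 / 17, -sn; sn, 1 / 17] := by
      rw [Matrix.SpecialLinearGroup.coe_mul, Matrix.SpecialLinearGroup.coe_mul, diag2_coe']
      ext p q
      fin_cases p <;> fin_cases q <;> simp [rot2] <;> norm_num
      · ring
      · ring
    rw [pow_succ, pow_two, Matrix.SpecialLinearGroup.coe_mul, Matrix.SpecialLinearGroup.coe_mul,
      h2, diag2_coe']
    ext p q
    fin_cases p <;> fin_cases q <;> simp
    · nlinarith
    · rw [hs]; ring
    · rw [hs]; ring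
    · nlinarith
  have h2 := congrArg (emb hij) h1
  rw [map_pow, map_mul, map_mul, emb_diag2, emb_diag2] at h2
  exact h2

/-- the derivative along the fixed points -/
theorem fderiv_fix_mul {H : Type*} [NormedAddCommGroup H] [NormedSpace ℝ H] {a : SLn n → H → H}
    (ha : IsSm a) {z : H} (hz : ∀ g, a g z = z) (g h : SLn n) :
    fderiv ℝ (a (g * h)) z = (fderiv ℝ (a g) z).comp (fderiv ℝ (a h) z) := by
  rw [ha.fderiv_mul, hz]

theorem quad_lemma {c s χ : ℝ} (hc : c = 4 / 17) (hcs : c ^ 2 + s ^ 2 = 1) (hs : s ≠ 0)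
    (hχ : 0 < χ) (h : s * ((c * χ ^ 2) ^ 2 - s ^ 2 + (c * χ ^ 2) * (c * (χ⁻¹) ^ 2) +
      (c * (χ⁻¹) ^ 2) ^ 2) = 0) : χ = 2 ∨ χ = 1 / 2 := by
  have h1 := (mul_eq_zero.1 h).resolve_left hs
  set q := (χ⁻¹) ^ 2 with hq
  have hq0 : 0 < q := by positivity
  have hpq : χ ^ 2 * q = 1 := by rw [hq]; field_simp
  have h2 : (c * χ ^ 2 + c * q) ^ 2 = 1 := by
    have h3 : (c * χ ^ 2) * (c * q) = c ^ 2 := by
      calc (c * χ ^ 2) * (c * q) = c ^ 2 * (χ ^ 2 * q) := by ring
        _ = c ^ 2 := by rw [hpq, mul_one]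
    nlinarith
  have h3 : c * χ ^ 2 + c * q = 1 := by
    have h4 : 0 < c * χ ^ 2 + c * q := by rw [hc]; positivity
    nlinarith
  have h4 : (χ ^ 2 - 4) * (χ ^ 2 - 1 / 4) = 0 := by
    have h5 : χ ^ 2 + q = 17 / 4 := by rw [hc] at h3; linarith
    have h6 : χ ^ 2 * (χ ^ 2 + q) = χ ^ 2 * (17 / 4) := by rw [h5]
    nlinarith
  rcases mul_eq_zero.1 h4 with h5 | h5
  · left
    have h6 : (χ - 2) * (χ + 2) = 0 := by nlinarith
    rcases mul_eq_zero.1 h6 with h7 | h7
    · linarith
    · linarith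
  · right
    have h6 : (χ - 1 / 2) * (χ + 1 / 2) = 0 := by nlinarith
    rcases mul_eq_zero.1 h6 with h7 | h7
    · linarith
    · linarith

theorem mv_rot_i {i j : Fin n} (hij : i ≠ j) (c s : ℝ) (h : c ^ 2 + s ^ 2 = 1) :
    mv (emb hij (rot2 c s h)).1 (ee i) = c • ee i + s • ee j := by
  apply vext
  intro k
  rw [mv_ee, emb_coe, embM_apply]
  show _ = c * ee i k + s * ee j k
  rw [ee_apply, ee_apply]
  by_cases h1 : k = i
  · subst h1; simp [rot2, hij]
  · by_cases h2 : k = j
    · subst h2; simp [rot2, hij, hij.symm]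
    · simp [rot2, h1, h2]

theorem mv_rot_j {i j : Fin n} (hij : i ≠ j) (c s : ℝ) (h : c ^ 2 + s ^ 2 = 1) :
    mv (emb hij (rot2 c s h)).1 (ee j) = -s • ee i + c • ee j := by
  apply vext
  intro k
  rw [mv_ee, emb_coe, embM_apply]
  show _ = -s * ee i k + c * ee j k
  rw [ee_apply, ee_apply]
  by_cases h1 : k = i
  · subst h1; simp [rot2, hij, hij.symm]
  · by_cases h2 : k = j
    · subst h2; simp [rot2, hij, hij.symm]
    · simp [rot2, h1, h2]

theorem mv_hh_i {i j : Fin n} (hij : i ≠ j) (t : ℝ) :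
    mv (hh hij t).1 (ee i) = Real.exp t • ee i := by
  apply vext
  intro k
  rw [hh_coe, mv_diagonal]
  show _ = Real.exp t * ee i k
  rcases eq_or_ne k i with rfl | h
  · rw [if_pos rfl]
  · rw [ee_ne h, mul_zero, mul_zero]

theorem mv_hh_j {i j : Fin n} (hij : i ≠ j) (t : ℝ) :
    mv (hh hij t).1 (ee j) = (Real.exp t)⁻¹ • ee j := by
  apply vext
  intro k
  rw [hh_coe, mv_diagonal]
  show _ = (Real.exp t)⁻¹ * ee j k
  rcases eq_or_ne k j with rfl | h
  · rw [if_neg hij.symm, if_pos rfl]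
  · rw [ee_ne h, mul_zero, mul_zero]

theorem mv_hh_k {i j k : Fin n} (hij : i ≠ j) (hi : k ≠ i) (hj : k ≠ j) (t : ℝ) :
    mv (hh hij t).1 (ee k) = ee k := by
  apply vext
  intro l
  rw [hh_coe, mv_diagonal]
  rcases eq_or_ne l k with rfl | h
  · rw [if_neg hi, if_neg hj, one_mul]
  · rw [ee_ne h, mul_zero]

/-- **(V)** The derivative at the points `(0, y)` near the origin is the linear action. -/
theorem fderiv_fixed (hn : 3 ≤ n) {a : SLn n → Vn n × F → Vn n × F} (ha : IsSm a) {r : ℝ}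
    (hr : 0 < r) (hK : ∀ k, IsOrth k → ∀ z, ‖z‖ < r → a k z = LL F k.1 z)
    (hlin : ∀ g, fderiv ℝ (a g) 0 = LL F g.1) :
    ∃ δ > 0, δ ≤ r ∧ (∀ y : F, ‖y‖ < δ → ∀ g, a g (0, y) = (0, y)) ∧
      ∀ y : F, ‖y‖ < δ → ∀ g, fderiv ℝ (a g) (0, y) = LL F g.1 := by
  have : Nontrivial (Fin n) := Fin.nontrivial_iff_two_le.2 (by omega)
  obtain ⟨δ₁, hδ₁, hδ₁r, hfix⟩ := fixed_points hn ha hr hK
  -- continuity of the characters at zero
  have hcont0 : ∀ᶠ y : F in 𝓝 0, ∀ (i j : Fin n) (hij : i ≠ j),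
      (1 : ℝ) / 2 < (fderiv ℝ (a (hh hij (Real.log 2))) (0, y) (ee i, 0)).1 i := by
    rw [eventually_all]
    intro i
    rw [eventually_all]
    intro j
    by_cases hij : i ≠ j
    · have h1 : Continuous fun y : F =>
          (fderiv ℝ (a (hh hij (Real.log 2))) (0, y) (ee i, 0)).1 i := by
        have h2 : Continuous (fderiv ℝ (a (hh hij (Real.log 2)))) :=
          (ha.smooth _).continuous_fderiv (by simp)
        have h3 : Continuous fun y : F => fderiv ℝ (a (hh hij (Real.log 2))) (0, y) (ee i, 0) :=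
          (h2.comp (continuous_const.prodMk continuous_id)).clm_apply continuous_const
        exact (PiLp.continuous_apply 2 _ i).comp h3.fst
      have h4 := h1.tendsto 0
      have h5 : (fderiv ℝ (a (hh hij (Real.log 2))) (0, (0 : F)) (ee i, 0)).1 i = 2 := by
        have : ((0, (0 : F)) : Vn n × F) = 0 := rfl
        rw [this, hlin, LL_apply]
        show (mv (hh hij (Real.log 2)).1 (ee i)) i = 2
        rw [mv_hh_i, Real.exp_log two_pos]
        show 2 * ee i i = (2 : ℝ)
        rw [ee_same, mul_one]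
      rw [h5] at h4
      exact (h4.eventually (lt_mem_nhds (by norm_num))).mono fun y hy _ => hy
    · exact Eventually.of_forall fun y h => absurd h hij
  obtain ⟨δ₂, hδ₂, hchar⟩ := Metric.eventually_nhds_iff_ball.1 hcont0
  refine ⟨min δ₁ δ₂, lt_min hδ₁ hδ₂, (min_le_left _ _).trans hδ₁r,
    fun y hy => hfix y (hy.trans_le (min_le_left _ _)), fun y hy => ?_⟩
  have hyδ₁ : ‖y‖ < δ₁ := hy.trans_le (min_le_left _ _)
  have hyδ₂ : y ∈ ball (0 : F) δ₂ := by
    rw [mem_ball_zero_iff]; exact hy.trans_le (min_le_right _ _)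
  have hz : ∀ g, a g (0, y) = (0, y) := hfix y hyδ₁
  set D : SLn n → (Vn n × F →L[ℝ] Vn n × F) := fun g => fderiv ℝ (a g) (0, y) with hD
  have hDmul : ∀ g h, D (g * h) = (D g).comp (D h) := fun g h => fderiv_fix_mul ha hz g h
  have hDone : D 1 = ContinuousLinearMap.id ℝ _ := ha.fderiv_one _
  have hDcont : Continuous D := ha.continuous_fderiv.comp (continuous_id.prodMk continuous_const)
  have hDK : ∀ k, IsOrth k → D k = LL F k.1 := by
    intro k hk
    have h1 : a k =ᶠ[𝓝 ((0, y) : Vn n × F)] LL F k.1 := by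
      have h2 : ‖((0, y) : Vn n × F)‖ < r := by
        rw [Prod.norm_def]
        simp only [norm_zero]
        exact max_lt hr (hyδ₁.trans_le hδ₁r)
      filter_upwards [(continuous_norm.tendsto _).eventually (gt_mem_nhds h2)] with z hz
      exact hK k hk z hz
    rw [hD]
    simp only
    rw [h1.fderiv_eq]
    exact (LL F k.1).fderiv
  have hDF : ∀ g (η : F), D g (0, η) = (0, η) := by
    intro g η
    have h1 : HasFDerivAt (fun y : F => ((0, y) : Vn n × F)) (ContinuousLinearMap.inr ℝ (Vn n) F) y :=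
      hasFDerivAt_prodMk_right 0 y
    have h2 := (ha.diff g (0, y)).hasFDerivAt.comp y h1
    have h3 : (a g ∘ fun y : F => ((0, y) : Vn n × F)) =ᶠ[𝓝 y]
        fun y : F => ((0, y) : Vn n × F) := by
      filter_upwards [(continuous_norm.tendsto y).eventually (gt_mem_nhds hyδ₁)] with y' hy'
      exact hfix y' hy' g
    have h4 := h1.unique (h2.congr_of_eventuallyEq h3.symm)
    exact (DFunLike.congr_fun h4 η).symm
  -- diagonal elements act diagonally
  have hdiag : ∀ (i j : Fin n) (hij : i ≠ j) (t : ℝ) (k : Fin n), D (hh hij t) (ee k, 0) =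
      ((D (hh hij t) (ee k, 0)).1 k) • ((ee k, 0) : Vn n × F) := by
    intro i j hij t k
    refine diag_char hn (fun p q hpq => ?_) k
    rw [← hDK _ (sg_orth hpq), ← hDmul, ← hDmul, diagonal_comm (hh_coe hij t) (sg_coe hpq)]
  -- conjugation by the quarter turn
  have hconj : ∀ (i j : Fin n) (hij : i ≠ j) (t : ℝ),
      (LL F (wt hij).1).comp (D (hh hij t)) = (D (hh hij (-t))).comp (LL F (wt hij).1) := by
    intro i j hij t
    rw [← hDK _ (wt_orth hij), ← hDmul, ← hDmul, wt_hh]
  have hex : ∀ (i j : Fin n) (hij : i ≠ j) (t : ℝ) (k : Fin n), ∃ c : ℝ,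
      D (hh hij t) (ee k, 0) = c • ((ee k, 0) : Vn n × F) ∧
        (D (hh hij t) (ee k, 0)).1 k = c := by
    intro i j hij t k
    exact ⟨_, hdiag i j hij t k, rfl⟩
  have hinv : ∀ (i j : Fin n) (hij : i ≠ j) (t : ℝ) (k : Fin n),
      (D (hh hij t) (ee k, 0)).1 k * (D (hh hij (-t)) (ee k, 0)).1 k = 1 := by
    intro i j hij t k
    obtain ⟨c, hc, hc'⟩ := hex i j hij t k
    obtain ⟨d, hd, hd'⟩ := hex i j hij (-t) k
    have h1 : D (hh hij t) (D (hh hij (-t)) (ee k, 0)) = (ee k, 0) := by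
      have h2 := hDmul (hh hij t) (hh hij (-t))
      rw [← hh_add, add_neg_cancel, hh_zero, hDone] at h2
      exact (DFunLike.congr_fun h2 ((ee k, 0) : Vn n × F)).symm
    rw [hd, map_smul, hc, smul_smul] at h1
    have h2 := congrArg (fun p : Vn n × F => p.1 k) h1
    have h3 : (d * c) * ee k k = ee k k := h2
    rw [ee_same, mul_one] at h3
    rw [hc', hd', mul_comm]
    exact h3
  have hsq : ∀ (i j : Fin n) (hij : i ≠ j) (t : ℝ) (k : Fin n),
      (D (hh hij t) (ee k, 0)).1 k = ((D (hh hij (t / 2)) (ee k, 0)).1 k) ^ 2 := by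
    intro i j hij t k
    obtain ⟨c, hc, hc'⟩ := hex i j hij (t / 2) k
    have h1 : D (hh hij t) (ee k, 0) = D (hh hij (t / 2)) (D (hh hij (t / 2)) (ee k, 0)) := by
      have h2 := hDmul (hh hij (t / 2)) (hh hij (t / 2))
      rw [← hh_add, add_halves] at h2
      rw [h2]
      rfl
    rw [hc, map_smul, hc, smul_smul] at h1
    have h3 := congrArg (fun p : Vn n × F => p.1 k) h1
    have h4 : (D (hh hij t) (ee k, 0)).1 k = (c * c) * ee k k := h3
    rw [h4, ee_same, hc']
    ring
  -- the other characters are trivial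
  have hother : ∀ (i j : Fin n) (hij : i ≠ j) (t : ℝ) (k : Fin n), k ≠ i → k ≠ j →
      (D (hh hij t) (ee k, 0)).1 k = 1 := by
    intro i j hij t k hki hkj
    rw [hsq]
    have hwk : LL F (wt hij).1 (ee k, 0) = (ee k, 0) := by rw [LL_apply, mv_wt_k hij hki hkj]
    obtain ⟨c, hc, hc'⟩ := hex i j hij (t / 2) k
    have h1 := DFunLike.congr_fun (hconj i j hij (t / 2)) ((ee k, 0) : Vn n × F)
    rw [ContinuousLinearMap.comp_apply, ContinuousLinearMap.comp_apply, hwk, hc, map_smul,
      hwk] at h1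
    have h2 := congrArg (fun p : Vn n × F => p.1 k) h1
    have h3 : c * ee k k = (D (hh hij (-(t / 2))) (ee k, 0)).1 k := h2
    rw [ee_same, mul_one] at h3
    have h4 := hinv i j hij (t / 2) k
    rw [← h3, hc'] at h4
    rw [hc', pow_two]
    exact h4
  have hji : ∀ (i j : Fin n) (hij : i ≠ j) (t : ℝ),
      (D (hh hij (-t)) (ee j, 0)).1 j = (D (hh hij t) (ee i, 0)).1 i := by
    intro i j hij t
    have hwi : LL F (wt hij).1 (ee i, 0) = (ee j, 0) := by rw [LL_apply, mv_wt_i hij]
    obtain ⟨c, hc, hc'⟩ := hex i j hij t i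
    have h1 := DFunLike.congr_fun (hconj i j hij t) ((ee i, 0) : Vn n × F)
    rw [ContinuousLinearMap.comp_apply, ContinuousLinearMap.comp_apply, hwi, hc, map_smul,
      hwi] at h1
    have h2 := congrArg (fun p : Vn n × F => p.1 j) h1
    have h3 : c * ee j j = (D (hh hij (-t)) (ee j, 0)).1 j := h2
    rw [ee_same, mul_one] at h3
    rw [hc', h3]
  -- the main character
  have hmain : ∀ (i j : Fin n) (hij : i ≠ j),
      (D (hh hij (Real.log 2)) (ee i, 0)).1 i = 2 ∧
      (D (hh hij (Real.log 2)) (ee j, 0)).1 j = 2⁻¹ := by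
    intro i j hij
    set χ := (D (hh hij (Real.log 2)) (ee i, 0)).1 i with hχ
    have hχj : (D (hh hij (Real.log 2)) (ee j, 0)).1 j = χ⁻¹ := by
      have h1 := hinv i j hij (Real.log 2) j
      rw [hji i j hij] at h1
      exact eq_inv_of_mul_eq_one_left h1
    have hχpos : 0 < χ := by
      have h1 := hinv i j hij (Real.log 2) i
      rw [← hχ] at h1
      have h2 : χ ≠ 0 := by
        intro h
        rw [h, zero_mul] at h1
        exact zero_ne_one h1
      have h3 : 0 ≤ χ := by rw [hχ, hsq]; positivity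
      exact lt_of_le_of_ne h3 h2.symm
    set R := emb hij (rot2 (4 / 17) sn sn_sq) with hR
    have hRo : IsOrth R := rot2_orth _ _ _ hij
    have hDi : D (hh hij (Real.log 2)) (ee i, 0) = χ • ((ee i, 0) : Vn n × F) :=
      hdiag i j hij _ i
    have hDj : D (hh hij (Real.log 2)) (ee j, 0) = χ⁻¹ • ((ee j, 0) : Vn n × F) := by
      rw [hdiag i j hij _ j, hχj]
    have hRi : LL F R.1 (ee i, 0) = (4 / 17 : ℝ) • ((ee i, 0) : Vn n × F) +
        sn • ((ee j, 0) : Vn n × F) := by
      rw [LL_apply, hR, mv_rot_i]; simp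
    have hRj : LL F R.1 (ee j, 0) = (-sn) • ((ee i, 0) : Vn n × F) +
        (4 / 17 : ℝ) • ((ee j, 0) : Vn n × F) := by
      rw [LL_apply, hR, mv_rot_j]; simp
    set g := hh hij (Real.log 2) * R * hh hij (Real.log 2) with hg
    have hg3 : g ^ 3 = sg hij := by
      rw [hg, hh_log_two]; exact order_six hij
    have hDg : D g = (D (hh hij (Real.log 2))).comp ((LL F R.1).comp
        (D (hh hij (Real.log 2)))) := by
      rw [hg, hDmul, hDmul, hDK R hRo]; rfl
    have hgi : D g (ee i, 0) = (4 / 17 * χ ^ 2) • ((ee i, 0) : Vn n × F) +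
        sn • ((ee j, 0) : Vn n × F) := by
      rw [hDg, ContinuousLinearMap.comp_apply, ContinuousLinearMap.comp_apply, hDi, map_smul,
        hRi, map_smul, map_add, map_smul, map_smul, hDi, hDj, smul_add, smul_smul, smul_smul,
        smul_smul, smul_smul]
      congr 2
      · ring
      · field_simp
    have hgj : D g (ee j, 0) = (-sn) • ((ee i, 0) : Vn n × F) +
        (4 / 17 * (χ⁻¹) ^ 2) • ((ee j, 0) : Vn n × F) := by
      rw [hDg, ContinuousLinearMap.comp_apply, ContinuousLinearMap.comp_apply, hDj, map_smul,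
        hRj, map_smul, map_add, map_smul, map_smul, hDi, hDj, smul_add, smul_smul, smul_smul,
        smul_smul, smul_smul]
      congr 2
      · field_simp
      · ring
    have hg3' : D g (D g (D g (ee i, 0))) = -((ee i, 0) : Vn n × F) := by
      have h1 : D (g ^ 3) = (D g).comp ((D g).comp (D g)) := by
        rw [pow_succ, pow_two, hDmul, hDmul]; rfl
      have h2 : D (g ^ 3) (ee i, 0) = -((ee i, 0) : Vn n × F) := by
        rw [hg3, hDK _ (sg_orth hij), LL_apply]
        refine Prod.ext ?_ (by simp)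
        apply vext
        intro k
        show mv (sg hij).1 (ee i) k = - (ee i k)
        rw [sg_coe, mv_diagonal]
        rcases eq_or_ne k i with rfl | h
        · rw [if_pos (Or.inl rfl)]; ring
        · rw [ee_ne h]; ring
      rw [h1] at h2
      exact h2
    have hcoord : sn * ((4 / 17 * χ ^ 2) ^ 2 - sn ^ 2 + (4 / 17 * χ ^ 2) * (4 / 17 * (χ⁻¹) ^ 2) +
        (4 / 17 * (χ⁻¹) ^ 2) ^ 2) = 0 := by
      rw [hgi, map_add, map_smul, map_smul, hgi, hgj, map_add, map_smul, map_smul, map_add,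
        map_smul, map_smul, map_add, map_smul, map_smul, hgi, hgj] at hg3'
      have h2 := congrArg (fun p : Vn n × F => p.1 j) hg3'
      simp only [Prod.fst_add, Prod.smul_fst, Prod.fst_neg, PiLp.add_apply, PiLp.smul_apply,
        PiLp.neg_apply, smul_eq_mul, ee_same, ee_ne hij.symm] at h2
      linarith
    have hχ2 := quad_lemma rfl sn_sq sn_ne hχpos hcoord
    have hgt : (1 : ℝ) / 2 < χ := hchar y hyδ₂ i j hij
    have hχ3 : χ = 2 := by
      rcases hχ2 with h | h
      · exact h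
      · exact absurd h hgt.ne'
    exact ⟨hχ3, by rw [hχj, hχ3]⟩
  -- conclusion
  let S : Subgroup (SLn n) :=
    { carrier := {g | D g = LL F g.1}
      mul_mem' := fun {g h} hg hh => by
        show D (g * h) = LL F (g * h).1
        rw [hDmul, show D g = _ from hg, show D h = _ from hh,
          Matrix.SpecialLinearGroup.coe_mul, LL_mul]
      one_mem' := by
        show D 1 = LL F (1 : SLn n).1
        rw [hDone, Matrix.SpecialLinearGroup.coe_one, LL_one]
      inv_mem' := fun {g} hg => by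
        show D g⁻¹ = LL F (g⁻¹).1
        have h1 : (LL F g.1).comp (LL F (g⁻¹).1) = ContinuousLinearMap.id ℝ _ := by
          rw [← LL_mul, ← Matrix.SpecialLinearGroup.coe_mul, mul_inv_cancel,
            Matrix.SpecialLinearGroup.coe_one, LL_one]
        have h2 : (D g⁻¹).comp (LL F g.1) = ContinuousLinearMap.id ℝ _ := by
          rw [← show D g = LL F g.1 from hg, ← hDmul, inv_mul_cancel, hDone]
        calc D g⁻¹ = (D g⁻¹).comp ((LL F g.1).comp (LL F (g⁻¹).1)) := by
              rw [h1]; rfl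
          _ = ((D g⁻¹).comp (LL F g.1)).comp (LL F (g⁻¹).1) := rfl
          _ = LL F (g⁻¹).1 := by rw [h2]; rfl }
  have hS : IsClosed (S : Set (SLn n)) := by
    have h1 : Continuous fun g : SLn n => g.1 := continuous_SL_iff.1 continuous_id
    exact isClosed_eq hDcont (continuous_LL.comp h1)
  have htop : S = ⊤ := closed_subgroup_eq_top S hS (fun g hg => hDK g hg) (fun i j hij => by
    rw [← hh_log_two]
    show D (hh hij (Real.log 2)) = LL F (hh hij (Real.log 2)).1
    refine prod_ext (fun k => ?_) (fun η => ?_)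
    · rw [hdiag i j hij _ k, LL_apply]
      rcases eq_or_ne k i with rfl | hki
      · rw [(hmain k j hij).1, mv_hh_i, Real.exp_log two_pos]; simp
      · rcases eq_or_ne k j with rfl | hkj
        · rw [(hmain i k hij).2, mv_hh_j, Real.exp_log two_pos]; simp
        · rw [hother i j hij _ k hki hkj, mv_hh_k hij hki hkj, one_smul]
    · rw [hDF, LL_zero_left])
  intro g
  have : g ∈ S := by rw [htop]; trivial
  exact this

end deriv

end Pool.Agent.H812
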