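import Mathlib

/-!
Generation of `SL(n, ℝ)`: block embeddings of `SL(2)`, transvections, closed subgroups.
-/

set_option autoImplicit false

namespace Pool.Agent.H812

open Matrix Matrix.SpecialLinearGroup Topology Filter

section emb

variable {ι F : Type*} [Fintype ι] [DecidableEq ι] [Field F]

/-- the `ι × 2` matrix with columns `e_i`, `e_j` -/
def JJ (F : Type*) [Field F] (i j : ι) : Matrix ι (Fin 2) F :=
  Matrix.of fun a p => if a = (![i, j] : Fin 2 → ι) p then 1 else 0

theorem JJ_zero (i j a : ι) : JJ F i j a 0 = if a = i then 1 else 0 := rfl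

theorem JJ_one (i j a : ι) : JJ F i j a 1 = if a = j then 1 else 0 := rfl

theorem JJ_tr_mul {i j : ι} (hij : i ≠ j) : (JJ F i j)ᵀ * JJ F i j = 1 := by
  ext p q
  rw [Matrix.mul_apply]
  simp only [Matrix.transpose_apply]
  fin_cases p <;> fin_cases q <;> simp [JJ_zero, JJ_one, hij, hij.symm]

/-- block embedding of `2 × 2` matrices at the positions `i, j` -/
def embM (i j : ι) (M : Matrix (Fin 2) (Fin 2) F) : Matrix ι ι F :=
  1 + JJ F i j * ((M - 1) * (JJ F i j)ᵀ)

theorem embM_one (i j : ι) : embM i j (1 : Matrix (Fin 2) (Fin 2) F) = 1 := by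
  simp [embM]

theorem embM_mul {i j : ι} (hij : i ≠ j) (M N : Matrix (Fin 2) (Fin 2) F) :
    embM i j (M * N) = embM i j M * embM i j N := by
  unfold embM
  set J := JJ F i j with hJ
  have h : Jᵀ * J = 1 := JJ_tr_mul hij
  have e1 : J * ((M - 1) * Jᵀ) * (J * ((N - 1) * Jᵀ)) = J * (((M - 1) * (N - 1)) * Jᵀ) := by
    calc J * ((M - 1) * Jᵀ) * (J * ((N - 1) * Jᵀ))
        = J * ((M - 1) * (Jᵀ * J) * (N - 1) * Jᵀ) := by simp only [Matrix.mul_assoc]
      _ = _ := by rw [h, Matrix.mul_one]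
  have e2 : M * N - 1 = (M - 1) + (N - 1) + (M - 1) * (N - 1) := by noncomm_ring
  have e3 : ∀ X Y : Matrix ι ι F, (1 + X) * (1 + Y) = 1 + (X + Y + X * Y) := by
    intro X Y; noncomm_ring
  rw [e2, e3, e1, Matrix.add_mul, Matrix.add_mul, Matrix.mul_add, Matrix.mul_add]

theorem embM_det {i j : ι} (hij : i ≠ j) (M : Matrix (Fin 2) (Fin 2) F) :
    (embM i j M).det = M.det := by
  unfold embM
  rw [Matrix.det_one_add_mul_comm, Matrix.mul_assoc, JJ_tr_mul hij, Matrix.mul_one]
  congr 1
  abel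

theorem embM_transpose (i j : ι) (M : Matrix (Fin 2) (Fin 2) F) :
    (embM i j M)ᵀ = embM i j Mᵀ := by
  unfold embM
  rw [Matrix.transpose_add, Matrix.transpose_mul, Matrix.transpose_mul, Matrix.transpose_transpose,
    Matrix.transpose_sub, Matrix.transpose_one, Matrix.mul_assoc]
  simp

/-- block embedding of `SL(2)` -/
def emb {i j : ι} (hij : i ≠ j) : SpecialLinearGroup (Fin 2) F →* SpecialLinearGroup ι F where
  toFun M := ⟨embM i j M.1, by rw [embM_det hij]; exact M.2⟩
  map_one' := Subtype.ext (embM_one i j)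
  map_mul' M N := Subtype.ext (embM_mul hij M.1 N.1)

theorem emb_coe {i j : ι} (hij : i ≠ j) (M : SpecialLinearGroup (Fin 2) F) :
    (emb hij M).1 = embM i j M.1 := rfl

theorem embM_apply (i j : ι) (M : Matrix (Fin 2) (Fin 2) F) (a b : ι) :
    embM i j M a b = (if a = b then 1 else 0) +
      ((if a = i then 1 else 0) * (M 0 0 - 1) * (if b = i then 1 else 0) +
       (if a = i then 1 else 0) * (M 0 1) * (if b = j then 1 else 0) +
       (if a = j then 1 else 0) * (M 1 0) * (if b = i then 1 else 0) +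
       (if a = j then 1 else 0) * (M 1 1 - 1) * (if b = j then 1 else 0)) := by
  unfold embM
  rw [Matrix.add_apply, Matrix.one_apply, Matrix.mul_apply, Fin.sum_univ_two, Matrix.mul_apply,
    Matrix.mul_apply, Fin.sum_univ_two, Fin.sum_univ_two]
  simp only [Matrix.transpose_apply, Matrix.sub_apply, JJ_zero, JJ_one]
  rw [Matrix.one_apply_eq, Matrix.one_apply_eq, Matrix.one_apply_ne zero_ne_one,
    Matrix.one_apply_ne one_ne_zero]
  ring

theorem emb_transvection {i j : ι} (hij : i ≠ j) (b : F) :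
    emb hij (transvection (zero_ne_one (α := Fin 2)) b) = transvection hij b := by
  apply Subtype.ext
  rw [emb_coe, transvection_coe, transvection_coe]
  ext x y
  rw [embM_apply, Matrix.add_apply, Matrix.one_apply, Matrix.single_apply]
  simp only [Matrix.add_apply, Matrix.one_apply, Matrix.single_apply]
  rcases eq_or_ne x i with rfl | h1 <;> rcases eq_or_ne y j with rfl | h2 <;>
    simp_all [Ne.symm]

theorem emb_transvection' {i j : ι} (hij : i ≠ j) (b : F) :
    emb hij (transvection (one_ne_zero (α := Fin 2)) b) = transvection hij.symm b := by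
  apply Subtype.ext
  rw [emb_coe, transvection_coe, transvection_coe]
  ext x y
  rw [embM_apply, Matrix.add_apply, Matrix.one_apply, Matrix.single_apply]
  simp only [Matrix.add_apply, Matrix.one_apply, Matrix.single_apply]
  rcases eq_or_ne x j with rfl | h1 <;> rcases eq_or_ne y i with rfl | h2 <;>
    simp_all [Ne.symm]

theorem emb_diag2 {i j : ι} (hij : i ≠ j) (a : F) (ha : a ≠ 0) :
    emb hij (diag2 a ha) = diag2n hij a ha := by
  apply Subtype.ext
  rw [emb_coe, diag2_coe', diag2n_coe]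
  ext x y
  rw [embM_apply, Matrix.diagonal_apply]
  by_cases hxy : x = y
  · subst hxy
    by_cases h1 : x = i
    · subst h1; simp [hij]
    · by_cases h2 : x = j
      · subst h2; simp [h1]
      · simp [h1, h2]
  · by_cases h1 : x = i
    · subst h1
      have h3 : ¬ y = x := fun h => hxy h.symm
      simp [hxy, h3, hij]
    · by_cases h2 : x = j
      · subst h2
        have h3 : ¬ y = x := fun h => hxy h.symm
        simp [hxy, h3, h1]
      · simp [hxy, h1, h2]

theorem transvection_ind [Nontrivial ι] (P : SpecialLinearGroup ι F → Prop)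
    (h1 : ∀ (i j : ι) (hij : i ≠ j) (a : F), P (transvection hij a))
    (h2 : ∀ A B, P A → P B → P (A * B)) (M : SpecialLinearGroup ι F) : P M := by
  refine diagonal_transvection_induction' P M (fun i j hij c hc => ?_) h1 h2
  rw [← emb_diag2 hij c hc, diag2_decompose]
  simp only [map_mul, emb_transvection, emb_transvection']
  exact h2 _ _ (h2 _ _ (h2 _ _ (h2 _ _ (h2 _ _ (h1 _ _ _ _) (h1 _ _ _ _)) (h1 _ _ _ _))
    (h1 _ _ _ _)) (h1 _ _ _ _)) (h1 _ _ _ _)

theorem subgroup_eq_top_of_transvections [Nontrivial ι] (S : Subgroup (SpecialLinearGroup ι F))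
    (h1 : ∀ (i j : ι) (hij : i ≠ j) (a : F), transvection hij a ∈ S) : S = ⊤ := by
  rw [eq_top_iff]
  intro M _
  exact transvection_ind (fun M => M ∈ S) h1 (fun A B hA hB => S.mul_mem hA hB) M

end emb

section closed

variable {ι : Type*} [Fintype ι] [DecidableEq ι]

/-- planar rotation with cosine `c` and sine `s` -/
def rot2 (c s : ℝ) (h : c ^ 2 + s ^ 2 = 1) : SpecialLinearGroup (Fin 2) ℝ :=
  ⟨!![c, -s; s, c], by rw [Matrix.det_fin_two_of]; linarith⟩

/-- special orthogonal matrices -/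
def IsOrth (g : SpecialLinearGroup ι ℝ) : Prop := g.1 * g.1ᵀ = 1

theorem rot2_orth (c s : ℝ) (h : c ^ 2 + s ^ 2 = 1) {i j : ι} (hij : i ≠ j) :
    IsOrth (emb hij (rot2 c s h)) := by
  unfold IsOrth
  rw [emb_coe, embM_transpose, ← embM_mul hij]
  have : (rot2 c s h).1 * (rot2 c s h).1ᵀ = 1 := by
    ext p q
    fin_cases p <;> fin_cases q <;> simp [rot2, Matrix.mul_apply, Fin.sum_univ_two] <;> linarith
  rw [this, embM_one]

theorem continuous_SL_iff {X : Type*} [TopologicalSpace X] {f : X → SpecialLinearGroup ι ℝ} :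
    Continuous f ↔ Continuous fun x => (f x).1 :=
  isClosedEmbedding_val.isEmbedding.continuous_iff

theorem tendsto_SL_iff {X : Type*} {l : Filter X} {f : X → SpecialLinearGroup ι ℝ}
    {g : SpecialLinearGroup ι ℝ} : Tendsto f l (𝓝 g) ↔ Tendsto (fun x => (f x).1) l (𝓝 g.1) :=
  isClosedEmbedding_val.isEmbedding.tendsto_nhds_iff

theorem continuous_emb {i j : ι} (hij : i ≠ j) :
    Continuous (emb hij : SpecialLinearGroup (Fin 2) ℝ → SpecialLinearGroup ι ℝ) := by
  rw [continuous_SL_iff]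
  have h1 : Continuous fun M : SpecialLinearGroup (Fin 2) ℝ => M.1 :=
    continuous_SL_iff.1 continuous_id
  show Continuous fun M : SpecialLinearGroup (Fin 2) ℝ => embM i j M.1
  unfold embM
  exact continuous_const.add (continuous_const.matrix_mul
    ((h1.sub continuous_const).matrix_mul continuous_const))

/-- A closed subgroup which contains the rotations and the matrices `diag(2, 1/2)` is
everything. -/
theorem closed_subgroup_eq_top [Nontrivial ι] (S : Subgroup (SpecialLinearGroup ι ℝ))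
    (hS : IsClosed (S : Set (SpecialLinearGroup ι ℝ)))
    (h1 : ∀ g : SpecialLinearGroup ι ℝ, IsOrth g → g ∈ S)
    (h2 : ∀ (i j : ι) (hij : i ≠ j), diag2n hij (2 : ℝ) two_ne_zero ∈ S) : S = ⊤ := by
  refine subgroup_eq_top_of_transvections S fun i j hij s => ?_
  rw [← emb_transvection]
  -- the approximating sequence
  let σ : ℕ → ℝ := fun k => - s / 4 ^ k
  have hσ : Tendsto σ atTop (𝓝 0) := by
    have : Tendsto (fun k : ℕ => (4 : ℝ) ^ k) atTop atTop :=
      tendsto_pow_atTop_atTop_of_one_lt (by norm_num)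
    exact this.const_div_atTop (-s)
  have hev : ∀ᶠ k in atTop, (σ k) ^ 2 ≤ 1 := by
    have h3 : Tendsto (fun k => (σ k) ^ 2) atTop (𝓝 (0 ^ 2)) := hσ.pow 2
    have h4 : (0 : ℝ) ^ 2 < 1 := by norm_num
    exact (h3.eventually (gt_mem_nhds h4)).mono fun k hk => le_of_lt hk
  let c : ℕ → ℝ := fun k => Real.sqrt (1 - (σ k) ^ 2)
  have hc : Tendsto c atTop (𝓝 1) := by
    have h3 : Tendsto (fun k => 1 - (σ k) ^ 2) atTop (𝓝 (1 - 0 ^ 2)) := (hσ.pow 2).const_sub 1
    have h4 := (Real.continuous_sqrt.tendsto _).comp h3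
    rw [show Real.sqrt (1 - (0 : ℝ) ^ 2) = 1 by norm_num] at h4
    exact h4
  -- the matrices
  let M : ℕ → SpecialLinearGroup (Fin 2) ℝ := fun k =>
    if h : (c k) ^ 2 + (σ k) ^ 2 = 1 then
      (diag2 (2 : ℝ) two_ne_zero) ^ k * rot2 (c k) (σ k) h * ((diag2 (2 : ℝ) two_ne_zero) ^ k)⁻¹
    else 1
  have hd : ∀ k : ℕ, ((diag2 (2 : ℝ) two_ne_zero) ^ k).1 = !![2 ^ k, 0; 0, (2 ^ k)⁻¹] := by
    intro k
    induction k with
    | zero => ext p q; fin_cases p <;> fin_cases q <;> simp
    | succ k ih =>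
      rw [pow_succ, Matrix.SpecialLinearGroup.coe_mul, ih, diag2_coe']
      ext p q
      fin_cases p <;> fin_cases q <;> simp [pow_succ, mul_comm]
  have hdi : ∀ k : ℕ, ((diag2 (2 : ℝ) two_ne_zero) ^ k)⁻¹.1 = !![(2 ^ k)⁻¹, 0; 0, 2 ^ k] := by
    intro k
    rw [Matrix.SpecialLinearGroup.coe_inv, hd, Matrix.adjugate_fin_two_of]
    ext p q
    fin_cases p <;> fin_cases q <;> simp
  have hM : ∀ᶠ k in atTop, (M k).1 = !![c k, s; σ k / 4 ^ k, c k] := by
    filter_upwards [hev] with k hk
    have h5 : (c k) ^ 2 + (σ k) ^ 2 = 1 := by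
      show Real.sqrt (1 - (σ k) ^ 2) ^ 2 + (σ k) ^ 2 = 1
      rw [Real.sq_sqrt (by linarith)]
      ring
    have h6 : M k = (diag2 (2 : ℝ) two_ne_zero) ^ k * rot2 (c k) (σ k) h5 *
      ((diag2 (2 : ℝ) two_ne_zero) ^ k)⁻¹ := dif_pos h5
    rw [h6, Matrix.SpecialLinearGroup.coe_mul, Matrix.SpecialLinearGroup.coe_mul, hd, hdi]
    have h7 : (4 : ℝ) ^ k = 2 ^ k * 2 ^ k := by rw [← mul_pow]; norm_num
    have h8 : (2 : ℝ) ^ k ≠ 0 := by positivity
    have h9 : σ k = - s / (2 ^ k * 2 ^ k) := by rw [← h7]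
    rw [h7]
    ext p q
    fin_cases p <;> fin_cases q <;>
      simp [rot2, Matrix.mul_apply, Fin.sum_univ_two]
    · field_simp
    · rw [h9]; field_simp
    · field_simp
    · field_simp
  have hlim : Tendsto (fun k => emb hij (M k)) atTop
      (𝓝 (emb hij (transvection (zero_ne_one (α := Fin 2)) s))) := by
    refine ((continuous_emb hij).tendsto _).comp ?_
    rw [tendsto_SL_iff]
    refine Tendsto.congr' (f₁ := fun k => !![c k, s; σ k / 4 ^ k, c k]) ?_ ?_
    · filter_upwards [hM] with k hk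
      exact hk.symm
    · have h10 : (transvection (zero_ne_one (α := Fin 2)) s).1 = !![1, s; 0, 1] := by
        rw [transvection_coe]
        ext p q
        fin_cases p <;> fin_cases q <;> simp
      rw [h10]
      refine tendsto_pi_nhds.2 fun p => tendsto_pi_nhds.2 fun q => ?_
      have h11 : Tendsto (fun k : ℕ => σ k / 4 ^ k) atTop (𝓝 0) := by
        have h12 : Tendsto (fun k : ℕ => ((4 : ℝ) ^ k)⁻¹) atTop (𝓝 0) :=
          tendsto_inv_atTop_zero.comp (tendsto_pow_atTop_atTop_of_one_lt (by norm_num))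
        have := hσ.mul h12
        simpa [div_eq_mul_inv] using this
      fin_cases p <;> fin_cases q
      · simpa using hc
      · simpa using tendsto_const_nhds
      · simpa using h11
      · simpa using hc
  refine hS.mem_of_tendsto hlim (Eventually.of_forall fun k => ?_)
  show emb hij (M k) ∈ S
  by_cases h : (c k) ^ 2 + (σ k) ^ 2 = 1
  · have h6 : M k = (diag2 (2 : ℝ) two_ne_zero) ^ k * rot2 (c k) (σ k) h *
      ((diag2 (2 : ℝ) two_ne_zero) ^ k)⁻¹ := dif_pos h
    rw [h6, map_mul, map_mul, map_inv, map_pow, emb_diag2]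
    exact S.mul_mem (S.mul_mem (S.pow_mem (h2 i j hij) k) (h1 _ (rot2_orth _ _ _ hij)))
      (S.inv_mem (S.pow_mem (h2 i j hij) k))
  · have h6 : M k = 1 := dif_neg h
    rw [h6, map_one]
    exact S.one_mem

end closed

end Pool.Agent.H812
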