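import Mathlib

/-!
Joint continuity of the derivatives of a continuous action by smooth maps.
-/

set_option autoImplicit false

namespace Pool.Agent.H812

open Topology Filter Metric Set
open scoped ContDiff

/-- a continuous action of a topological group by smooth maps -/
structure IsSm {G : Type*} [Group G] [TopologicalSpace G] {E : Type*} [NormedAddCommGroup E]
    [NormedSpace ℝ E] (a : G → E → E) : Prop where
  one : ∀ x, a 1 x = x
  mul : ∀ g h x, a (g * h) x = a g (a h x)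
  cont : Continuous fun p : G × E => a p.1 p.2
  smooth : ∀ g, ContDiff ℝ ∞ (a g)

section quot

variable {E F : Type*} [NormedAddCommGroup E] [NormedSpace ℝ E] [FiniteDimensional ℝ E]
  [NormedAddCommGroup F] [NormedSpace ℝ F]

theorem exists_quot_bound (f : E → F) (hf : ContDiff ℝ 1 f) (u : E) (R ε : ℝ) (hε : 0 < ε) :
    ∃ δ > 0, ∀ x, ‖x‖ ≤ R → ∀ s : ℝ, 0 < s → s ≤ δ →
      ‖s⁻¹ • (f (x + s • u) - f x) - fderiv ℝ f x u‖ ≤ ε := by
  have hd : Differentiable ℝ f := hf.differentiable one_ne_zero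
  have hc : Continuous (fderiv ℝ f) := hf.continuous_fderiv one_ne_zero
  have hu : UniformContinuousOn (fderiv ℝ f) (closedBall (0 : E) (R + ‖u‖)) :=
    (isCompact_closedBall _ _).uniformContinuousOn_of_continuous hc.continuousOn
  rw [Metric.uniformContinuousOn_iff] at hu
  have hU : 0 < ‖u‖ + 1 := by positivity
  obtain ⟨δ', hδ', h⟩ := hu (ε / (‖u‖ + 1)) (by positivity)
  refine ⟨min 1 (δ' / (2 * (‖u‖ + 1))), by positivity, fun x hx s hs0 hs => ?_⟩
  have hs1 : s ≤ 1 := hs.trans (min_le_left _ _)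
  have hs2 : s * ‖u‖ < δ' := by
    have h1 : s ≤ δ' / (2 * (‖u‖ + 1)) := hs.trans (min_le_right _ _)
    have h2 : s * ‖u‖ ≤ δ' / (2 * (‖u‖ + 1)) * (‖u‖ + 1) := by
      apply mul_le_mul h1 (by linarith) (norm_nonneg _) (by positivity)
    have h3 : δ' / (2 * (‖u‖ + 1)) * (‖u‖ + 1) = δ' / 2 := by field_simp
    linarith
  have hs3 : s * ‖u‖ ≤ ‖u‖ := by nlinarith [norm_nonneg u]
  have key : ‖f (x + s • u) - f x - fderiv ℝ f x (x + s • u - x)‖ ≤
      ε / (‖u‖ + 1) * ‖x + s • u - x‖ := by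
    refine Convex.norm_image_sub_le_of_norm_fderiv_le' (𝕜 := ℝ) (s := closedBall x (s * ‖u‖))
      (fun z _ => hd z) (fun z hz => ?_) (convex_closedBall _ _)
      (mem_closedBall_self (by positivity)) ?_
    · have hz' : dist z x ≤ s * ‖u‖ := hz
      have h1 : z ∈ closedBall (0 : E) (R + ‖u‖) := by
        rw [mem_closedBall_zero_iff]
        have : ‖z‖ ≤ ‖z - x‖ + ‖x‖ := by simpa using norm_add_le (z - x) x
        rw [dist_eq_norm] at hz'
        linarith
      have h2 : x ∈ closedBall (0 : E) (R + ‖u‖) := by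
        rw [mem_closedBall_zero_iff]
        linarith [norm_nonneg u]
      have h3 := h z h1 x h2 (lt_of_le_of_lt hz' hs2)
      rw [dist_eq_norm] at h3
      exact h3.le
    · rw [mem_closedBall, dist_eq_norm, add_sub_cancel_left, norm_smul, Real.norm_eq_abs,
        abs_of_pos hs0]
  rw [add_sub_cancel_left, map_smul, norm_smul, Real.norm_eq_abs, abs_of_pos hs0] at key
  have h4 : s⁻¹ • (f (x + s • u) - f x) - fderiv ℝ f x u =
      s⁻¹ • (f (x + s • u) - f x - s • fderiv ℝ f x u) := by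
    rw [smul_sub s⁻¹ (f (x + s • u) - f x), smul_smul, inv_mul_cancel₀ hs0.ne', one_smul]
  rw [h4, norm_smul, norm_inv, Real.norm_eq_abs, abs_of_pos hs0]
  have h5 : s⁻¹ * ‖f (x + s • u) - f x - s • fderiv ℝ f x u‖ ≤
      s⁻¹ * (ε / (‖u‖ + 1) * (s * ‖u‖)) := by
    apply mul_le_mul_of_nonneg_left key (by positivity)
  have h6 : s⁻¹ * (ε / (‖u‖ + 1) * (s * ‖u‖)) = ε * (‖u‖ / (‖u‖ + 1)) := by
    field_simp
  have h7 : ‖u‖ / (‖u‖ + 1) ≤ 1 := by
    rw [div_le_one hU]; linarith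
  calc _ ≤ ε * (‖u‖ / (‖u‖ + 1)) := by rw [← h6]; exact h5
    _ ≤ ε * 1 := by apply mul_le_mul_of_nonneg_left h7 hε.le
    _ = ε := mul_one _

end quot

section joint

variable {G : Type*} [TopologicalSpace G] {E F : Type*} [NormedAddCommGroup E] [NormedSpace ℝ E]
  [FiniteDimensional ℝ E] [NormedAddCommGroup F] [NormedSpace ℝ F]

/-- the set of the parameters with uniformly close difference quotients -/
def AA (a : G → E → F) (u : E) (j N : ℕ) : Set G :=
  {g | ∀ x : E, ‖x‖ ≤ j → ∀ s t : ℝ, 0 < s → s ≤ 1 / ((N : ℝ) + 1) → 0 < t →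
    t ≤ 1 / ((N : ℝ) + 1) →
    ‖s⁻¹ • (a g (x + s • u) - a g x) - t⁻¹ • (a g (x + t • u) - a g x)‖ ≤ 1 / ((j : ℝ) + 1)}

omit [FiniteDimensional ℝ E] in
theorem AA_closed (a : G → E → F) (hc : Continuous fun p : G × E => a p.1 p.2) (u : E)
    (j N : ℕ) : IsClosed (AA a u j N) := by
  unfold AA
  simp only [Set.ofPred_forall]
  refine isClosed_iInter fun x => isClosed_iInter fun _ => isClosed_iInter fun s =>
    isClosed_iInter fun t => isClosed_iInter fun _ => isClosed_iInter fun _ =>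
    isClosed_iInter fun _ => isClosed_iInter fun _ => isClosed_le ?_ continuous_const
  have h : ∀ y : E, Continuous fun g => a g y := fun y =>
    hc.comp (continuous_id.prodMk continuous_const)
  exact ((((h _).sub (h _)).const_smul _).sub (((h _).sub (h _)).const_smul _)).norm

omit [TopologicalSpace G] in
theorem AA_cover (a : G → E → F) (hs : ∀ g, ContDiff ℝ 1 (a g)) (u : E) (j : ℕ) :
    ⋃ N, AA a u j N = univ := by
  refine eq_univ_of_forall fun g => ?_
  rw [mem_iUnion]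
  obtain ⟨δ, hδ, h⟩ := exists_quot_bound (a g) (hs g) u j (1 / (2 * ((j : ℝ) + 1)))
    (by positivity)
  obtain ⟨N, hN⟩ := exists_nat_one_div_lt hδ
  refine ⟨N, fun x hx s t hs0 hs ht0 ht => ?_⟩
  have h1 := h x hx s hs0 (hs.trans hN.le)
  have h2 := h x hx t ht0 (ht.trans hN.le)
  have h3 : s⁻¹ • (a g (x + s • u) - a g x) - t⁻¹ • (a g (x + t • u) - a g x) =
      (s⁻¹ • (a g (x + s • u) - a g x) - fderiv ℝ (a g) x u) -
      (t⁻¹ • (a g (x + t • u) - a g x) - fderiv ℝ (a g) x u) := by abel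
  rw [h3]
  refine (norm_sub_le _ _).trans ((add_le_add h1 h2).trans (le_of_eq ?_))
  field_simp
  norm_num

theorem exists_good [BaireSpace G] [Nonempty G] (a : G → E → F)
    (hc : Continuous fun p : G × E => a p.1 p.2) (hs : ∀ g, ContDiff ℝ 1 (a g)) (u : E) :
    ∃ g₀, ∀ x, ContinuousAt (fun p : G × E => fderiv ℝ (a p.1) p.2 u) (g₀, x) := by
  have h1 : Dense (⋂ j : ℕ, ⋃ N : ℕ, interior (AA a u j N)) := by
    refine dense_iInter_of_isOpen_nat (fun j => isOpen_iUnion fun N => isOpen_interior)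
      fun j => ?_
    exact dense_iUnion_interior_of_closed (fun N => AA_closed a hc u j N) (AA_cover a hs u j)
  obtain ⟨g₀, hg₀⟩ := h1.nonempty
  rw [mem_iInter] at hg₀
  refine ⟨g₀, fun x => ?_⟩
  rw [Metric.continuousAt_iff'] 
  intro ε hε
  obtain ⟨j1, hj1⟩ := exists_nat_one_div_lt (show 0 < ε / 4 by positivity)
  obtain ⟨j2, hj2⟩ := exists_nat_ge (‖x‖ + 1)
  set j := max j1 j2 with hj
  have hje : 1 / ((j : ℝ) + 1) < ε / 4 := by
    refine lt_of_le_of_lt ?_ hj1
    apply one_div_le_one_div_of_le (by positivity)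
    have : (j1 : ℝ) ≤ j := by exact_mod_cast le_max_left _ _
    linarith
  have hjx : ‖x‖ + 1 ≤ j := hj2.trans (by exact_mod_cast le_max_right _ _)
  obtain ⟨N, hN⟩ := mem_iUnion.1 (hg₀ j)
  set s : ℝ := 1 / ((N : ℝ) + 1) with hsdef
  have hs0 : 0 < s := by positivity
  -- the derivative is close to the difference quotient
  have key : ∀ g ∈ AA a u j N, ∀ y : E, ‖y‖ ≤ j →
      ‖s⁻¹ • (a g (y + s • u) - a g y) - fderiv ℝ (a g) y u‖ ≤ ε / 4 := by
    intro g hg y hy
    refine le_trans ?_ hje.le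
    refine le_of_forall_pos_le_add fun η hη => ?_
    obtain ⟨δ, hδ, h⟩ := exists_quot_bound (a g) (hs g) u j η hη
    have ht0 : 0 < min δ s := lt_min hδ hs0
    have h2 := h y hy (min δ s) ht0 (min_le_left _ _)
    have h3 := hg y hy s (min δ s) hs0 le_rfl ht0 (min_le_right _ _)
    have h4 : s⁻¹ • (a g (y + s • u) - a g y) - fderiv ℝ (a g) y u =
      (s⁻¹ • (a g (y + s • u) - a g y) -
        (min δ s)⁻¹ • (a g (y + (min δ s) • u) - a g y)) +
      ((min δ s)⁻¹ • (a g (y + (min δ s) • u) - a g y) - fderiv ℝ (a g) y u) := by abel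
    rw [h4]
    exact (norm_add_le _ _).trans (add_le_add h3 h2)
  have hq : ContinuousAt (fun p : G × E => s⁻¹ • (a p.1 (p.2 + s • u) - a p.1 p.2)) (g₀, x) := by
    have h5 : Continuous (fun p : G × E => s⁻¹ • (a p.1 (p.2 + s • u) - a p.1 p.2)) := by
      have h6 : Continuous fun p : G × E => a p.1 (p.2 + s • u) :=
        hc.comp (continuous_fst.prodMk (continuous_snd.add continuous_const))
      exact (h6.sub hc).const_smul _
    exact h5.continuousAt
  rw [Metric.continuousAt_iff'] at hq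
  have h7 := hq (ε / 4) (by positivity)
  have h8 : ∀ᶠ p : G × E in 𝓝 (g₀, x), p.1 ∈ AA a u j N := by
    have : ∀ᶠ g in 𝓝 g₀, g ∈ AA a u j N := mem_interior_iff_mem_nhds.1 hN
    exact (continuous_fst.tendsto (g₀, x)).eventually this
  have h9 : ∀ᶠ p : G × E in 𝓝 (g₀, x), ‖p.2‖ ≤ j := by
    have h10 : ∀ᶠ y in 𝓝 x, ‖y‖ < ‖x‖ + 1 :=
      (continuous_norm.tendsto x).eventually (gt_mem_nhds (lt_add_one _))
    exact ((continuous_snd.tendsto (g₀, x)).eventually h10).mono fun p hp => hp.le.trans hjx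
  filter_upwards [h7, h8, h9] with p h7 h8 h9
  have h11 := key p.1 h8 p.2 h9
  have h12 := key g₀ (interior_subset hN) x (by linarith)
  rw [dist_eq_norm] at h7 ⊢
  have h13 : fderiv ℝ (a p.1) p.2 u - fderiv ℝ (a g₀) x u =
    - (s⁻¹ • (a p.1 (p.2 + s • u) - a p.1 p.2) - fderiv ℝ (a p.1) p.2 u) +
    (s⁻¹ • (a p.1 (p.2 + s • u) - a p.1 p.2) - s⁻¹ • (a g₀ (x + s • u) - a g₀ x)) +
    (s⁻¹ • (a g₀ (x + s • u) - a g₀ x) - fderiv ℝ (a g₀) x u) := by abel
  show ‖fderiv ℝ (a p.1) p.2 u - fderiv ℝ (a g₀) x u‖ < ε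
  rw [h13]
  refine lt_of_le_of_lt (norm_add₃_le) ?_
  rw [norm_neg]
  linarith

end joint

section action

variable {G : Type*} [Group G] [TopologicalSpace G] [IsTopologicalGroup G] [BaireSpace G]
  {E : Type*} [NormedAddCommGroup E] [NormedSpace ℝ E] [FiniteDimensional ℝ E] {a : G → E → E}

omit [IsTopologicalGroup G] [BaireSpace G] [FiniteDimensional ℝ E] in
theorem IsSm.diff (h : IsSm a) (g : G) : Differentiable ℝ (a g) :=
  (h.smooth g).differentiable (by simp)

omit [IsTopologicalGroup G] [BaireSpace G] [FiniteDimensional ℝ E] in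
theorem IsSm.fderiv_mul (h : IsSm a) (g g' : G) (x : E) :
    fderiv ℝ (a (g * g')) x = (fderiv ℝ (a g) (a g' x)).comp (fderiv ℝ (a g') x) := by
  have h1 : a (g * g') = a g ∘ a g' := by
    funext y; exact h.mul g g' y
  rw [h1, fderiv_comp x (h.diff g _) (h.diff g' _)]

omit [IsTopologicalGroup G] [BaireSpace G] [FiniteDimensional ℝ E] in
theorem IsSm.fderiv_one (h : IsSm a) (x : E) : fderiv ℝ (a 1) x = ContinuousLinearMap.id ℝ E := by
  have h1 : a 1 = id := by
    funext y; exact h.one y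
  rw [h1, fderiv_id]

theorem IsSm.continuous_fderiv_apply (h : IsSm a) (u : E) :
    Continuous fun p : G × E => fderiv ℝ (a p.1) p.2 u := by
  obtain ⟨g₀, hg₀⟩ := exists_good a h.cont (fun g => (h.smooth g).of_le (by exact_mod_cast le_top)) u
  rw [continuous_iff_continuousAt]
  rintro ⟨g₁, x₁⟩
  have h1 : (fun p : G × E => fderiv ℝ (a p.1) p.2 u) = fun p : G × E =>
      fderiv ℝ (a (g₁ * g₀⁻¹)) (a (g₀ * g₁⁻¹ * p.1) p.2)
        (fderiv ℝ (a (g₀ * g₁⁻¹ * p.1)) p.2 u) := by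
    funext p
    have h2 : p.1 = (g₁ * g₀⁻¹) * (g₀ * g₁⁻¹ * p.1) := by group
    conv_lhs => rw [h2]
    rw [h.fderiv_mul]
    rfl
  rw [h1]
  have h3 : Continuous fun p : G × E => a (g₀ * g₁⁻¹ * p.1) p.2 :=
    h.cont.comp ((continuous_const.mul continuous_fst).prodMk continuous_snd)
  have h4 : Continuous (fderiv ℝ (a (g₁ * g₀⁻¹))) :=
    (h.smooth _).continuous_fderiv (by simp)
  have h5 : ContinuousAt (fun p : G × E => fderiv ℝ (a (g₀ * g₁⁻¹ * p.1)) p.2 u) (g₁, x₁) := by
    have h6 : ContinuousAt (fun p : G × E => ((g₀ * g₁⁻¹ * p.1, p.2) : G × E)) (g₁, x₁) :=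
      ((continuous_const.mul continuous_fst).prodMk continuous_snd).continuousAt
    have h7 : ContinuousAt (fun p : G × E => fderiv ℝ (a p.1) p.2 u)
        ((fun p : G × E => ((g₀ * g₁⁻¹ * p.1, p.2) : G × E)) (g₁, x₁)) := by
      have h8 : g₀ * g₁⁻¹ * g₁ = g₀ := by group
      show ContinuousAt _ (g₀ * g₁⁻¹ * g₁, x₁)
      rw [h8]
      exact hg₀ x₁
    exact ContinuousAt.comp (f := fun p : G × E => ((g₀ * g₁⁻¹ * p.1, p.2) : G × E))
      (g := fun p : G × E => fderiv ℝ (a p.1) p.2 u) h7 h6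
  exact ContinuousAt.clm_apply (h4.comp h3).continuousAt h5

theorem IsSm.continuous_fderiv (h : IsSm a) :
    Continuous fun p : G × E => fderiv ℝ (a p.1) p.2 :=
  continuous_clm_apply.2 fun u => h.continuous_fderiv_apply u

/-- the tangent action -/
noncomputable def tan (a : G → E → E) (g : G) (p : E × E) : E × E :=
  (a g p.1, fderiv ℝ (a g) p.1 p.2)

theorem IsSm.tan (h : IsSm a) : IsSm (tan a) where
  one := by
    rintro ⟨x, v⟩
    unfold H812.tan
    rw [h.fderiv_one, h.one]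
    rfl
  mul := by
    rintro g g' ⟨x, v⟩
    unfold H812.tan
    rw [h.fderiv_mul, h.mul]
    rfl
  cont := by
    have h1 : Continuous fun p : G × (E × E) => a p.1 p.2.1 :=
      h.cont.comp (continuous_fst.prodMk (continuous_fst.comp continuous_snd))
    have h2 : Continuous fun p : G × (E × E) => fderiv ℝ (a p.1) p.2.1 :=
      h.continuous_fderiv.comp (continuous_fst.prodMk (continuous_fst.comp continuous_snd))
    exact h1.prodMk (h2.clm_apply (continuous_snd.comp continuous_snd))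
  smooth := by
    intro g
    have h1 : ContDiff ℝ ∞ fun p : E × E => a g p.1 := (h.smooth g).comp contDiff_fst
    have h2 : ContDiff ℝ ∞ fun p : E × E => fderiv ℝ (a g) p.1 p.2 :=
      (h.smooth g).contDiff_fderiv_apply (by simp)
    exact h1.prodMk h2

end action

end Pool.Agent.H812
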