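import Pool.Agent.H812.Dyn
import Pool.Agent.H812.Had

/-!
Normal form of a map of `ℝ × F` which fixes `0 × F` and contracts the first coordinate.
-/

set_option autoImplicit false

namespace Pool.Agent.H812

open Topology Filter Metric Set
open scoped ContDiff

section pre

/-- A smooth map with a small derivative outside of which nothing changes: cut off with a given
bump function. -/
theorem exists_cutoff_with {E : Type*} [NormedAddCommGroup E] [NormedSpace ℝ E]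
    [FiniteDimensional ℝ E] (B : E → ℝ) (hB : ContDiff ℝ ∞ B) (hB0 : ∀ x, 0 ≤ B x)
    (hB1 : ∀ x, B x ≤ 1) (hB2 : ∀ x, 2 ≤ ‖x‖ → B x = 0)
    (u : E → E) (hu : ContDiff ℝ ∞ u) (h0 : u 0 = 0) (h1 : fderiv ℝ u 0 = 0)
    {c : ℝ} (hc : 0 < c) {ρ : ℝ} (hρ : 0 < ρ) :
    ∃ r : ℝ, 0 < r ∧ 2 * r ≤ ρ ∧ ∀ x, ‖fderiv ℝ (fun x => B (r⁻¹ • x) • u x) x‖ ≤ c := by
  have hBc : HasCompactSupport B := by
    have : ProperSpace E := FiniteDimensional.proper_real E
    refine HasCompactSupport.intro (isCompact_closedBall (0 : E) 2) fun x hx => ?_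
    rw [mem_closedBall_zero_iff, not_le] at hx
    exact hB2 x hx.le
  have hB1' : Continuous (fderiv ℝ B) := hB.continuous_fderiv (by simp)
  obtain ⟨C, hC⟩ := hB1'.bounded_above_of_compact_support (hBc.fderiv (𝕜 := ℝ))
  have hC0 : 0 ≤ C := (norm_nonneg _).trans (hC 0)
  set ε : ℝ := c / (1 + 2 * C) with hε
  have hε0 : 0 < ε := by positivity
  have hu1 : Continuous (fderiv ℝ u) := hu.continuous_fderiv (by simp)
  have hud : Differentiable ℝ u := hu.differentiable (by simp)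
  obtain ⟨δ, hδ, hδ'⟩ := Metric.continuousAt_iff.1 hu1.continuousAt ε hε0
  set r : ℝ := min (δ / 4) (ρ / 2) with hr
  have hr0 : 0 < r := by positivity
  have hr1 : r ≤ δ / 4 := min_le_left _ _
  have hr2 : r ≤ ρ / 2 := min_le_right _ _
  have hdu : ∀ x, ‖x‖ ≤ 2 * r → ‖fderiv ℝ u x‖ ≤ ε := by
    intro x hx
    have h2 : dist x 0 < δ := by rw [dist_zero_right]; linarith
    have h3 := hδ' h2
    rw [h1, dist_zero_right] at h3
    exact h3.le
  have huu : ∀ x, ‖x‖ ≤ 2 * r → ‖u x‖ ≤ ε * (2 * r) := by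
    intro x hx
    have h2 := Convex.norm_image_sub_le_of_norm_fderiv_le (𝕜 := ℝ) (f := u) (C := ε)
      (s := closedBall (0 : E) (2 * r)) (x := 0) (y := x) (fun z _ => hud z)
      (fun z hz => hdu z (mem_closedBall_zero_iff.1 hz)) (convex_closedBall _ _)
      (mem_closedBall_self (by positivity)) (mem_closedBall_zero_iff.2 hx)
    rw [h0, sub_zero, sub_zero] at h2
    exact h2.trans (mul_le_mul_of_nonneg_left hx hε0.le)
  refine ⟨r, hr0, by linarith, fun x => ?_⟩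
  have h2 : HasFDerivAt (fun x : E => B (r⁻¹ • x))
      ((fderiv ℝ B (r⁻¹ • x)).comp (r⁻¹ • ContinuousLinearMap.id ℝ E)) x := by
    have h3 : HasFDerivAt (fun x : E => r⁻¹ • x) (r⁻¹ • ContinuousLinearMap.id ℝ E) x :=
      (hasFDerivAt_id x).const_smul _
    exact ((hB.differentiable (by simp)) (r⁻¹ • x)).hasFDerivAt.comp x h3
  have h4 := (h2.smul (hud x).hasFDerivAt).fderiv
  have h5 : fderiv ℝ (fun x => B (r⁻¹ • x) • u x) x = B (r⁻¹ • x) • fderiv ℝ u x +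
    ((fderiv ℝ B (r⁻¹ • x)).comp (r⁻¹ • ContinuousLinearMap.id ℝ E)).smulRight (u x) := h4
  rw [h5]
  by_cases hx : ‖x‖ ≤ 2 * r
  · have h6 : ‖B (r⁻¹ • x) • fderiv ℝ u x‖ ≤ ε := by
      rw [norm_smul, Real.norm_eq_abs, abs_of_nonneg (hB0 _)]
      calc B (r⁻¹ • x) * ‖fderiv ℝ u x‖ ≤ 1 * ‖fderiv ℝ u x‖ :=
            mul_le_mul_of_nonneg_right (hB1 _) (norm_nonneg _)
        _ ≤ ε := by rw [one_mul]; exact hdu x hx
    have h7 : ‖((fderiv ℝ B (r⁻¹ • x)).comp (r⁻¹ • ContinuousLinearMap.id ℝ E)).smulRight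
        (u x)‖ ≤ 2 * C * ε := by
      rw [ContinuousLinearMap.norm_smulRight_apply]
      have h8 : ‖(fderiv ℝ B (r⁻¹ • x)).comp (r⁻¹ • ContinuousLinearMap.id ℝ E)‖ ≤
          C * r⁻¹ := by
        refine (ContinuousLinearMap.opNorm_comp_le _ _).trans ?_
        refine mul_le_mul (hC _) ?_ (norm_nonneg _) hC0
        rw [norm_smul, norm_inv, Real.norm_eq_abs, abs_of_pos hr0]
        calc r⁻¹ * ‖ContinuousLinearMap.id ℝ E‖ ≤ r⁻¹ * 1 :=
              mul_le_mul_of_nonneg_left ContinuousLinearMap.norm_id_le (by positivity)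
          _ = r⁻¹ := mul_one _
      calc _ ≤ C * r⁻¹ * (ε * (2 * r)) :=
            mul_le_mul h8 (huu x hx) (norm_nonneg _) (by positivity)
        _ = 2 * C * ε := by field_simp
    refine (norm_add_le _ _).trans ((add_le_add h6 h7).trans (le_of_eq ?_))
    rw [hε]
    field_simp
  · push Not at hx
    have h6 : ∀ᶠ z : E in 𝓝 (r⁻¹ • x), B z = 0 := by
      have h7 : 2 < ‖r⁻¹ • x‖ := by
        rw [norm_smul, norm_inv, Real.norm_eq_abs, abs_of_pos hr0, lt_inv_mul_iff₀ hr0]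
        linarith
      filter_upwards [(continuous_norm.tendsto (r⁻¹ • x)).eventually (lt_mem_nhds h7)] with z hz
      exact hB2 z hz.le
    have h8 : fderiv ℝ B (r⁻¹ • x) = 0 := by
      have h9 : (B : E → ℝ) =ᶠ[𝓝 (r⁻¹ • x)] fun _ => 0 := h6
      rw [h9.fderiv_eq]
      simp
    rw [h8, h6.self_of_nhds]
    simp [hc.le]

/-- infinite products -/
theorem exists_prod_limit {q : ℕ → ℝ} {C ν : ℝ} (hν0 : 0 ≤ ν) (hν : ν < 1)
    (h : ∀ i, |q i - 1| ≤ C * ν ^ i) :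
    ∃ p, Tendsto (fun n => ∏ i ∈ Finset.range n, q i) atTop (𝓝 p) := by
  have h1 : Summable fun i => ‖q i - 1‖ := by
    refine Summable.of_nonneg_of_le (fun i => norm_nonneg _) (fun i => ?_)
      ((summable_geometric_of_lt_one hν0 hν).mul_left C)
    exact h i
  have h2 : Multipliable (fun i => 1 + (q i - 1)) := multipliable_one_add_of_summable h1
  have h3 : (fun i => 1 + (q i - 1)) = q := by funext i; ring
  rw [h3] at h2
  exact ⟨_, h2.tendsto_prod_tprod_nat⟩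

end pre

section nf

universe v

variable {F : Type v} [NormedAddCommGroup F] [NormedSpace ℝ F] [FiniteDimensional ℝ F]

/-- global version -/
theorem global_nf (g : ℝ × F → ℝ × F) (hg : ContDiff ℝ ∞ g) {κ ε : ℝ} (hκ0 : 0 < κ)
    (hε0 : 0 ≤ ε) (hκε : κ + ε < 1) (hfix : ∀ y, g (0, y) = (0, y))
    (hlin : ∀ y, (fderiv ℝ g (0, y) (1, 0)).1 = κ)
    (hc1 : ∀ x y, |(g (x, y)).1| ≤ (κ + ε) * |x|)
    (hc2 : ∀ x y, ‖(g (x, y)).2 - y‖ ≤ ε * |x|)
    (hpar : ∀ x y, g (-x, y) = (-(g (x, y)).1, (g (x, y)).2)) :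
    ∃ (s : ℝ × F → ℝ) (Y : ℝ × F → F), ContDiff ℝ ∞ s ∧ ContDiff ℝ ∞ Y ∧
      (∀ x y, s (-x, y) = s (x, y)) ∧ (∀ x y, Y (-x, y) = Y (x, y)) ∧
      (∀ y, s (0, y) = 1) ∧ (∀ y, Y (0, y) = y) ∧
      (∀ z N, |(g^[N] z).1| ≤ (κ + ε) ^ N * |z.1|) ∧
      (∀ z N, ‖(g^[N] z).2 - z.2‖ ≤ ε * |z.1| / (1 - (κ + ε))) ∧
      ∀ z, Tendsto (fun N : ℕ => (κ⁻¹) ^ N * (g^[N] z).1) atTop (𝓝 (z.1 * s z)) ∧
        Tendsto (fun N : ℕ => (g^[N] z).2) atTop (𝓝 (Y z)) := by
  have hν0 : 0 < κ + ε := by linarith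
  have h1ν : 0 < 1 - (κ + ε) := by linarith
  set ν := κ + ε with hν
  -- first coordinate
  have hx : ∀ z N, |(g^[N] z).1| ≤ ν ^ N * |z.1| := by
    intro z N
    induction N with
    | zero => simp
    | succ N ih =>
      rw [Function.iterate_succ_apply']
      calc |(g (g^[N] z)).1| ≤ ν * |(g^[N] z).1| := hc1 (g^[N] z).1 (g^[N] z).2
        _ ≤ ν * (ν ^ N * |z.1|) := mul_le_mul_of_nonneg_left ih hν0.le
        _ = ν ^ (N + 1) * |z.1| := by ring
  have hy' : ∀ z N, ‖(g^[N + 1] z).2 - (g^[N] z).2‖ ≤ (ε * |z.1|) * ν ^ N := by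
    intro z N
    rw [Function.iterate_succ_apply']
    calc ‖(g (g^[N] z)).2 - (g^[N] z).2‖ ≤ ε * |(g^[N] z).1| := hc2 (g^[N] z).1 (g^[N] z).2
      _ ≤ ε * (ν ^ N * |z.1|) := mul_le_mul_of_nonneg_left (hx z N) hε0
      _ = (ε * |z.1|) * ν ^ N := by ring
  have hy : ∀ z N, ‖(g^[N] z).2 - z.2‖ ≤ ε * |z.1| * (1 - ν ^ N) / (1 - ν) := by
    intro z N
    induction N with
    | zero => simp
    | succ N ih =>
      have e1 : (g^[N + 1] z).2 - z.2 = ((g^[N + 1] z).2 - (g^[N] z).2) + ((g^[N] z).2 - z.2) := by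
        abel
      rw [e1]
      refine (norm_add_le _ _).trans ((add_le_add (hy' z N) ih).trans (le_of_eq ?_))
      field_simp
      ring
  have hy2 : ∀ z N, ‖(g^[N] z).2 - z.2‖ ≤ ε * |z.1| / (1 - ν) := by
    intro z N
    refine (hy z N).trans ?_
    have h1 : ε * |z.1| * (1 - ν ^ N) ≤ ε * |z.1| * 1 :=
      mul_le_mul_of_nonneg_left (by linarith [pow_nonneg hν0.le N]) (by positivity)
    rw [mul_one] at h1
    gcongr
  -- the multiplier
  obtain ⟨v, hv, hv1, hv2⟩ := hadamard (fun p : ℝ × F => (g p).1) hg.fst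
    (fun y => by rw [hfix])
  have hv0 : ∀ y, v (0, y) = κ := by
    intro y
    rw [hv2]
    have : fderiv ℝ (fun p : ℝ × F => (g p).1) (0, y) =
        (ContinuousLinearMap.fst ℝ ℝ F).comp (fderiv ℝ g (0, y)) :=
      ((ContinuousLinearMap.fst ℝ ℝ F).hasFDerivAt.comp ((0, y) : ℝ × F)
        ((hg.differentiable (by simp)) (0, y)).hasFDerivAt).fderiv
    rw [this]
    exact hlin y
  set q : ℝ × F → ℝ := fun p => κ⁻¹ * v p with hq
  have hqs : ContDiff ℝ ∞ q := contDiff_const.mul hv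
  have hq0 : ∀ y, q (0, y) = 1 := by
    intro y; rw [hq]; simp only; rw [hv0, inv_mul_cancel₀ hκ0.ne']
  have hqg : ∀ z, κ⁻¹ * (g z).1 = z.1 * q z := by
    intro z
    have := hv1 z.1 z.2
    simp only [smul_eq_mul] at this
    rw [hq]
    simp only
    rw [this]
    ring
  have hqe : ∀ x y, q (-x, y) = q (x, y) := by
    intro x y
    rcases eq_or_ne x 0 with rfl | hx0
    · rw [neg_zero]
    · have h1 := hqg (-x, y)
      have h2 := hqg (x, y)
      rw [hpar] at h1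
      simp only at h1 h2
      have h3 : x * q (-x, y) = x * q (x, y) := by linarith
      exact mul_left_cancel₀ hx0 h3
  -- the extended map
  let G : ℝ × (F × ℝ) → ℝ × (F × ℝ) := fun p =>
    ((g (p.1, p.2.1)).1, ((g (p.1, p.2.1)).2, p.2.2 * q (p.1, p.2.1)))
  have hproj : ContDiff ℝ ∞ fun p : ℝ × (F × ℝ) => ((p.1, p.2.1) : ℝ × F) := by fun_prop
  have hGs : ContDiff ℝ ∞ G := by
    have h1 : ContDiff ℝ ∞ fun p : ℝ × (F × ℝ) => g (p.1, p.2.1) := hg.comp hproj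
    have h2 : ContDiff ℝ ∞ fun p : ℝ × (F × ℝ) => q (p.1, p.2.1) := hqs.comp hproj
    have h3 : ContDiff ℝ ∞ fun p : ℝ × (F × ℝ) => p.2.2 := by fun_prop
    exact h1.fst.prodMk (h1.snd.prodMk (h3.mul h2))
  have hG : Cls κ G := by
    refine ⟨hGs, ?_, ?_⟩
    · rintro ⟨y, t⟩
      show ((g (0, y)).1, ((g (0, y)).2, t * q (0, y))) = ((0, (y, t)) : ℝ × (F × ℝ))
      rw [hfix, hq0, mul_one]
    · rintro ⟨y, t⟩ ξ
      have h1 : HasFDerivAt (fun p : ℝ × (F × ℝ) => ((p.1, p.2.1) : ℝ × F))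
          ((ContinuousLinearMap.fst ℝ ℝ (F × ℝ)).prod ((ContinuousLinearMap.fst ℝ F ℝ).comp
            (ContinuousLinearMap.snd ℝ ℝ (F × ℝ)))) (0, (y, t)) :=
        (((ContinuousLinearMap.fst ℝ ℝ (F × ℝ)).prod ((ContinuousLinearMap.fst ℝ F ℝ).comp
            (ContinuousLinearMap.snd ℝ ℝ (F × ℝ)))) : ℝ × (F × ℝ) →L[ℝ] ℝ × F).hasFDerivAt
      have h2 := HasFDerivAt.comp (g := g) ((0, (y, t)) : ℝ × (F × ℝ))
        ((hg.differentiable (by simp)) _).hasFDerivAt h1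
      have h3 : HasFDerivAt (fun p => (G p).1) ((ContinuousLinearMap.fst ℝ ℝ (F × ℝ)).comp
          (fderiv ℝ G (0, (y, t)))) (0, (y, t)) :=
        (ContinuousLinearMap.fst ℝ ℝ (F × ℝ)).hasFDerivAt.comp _
          ((hGs.differentiable (by simp)) _).hasFDerivAt
      have h4 := h3.unique h2.fst
      have h5 := DFunLike.congr_fun h4 ((ξ, 0) : ℝ × (F × ℝ))
      have h6 : (fderiv ℝ G (0, (y, t)) (ξ, 0)).1 = (fderiv ℝ g (0, y) (ξ, 0)).1 := h5
      rw [h6]
      have h7 : ((ξ, 0) : ℝ × F) = ξ • ((1, 0) : ℝ × F) := by simp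
      rw [h7, map_smul, Prod.smul_fst, hlin, smul_eq_mul, smul_eq_mul, mul_comm]
  have hGi : ∀ (i : ℕ) (x : ℝ) (y : F) (t : ℝ), G^[i] (x, (y, t)) =
      ((g^[i] (x, y)).1, ((g^[i] (x, y)).2, t * ∏ j ∈ Finset.range i, q (g^[j] (x, y)))) := by
    intro i x y t
    induction i with
    | zero => simp
    | succ i ih =>
      rw [Function.iterate_succ_apply', ih, Function.iterate_succ_apply',
        Finset.prod_range_succ]
      show ((g ((g^[i] (x, y)).1, (g^[i] (x, y)).2)).1,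
        ((g ((g^[i] (x, y)).1, (g^[i] (x, y)).2)).2,
          (t * ∏ j ∈ Finset.range i, q (g^[j] (x, y))) *
            q ((g^[i] (x, y)).1, (g^[i] (x, y)).2))) = _
      rw [Prod.mk.eta, mul_assoc]
  -- convergence
  have hycv : ∀ z, ∃ y, Tendsto (fun N : ℕ => (g^[N] z).2) atTop (𝓝 y) := by
    intro z
    have : CompleteSpace F := FiniteDimensional.complete ℝ F
    apply cauchySeq_tendsto_of_complete
    refine cauchySeq_of_le_geometric ν (ε * |z.1|) hκε fun i => ?_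
    rw [dist_comm, dist_eq_norm]
    exact hy' z i
  have hxcv : ∀ z, Tendsto (fun N : ℕ => (g^[N] z).1) atTop (𝓝 0) := by
    intro z
    have h1 : Tendsto (fun N : ℕ => ν ^ N * |z.1|) atTop (𝓝 (0 * |z.1|)) :=
      (tendsto_pow_atTop_nhds_zero_of_lt_one hν0.le hκε).mul_const _
    rw [zero_mul] at h1
    exact squeeze_zero_norm (fun N => hx z N) h1
  have hpcv : ∀ z, ∃ p, Tendsto (fun N : ℕ => ∏ j ∈ Finset.range N, q (g^[j] z)) atTop (𝓝 p) := by
    intro z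
    -- bound on the ball
    set R : ℝ := |z.1| + ‖z.2‖ + ε * |z.1| / (1 - ν) with hR
    have hR0 : 0 ≤ R := by positivity
    have hcomp : IsCompact (closedBall (0 : ℝ × F) R) := by
      have : ProperSpace F := FiniteDimensional.proper_real F
      exact isCompact_closedBall _ _
    obtain ⟨C, hC⟩ := hcomp.exists_bound_of_continuousOn
      (hqs.continuous_fderiv (by simp)).continuousOn
    have hC0 : 0 ≤ C := (norm_nonneg _).trans (hC 0 (mem_closedBall_self hR0))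
    have horb : ∀ j, g^[j] z ∈ closedBall (0 : ℝ × F) R := by
      intro j
      rw [mem_closedBall_zero_iff, Prod.norm_def, max_le_iff]
      constructor
      · rw [Real.norm_eq_abs]
        have h1 : ν ^ j * |z.1| ≤ 1 * |z.1| :=
          mul_le_mul_of_nonneg_right (pow_le_one₀ hν0.le hκε.le) (abs_nonneg _)
        have h2 := hx z j
        have h3 : 0 ≤ ε * |z.1| / (1 - ν) := by positivity
        have h4 := norm_nonneg z.2
        rw [hR]
        linarith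
      · have h1 : ‖(g^[j] z).2‖ ≤ ‖(g^[j] z).2 - z.2‖ + ‖z.2‖ := by
          simpa using norm_add_le ((g^[j] z).2 - z.2) z.2
        have h2 := hy2 z j
        have h3 := abs_nonneg z.1
        rw [hR]
        linarith
    refine exists_prod_limit (C := C * |z.1|) hν0.le hκε fun i => ?_
    have hmem := horb i
    set w := g^[i] z with hw
    have hw0 : ((0, w.2) : ℝ × F) ∈ closedBall (0 : ℝ × F) R := by
      rw [mem_closedBall_zero_iff, Prod.norm_def, max_le_iff] at hmem ⊢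
      exact ⟨by simpa using hR0, hmem.2⟩
    have h1 := Convex.norm_image_sub_le_of_norm_fderiv_le (𝕜 := ℝ) (f := q) (C := C)
      (s := closedBall (0 : ℝ × F) R) (x := (0, w.2)) (y := w)
      (fun z _ => (hqs.differentiable (by simp)) z) hC (convex_closedBall _ _) hw0 hmem
    rw [hq0] at h1
    have h2 : ‖w - (0, w.2)‖ = |w.1| := by
      rw [Prod.norm_def]
      simp
    rw [h2] at h1
    calc |q w - 1| ≤ C * |w.1| := h1
      _ ≤ C * (ν ^ i * |z.1|) := mul_le_mul_of_nonneg_left (hx z i) hC0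
      _ = C * |z.1| * ν ^ i := by ring
  have hbasin : ∀ p : ℝ × (F × ℝ), ∃ y, Tendsto (fun i : ℕ => G^[i] p) atTop (𝓝 (0, y)) := by
    rintro ⟨x, y, t⟩
    obtain ⟨y', hy'⟩ := hycv (x, y)
    obtain ⟨p', hp'⟩ := hpcv (x, y)
    refine ⟨(y', t * p'), ?_⟩
    simp only [hGi]
    exact (hxcv (x, y)).prodMk_nhds (hy'.prodMk_nhds (hp'.const_mul t))
  have hYs : ContDiff ℝ ∞ (Yl G) := hG.Yl_contDiff hκ0.le (by linarith) hbasin
  have hYv : ∀ (x : ℝ) (y : F) (y' : F) (p' : ℝ),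
      Tendsto (fun N : ℕ => (g^[N] (x, y)).2) atTop (𝓝 y') →
      Tendsto (fun N : ℕ => ∏ j ∈ Finset.range N, q (g^[j] (x, y))) atTop (𝓝 p') →
      Yl G (x, (y, 1)) = (y', p') := by
    intro x y y' p' h1 h2
    apply Yl_tendsto
    simp only [hGi, one_mul]
    exact h1.prodMk_nhds h2
  have hone : ContDiff ℝ ∞ fun z : ℝ × F => ((z.1, (z.2, 1)) : ℝ × (F × ℝ)) := by fun_prop
  have hgi : ∀ (i : ℕ) x y, g^[i] (-x, y) = (-(g^[i] (x, y)).1, (g^[i] (x, y)).2) := by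
    intro i x y
    induction i with
    | zero => rfl
    | succ i ih =>
      rw [Function.iterate_succ_apply', ih, hpar, Function.iterate_succ_apply']
  have hsym : ∀ x y, Yl G (-x, (y, 1)) = Yl G (x, (y, 1)) := by
    intro x y
    unfold Yl
    congr 1
    funext i
    rw [hGi, hGi, hgi]
    simp only [hgi, hqe]
  refine ⟨fun z => (Yl G (z.1, (z.2, 1))).2, fun z => (Yl G (z.1, (z.2, 1))).1,
    (hYs.comp hone).snd, (hYs.comp hone).fst, ?_, ?_, ?_, ?_, hx, hy2, ?_⟩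
  · intro x y
    simp only [hsym]
  · intro x y
    simp only [hsym]
  · intro y
    have h1 : ∀ i : ℕ, g^[i] (0, y) = (0, y) := fun i => Function.iterate_fixed (hfix y) i
    have := hYv 0 y y 1 (by simp only [h1]; exact tendsto_const_nhds)
      (by simp only [h1, hq0, Finset.prod_const_one]; exact tendsto_const_nhds)
    simp only [this]
  · intro y
    have h1 : ∀ i : ℕ, g^[i] (0, y) = (0, y) := fun i => Function.iterate_fixed (hfix y) i
    have := hYv 0 y y 1 (by simp only [h1]; exact tendsto_const_nhds)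
      (by simp only [h1, hq0, Finset.prod_const_one]; exact tendsto_const_nhds)
    simp only [this]
  · rintro ⟨x, y⟩
    obtain ⟨y', hy'⟩ := hycv (x, y)
    obtain ⟨p', hp'⟩ := hpcv (x, y)
    have h1 := hYv x y y' p' hy' hp'
    simp only [h1]
    refine ⟨?_, hy'⟩
    have h2 : ∀ N : ℕ, κ⁻¹ ^ N * (g^[N] (x, y)).1 =
        x * ∏ j ∈ Finset.range N, q (g^[j] (x, y)) := by
      intro N
      induction N with
      | zero => simp
      | succ N ih =>
        rw [Function.iterate_succ_apply', Finset.prod_range_succ, pow_succ, mul_assoc, hqg,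
          ← mul_assoc, ih]
        ring
    simp only [h2]
    exact hp'.const_mul x

/-- local version -/
theorem local_nf (g : ℝ × F → ℝ × F) (hg : ContDiff ℝ ∞ g) {κ ε δ ρ : ℝ} (hκ0 : 0 < κ)
    (hε0 : 0 < ε) (hκε : κ + ε < 1) (hδ : 0 < δ) (hρ : 0 < ρ)
    (hfix : ∀ y, ‖y‖ < δ → g (0, y) = (0, y))
    (hlin : ∀ y, ‖y‖ < δ → (fderiv ℝ g (0, y) (1, 0)).1 = κ)
    (hlin0 : (fderiv ℝ g (0, 0) (1, 0)).2 = 0)
    (hpar : ∀ x y, |x| < δ → ‖y‖ < δ → g (-x, y) = (-(g (x, y)).1, (g (x, y)).2)) :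
    ∃ (s : ℝ × F → ℝ) (Y : ℝ × F → F), ContDiff ℝ ∞ s ∧ ContDiff ℝ ∞ Y ∧
      (∀ x y, s (-x, y) = s (x, y)) ∧ (∀ x y, Y (-x, y) = Y (x, y)) ∧
      (∀ y, s (0, y) = 1) ∧ (∀ y, Y (0, y) = y) ∧
      ∃ r : ℝ, 0 < r ∧ ∀ z, ‖z‖ < r →
      (∀ N, ‖g^[N] z‖ < ρ ∧ |(g^[N] z).1| ≤ (κ + ε) ^ N * |z.1|) ∧
        Tendsto (fun N : ℕ => (κ⁻¹) ^ N * (g^[N] z).1) atTop (𝓝 (z.1 * s z)) ∧
        Tendsto (fun N : ℕ => (g^[N] z).2) atTop (𝓝 (Y z)) := by
  let L : ℝ × F →L[ℝ] ℝ × F :=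
    (κ • ContinuousLinearMap.fst ℝ ℝ F).prod (ContinuousLinearMap.snd ℝ ℝ F)
  have hL : ∀ x y, L (x, y) = (κ * x, y) := fun x y => rfl
  have hgd : Differentiable ℝ g := hg.differentiable (by simp)
  -- the derivative at zero
  have hD0 : fderiv ℝ g 0 = L := by
    have h1 : HasFDerivAt (fun y : F => ((0, y) : ℝ × F)) (ContinuousLinearMap.inr ℝ ℝ F) 0 :=
      hasFDerivAt_prodMk_right 0 0
    have h2 := (hgd (0, 0)).hasFDerivAt.comp 0 h1
    have h3 : (g ∘ fun y : F => ((0, y) : ℝ × F)) =ᶠ[𝓝 0] fun y : F => ((0, y) : ℝ × F) := by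
      have h4 : ∀ᶠ y : F in 𝓝 0, ‖y‖ < δ := by
        have := (continuous_norm (E := F)).tendsto 0
        rw [norm_zero] at this
        exact this.eventually (gt_mem_nhds hδ)
      filter_upwards [h4] with y hy
      exact hfix y hy
    have h4 := h1.unique (h2.congr_of_eventuallyEq h3.symm)
    refine ContinuousLinearMap.ext fun p => ?_
    obtain ⟨x, y⟩ := p
    have h5 : ((x, y) : ℝ × F) = x • ((1, 0) : ℝ × F) + (0, y) := by simp
    have h6 : fderiv ℝ g (0, 0) (0, y) = (0, y) := (DFunLike.congr_fun h4 y).symm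
    have h7 : fderiv ℝ g (0, 0) (1, 0) = (κ, 0) :=
      Prod.ext (hlin 0 (by simpa using hδ)) hlin0
    rw [h5, map_add, map_smul, map_add, map_smul]
    show x • fderiv ℝ g (0, 0) (1, 0) + fderiv ℝ g (0, 0) (0, y) = _
    rw [h6, h7, hL, hL, mul_one, mul_zero]
  -- the bump function
  let B₁ : ContDiffBump (0 : ℝ) := ⟨1, 2, one_pos, one_lt_two⟩
  let B₂ : ContDiffBump (0 : F) := ⟨1, 2, one_pos, one_lt_two⟩
  let B : ℝ × F → ℝ := fun z => B₁ z.1 * B₂ z.2
  have hB : ContDiff ℝ ∞ B := (B₁.contDiff.comp contDiff_fst).mul (B₂.contDiff.comp contDiff_snd)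
  have hB0 : ∀ x, 0 ≤ B x := fun x => mul_nonneg B₁.nonneg B₂.nonneg
  have hB1 : ∀ x, B x ≤ 1 := fun x => by
    calc B₁ x.1 * B₂ x.2 ≤ 1 * 1 := mul_le_mul B₁.le_one B₂.le_one B₂.nonneg zero_le_one
      _ = 1 := one_mul 1
  have hB₁0 : ∀ x : ℝ, 2 ≤ |x| → B₁ x = 0 := fun x hx => by
    apply B₁.zero_of_le_dist
    rw [dist_zero_right]
    exact hx
  have hB₂0 : ∀ y : F, 2 ≤ ‖y‖ → B₂ y = 0 := fun y hy => by
    apply B₂.zero_of_le_dist
    rw [dist_zero_right]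
    exact hy
  have hB2 : ∀ x : ℝ × F, 2 ≤ ‖x‖ → B x = 0 := by
    rintro ⟨x, y⟩ hx
    rw [Prod.norm_def, le_max_iff] at hx
    show B₁ x * B₂ y = 0
    rcases hx with hx | hx
    · rw [hB₁0 x hx, zero_mul]
    · rw [hB₂0 y hx, mul_zero]
  have hB3 : ∀ x : ℝ × F, ‖x‖ ≤ 1 → B x = 1 := by
    rintro ⟨x, y⟩ hx
    rw [Prod.norm_def, max_le_iff] at hx
    have h1 : B₁ x = 1 := B₁.one_of_mem_closedBall (mem_closedBall_zero_iff.2 hx.1)
    have h2 : B₂ y = 1 := B₂.one_of_mem_closedBall (mem_closedBall_zero_iff.2 hx.2)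
    show B₁ x * B₂ y = 1
    rw [h1, h2, one_mul]
  set u : ℝ × F → ℝ × F := fun z => g z - L z with hu
  have hus : ContDiff ℝ ∞ u := hg.sub L.contDiff
  have hu0 : u 0 = 0 := by
    have : g 0 = 0 := hfix 0 (by simpa using hδ)
    rw [hu]; simp only; rw [this, map_zero, sub_zero]
  have hud : ∀ z, HasFDerivAt u (fderiv ℝ g z - L) z := fun z =>
    (hgd z).hasFDerivAt.sub L.hasFDerivAt
  have hu1 : fderiv ℝ u 0 = 0 := by rw [(hud 0).fderiv, hD0, sub_self]
  obtain ⟨r, hr0, hrδ, hbd⟩ := exists_cutoff_with B hB hB0 hB1 hB2 u hus hu0 hu1 hε0 hδ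
  have hlarge : ∀ t : ℝ, δ ≤ t → 2 ≤ r⁻¹ * t := by
    intro t ht
    rw [le_inv_mul_iff₀ hr0]
    linarith
  set w : ℝ × F → ℝ × F := fun x => B (r⁻¹ • x) • u x with hw
  have hws : ContDiff ℝ ∞ w := (hB.comp (contDiff_const_smul _)).smul hus
  have hwd : Differentiable ℝ w := hws.differentiable (by simp)
  have hu0' : ∀ y, ‖y‖ < δ → u (0, y) = 0 := by
    intro y hy
    rw [hu]; simp only; rw [hfix y hy, hL, mul_zero, sub_self]
  have hBy : ∀ x : ℝ, ∀ y : F, δ ≤ ‖y‖ → B (r⁻¹ • ((x, y) : ℝ × F)) = 0 := by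
    intro x y hy
    show B₁ (r⁻¹ * x) * B₂ (r⁻¹ • y) = 0
    rw [hB₂0, mul_zero]
    rw [norm_smul, norm_inv, Real.norm_eq_abs, abs_of_pos hr0]
    exact hlarge _ hy
  have hBx : ∀ x : ℝ, ∀ y : F, δ ≤ |x| → B (r⁻¹ • ((x, y) : ℝ × F)) = 0 := by
    intro x y hy
    show B₁ (r⁻¹ * x) * B₂ (r⁻¹ • y) = 0
    rw [hB₁0, zero_mul]
    rw [abs_mul, abs_of_pos (inv_pos.2 hr0)]
    exact hlarge _ hy
  have hw0 : ∀ y, w (0, y) = 0 := by
    intro y
    rcases lt_or_ge ‖y‖ δ with hy | hy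
    · rw [hw]; simp only; rw [hu0' y hy, smul_zero]
    · rw [hw]; simp only; rw [hBy 0 y hy, zero_smul]
  have hw1 : ∀ y, (fderiv ℝ w (0, y) (1, 0)).1 = 0 := by
    intro y
    rcases lt_or_ge ‖y‖ δ with hy | hy
    · have h2 : HasFDerivAt (fun x : ℝ × F => B (r⁻¹ • x))
          (fderiv ℝ (fun x : ℝ × F => B (r⁻¹ • x)) (0, y)) (0, y) :=
        (((hB.comp (contDiff_const_smul (r⁻¹))).differentiable (by simp)) (0, y)).hasFDerivAt
      have h3 := (h2.smul (hud (0, y))).fderiv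
      have h4 : fderiv ℝ w (0, y) = B (r⁻¹ • ((0, y) : ℝ × F)) • (fderiv ℝ g (0, y) - L) +
        (fderiv ℝ (fun x : ℝ × F => B (r⁻¹ • x)) (0, y)).smulRight (u (0, y)) := h3
      rw [h4, hu0' y hy]
      show (B (r⁻¹ • ((0, y) : ℝ × F)) • (fderiv ℝ g (0, y) (1, 0) - L (1, 0)) +
        (fderiv ℝ (fun x : ℝ × F => B (r⁻¹ • x)) (0, y) (1, 0)) • (0 : ℝ × F)).1 = 0
      rw [smul_zero, add_zero, Prod.smul_fst, Prod.fst_sub, hlin y hy, hL]
      simp
    · have h1 : HasDerivAt (fun t : ℝ => ((t, y) : ℝ × F)) (1, 0) 0 :=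
        (hasDerivAt_id 0).prodMk (hasDerivAt_const 0 y)
      have h2 := (hwd (0, y)).hasFDerivAt.comp_hasDerivAt (0 : ℝ) h1
      have h3 : (w ∘ fun t : ℝ => ((t, y) : ℝ × F)) = fun _ => 0 := by
        funext t
        show B (r⁻¹ • ((t, y) : ℝ × F)) • u (t, y) = 0
        rw [hBy t y hy, zero_smul]
      rw [h3] at h2
      have h4 := h2.unique (hasDerivAt_const (0 : ℝ) (0 : ℝ × F))
      rw [h4]
      rfl
  have hwx : ∀ x y, ‖w (x, y)‖ ≤ ε * |x| := by
    intro x y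
    have h1 := Convex.norm_image_sub_le_of_norm_fderiv_le (𝕜 := ℝ) (f := w) (C := ε)
      (s := univ) (x := (0, y)) (y := (x, y)) (fun z _ => hwd z) (fun z _ => hbd z) convex_univ
      (mem_univ _) (mem_univ _)
    rw [hw0, sub_zero] at h1
    have h2 : ‖((x, y) : ℝ × F) - (0, y)‖ = |x| := by
      rw [Prod.norm_def]
      simp
    rw [h2] at h1
    exact h1
  set g' : ℝ × F → ℝ × F := fun z => L z + w z with hg'
  have hg's : ContDiff ℝ ∞ g' := L.contDiff.add hws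
  obtain ⟨s, Y, hs, hY, hse, hYe, hs0, hY0, hx, hy, hlim⟩ := global_nf g' hg's hκ0 hε0.le hκε
    (fun y => by rw [hg']; simp only; rw [hw0, hL, mul_zero, add_zero])
    (fun y => by
      have h1 : HasFDerivAt g' (L + fderiv ℝ w (0, y)) (0, y) :=
        L.hasFDerivAt.add (hwd _).hasFDerivAt
      rw [h1.fderiv]
      show (L (1, 0) + fderiv ℝ w (0, y) (1, 0)).1 = κ
      rw [Prod.fst_add, hw1, hL, mul_one, add_zero])
    (fun x y => by
      show |(L (x, y) + w (x, y)).1| ≤ _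
      rw [hL, Prod.fst_add, add_mul]
      refine (abs_add_le _ _).trans (add_le_add ?_ ?_)
      · rw [abs_mul, abs_of_pos hκ0]
      · exact (norm_fst_le (w (x, y))).trans (hwx x y))
    (fun x y => by
      show ‖(L (x, y) + w (x, y)).2 - y‖ ≤ _
      rw [hL, Prod.snd_add]
      simp only [add_sub_cancel_left]
      exact (norm_snd_le (w (x, y))).trans (hwx x y))
    (fun x y => by
      show L (-x, y) + B (r⁻¹ • ((-x, y) : ℝ × F)) • u (-x, y) =
        (-(L (x, y) + B (r⁻¹ • ((x, y) : ℝ × F)) • u (x, y)).1,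
          (L (x, y) + B (r⁻¹ • ((x, y) : ℝ × F)) • u (x, y)).2)
      have hBe : B (r⁻¹ • ((-x, y) : ℝ × F)) = B (r⁻¹ • ((x, y) : ℝ × F)) := by
        show B₁ (r⁻¹ * (-x)) * B₂ (r⁻¹ • y) = B₁ (r⁻¹ * x) * B₂ (r⁻¹ • y)
        rw [mul_neg, B₁.neg]
      rw [hBe, hL, hL]
      rcases lt_or_ge |x| δ with h1 | h1
      · rcases lt_or_ge ‖y‖ δ with h2 | h2
        · have h3 : u (-x, y) = (-(u (x, y)).1, (u (x, y)).2) := by
            rw [hu]; simp only; rw [hpar x y h1 h2, hL, hL]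
            ext <;> simp <;> ring
          rw [h3]
          ext <;> simp <;> ring
        · rw [hBy x y h2]
          simp
      · rw [hBx x y h1]
        simp)
  refine ⟨s, Y, hs, hY, hse, hYe, hs0, hY0, ?_⟩
  have h1ν : 0 < 1 - (κ + ε) := by linarith
  have hagree : ∀ z, ‖z‖ ≤ r → g' z = g z := by
    intro z hz
    have h1 : B (r⁻¹ • z) = 1 := by
      apply hB3
      rw [norm_smul, norm_inv, Real.norm_eq_abs, abs_of_pos hr0, inv_mul_le_iff₀ hr0]
      linarith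
    show L z + B (r⁻¹ • z) • u z = g z
    rw [h1, one_smul, hu]
    simp
  set m := min r ρ with hm
  have hm0 : 0 < m := lt_min hr0 hρ
  set c := 1 + ε / (1 - (κ + ε)) with hc
  have hc1 : 1 ≤ c := by
    rw [hc]
    have : 0 ≤ ε / (1 - (κ + ε)) := by positivity
    linarith
  have hc0 : 0 < c := by linarith
  have horb : ∀ z, ‖z‖ < m / c → ∀ N, ‖g'^[N] z‖ < m := by
    intro z hz N
    have hz1 : ‖z‖ * c < m := by rwa [lt_div_iff₀ hc0] at hz
    have e1 : |z.1| ≤ ‖z‖ := norm_fst_le z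
    have e2 : ‖z.2‖ ≤ ‖z‖ := norm_snd_le z
    rw [Prod.norm_def, max_lt_iff]
    constructor
    · have e3 : |(g'^[N] z).1| ≤ 1 * |z.1| := (hx z N).trans
        (mul_le_mul_of_nonneg_right (pow_le_one₀ (by linarith) hκε.le) (abs_nonneg _))
      rw [Real.norm_eq_abs]
      have : ‖z‖ * 1 ≤ ‖z‖ * c := mul_le_mul_of_nonneg_left hc1 (norm_nonneg _)
      linarith
    · have e3 : ‖(g'^[N] z).2‖ ≤ ‖(g'^[N] z).2 - z.2‖ + ‖z.2‖ := by
        simpa using norm_add_le ((g'^[N] z).2 - z.2) z.2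
      have e4 := hy z N
      have e5 : ε * |z.1| / (1 - (κ + ε)) ≤ ε * ‖z‖ / (1 - (κ + ε)) := by gcongr
      have e6 : ‖z‖ * c = ‖z‖ + ε * ‖z‖ / (1 - (κ + ε)) := by rw [hc]; ring
      linarith
  have hit : ∀ z, ‖z‖ < m / c → ∀ N, g^[N] z = g'^[N] z := by
    intro z hz N
    induction N with
    | zero => rfl
    | succ N ih =>
      rw [Function.iterate_succ_apply', Function.iterate_succ_apply', ih]
      exact (hagree _ ((horb z hz N).le.trans (min_le_left _ _))).symm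
  refine ⟨m / c, by positivity, fun z hz => ⟨fun N => ?_, ?_, ?_⟩⟩
  · rw [hit z hz N]
    exact ⟨(horb z hz N).trans_le (min_le_right _ _), hx z N⟩
  · simp only [hit z hz]
    exact (hlim z).1
  · simp only [hit z hz]
    exact (hlim z).2

end nf

end Pool.Agent.H812
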