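import Pool.Agent.H812.Bas

/-!
Rotations act transitively on the unit sphere; a diagonal one-parameter group.
-/

set_option autoImplicit false

namespace Pool.Agent.H812

open Topology Filter Metric Set Matrix Matrix.SpecialLinearGroup

variable {n : ℕ}

theorem exists_rot (hn : 2 ≤ n) (i₀ : Fin n) (u : Vn n) (hu : ‖u‖ = 1) :
    ∃ k : SLn n, IsOrth k ∧ mv k.1 (ee i₀) = u := by
  by_cases hue : u = ee i₀
  · refine ⟨1, IsOrth.one, ?_⟩
    rw [Matrix.SpecialLinearGroup.coe_one, mv_one, hue]
    rfl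
  have hnt : Nontrivial (Fin n) := Fin.nontrivial_iff_two_le.2 hn
  obtain ⟨j, hj⟩ := exists_ne i₀
  set p : Fin n → ℝ := fun k => ee i₀ k - u k with hp
  set m : ℝ := p ⬝ᵥ p with hm
  have huu : ∑ k, u k * u k = 1 := by
    have h1 := EuclideanSpace.real_norm_sq_eq u
    rw [hu, one_pow] at h1
    rw [h1]
    exact Finset.sum_congr rfl fun k _ => by rw [pow_two]
  have hsum : ∀ w : Fin n → ℝ, ∑ k, ee i₀ k * w k = w i₀ := by
    intro w
    simp [ee_apply]
  have hm2 : m = 2 - 2 * u i₀ := by
    have h1 : m = ∑ k, ee i₀ k * ee i₀ k - 2 * ∑ k, ee i₀ k * u k + ∑ k, u k * u k := by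
      rw [hm, dotProduct, Finset.mul_sum, ← Finset.sum_sub_distrib, ← Finset.sum_add_distrib]
      refine Finset.sum_congr rfl fun k _ => ?_
      simp only [hp]
      ring
    rw [h1, hsum, hsum, huu, ee_same]
    ring
  have hm0 : m ≠ 0 := by
    intro h0
    apply hue
    have h1 : p = 0 := dotProduct_self_eq_zero.1 h0
    apply vext
    intro k
    have h2 := congrFun h1 k
    simp only [hp, Pi.zero_apply] at h2
    linarith
  set A : Matrix (Fin n) (Fin n) ℝ := 1 - (2 / m) • vecMulVec p p with hA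
  have hPP : vecMulVec p p * vecMulVec p p = m • vecMulVec p p := by
    ext a b
    rw [Matrix.mul_apply, Matrix.smul_apply, vecMulVec_apply, hm, dotProduct]
    simp only [vecMulVec_apply, smul_eq_mul, Finset.sum_mul]
    exact Finset.sum_congr rfl fun k _ => by ring
  have hAt : Aᵀ = A := by
    rw [hA, Matrix.transpose_sub, Matrix.transpose_one, Matrix.transpose_smul]
    congr 2
    ext a b
    rw [Matrix.transpose_apply, vecMulVec_apply, vecMulVec_apply, mul_comm]
  have hAA : A * A = 1 := by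
    rw [hA, Matrix.sub_mul, Matrix.one_mul, Matrix.mul_sub, Matrix.mul_one, Matrix.smul_mul,
      Matrix.mul_smul, hPP, smul_smul, smul_smul]
    have h1 : 2 / m * (2 / m) * m = 2 / m + 2 / m := by field_simp; ring
    rw [h1, add_smul]
    abel
  have hAdet : A.det = -1 := by
    have h1 : A = 1 + replicateCol Unit (fun k => -(2 / m) * p k) * replicateRow Unit p := by
      ext a b
      rw [hA, Matrix.sub_apply, Matrix.smul_apply, vecMulVec_apply, Matrix.add_apply,
        Matrix.mul_apply]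
      simp
      ring
    rw [h1, det_one_add_replicateCol_mul_replicateRow]
    have h2 : p ⬝ᵥ (fun k => -(2 / m) * p k) = -(2 / m) * m := by
      rw [hm, dotProduct, dotProduct, Finset.mul_sum]
      exact Finset.sum_congr rfl fun k _ => by ring
    rw [h2]
    field_simp
    norm_num
  set B : Matrix (Fin n) (Fin n) ℝ := Matrix.diagonal fun k => if k = j then (-1 : ℝ) else 1
    with hB
  have hBdet : B.det = -1 := by
    rw [hB, Matrix.det_diagonal, Finset.prod_ite_eq']
    simp
  have hBB : B * Bᵀ = 1 := by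
    rw [hB, Matrix.diagonal_transpose, Matrix.diagonal_mul_diagonal, ← Matrix.diagonal_one]
    congr 1
    funext k
    split_ifs <;> norm_num
  refine ⟨⟨A * B, by rw [Matrix.det_mul, hAdet, hBdet]; norm_num⟩, ?_, ?_⟩
  · unfold IsOrth
    show A * B * (A * B)ᵀ = 1
    rw [Matrix.transpose_mul, hAt, Matrix.mul_assoc, ← Matrix.mul_assoc B, hBB, Matrix.one_mul, hAA]
  · show mv (A * B) (ee i₀) = u
    have h1 : mv B (ee i₀) = ee i₀ := by
      apply vext
      intro k
      rw [hB, mv_diagonal]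
      rcases eq_or_ne k i₀ with rfl | hk
      · rw [if_neg hj.symm, one_mul]
      · rw [ee_ne hk, mul_zero]
    rw [mv_mul, ContinuousLinearMap.comp_apply, h1]
    apply vext
    intro k
    rw [mv_ee, hA, Matrix.sub_apply, Matrix.smul_apply, vecMulVec_apply, Matrix.one_apply]
    have h2 : p i₀ = 1 - u i₀ := by simp only [hp, ee_same]
    have h3 : 2 / m * (p k * p i₀) = p k := by
      have h4 : 2 * p i₀ = m := by rw [h2, hm2]; ring
      field_simp
      rw [← h4]
      ring
    rw [smul_eq_mul, h3]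
    simp only [hp, ee_apply]
    ring

/-- the diagonal matrices `e^{(n-1)t}` at `i₀` and `e^{-t}` elsewhere -/
noncomputable def dd (i₀ : Fin n) (t : ℝ) : SLn n :=
  ⟨Matrix.diagonal fun k => if k = i₀ then Real.exp ((n - 1 : ℕ) * t) else Real.exp (-t), by
    rw [Matrix.det_diagonal, ← Finset.mul_prod_erase Finset.univ _ (Finset.mem_univ i₀),
      if_pos rfl, Finset.prod_congr rfl (g := fun _ => Real.exp (-t)), Finset.prod_const,
      Finset.card_erase_of_mem (Finset.mem_univ _), Finset.card_univ, Fintype.card_fin,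
      ← Real.exp_nat_mul, ← Real.exp_add]
    · rw [Real.exp_eq_one_iff]; ring
    · intro k hk
      rw [if_neg (Finset.ne_of_mem_erase hk)]⟩

theorem dd_coe (i₀ : Fin n) (t : ℝ) : (dd i₀ t).1 = Matrix.diagonal fun k =>
    if k = i₀ then Real.exp ((n - 1 : ℕ) * t) else Real.exp (-t) := rfl

theorem dd_add (i₀ : Fin n) (s t : ℝ) : dd i₀ (s + t) = dd i₀ s * dd i₀ t := by
  apply Subtype.ext
  rw [Matrix.SpecialLinearGroup.coe_mul, dd_coe, dd_coe, dd_coe, Matrix.diagonal_mul_diagonal]
  congr 1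
  funext k
  split_ifs
  · rw [← Real.exp_add, mul_add]
  · rw [← Real.exp_add, neg_add]

theorem dd_zero (i₀ : Fin n) : dd i₀ 0 = 1 := by
  have h := dd_add i₀ 0 0
  rw [add_zero] at h
  exact (left_eq_mul.1 h)

theorem dd_neg (i₀ : Fin n) (t : ℝ) : dd i₀ (-t) = (dd i₀ t)⁻¹ := by
  rw [eq_inv_iff_mul_eq_one, ← dd_add, neg_add_cancel, dd_zero]

theorem dd_nsmul (i₀ : Fin n) (t : ℝ) (k : ℕ) : dd i₀ (k * t) = (dd i₀ t) ^ k := by
  induction k with
  | zero => simp [dd_zero]
  | succ k ih => rw [Nat.cast_succ, add_mul, one_mul, dd_add, ih, pow_succ]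

theorem continuous_dd (i₀ : Fin n) : Continuous (dd i₀) := by
  rw [continuous_SL_iff]
  simp only [dd_coe]
  refine Continuous.matrix_diagonal (continuous_pi fun k => ?_)
  split_ifs
  · exact Real.continuous_exp.comp (continuous_const.mul continuous_id)
  · exact Real.continuous_exp.comp continuous_neg

theorem mv_dd (i₀ : Fin n) (t : ℝ) :
    mv (dd i₀ t).1 (ee i₀) = Real.exp ((n - 1 : ℕ) * t) • ee i₀ := by
  apply vext
  intro k
  rw [dd_coe, mv_diagonal]
  show _ = Real.exp ((n - 1 : ℕ) * t) * ee i₀ k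
  rcases eq_or_ne k i₀ with rfl | h
  · rw [if_pos rfl]
  · rw [ee_ne h, mul_zero, mul_zero]

theorem norm_mv_diagonal_le {d : Fin n → ℝ} {D : ℝ} (hd : ∀ k, |d k| ≤ D) (v : Vn n) :
    ‖mv (Matrix.diagonal d) v‖ ≤ D * ‖v‖ := by
  rcases isEmpty_or_nonempty (Fin n) with hem | hne
  · have : v = 0 := by
      apply vext
      intro i
      exact (hem.false i).elim
    rw [this, map_zero, norm_zero, mul_zero]
  have hD : 0 ≤ D := (abs_nonneg _).trans (hd (Classical.arbitrary _))
  apply le_of_sq_le_sq _ (by positivity)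
  rw [mul_pow, EuclideanSpace.real_norm_sq_eq, EuclideanSpace.real_norm_sq_eq, Finset.mul_sum]
  refine Finset.sum_le_sum fun k _ => ?_
  rw [mv_diagonal, mul_pow]
  have h1 : d k ^ 2 ≤ D ^ 2 := sq_le_sq' (abs_le.1 (hd k)).1 (abs_le.1 (hd k)).2
  exact mul_le_mul_of_nonneg_right h1 (sq_nonneg _)

end Pool.Agent.H812
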