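import Pool.Agent.H812.Fix
import Pool.Agent.H812.Rot
import Pool.Agent.H812.Nf
import Pool.Agent.H812.Cut

/-!
The isotropy group of the first basis vector fixes a surface near the origin.
-/

set_option autoImplicit false

namespace Pool.Agent.H812

open Topology Filter Metric Set Matrix Matrix.SpecialLinearGroup
open scoped ContDiff

variable {n : ℕ} {F : Type*} [NormedAddCommGroup F] [NormedSpace ℝ F]

/-- the inclusion of the surface -/
noncomputable def io (F : Type*) [NormedAddCommGroup F] [NormedSpace ℝ F] (i₀ : Fin n) :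
    ℝ × F →L[ℝ] Vn n × F :=
  ((ContinuousLinearMap.id ℝ ℝ).smulRight (ee i₀)).prodMap (ContinuousLinearMap.id ℝ F)

/-- the projection to the surface -/
noncomputable def pj (F : Type*) [NormedAddCommGroup F] [NormedSpace ℝ F] (i₀ : Fin n) :
    Vn n × F →L[ℝ] ℝ × F :=
  (EuclideanSpace.proj i₀ : Vn n →L[ℝ] ℝ).prodMap (ContinuousLinearMap.id ℝ F)

theorem io_apply (i₀ : Fin n) (x : ℝ) (y : F) : io F i₀ (x, y) = (x • ee i₀, y) := rfl

theorem pj_apply (i₀ : Fin n) (v : Vn n) (y : F) : pj F i₀ (v, y) = (v i₀, y) := rfl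

theorem pj_io (i₀ : Fin n) (z : ℝ × F) : pj F i₀ (io F i₀ z) = z := by
  obtain ⟨x, y⟩ := z
  rw [io_apply, pj_apply]
  show (x * ee i₀ i₀, y) = (x, y)
  rw [ee_same, mul_one]

theorem norm_io (i₀ : Fin n) (z : ℝ × F) : ‖io F i₀ z‖ = ‖z‖ := by
  obtain ⟨x, y⟩ := z
  rw [io_apply, Prod.norm_def, Prod.norm_def]
  simp only
  rw [norm_smul, norm_ee, mul_one]

theorem io_zero (i₀ : Fin n) (y : F) : io F i₀ (0, y) = (0, y) := by
  rw [io_apply, zero_smul]

/-- the situation after the preparations -/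
structure Std (a : SLn n → Vn n × F → Vn n × F) (δ : ℝ) : Prop where
  sm : IsSm a
  hn : 3 ≤ n
  pos : 0 < δ
  orth : ∀ k, IsOrth k → ∀ z, ‖z‖ < δ → a k z = LL F k.1 z
  fix : ∀ y : F, ‖y‖ < δ → ∀ g, a g (0, y) = (0, y)
  der : ∀ y : F, ‖y‖ < δ → ∀ g, fderiv ℝ (a g) (0, y) = LL F g.1

variable {a : SLn n → Vn n × F → Vn n × F} {δ : ℝ}

theorem Std.zero (h : Std a δ) (g : SLn n) : a g 0 = 0 :=
  h.fix 0 (by simpa using h.pos) g

/-- diagonal matrices preserve the surface -/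
theorem Std.diag (h : Std a δ) (i₀ : Fin n) {d : SLn n} {c : Fin n → ℝ}
    (hd : d.1 = Matrix.diagonal c) {z : ℝ × F} (hz : ‖z‖ < δ) (hz' : ‖a d (io F i₀ z)‖ < δ) :
    a d (io F i₀ z) = io F i₀ (pj F i₀ (a d (io F i₀ z))) := by
  obtain ⟨x, y⟩ := z
  have key : ∀ k, k ≠ i₀ → (a d (io F i₀ (x, y))).1 k = 0 := by
    intro k hk
    obtain ⟨q, hqi, hqk⟩ := exists_ne_ne h.hn i₀ k
    have h1 : a (sg hqk.symm) (io F i₀ (x, y)) = io F i₀ (x, y) := by
      rw [h.orth _ (sg_orth _) _ (by rwa [norm_io]), io_apply, LL_apply, map_smul]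
      have : mv (sg hqk.symm).1 (ee i₀) = ee i₀ := by
        apply vext
        intro l
        rw [sg_coe, mv_diagonal]
        rcases eq_or_ne l i₀ with rfl | hl
        · rw [if_neg, one_mul]
          rintro (h | h)
          · exact hk h.symm
          · exact hqi h.symm
        · rw [ee_ne hl, mul_zero]
      rw [this]
    have h2 : a (sg hqk.symm) (a d (io F i₀ (x, y))) = a d (io F i₀ (x, y)) := by
      rw [← h.sm.mul, diagonal_comm (sg_coe _) hd, h.sm.mul, h1]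
    rw [h.orth _ (sg_orth _) _ hz'] at h2
    have h3 := congrArg (fun p : Vn n × F => p.1 k) h2
    have h4 : (mv (sg hqk.symm).1 (a d (io F i₀ (x, y))).1) k = (a d (io F i₀ (x, y))).1 k := h3
    rw [sg_coe, mv_diagonal, if_pos (Or.inl rfl)] at h4
    linarith
  set w := a d (io F i₀ (x, y)) with hw
  obtain ⟨v, y'⟩ := w
  rw [pj_apply, io_apply]
  refine Prod.ext ?_ rfl
  apply vext
  intro k
  show v k = v i₀ * ee i₀ k
  rcases eq_or_ne k i₀ with rfl | hk
  · rw [ee_same, mul_one]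
  · rw [ee_ne hk, mul_zero]
    exact key k hk

/-- parity -/
theorem Std.parity (h : Std a δ) (i₀ : Fin n) {d : SLn n} {c : Fin n → ℝ}
    (hd : d.1 = Matrix.diagonal c) {x : ℝ} {y : F} (hz : ‖((x, y) : ℝ × F)‖ < δ)
    (hz' : ‖a d (io F i₀ (x, y))‖ < δ) :
    pj F i₀ (a d (io F i₀ (-x, y))) =
      (-(pj F i₀ (a d (io F i₀ (x, y)))).1, (pj F i₀ (a d (io F i₀ (x, y)))).2) := by
  obtain ⟨q, hq, -⟩ := exists_ne_ne h.hn i₀ i₀
  have h1 : a (sg hq.symm) (io F i₀ (x, y)) = io F i₀ (-x, y) := by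
    rw [h.orth _ (sg_orth _) _ (by rwa [norm_io]), io_apply, LL_apply, map_smul, io_apply]
    have : mv (sg hq.symm).1 (ee i₀) = - ee i₀ := by
      apply vext
      intro l
      rw [sg_coe, mv_diagonal]
      show _ = - ee i₀ l
      rcases eq_or_ne l i₀ with rfl | hl
      · rw [if_pos (Or.inl rfl)]; ring
      · rw [ee_ne hl]; ring
    rw [this, smul_neg, neg_smul]
  rw [← h1, ← h.sm.mul, diagonal_comm hd (sg_coe _), h.sm.mul, h.orth _ (sg_orth _) _ hz']
  set w := a d (io F i₀ (x, y)) with hw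
  obtain ⟨v, y'⟩ := w
  rw [LL_apply, pj_apply, pj_apply, sg_coe, mv_diagonal, if_pos (Or.inl rfl)]
  simp

variable [FiniteDimensional ℝ F]

/-- quadratic estimate -/
theorem Std.quad (h : Std a δ) (i₀ : Fin n) (C : Set (SLn n)) (hC : IsCompact C)
    (hC0 : ∀ g ∈ C, mv g.1 (ee i₀) = ee i₀) :
    ∃ C₁ : ℝ, 0 ≤ C₁ ∧ ∀ g ∈ C, ∀ z : ℝ × F, ‖z‖ < min δ 1 →
      ‖a g (io F i₀ z) - io F i₀ z‖ ≤ C₁ * |z.1| ^ 2 := by
  have hprop : ProperSpace F := FiniteDimensional.proper_real F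
  have hT := h.sm.tan
  have hcomp : IsCompact (C ×ˢ closedBall (0 : (Vn n × F) × (Vn n × F)) 1) :=
    hC.prod (isCompact_closedBall _ _)
  obtain ⟨C₁, hC₁⟩ := hcomp.exists_bound_of_continuousOn hT.continuous_fderiv.continuousOn
  refine ⟨max C₁ 0, le_max_right _ _, fun g hg z hz => ?_⟩
  have hz1 : ‖z‖ < 1 := hz.trans_le (min_le_right _ _)
  have hzδ : ‖z‖ < δ := hz.trans_le (min_le_left _ _)
  obtain ⟨x, y⟩ := z
  have hbd : ∀ p ∈ closedBall (0 : (Vn n × F) × (Vn n × F)) 1,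
      ‖fderiv ℝ (tan a g) p‖ ≤ max C₁ 0 := fun p hp =>
    (hC₁ (g, p) ⟨hg, hp⟩).trans (le_max_left _ _)
  have hy1 : ‖y‖ ≤ 1 := (norm_snd_le ((x, y) : ℝ × F)).trans hz1.le
  have hyδ : ‖y‖ < δ := (norm_snd_le ((x, y) : ℝ × F)).trans_lt hzδ
  have hx1 : |x| ≤ 1 := (norm_fst_le ((x, y) : ℝ × F)).trans hz1.le
  set e : Vn n × F := (ee i₀, 0) with he
  have hen : ‖e‖ = 1 := by rw [he, Prod.norm_def]; simp [norm_ee]
  have hmem : ∀ t : ℝ, |t| ≤ 1 → ((io F i₀ (t, y), e) : (Vn n × F) × (Vn n × F)) ∈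
      closedBall (0 : (Vn n × F) × (Vn n × F)) 1 := by
    intro t ht
    rw [mem_closedBall_zero_iff, Prod.norm_def, max_le_iff, hen, norm_io, Prod.norm_def,
      max_le_iff]
    exact ⟨⟨ht, hy1⟩, le_rfl⟩
  have hder : ∀ t : ℝ, |t| ≤ 1 →
      ‖fderiv ℝ (a g) (io F i₀ (t, y)) e - e‖ ≤ max C₁ 0 * |t| := by
    intro t ht
    have h1 := Convex.norm_image_sub_le_of_norm_fderiv_le (𝕜 := ℝ) (f := tan a g)
      (C := max C₁ 0) (s := closedBall (0 : (Vn n × F) × (Vn n × F)) 1)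
      (fun p _ => hT.diff g p) hbd (convex_closedBall _ _) (hmem 0 (by simp)) (hmem t ht)
    have h2 : ‖((io F i₀ (t, y), e) : (Vn n × F) × (Vn n × F)) - (io F i₀ (0, y), e)‖ = |t| := by
      rw [Prod.mk_sub_mk, sub_self, ← map_sub, Prod.norm_def]
      simp only
      rw [norm_io, Prod.mk_sub_mk, sub_self, sub_zero, Prod.norm_def]
      simp
    rw [h2] at h1
    have h3 : ‖fderiv ℝ (a g) (io F i₀ (t, y)) e - fderiv ℝ (a g) (io F i₀ (0, y)) e‖ ≤
        ‖tan a g (io F i₀ (t, y), e) - tan a g (io F i₀ (0, y), e)‖ := by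
      unfold tan
      rw [Prod.mk_sub_mk, Prod.norm_def]
      exact le_max_right _ _
    have h4 : fderiv ℝ (a g) (io F i₀ (0, y)) e = e := by
      rw [io_zero, h.der y hyδ, he, LL_apply, hC0 g hg]
    rw [h4] at h3
    exact h3.trans h1
  have hf : ∀ t : ℝ, HasDerivAt (fun t : ℝ => a g (io F i₀ (t, y)) - io F i₀ (t, y))
      (fderiv ℝ (a g) (io F i₀ (t, y)) e - e) t := by
    intro t
    have h1 : HasDerivAt (fun t : ℝ => ((t, y) : ℝ × F)) (1, 0) t :=
      (hasDerivAt_id t).prodMk (hasDerivAt_const t y)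
    have h2 : HasDerivAt (fun t : ℝ => io F i₀ (t, y)) e t := by
      have h3 := (io F i₀).hasFDerivAt.comp_hasDerivAt t h1
      have h4 : io F i₀ (1, 0) = e := by rw [io_apply, one_smul]
      rw [h4] at h3
      exact h3
    exact ((h.sm.diff g _).hasFDerivAt.comp_hasDerivAt t h2).sub h2
  have h5 := Convex.norm_image_sub_le_of_norm_hasDerivWithin_le (𝕜 := ℝ)
    (f := fun t : ℝ => a g (io F i₀ (t, y)) - io F i₀ (t, y)) (C := max C₁ 0 * |x|)
    (s := closedBall (0 : ℝ) |x|) (x := 0) (y := x) (fun t _ => (hf t).hasDerivWithinAt)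
    (fun t ht => by
      have ht' : |t| ≤ |x| := by simpa using ht
      exact (hder t (ht'.trans hx1)).trans
        (mul_le_mul_of_nonneg_left ht' (le_max_right _ _)))
    (convex_closedBall _ _) (mem_closedBall_self (abs_nonneg _)) (by simp)
  have h6 : a g (io F i₀ (0, y)) - io F i₀ (0, y) = 0 := by
    rw [io_zero, h.fix y hyδ, sub_self]
  simp only [h6, sub_zero] at h5
  refine h5.trans (le_of_eq ?_)
  rw [Real.norm_eq_abs, pow_two]
  ring

theorem exists_eps {κ : ℝ} (h0 : 0 < κ) (h1 : κ < 1) :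
    ∃ ε > 0, κ + ε < 1 ∧ (κ + ε) ^ 2 * (κ⁻¹ + ε) < 1 := by
  have hc : Continuous fun ε : ℝ => (κ + ε) ^ 2 * (κ⁻¹ + ε) := by fun_prop
  have h2 := hc.tendsto 0
  have h3 : (κ + 0) ^ 2 * (κ⁻¹ + 0) = κ := by field_simp; ring
  rw [h3] at h2
  have h4 := h2.eventually (gt_mem_nhds h1)
  obtain ⟨η, hη, h5⟩ := Metric.eventually_nhds_iff_ball.1 h4
  refine ⟨min (η / 2) ((1 - κ) / 2), by
    have : 0 < 1 - κ := by linarith
    positivity, ?_, ?_⟩
  · have := min_le_right (η / 2) ((1 - κ) / 2)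
    linarith
  · apply h5
    rw [mem_ball_zero_iff, Real.norm_eq_abs, abs_of_nonneg]
    · have := min_le_left (η / 2) ((1 - κ) / 2)
      linarith
    · have : 0 < 1 - κ := by linarith
      positivity

/-- **The isotropy group of the first basis vector fixes the surface.** -/
theorem Std.isotropy (h : Std a δ) (i₀ : Fin n) (M : ℝ) :
    ∃ δ' > 0, ∀ g : SLn n, (∀ i j, |g.1 i j| ≤ M) → mv g.1 (ee i₀) = ee i₀ →
      ∀ z : ℝ × F, ‖z‖ < δ' → a g (io F i₀ z) = io F i₀ z := by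
  have hδ := h.pos
  -- the contraction
  set κ : ℝ := Real.exp ((n - 1 : ℕ) * (-1)) with hκ
  have hκ0 : 0 < κ := Real.exp_pos _
  have hn1 : (1 : ℝ) ≤ ((n - 1 : ℕ) : ℝ) := by
    have := h.hn
    exact_mod_cast (by omega : 1 ≤ n - 1)
  have hκ1 : κ < 1 := by
    rw [hκ, Real.exp_lt_one_iff]
    linarith
  obtain ⟨ε, hε, hκε, hθ⟩ := exists_eps hκ0 hκ1
  set c : SLn n := dd i₀ (-1) with hc
  set c' : SLn n := dd i₀ 1 with hc'
  -- Lipschitz bound for the inverse
  have hlip0 : ‖fderiv ℝ (a c') 0‖ ≤ κ⁻¹ := by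
    have h00 : ((0, (0 : F)) : Vn n × F) = 0 := rfl
    have h1 := h.der 0 (by simpa using hδ) c'
    rw [h00] at h1
    rw [h1]
    refine ContinuousLinearMap.opNorm_le_bound _ (by positivity) fun p => ?_
    obtain ⟨v, y⟩ := p
    have hκinv : κ⁻¹ = Real.exp ((n - 1 : ℕ) * 1) := by
      rw [hκ, ← Real.exp_neg]; congr 1; ring
    have h1κ : 1 ≤ κ⁻¹ := by
      rw [hκinv]
      exact Real.one_le_exp (by linarith)
    have h2 : ‖mv c'.1 v‖ ≤ κ⁻¹ * ‖v‖ := by
      rw [hc', dd_coe]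
      apply norm_mv_diagonal_le
      intro k
      split_ifs
      · rw [abs_of_pos (Real.exp_pos _), hκinv]
      · rw [abs_of_pos (Real.exp_pos _)]
        have : Real.exp (-1) ≤ 1 := by
          rw [Real.exp_le_one_iff]; norm_num
        linarith
    rw [LL_apply, Prod.norm_def, Prod.norm_def]
    simp only
    rw [max_le_iff]
    constructor
    · exact h2.trans (mul_le_mul_of_nonneg_left (le_max_left _ _) (by positivity))
    · calc ‖y‖ ≤ 1 * max ‖v‖ ‖y‖ := by rw [one_mul]; exact le_max_right _ _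
        _ ≤ κ⁻¹ * max ‖v‖ ‖y‖ := mul_le_mul_of_nonneg_right h1κ (by positivity)
  set Λ : ℝ := κ⁻¹ + ε with hΛ
  have hΛ1 : 1 ≤ Λ := by
    have : 1 ≤ κ⁻¹ := (one_le_inv₀ hκ0).2 hκ1.le
    linarith
  have hlip : ∀ᶠ z in 𝓝 (0 : Vn n × F), ‖fderiv ℝ (a c') z‖ < Λ := by
    have h1 : Continuous fun z => ‖fderiv ℝ (a c') z‖ :=
      ((h.sm.smooth c').continuous_fderiv (by simp)).norm
    exact (h1.tendsto 0).eventually (gt_mem_nhds (by linarith))
  obtain ⟨ρ₁, hρ₁, hball₁⟩ := Metric.eventually_nhds_iff_ball.1 hlip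
  have hcsmall : ∀ᶠ z in 𝓝 (0 : Vn n × F), ‖a c z‖ < δ := by
    have h1 : Continuous fun z => ‖a c z‖ := ((h.sm.smooth c).continuous).norm
    have h2 := h1.tendsto 0
    rw [h.zero, norm_zero] at h2
    exact h2.eventually (gt_mem_nhds hδ)
  obtain ⟨ρ₂, hρ₂, hball₂⟩ := Metric.eventually_nhds_iff_ball.1 hcsmall
  set ρ : ℝ := min (min (ρ₁ / 2) ρ₂) (min δ 1) with hρ
  have hρ0 : 0 < ρ := by positivity
  have hρρ₁ : ρ ≤ ρ₁ / 2 := (min_le_left _ _).trans (min_le_left _ _)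
  have hρρ₂ : ρ ≤ ρ₂ := (min_le_left _ _).trans (min_le_right _ _)
  have hρδ1 : ρ ≤ min δ 1 := min_le_right _ _
  have hρδ : ρ ≤ δ := hρδ1.trans (min_le_left _ _)
  set δ₃ : ℝ := min δ ρ₂ with hδ₃
  have hδ₃0 : 0 < δ₃ := lt_min hδ hρ₂
  -- the map on the surface
  set G : ℝ × F → ℝ × F := fun z => pj F i₀ (a c (io F i₀ z)) with hG
  have hGs : ContDiff ℝ ∞ G :=
    (pj F i₀).contDiff.comp ((h.sm.smooth c).comp (io F i₀).contDiff)
  have hGfix : ∀ y : F, ‖y‖ < δ₃ → G (0, y) = (0, y) := by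
    intro y hy
    rw [hG]
    simp only
    rw [io_zero, h.fix y (hy.trans_le (min_le_left _ _)), pj_apply]
    rfl
  have hGder : ∀ y : F, ‖y‖ < δ₃ → fderiv ℝ G (0, y) (1, 0) = (κ, 0) := by
    intro y hy
    have h1 : HasFDerivAt (io F i₀ : ℝ × F → Vn n × F) (io F i₀) (0, y) :=
      (io F i₀).hasFDerivAt
    have h2 := (h.sm.diff c (io F i₀ (0, y))).hasFDerivAt.comp (0, y) h1
    have h3 := (pj F i₀).hasFDerivAt.comp (0, y) h2
    have h4 : fderiv ℝ G (0, y) = _ := h3.fderiv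
    rw [h4, io_zero, h.der y (hy.trans_le (min_le_left _ _))]
    show pj F i₀ (LL F c.1 (io F i₀ (1, 0))) = (κ, 0)
    rw [io_apply, LL_apply, one_smul, hc, mv_dd, pj_apply]
    show (Real.exp ((n - 1 : ℕ) * (-1)) * ee i₀ i₀, (0 : F)) = (κ, 0)
    rw [ee_same, mul_one]
  obtain ⟨s, Y, -, -, -, -, -, -, r₁, hr₁, hnf⟩ := local_nf G hGs hκ0 hε hκε hδ₃0 hρ0 hGfix
    (fun y hy => by rw [hGder y hy]) (by rw [hGder 0 (by simpa using hδ₃0)])
    (fun x y hx hy => by
      have h1 : ‖((x, y) : ℝ × F)‖ < δ₃ := by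
        rw [Prod.norm_def]; exact max_lt hx hy
      refine h.parity i₀ (dd_coe i₀ _) (h1.trans_le (min_le_left _ _)) (hball₂ _ ?_)
      rw [mem_ball_zero_iff, norm_io]
      exact h1.trans_le (min_le_right _ _))
  -- the orbits of the surface
  have horb : ∀ z : ℝ × F, ‖z‖ < r₁ → ∀ m : ℕ,
      a (dd i₀ (-(m : ℝ))) (io F i₀ z) = io F i₀ (G^[m] z) := by
    intro z hz m
    induction m with
    | zero => simp [dd_zero, h.sm.one]
    | succ m ih =>
      have h1 : (-((m + 1 : ℕ) : ℝ)) = -1 + -(m : ℝ) := by push_cast; ring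
      rw [h1, dd_add, h.sm.mul, ih, Function.iterate_succ_apply']
      have h2 : ‖G^[m] z‖ < ρ := ((hnf z hz).1 m).1
      refine h.diag i₀ (dd_coe i₀ _) (h2.trans_le hρδ) (hball₂ _ ?_)
      rw [mem_ball_zero_iff, norm_io]
      exact h2.trans_le hρρ₂
  -- the compact set
  set C : Set (SLn n) := {g | (∀ i j, |g.1 i j| ≤ M) ∧ mv g.1 (ee i₀) = ee i₀} with hCdef
  have hCcomp : IsCompact C := by
    have h1 : IsClosedEmbedding (fun g : SLn n => g.1) := isClosedEmbedding_val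
    have hval : Continuous fun g : SLn n => g.1 := h1.continuous
    have hCcl : IsClosed C := by
      have h2 : IsClosed {g : SLn n | ∀ i j, |g.1 i j| ≤ M} := by
        have h3 : {g : SLn n | ∀ i j, |g.1 i j| ≤ M} = ⋂ i, ⋂ j, {g : SLn n | |g.1 i j| ≤ M} := by
          ext g; simp
        rw [h3]
        exact isClosed_iInter fun i => isClosed_iInter fun j =>
          isClosed_le ((hval.matrix_elem i j).abs) continuous_const
      have h4 : IsClosed {g : SLn n | mv g.1 (ee i₀) = ee i₀} :=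
        isClosed_eq ((continuous_mv.comp hval).clm_apply continuous_const) continuous_const
      exact h2.inter h4
    rw [h1.isEmbedding.isInducing.isCompact_iff]
    have h3 : IsCompact {A : Matrix (Fin n) (Fin n) ℝ | ∀ i j, |A i j| ≤ M} := by
      have : {A : Matrix (Fin n) (Fin n) ℝ | ∀ i j, |A i j| ≤ M} =
          Set.pi univ fun _ : Fin n => Set.pi univ fun _ : Fin n => Icc (-M : ℝ) M := by
        ext A
        constructor
        · intro h i _ j _
          exact abs_le.1 (h i j)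
        · intro h i j
          exact abs_le.2 (h i (mem_univ _) j (mem_univ _))
      rw [this]
      exact isCompact_univ_pi fun _ => isCompact_univ_pi fun _ => isCompact_Icc
    refine h3.of_isClosed_subset (h1.isClosedMap _ hCcl) ?_
    rintro A ⟨g, hg, rfl⟩
    exact hg.1
  obtain ⟨C₁, hC₁, hquad⟩ := h.quad i₀ C hCcomp (fun g hg => hg.2)
  -- the conjugated elements
  have hconj : ∀ g ∈ C, ∀ N : ℕ, dd i₀ (-(N : ℝ)) * g * dd i₀ (N : ℝ) ∈ C := by
    intro g hg N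
    have hcol : ∀ i, g.1 i i₀ = if i = i₀ then 1 else 0 := by
      intro i
      have := congrArg (fun v : Vn n => v i) hg.2
      simp only [mv_ee, ee_apply] at this
      exact this
    have hval : (dd i₀ (-(N : ℝ)) * g * dd i₀ (N : ℝ)).1 =
        Matrix.of fun i j => (if i = i₀ then Real.exp ((n - 1 : ℕ) * (-(N : ℝ))) else
          Real.exp (-(-(N : ℝ)))) * g.1 i j *
          (if j = i₀ then Real.exp ((n - 1 : ℕ) * (N : ℝ)) else Real.exp (-(N : ℝ))) := by
      rw [Matrix.SpecialLinearGroup.coe_mul, Matrix.SpecialLinearGroup.coe_mul, dd_coe, dd_coe]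
      ext i j
      rw [Matrix.mul_diagonal, Matrix.diagonal_mul]
      rfl
    have hN0 : (0 : ℝ) ≤ N := Nat.cast_nonneg N
    constructor
    · intro i j
      rw [hval, Matrix.of_apply]
      have hM0 : 0 ≤ M := (abs_nonneg _).trans (hg.1 i j)
      by_cases hi : i = i₀
      · by_cases hj : j = i₀
        · rw [if_pos hi, if_pos hj]
          have h1 : Real.exp ((n - 1 : ℕ) * (-(N : ℝ))) * g.1 i j *
              Real.exp ((n - 1 : ℕ) * (N : ℝ)) = g.1 i j := by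
            rw [mul_right_comm, ← Real.exp_add]
            have : ((n - 1 : ℕ) : ℝ) * (-(N : ℝ)) + ((n - 1 : ℕ) : ℝ) * (N : ℝ) = 0 := by ring
            rw [this, Real.exp_zero, one_mul]
          rw [h1]
          exact hg.1 i j
        · rw [if_pos hi, if_neg hj]
          have h1 : Real.exp ((n - 1 : ℕ) * (-(N : ℝ))) ≤ 1 := by
            rw [Real.exp_le_one_iff]
            nlinarith
          have h2 : Real.exp (-(N : ℝ)) ≤ 1 := by
            rw [Real.exp_le_one_iff]; linarith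
          rw [abs_mul, abs_mul, abs_of_pos (Real.exp_pos _), abs_of_pos (Real.exp_pos _)]
          calc _ ≤ 1 * M * 1 := by
                refine mul_le_mul (mul_le_mul h1 (hg.1 i j) (abs_nonneg _) zero_le_one) h2
                  (Real.exp_pos _).le (by positivity)
            _ = M := by ring
      · by_cases hj : j = i₀
        · rw [if_neg hi, if_pos hj, hj, hcol, if_neg hi]
          simpa using hM0
        · rw [if_neg hi, if_neg hj]
          have h1 : Real.exp (-(-(N : ℝ))) * g.1 i j * Real.exp (-(N : ℝ)) = g.1 i j := by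
            rw [mul_right_comm, ← Real.exp_add]
            have : -(-(N : ℝ)) + -(N : ℝ) = 0 := by ring
            rw [this, Real.exp_zero, one_mul]
          rw [h1]
          exact hg.1 i j
    · apply vext
      intro i
      rw [mv_ee, hval, Matrix.of_apply, if_pos rfl, hcol, ee_apply]
      by_cases hi : i = i₀
      · rw [if_pos hi, if_pos hi, mul_one, ← Real.exp_add]
        have : ((n - 1 : ℕ) : ℝ) * (-(N : ℝ)) + ((n - 1 : ℕ) : ℝ) * (N : ℝ) = 0 := by ring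
        rw [this, Real.exp_zero]
      · rw [if_neg hi, if_neg hi, mul_zero, zero_mul]
  -- choice of the radius
  set δ' : ℝ := min r₁ (min 1 (ρ₁ / (2 * (C₁ + 1)))) with hδ'
  have hδ'0 : 0 < δ' := by positivity
  refine ⟨δ', hδ'0, fun g hg1 hg2 z hz => ?_⟩
  have hgC : g ∈ C := ⟨hg1, hg2⟩
  have hzr : ‖z‖ < r₁ := hz.trans_le (min_le_left _ _)
  have hz1 : ‖z‖ < 1 := hz.trans_le ((min_le_right _ _).trans (min_le_left _ _))
  have hzρ : ‖z‖ < ρ₁ / (2 * (C₁ + 1)) := hz.trans_le ((min_le_right _ _).trans (min_le_right _ _))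
  have hx : |z.1| ≤ ‖z‖ := norm_fst_le z
  have hquadz : C₁ * |z.1| ^ 2 < ρ₁ / 2 := by
    have h1 : |z.1| ^ 2 ≤ |z.1| := by
      rw [pow_two]
      have : |z.1| ≤ 1 := hx.trans hz1.le
      nlinarith [abs_nonneg z.1]
    have h2 : C₁ * |z.1| ^ 2 ≤ C₁ * |z.1| := mul_le_mul_of_nonneg_left h1 hC₁
    have h3 : (C₁ + 1) * ‖z‖ < ρ₁ / 2 := by
      rw [lt_div_iff₀ (by positivity)] at hzρ
      linarith
    nlinarith [abs_nonneg z.1, norm_nonneg z]
  have hθ0 : 0 ≤ (κ + ε) ^ 2 * Λ := by positivity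
  -- the main estimate
  have main : ∀ N : ℕ, ‖a g (io F i₀ z) - io F i₀ z‖ ≤ C₁ * |z.1| ^ 2 * ((κ + ε) ^ 2 * Λ) ^ N := by
    intro N
    set gN := dd i₀ (-(N : ℝ)) * g * dd i₀ (N : ℝ) with hgN
    set q := a gN (a (dd i₀ (-(N : ℝ))) (io F i₀ z)) with hq
    set η := C₁ * ((κ + ε) ^ N * |z.1|) ^ 2 with hη
    have hη0 : 0 ≤ η := by positivity
    have hq1 : ‖q - a (dd i₀ (-(N : ℝ))) (io F i₀ z)‖ ≤ η := by
      rw [hq, horb z hzr N]
      have h1 := hquad gN (hconj g hgC N) (G^[N] z) (((hnf z hzr).1 N).1.trans_le hρδ1)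
      refine h1.trans ?_
      have h2 := ((hnf z hzr).1 N).2
      have h3 : |(G^[N] z).1| ^ 2 ≤ ((κ + ε) ^ N * |z.1|) ^ 2 :=
        pow_le_pow_left₀ (abs_nonneg _) h2 2
      exact mul_le_mul_of_nonneg_left h3 hC₁
    have hηΛ : ∀ j : ℕ, j ≤ N → Λ ^ j * η ≤ C₁ * |z.1| ^ 2 * ((κ + ε) ^ 2 * Λ) ^ N := by
      intro j hj
      have h1 : Λ ^ j ≤ Λ ^ N := pow_le_pow_right₀ hΛ1 hj
      calc Λ ^ j * η ≤ Λ ^ N * η := mul_le_mul_of_nonneg_right h1 hη0
        _ = C₁ * |z.1| ^ 2 * ((κ + ε) ^ 2 * Λ) ^ N := by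
            rw [hη]
            generalize κ + ε = ν
            ring
    have hpow1 : ((κ + ε) ^ 2 * Λ) ^ N ≤ 1 := pow_le_one₀ hθ0 hθ.le
    have hback : ∀ j : ℕ, j ≤ N → ‖a (dd i₀ (j : ℝ)) q -
        a (dd i₀ (j : ℝ)) (a (dd i₀ (-(N : ℝ))) (io F i₀ z))‖ ≤ Λ ^ j * η := by
      intro j hj
      induction j with
      | zero =>
        rw [Nat.cast_zero, dd_zero, h.sm.one, h.sm.one, pow_zero, one_mul]
        exact hq1
      | succ j ih =>
        have ih' := ih (by omega)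
        have h1 : ((j + 1 : ℕ) : ℝ) = 1 + (j : ℝ) := by push_cast; ring
        rw [h1, dd_add, h.sm.mul, h.sm.mul]
        have hw : a (dd i₀ (j : ℝ)) (a (dd i₀ (-(N : ℝ))) (io F i₀ z)) =
            io F i₀ (G^[N - j] z) := by
          rw [← h.sm.mul, ← dd_add]
          have h2 : (j : ℝ) + -(N : ℝ) = -((N - j : ℕ) : ℝ) := by
            rw [Nat.cast_sub (by omega)]; ring
          rw [h2, horb z hzr]
        have hwn : ‖a (dd i₀ (j : ℝ)) (a (dd i₀ (-(N : ℝ))) (io F i₀ z))‖ < ρ₁ / 2 := by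
          rw [hw, norm_io]
          exact ((hnf z hzr).1 _).1.trans_le hρρ₁
        have hqn : ‖a (dd i₀ (j : ℝ)) q‖ < ρ₁ := by
          have h3 : ‖a (dd i₀ (j : ℝ)) q‖ ≤ ‖a (dd i₀ (j : ℝ)) q -
              a (dd i₀ (j : ℝ)) (a (dd i₀ (-(N : ℝ))) (io F i₀ z))‖ +
              ‖a (dd i₀ (j : ℝ)) (a (dd i₀ (-(N : ℝ))) (io F i₀ z))‖ := by
            simpa using norm_add_le (a (dd i₀ (j : ℝ)) q -
              a (dd i₀ (j : ℝ)) (a (dd i₀ (-(N : ℝ))) (io F i₀ z)))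
              (a (dd i₀ (j : ℝ)) (a (dd i₀ (-(N : ℝ))) (io F i₀ z)))
          have h4 := hηΛ j (by omega)
          have h5 : C₁ * |z.1| ^ 2 * ((κ + ε) ^ 2 * Λ) ^ N ≤ C₁ * |z.1| ^ 2 * 1 :=
            mul_le_mul_of_nonneg_left hpow1 (by positivity)
          linarith
        have h6 := Convex.norm_image_sub_le_of_norm_fderiv_le (𝕜 := ℝ) (f := a c') (C := Λ)
          (s := ball (0 : Vn n × F) ρ₁) (fun p _ => h.sm.diff c' p)
          (fun p hp => (hball₁ p hp).le) (convex_ball _ _)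
          (x := a (dd i₀ (j : ℝ)) (a (dd i₀ (-(N : ℝ))) (io F i₀ z)))
          (y := a (dd i₀ (j : ℝ)) q)
          (by rw [mem_ball_zero_iff]; linarith) (by rw [mem_ball_zero_iff]; exact hqn)
        refine h6.trans ?_
        calc Λ * _ ≤ Λ * (Λ ^ j * η) := mul_le_mul_of_nonneg_left ih' (by linarith)
          _ = Λ ^ (j + 1) * η := by ring
    have hfin := hback N le_rfl
    have e1 : a (dd i₀ (N : ℝ)) (a (dd i₀ (-(N : ℝ))) (io F i₀ z)) = io F i₀ z := by
      rw [← h.sm.mul, ← dd_add, add_neg_cancel, dd_zero, h.sm.one]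
    have e2 : a (dd i₀ (N : ℝ)) q = a g (io F i₀ z) := by
      rw [hq, ← h.sm.mul, ← h.sm.mul, hgN]
      congr 1
      rw [dd_neg]
      group
    rw [e1, e2] at hfin
    exact hfin.trans (hηΛ N le_rfl)
  have hlim : Tendsto (fun N : ℕ => C₁ * |z.1| ^ 2 * ((κ + ε) ^ 2 * Λ) ^ N) atTop
      (𝓝 (C₁ * |z.1| ^ 2 * 0)) :=
    (tendsto_pow_atTop_nhds_zero_of_lt_one hθ0 hθ).const_mul _
  rw [mul_zero] at hlim
  have h0 : ‖a g (io F i₀ z) - io F i₀ z‖ ≤ 0 := ge_of_tendsto' hlim main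
  exact sub_eq_zero.1 (norm_le_zero_iff.1 h0)

end Pool.Agent.H812
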