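import Pool.Agent.H812.Lin

/-!
Linearization of actions of `SL(n, ℝ)` on `ℝⁿ × F`, after preparations.
-/

set_option autoImplicit false

namespace Pool.Agent.H812

open Topology Filter Metric Set Matrix Matrix.SpecialLinearGroup
open scoped ContDiff

variable {n : ℕ} {F : Type*} [NormedAddCommGroup F] [NormedSpace ℝ F]
variable {a : SLn n → Vn n × F → Vn n × F} {δ : ℝ}

theorem small_on_compact {G H : Type*} [TopologicalSpace G] [NormedAddCommGroup H]
    {a : G → H → H} (hc : Continuous fun p : G × H => a p.1 p.2) {C : Set G} (hC : IsCompact C)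
    (h0 : ∀ g ∈ C, a g 0 = 0) {η : ℝ} (hη : 0 < η) :
    ∃ d > 0, ∀ g ∈ C, ∀ z, ‖z‖ < d → ‖a g z‖ < η := by
  have h1 : ∀ g ∈ C, ∀ᶠ p : G × H in 𝓝 g ×ˢ 𝓝 (0 : H), ‖a p.1 p.2‖ < η := by
    intro g hg
    rw [← nhds_prod_eq]
    have h2 := (hc.norm).tendsto (g, (0 : H))
    simp only [h0 g hg, norm_zero] at h2
    exact h2.eventually (gt_mem_nhds hη)
  have h2 : ∀ᶠ z in 𝓝 (0 : H), ∀ g ∈ C, ‖a g z‖ < η := by
    refine hC.eventually_forall_of_forall_eventually fun g hg => ?_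
    have h3 := h1 g hg
    rw [← nhds_prod_eq] at h3
    have h4 : Tendsto (fun q : H × G => (q.2, q.1)) (𝓝 ((0 : H), g)) (𝓝 (g, (0 : H))) :=
      (continuous_snd.prodMk continuous_fst).tendsto _
    exact h4.eventually h3
  obtain ⟨d, hd, h3⟩ := Metric.eventually_nhds_iff_ball.1 h2
  exact ⟨d, hd, fun g hg z hz => h3 z (by rwa [mem_ball_zero_iff]) g hg⟩

variable [FiniteDimensional ℝ F]

theorem Std.surf (h : Std a δ) (i₀ : Fin n) {ε ρ : ℝ} (hε : 0 < ε)
    (hκε : Real.exp ((n - 1 : ℕ) * (-1)) + ε < 1) (hρ : 0 < ρ) (hρδ : ρ ≤ δ)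
    (hsm : ∀ z : Vn n × F, ‖z‖ < ρ → ‖a (dd i₀ (-1)) z‖ < δ) :
    ∃ (s : ℝ × F → ℝ) (Y : ℝ × F → F), ContDiff ℝ ∞ s ∧ ContDiff ℝ ∞ Y ∧
      (∀ x y, s (-x, y) = s (x, y)) ∧ (∀ x y, Y (-x, y) = Y (x, y)) ∧
      (∀ y, s (0, y) = 1) ∧ (∀ y, Y (0, y) = y) ∧
      ∃ r₁ > 0, ∃ G : ℝ × F → ℝ × F, ∀ z, ‖z‖ < r₁ →
      (∀ m : ℕ, a (dd i₀ (-(m : ℝ))) (io F i₀ z) = io F i₀ (G^[m] z)) ∧
      (∀ N, ‖G^[N] z‖ < ρ ∧ |(G^[N] z).1| ≤ (Real.exp ((n - 1 : ℕ) * (-1)) + ε) ^ N * |z.1|) ∧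
      Tendsto (fun N : ℕ => ((Real.exp ((n - 1 : ℕ) * (-1)))⁻¹) ^ N * (G^[N] z).1) atTop
        (𝓝 (z.1 * s z)) ∧
      Tendsto (fun N : ℕ => (G^[N] z).2) atTop (𝓝 (Y z)) := by
  set κ : ℝ := Real.exp ((n - 1 : ℕ) * (-1)) with hκ
  have hκ0 : 0 < κ := Real.exp_pos _
  set c : SLn n := dd i₀ (-1) with hc
  set G : ℝ × F → ℝ × F := fun z => pj F i₀ (a c (io F i₀ z)) with hG
  have hGs : ContDiff ℝ ∞ G :=
    (pj F i₀).contDiff.comp ((h.sm.smooth c).comp (io F i₀).contDiff)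
  have hGfix : ∀ y : F, ‖y‖ < ρ → G (0, y) = (0, y) := by
    intro y hy
    rw [hG]
    simp only
    rw [io_zero, h.fix y (hy.trans_le hρδ), pj_apply]
    rfl
  have hGder : ∀ y : F, ‖y‖ < ρ → fderiv ℝ G (0, y) (1, 0) = (κ, 0) := by
    intro y hy
    have h1 : HasFDerivAt (io F i₀ : ℝ × F → Vn n × F) (io F i₀) (0, y) :=
      (io F i₀).hasFDerivAt
    have h2 := (h.sm.diff c (io F i₀ (0, y))).hasFDerivAt.comp (0, y) h1
    have h3 := (pj F i₀).hasFDerivAt.comp (0, y) h2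
    have h4 : fderiv ℝ G (0, y) = _ := h3.fderiv
    rw [h4, io_zero, h.der y (hy.trans_le hρδ)]
    show pj F i₀ (LL F c.1 (io F i₀ (1, 0))) = (κ, 0)
    rw [io_apply, LL_apply, one_smul, hc, mv_dd, pj_apply]
    show (Real.exp ((n - 1 : ℕ) * (-1)) * ee i₀ i₀, (0 : F)) = (κ, 0)
    rw [ee_same, mul_one]
  obtain ⟨s, Y, hs, hY, hse, hYe, hs0, hY0, r₁, hr₁, hnf⟩ := local_nf G hGs hκ0 hε hκε hρ hρ hGfix
    (fun y hy => by rw [hGder y hy]) (by rw [hGder 0 (by simpa using hρ)])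
    (fun x y hx hy => by
      have h1 : ‖((x, y) : ℝ × F)‖ < ρ := by
        rw [Prod.norm_def]; exact max_lt hx hy
      refine h.parity i₀ (dd_coe i₀ _) (h1.trans_le hρδ) (hsm _ ?_)
      rw [norm_io]
      exact h1)
  have horb : ∀ z : ℝ × F, ‖z‖ < r₁ → ∀ m : ℕ,
      a (dd i₀ (-(m : ℝ))) (io F i₀ z) = io F i₀ (G^[m] z) := by
    intro z hz m
    induction m with
    | zero => simp [dd_zero, h.sm.one]
    | succ m ih =>
      have h1 : (-((m + 1 : ℕ) : ℝ)) = -1 + -(m : ℝ) := by push_cast; ring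
      rw [h1, dd_add, h.sm.mul, ih, Function.iterate_succ_apply']
      have h2 : ‖G^[m] z‖ < ρ := ((hnf z hz).1 m).1
      refine h.diag i₀ (dd_coe i₀ _) (h2.trans_le hρδ) (hsm _ ?_)
      rw [norm_io]
      exact h2
  exact ⟨s, Y, hs, hY, hse, hYe, hs0, hY0, r₁, hr₁, G, fun z hz =>
    ⟨horb z hz, (hnf z hz).1, (hnf z hz).2.1, (hnf z hz).2.2⟩⟩

/-- scaling behaviour of the limits -/
theorem scaling_limit {f : ℝ × F → ℝ × F} {x : ℕ → ℝ} {y : ℕ → F} {ŷ : F} {κ τ l : ℝ}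
    {f' : ℝ × F →L[ℝ] ℝ × F} (hf : HasStrictFDerivAt f f' (0, ŷ))
    (hf' : f' (1, 0) = (τ, 0)) (hx : Tendsto x atTop (𝓝 0)) (hy : Tendsto y atTop (𝓝 ŷ))
    (hfix : ∀ᶠ m in atTop, f (0, y m) = (0, y m))
    (hl : Tendsto (fun m => κ⁻¹ ^ m * x m) atTop (𝓝 l)) :
    Tendsto (fun m => κ⁻¹ ^ m * (f (x m, y m)).1) atTop (𝓝 (τ * l)) := by
  have h1 : Tendsto (fun m => (((x m, y m), (0, y m)) : (ℝ × F) × (ℝ × F))) atTop
      (𝓝 ((0, ŷ), (0, ŷ))) :=
    (hx.prodMk_nhds hy).prodMk_nhds (tendsto_const_nhds.prodMk_nhds hy)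
  have h2 := hf.isLittleO.comp_tendsto h1
  have h3 : (fun m => κ⁻¹ ^ m * ((f (x m, y m)).1 - τ * x m)) =o[atTop]
      fun m => κ⁻¹ ^ m * x m := by
    have h4 : (fun m => ((f (x m, y m)).1 - τ * x m)) =o[atTop] fun m => x m := by
      have h5 : (fun m => f (x m, y m) - f (0, y m) - f' ((x m, y m) - (0, y m))) =o[atTop]
          fun m => (((x m, y m) : ℝ × F) - (0, y m)) := h2
      have h6 : (fun m => ((x m, y m) : ℝ × F) - (0, y m)) =O[atTop] fun m => x m := by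
        apply Asymptotics.isBigO_of_le
        intro m
        rw [Prod.norm_def]
        simp
      have h7 := h5.trans_isBigO h6
      have h8 : (fun m => (f (x m, y m) - f (0, y m) - f' ((x m, y m) - (0, y m))).1) =o[atTop]
          fun m => x m := by
        refine Asymptotics.IsBigO.trans_isLittleO ?_ h7
        apply Asymptotics.isBigO_of_le
        intro m
        exact norm_fst_le _
      refine h8.congr' ?_ EventuallyEq.rfl
      filter_upwards [hfix] with m hm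
      rw [hm]
      have h9 : ((x m, y m) : ℝ × F) - (0, y m) = x m • ((1, 0) : ℝ × F) := by simp
      rw [h9, map_smul, hf']
      simp
      ring
    exact (Asymptotics.isBigO_refl (fun m => κ⁻¹ ^ m) atTop).mul_isLittleO h4
  have h4 : Tendsto (fun m => κ⁻¹ ^ m * ((f (x m, y m)).1 - τ * x m)) atTop (𝓝 0) := by
    have h5 : (fun m => κ⁻¹ ^ m * x m) =O[atTop] fun _ => (1 : ℝ) := hl.isBigO_one ℝ
    exact (Asymptotics.isLittleO_one_iff ℝ).1 (h3.trans_isBigO h5)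
  have h5 := h4.add (hl.const_mul τ)
  rw [zero_add] at h5
  refine h5.congr fun m => ?_
  ring

theorem exists_unit (hn : 2 ≤ n) (i₀ : Fin n) (v : Vn n) :
    ∃ k : SLn n, IsOrth k ∧ v = ‖v‖ • mv k.1 (ee i₀) := by
  rcases eq_or_ne v 0 with rfl | hv
  · exact ⟨1, IsOrth.one, by simp⟩
  · have hv' : ‖v‖ ≠ 0 := norm_ne_zero_iff.2 hv
    obtain ⟨k, hk, hk'⟩ := exists_rot hn i₀ (‖v‖⁻¹ • v) (by
      rw [norm_smul, norm_inv, norm_norm, inv_mul_cancel₀ hv'])
    exact ⟨k, hk, by rw [hk', smul_smul, mul_inv_cancel₀ hv', one_smul]⟩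

/-- **Linearization** of the standard situation -/
theorem Std.linearize (h : Std a δ) :
    ∃ Φ : (Vn n × F) ≃ₜ (Vn n × F), ContDiff ℝ ∞ Φ ∧ ContDiff ℝ ∞ Φ.symm ∧ Φ 0 = 0 ∧
      fderiv ℝ Φ 0 = ContinuousLinearMap.id ℝ _ ∧
      ∀ᶠ p : SLn n × (Vn n × F) in 𝓝 (1, 0), Φ (a p.1 p.2) = LL F p.1.1 (Φ p.2) := by
  have hδ := h.pos
  have hn2 : 2 ≤ n := by have := h.hn; omega
  set i₀ : Fin n := ⟨0, by omega⟩ with hi₀
  have hn1 : (1 : ℝ) ≤ ((n - 1 : ℕ) : ℝ) := by
    have := h.hn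
    exact_mod_cast (by omega : 1 ≤ n - 1)
  set κ : ℝ := Real.exp ((n - 1 : ℕ) * (-1)) with hκ
  have hκ0 : 0 < κ := Real.exp_pos _
  have hκ1 : κ < 1 := by
    rw [hκ, Real.exp_lt_one_iff]
    linarith
  obtain ⟨ε, hε, hκε, -⟩ := exists_eps hκ0 hκ1
  obtain ⟨ρ₂, hρ₂, hsm⟩ := small_on_compact h.sm.cont (isCompact_singleton (x := dd i₀ (-1)))
    (fun g _ => h.zero g) hδ
  set ρ := min (δ / 2) ρ₂ with hρ
  have hρ0 : 0 < ρ := by positivity
  have hρδ2 : ρ ≤ δ / 2 := min_le_left _ _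
  have hρδ : ρ ≤ δ := by linarith
  obtain ⟨s, Y, hs, hY, hse, hYe, hs0, hY0, r₁, hr₁, G, hG⟩ := h.surf i₀ hε hκε hρ0 hρδ
    (fun z hz => hsm _ (mem_singleton _) z (hz.trans_le (min_le_right _ _)))
  -- behaviour under the diagonal group
  have hcomm : ∀ t : ℝ, ∀ w : ℝ × F, ‖w‖ < r₁ → ∀ z' : ℝ × F, ‖z'‖ < r₁ →
      a (dd i₀ t) (io F i₀ w) = io F i₀ z' →
      z'.1 * s z' = Real.exp ((n - 1 : ℕ) * t) * (w.1 * s w) ∧ Y z' = Y w := by
    intro t w hw z' hz' hz'w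
    obtain ⟨ho, hb, hl1, hl2⟩ := hG w hw
    obtain ⟨ho', hb', hl1', hl2'⟩ := hG z' hz'
    set f : ℝ × F → ℝ × F := fun z => pj F i₀ (a (dd i₀ t) (io F i₀ z)) with hf
    have hfs : ContDiff ℝ ∞ f :=
      (pj F i₀).contDiff.comp ((h.sm.smooth _).comp (io F i₀).contDiff)
    have hit : ∀ m : ℕ, G^[m] z' = f (G^[m] w) := by
      intro m
      have h1 : io F i₀ (G^[m] z') = a (dd i₀ t) (io F i₀ (G^[m] w)) := by
        rw [← ho' m, ← hz'w, ← h.sm.mul, ← dd_add, add_comm, dd_add, h.sm.mul, ho m]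
      have h2 := congrArg (pj F i₀) h1
      rw [pj_io] at h2
      exact h2
    have hx : Tendsto (fun m : ℕ => (G^[m] w).1) atTop (𝓝 0) := by
      have h1 : Tendsto (fun N : ℕ => (κ + ε) ^ N * |w.1|) atTop (𝓝 (0 * |w.1|)) :=
        (tendsto_pow_atTop_nhds_zero_of_lt_one (by linarith) hκε).mul_const _
      rw [zero_mul] at h1
      exact squeeze_zero_norm (fun N => (hb N).2) h1
    have hYw : ‖Y w‖ ≤ ρ := by
      refine le_of_tendsto hl2.norm (Eventually.of_forall fun m => ?_)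
      exact (norm_snd_le _).trans (hb m).1.le
    have hYδ : ‖Y w‖ < δ := by linarith
    have hfd : fderiv ℝ f (0, Y w) (1, 0) = (Real.exp ((n - 1 : ℕ) * t), 0) := by
      have h1 : HasFDerivAt (io F i₀ : ℝ × F → Vn n × F) (io F i₀) (0, Y w) :=
        (io F i₀).hasFDerivAt
      have h2 := (h.sm.diff (dd i₀ t) (io F i₀ (0, Y w))).hasFDerivAt.comp (0, Y w) h1
      have h3 := (pj F i₀).hasFDerivAt.comp (0, Y w) h2
      have h4 : fderiv ℝ f (0, Y w) = _ := h3.fderiv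
      rw [h4, io_zero, h.der (Y w) hYδ]
      show pj F i₀ (LL F (dd i₀ t).1 (io F i₀ (1, 0))) = _
      rw [io_apply, LL_apply, one_smul, mv_dd, pj_apply]
      show (Real.exp ((n - 1 : ℕ) * t) * ee i₀ i₀, (0 : F)) = _
      rw [ee_same, mul_one]
    have hffix : ∀ᶠ m in atTop, f (0, (G^[m] w).2) = (0, (G^[m] w).2) := by
      refine Eventually.of_forall fun m => ?_
      have h1 : ‖(G^[m] w).2‖ < δ := (norm_snd_le _).trans_lt ((hb m).1.trans_le hρδ)
      rw [hf]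
      simp only
      rw [io_zero, h.fix _ h1, pj_apply]
      rfl
    have hstrict : HasStrictFDerivAt f (fderiv ℝ f (0, Y w)) (0, Y w) :=
      hfs.contDiffAt.hasStrictFDerivAt (by simp)
    have hlim := scaling_limit hstrict hfd hx hl2 hffix hl1
    constructor
    · have h1 : Tendsto (fun m : ℕ => κ⁻¹ ^ m * (G^[m] z').1) atTop
          (𝓝 (Real.exp ((n - 1 : ℕ) * t) * (w.1 * s w))) := by
        simp only [hit]
        exact hlim
      exact tendsto_nhds_unique hl1' h1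
    · have h1 : Tendsto (fun m : ℕ => (G^[m] z').2) atTop (𝓝 (f (0, Y w)).2) := by
        simp only [hit]
        have h2 : Tendsto (fun m : ℕ => (((G^[m] w).1, (G^[m] w).2) : ℝ × F)) atTop
            (𝓝 (0, Y w)) := hx.prodMk_nhds hl2
        exact ((hfs.continuous.tendsto _).comp h2).snd_nhds
      have h2 : f (0, Y w) = (0, Y w) := by
        rw [hf]
        simp only
        rw [io_zero, h.fix _ hYδ, pj_apply]
        rfl
      rw [h2] at h1
      exact tendsto_nhds_unique hl2' h1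
  -- the compact set of isotropy elements
  obtain ⟨Q, hQc, hQn⟩ := exists_compact_mem_nhds (1 : SLn n)
  have hbdd : ∃ M : ℝ, ∀ g ∈ Q, ∀ k ∈ (KK n : Set (SLn n)), ∀ k' ∈ (KK n : Set (SLn n)),
      ∀ t ∈ Icc (-1 : ℝ) 1, ∀ i j, |((dd i₀ t)⁻¹ * k'⁻¹ * g * k).1 i j| ≤ M := by
    have hcomp : IsCompact (Q ×ˢ ((KK n : Set (SLn n)) ×ˢ ((KK n : Set (SLn n)) ×ˢ
        Icc (-1 : ℝ) 1))) := hQc.prod (KK_compact.prod (KK_compact.prod isCompact_Icc))
    have hcont : Continuous fun p : SLn n × (SLn n × (SLn n × ℝ)) => fun i j =>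
        ((dd i₀ p.2.2.2)⁻¹ * p.2.2.1⁻¹ * p.1 * p.2.1).1 i j := by
      have h1 : Continuous fun p : SLn n × (SLn n × (SLn n × ℝ)) =>
          (dd i₀ p.2.2.2)⁻¹ * p.2.2.1⁻¹ * p.1 * p.2.1 := by
        refine ((Continuous.mul ?_ ?_).mul continuous_fst).mul (continuous_fst.comp continuous_snd)
        · exact ((continuous_dd i₀).comp (continuous_snd.comp
            (continuous_snd.comp continuous_snd))).inv
        · exact (continuous_fst.comp (continuous_snd.comp continuous_snd)).inv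
      have h2 : Continuous fun g : SLn n => g.1 := continuous_SL_iff.1 continuous_id
      exact continuous_pi fun i => continuous_pi fun j => (h2.comp h1).matrix_elem i j
    obtain ⟨M, hM⟩ := hcomp.exists_bound_of_continuousOn hcont.continuousOn
    refine ⟨M, fun g hg k hk k' hk' t ht i j => ?_⟩
    have h3 := hM (g, (k, (k', t))) ⟨hg, hk, hk', ht⟩
    have h4 := norm_le_pi_norm (fun i j => ((dd i₀ t)⁻¹ * k'⁻¹ * g * k).1 i j) i
    have h5 := norm_le_pi_norm (fun j => ((dd i₀ t)⁻¹ * k'⁻¹ * g * k).1 i j) j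
    exact (h5.trans h4).trans h3
  obtain ⟨M, hM⟩ := hbdd
  obtain ⟨δ₄, hδ₄, hiso⟩ := h.isotropy i₀ M
  obtain ⟨δ₅, hδ₅, hsm5⟩ := small_on_compact h.sm.cont
    ((isCompact_Icc (a := (-1 : ℝ)) (b := 1)).image (continuous_dd i₀)) (fun g _ => h.zero g)
    (show 0 < min δ r₁ from lt_min hδ hr₁)
  -- the conjugating map
  set Θ : Vn n × F → Vn n × F := fun z => (s (‖z.1‖, z.2) • z.1, Y (‖z.1‖, z.2)) with hΘ
  have hS : ContDiff ℝ ∞ fun z : Vn n × F => s (‖z.1‖, z.2) := even_contDiff hs hse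
  have hU : ContDiff ℝ ∞ fun z : Vn n × F => Y (‖z.1‖, z.2) := even_contDiff hY hYe
  have hΘs : ContDiff ℝ ∞ Θ := (hS.smul contDiff_fst).prodMk hU
  have hΘ0 : Θ 0 = 0 := by
    rw [hΘ]
    simp only [Prod.fst_zero, Prod.snd_zero, norm_zero, smul_zero]
    rw [hY0]
    rfl
  have hΘd : fderiv ℝ Θ 0 = ContinuousLinearMap.id ℝ (Vn n × F) := by
    have h1 : HasFDerivAt (fun z : Vn n × F => s (‖z.1‖, z.2) • z.1)
        (s (‖(0 : Vn n × F).1‖, (0 : Vn n × F).2) • ContinuousLinearMap.fst ℝ (Vn n) F +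
          (fderiv ℝ (fun z : Vn n × F => s (‖z.1‖, z.2)) 0).smulRight (0 : Vn n × F).1) 0 :=
      ((hS.differentiable (by simp)) 0).hasFDerivAt.smul hasFDerivAt_fst
    have h2 : HasFDerivAt (fun z : Vn n × F => Y (‖z.1‖, z.2))
        (fderiv ℝ (fun z : Vn n × F => Y (‖z.1‖, z.2)) 0) 0 :=
      ((hU.differentiable (by simp)) 0).hasFDerivAt
    have h3 : fderiv ℝ (fun z : Vn n × F => Y (‖z.1‖, z.2)) 0 =
        ContinuousLinearMap.snd ℝ (Vn n) F := by
      set T := fderiv ℝ (fun z : Vn n × F => Y (‖z.1‖, z.2)) 0 with hT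
      have h4 : ∀ y : F, T (0, y) = y := by
        intro y
        have h5 : HasFDerivAt (fun y : F => ((0, y) : Vn n × F))
            (ContinuousLinearMap.inr ℝ (Vn n) F) 0 := hasFDerivAt_prodMk_right 0 0
        have h6 := HasFDerivAt.comp (g := fun z : Vn n × F => Y (‖z.1‖, z.2)) (0 : F) h2 h5
        have h7 : ((fun z : Vn n × F => Y (‖z.1‖, z.2)) ∘ fun y : F => ((0, y) : Vn n × F)) =
            id := by
          funext y
          show Y (‖(0 : Vn n)‖, y) = y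
          rw [norm_zero, hY0]
        rw [h7] at h6
        exact (DFunLike.congr_fun (h6.unique (hasFDerivAt_id _)) y)
      have h5 : ∀ v : Vn n, T (v, 0) = 0 := by
        intro v
        have h6 : HasFDerivAt (fun z : Vn n × F => ((-z.1, z.2) : Vn n × F))
            ((-(ContinuousLinearMap.fst ℝ (Vn n) F)).prod (ContinuousLinearMap.snd ℝ (Vn n) F)) 0 :=
          (hasFDerivAt_fst.neg).prodMk hasFDerivAt_snd
        have h2' : HasFDerivAt (fun z : Vn n × F => Y (‖z.1‖, z.2)) T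
            ((fun z : Vn n × F => ((-z.1, z.2) : Vn n × F)) 0) := by
          have : (fun z : Vn n × F => ((-z.1, z.2) : Vn n × F)) 0 = 0 := by simp
          rw [this]
          exact h2
        have h7 := HasFDerivAt.comp (0 : Vn n × F) h2' h6
        have h8 : ((fun z : Vn n × F => Y (‖z.1‖, z.2)) ∘
            fun z : Vn n × F => ((-z.1, z.2) : Vn n × F)) = fun z => Y (‖z.1‖, z.2) := by
          funext z
          show Y (‖-z.1‖, z.2) = _
          rw [norm_neg]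
        rw [h8] at h7
        have h9 := DFunLike.congr_fun (h7.unique h2) ((v, 0) : Vn n × F)
        have h10 : T (-v, 0) = T (v, 0) := h9
        have h11 : T (-v, 0) = - T (v, 0) := by
          rw [← map_neg]
          simp
        rw [h11] at h10
        have h12 : (2 : ℝ) • T (v, 0) = 0 := by
          rw [two_smul]
          nth_rewrite 1 [← h10]
          simp
        exact (smul_eq_zero.1 h12).resolve_left two_ne_zero
      refine ContinuousLinearMap.ext fun p => ?_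
      obtain ⟨v, y⟩ := p
      have h6 : ((v, y) : Vn n × F) = (v, 0) + (0, y) := by simp
      rw [h6, map_add, h4, h5, zero_add]
      simp
    rw [h3] at h2
    have h4 := (h1.prodMk h2).fderiv
    have h5 : fderiv ℝ Θ 0 = _ := h4
    rw [h5]
    refine ContinuousLinearMap.ext fun p => ?_
    obtain ⟨v, y⟩ := p
    show (s (‖(0 : Vn n)‖, 0) • v + (fderiv ℝ (fun z : Vn n × F => s (‖z.1‖, z.2)) 0 (v, y)) •
      (0 : Vn n), y) = (v, y)
    rw [norm_zero, hs0, one_smul, smul_zero, add_zero]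
  -- equivariance near the identity and the origin
  have hgnear : ∀ᶠ g : SLn n in 𝓝 1, ‖mv g.1 - ContinuousLinearMap.id ℝ (Vn n)‖ < 1 / 2 := by
    have h1 : Continuous fun g : SLn n => ‖mv g.1 - ContinuousLinearMap.id ℝ (Vn n)‖ := by
      have h2 : Continuous fun g : SLn n => g.1 := continuous_SL_iff.1 continuous_id
      exact ((continuous_mv.comp h2).sub continuous_const).norm
    have h2 := h1.tendsto 1
    rw [Matrix.SpecialLinearGroup.coe_one, mv_one, sub_self, norm_zero] at h2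
    exact h2.eventually (gt_mem_nhds (by norm_num))
  have hzero : ∀ y : F, ‖y‖ < δ → ∀ g, Θ (a g (0, y)) = LL F g.1 (Θ (0, y)) := by
    intro y hy g
    rw [h.fix y hy g, hΘ]
    simp only [norm_zero, smul_zero]
    rw [hY0, LL_zero_left]
  have hequiv : ∀ g ∈ Q, ‖mv g.1 - ContinuousLinearMap.id ℝ (Vn n)‖ < 1 / 2 →
      ∀ z : Vn n × F, ‖z‖ < min (min δ r₁) (min δ₄ δ₅) → Θ (a g z) = LL F g.1 (Θ z) := by
    intro g hgQ hg1 z hz
    have hzδ : ‖z‖ < δ := hz.trans_le ((min_le_left _ _).trans (min_le_left _ _))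
    have hzr : ‖z‖ < r₁ := hz.trans_le ((min_le_left _ _).trans (min_le_right _ _))
    have hz4 : ‖z‖ < δ₄ := hz.trans_le ((min_le_right _ _).trans (min_le_left _ _))
    have hz5 : ‖z‖ < δ₅ := hz.trans_le ((min_le_right _ _).trans (min_le_right _ _))
    obtain ⟨v, y⟩ := z
    obtain ⟨k, hk, hkv⟩ := exists_unit hn2 i₀ v
    set x : ℝ := ‖v‖ with hx
    set u : Vn n := mv k.1 (ee i₀) with hu
    have hun : ‖u‖ = 1 := by rw [hu, hk.norm, norm_ee]
    have hnorm : ‖((x, y) : ℝ × F)‖ = ‖((v, y) : Vn n × F)‖ := by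
      rw [Prod.norm_def, Prod.norm_def]
      simp [hx]
    have hzk : a k (io F i₀ (x, y)) = (v, y) := by
      rw [h.orth k hk _ (by rw [norm_io, hnorm]; exact hzδ), io_apply, LL_apply, map_smul, ← hu,
        ← hkv]
    -- the image of the unit vector
    set τ : ℝ := ‖mv g.1 u‖ with hτ
    have hτ1 : |τ - 1| < 1 / 2 := by
      have h1 : |‖mv g.1 u‖ - ‖u‖| ≤ ‖mv g.1 u - u‖ := abs_norm_sub_norm_le _ _
      rw [hun] at h1
      have h2 : ‖mv g.1 u - u‖ ≤ ‖mv g.1 - ContinuousLinearMap.id ℝ (Vn n)‖ * ‖u‖ :=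
        (mv g.1 - ContinuousLinearMap.id ℝ (Vn n)).le_opNorm u
      rw [hun, mul_one] at h2
      exact (h1.trans h2).trans_lt hg1
    have hτ0 : 0 < τ := by
      have := (abs_lt.1 hτ1).1
      linarith
    obtain ⟨k', hk', hk'v⟩ := exists_unit hn2 i₀ (mv g.1 u)
    set u' : Vn n := mv k'.1 (ee i₀) with hu'
    have hun' : ‖u'‖ = 1 := by rw [hu', hk'.norm, norm_ee]
    have hgu : mv g.1 u = τ • u' := hk'v
    -- the parameter
    set t : ℝ := Real.log τ / ((n - 1 : ℕ) : ℝ) with ht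
    have hnt : ((n - 1 : ℕ) : ℝ) * t = Real.log τ := by
      rw [ht]; field_simp
    have hexp : Real.exp ((n - 1 : ℕ) * t) = τ := by rw [hnt, Real.exp_log hτ0]
    have hlog : |Real.log τ| ≤ 1 := by
      have h1 := abs_lt.1 hτ1
      rw [abs_le]
      constructor
      · have h2 : Real.log (1 / 2) ≤ Real.log τ := Real.log_le_log (by norm_num) (by linarith)
        have h3 : Real.log (1 / 2) = - Real.log 2 := by
          rw [one_div, Real.log_inv]
        have h4 : Real.log 2 < 1 := by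
          have := Real.log_two_lt_d9
          linarith
        linarith
      · have h2 : Real.log τ ≤ τ - 1 := Real.log_le_sub_one_of_pos hτ0
        linarith
    have htI : t ∈ Icc (-1 : ℝ) 1 := by
      have h1 : |t| ≤ 1 := by
        rw [ht, abs_div, abs_of_pos (show (0 : ℝ) < ((n - 1 : ℕ) : ℝ) by linarith),
          div_le_one (by linarith)]
        linarith
      exact abs_le.1 h1
    -- the isotropy element
    set e := (dd i₀ t)⁻¹ * k'⁻¹ * g * k with he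
    have hgk : g * k = k' * (dd i₀ t * e) := by rw [he]; group
    have hee : mv e.1 (ee i₀) = ee i₀ := by
      have h1 : mv (k' * (dd i₀ t * e)).1 (ee i₀) = τ • mv k'.1 (ee i₀) := by
        rw [← hgk, Matrix.SpecialLinearGroup.coe_mul, mv_mul, ContinuousLinearMap.comp_apply,
          ← hu, hgu]
      rw [Matrix.SpecialLinearGroup.coe_mul, Matrix.SpecialLinearGroup.coe_mul, mv_mul, mv_mul,
        ContinuousLinearMap.comp_apply, ContinuousLinearMap.comp_apply, ← map_smul] at h1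
      have hinj : ∀ (b : SLn n) (p q : Vn n), mv b.1 p = mv b.1 q → p = q := by
        intro b p q hpq
        have h2 := congrArg (mv (b⁻¹).1) hpq
        rw [← ContinuousLinearMap.comp_apply, ← ContinuousLinearMap.comp_apply, ← mv_mul,
          ← Matrix.SpecialLinearGroup.coe_mul, inv_mul_cancel, Matrix.SpecialLinearGroup.coe_one,
          mv_one] at h2
        exact h2
      have h2 := hinj k' _ _ h1
      have h3 : τ • ee i₀ = mv (dd i₀ t).1 (ee i₀) := by rw [mv_dd, hexp]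
      rw [h3] at h2
      exact hinj _ _ _ h2
    have hiso' : a e (io F i₀ (x, y)) = io F i₀ (x, y) :=
      hiso e (hM g hgQ k hk k' hk' t htI) hee (x, y) (by rw [hnorm]; exact hz4)
    -- the diagonal element
    have hsm' : ‖a (dd i₀ t) (io F i₀ (x, y))‖ < min δ r₁ :=
      hsm5 _ ⟨t, htI, rfl⟩ _ (by rw [norm_io, hnorm]; exact hz5)
    have hdiag := h.diag i₀ (dd_coe i₀ t) (z := (x, y)) (by rw [hnorm]; exact hzδ)
      (hsm'.trans_le (min_le_left _ _))
    set z' := pj F i₀ (a (dd i₀ t) (io F i₀ (x, y))) with hz'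
    have hz'n : ‖z'‖ < min δ r₁ := by
      rw [← norm_io i₀ z', ← hdiag]
      exact hsm'
    obtain ⟨hc1, hc2⟩ := hcomm t (x, y) (by rw [hnorm]; exact hzr) z'
      (hz'n.trans_le (min_le_right _ _)) hdiag
    have hag : a g (v, y) = (z'.1 • u', z'.2) := by
      rw [← hzk, ← h.sm.mul, hgk, h.sm.mul, h.sm.mul, hiso', hdiag,
        h.orth k' hk' _ (by rw [norm_io]; exact hz'n.trans_le (min_le_left _ _))]
      obtain ⟨x', y'⟩ := z'
      rw [io_apply, LL_apply, map_smul]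
    have habs : ∀ (f : ℝ × F → ℝ), True := fun _ => trivial
    have hsabs : ∀ (x : ℝ) (y : F), s (|x|, y) = s (x, y) := by
      intro x y
      rcases abs_choice x with hx | hx
      · rw [hx]
      · rw [hx, hse]
    have hYabs : ∀ (x : ℝ) (y : F), Y (|x|, y) = Y (x, y) := by
      intro x y
      rcases abs_choice x with hx | hx
      · rw [hx]
      · rw [hx, hYe]
    rw [hag, hΘ]
    simp only
    rw [norm_smul, hun', mul_one, Real.norm_eq_abs, hsabs, hYabs, LL_apply, map_smul, smul_smul,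
      ← hx]
    have hc1' : s (z'.1, z'.2) * z'.1 = τ * (x * s (x, y)) := by
      rw [mul_comm, ← hexp]
      exact hc1
    have hc2' : Y (z'.1, z'.2) = Y (x, y) := hc2
    rw [hc1', hc2', hkv, map_smul, hgu, smul_smul, smul_smul]
    congr 2
    ring
  obtain ⟨Φ, hΦ, hΦs, hΦΘ⟩ := exists_global_diffeo Θ hΘs hΘ0 hΘd
  have hΦ0 : Φ 0 = 0 := by rw [hΦΘ.self_of_nhds, hΘ0]
  refine ⟨Φ, hΦ, hΦs, hΦ0, ?_, ?_⟩
  · have h1 : (Φ : Vn n × F → Vn n × F) =ᶠ[𝓝 0] Θ := hΦΘ
    rw [h1.fderiv_eq, hΘd]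
  · have h1 : ∀ᶠ p : SLn n × (Vn n × F) in 𝓝 (1, 0), Φ (a p.1 p.2) = Θ (a p.1 p.2) := by
      have h2 := h.sm.cont.tendsto ((1, 0) : SLn n × (Vn n × F))
      simp only [h.zero] at h2
      exact h2.eventually hΦΘ
    have h2 : ∀ᶠ p : SLn n × (Vn n × F) in 𝓝 (1, 0), Φ p.2 = Θ p.2 :=
      (continuous_snd.tendsto ((1, 0) : SLn n × (Vn n × F))).eventually hΦΘ
    have h3 : ∀ᶠ p : SLn n × (Vn n × F) in 𝓝 (1, 0), p.1 ∈ Q :=
      (continuous_fst.tendsto ((1, 0) : SLn n × (Vn n × F))).eventually hQn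
    have h4 : ∀ᶠ p : SLn n × (Vn n × F) in 𝓝 (1, 0),
        ‖mv p.1.1 - ContinuousLinearMap.id ℝ (Vn n)‖ < 1 / 2 :=
      (continuous_fst.tendsto ((1, 0) : SLn n × (Vn n × F))).eventually hgnear
    have h5 : ∀ᶠ p : SLn n × (Vn n × F) in 𝓝 (1, 0),
        ‖p.2‖ < min (min δ r₁) (min δ₄ δ₅) := by
      have h6 : ∀ᶠ z : Vn n × F in 𝓝 0, ‖z‖ < min (min δ r₁) (min δ₄ δ₅) := by
        have h7 := (continuous_norm (E := Vn n × F)).tendsto 0
        rw [norm_zero] at h7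
        exact h7.eventually (gt_mem_nhds (by positivity))
      exact (continuous_snd.tendsto ((1, 0) : SLn n × (Vn n × F))).eventually h6
    filter_upwards [h1, h2, h3, h4, h5] with p h1 h2 h3 h4 h5
    rw [h1, h2]
    exact hequiv p.1 h3 h4 p.2 h5

end Pool.Agent.H812
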