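import Pool.Agent.H812.RStr

/-!
Smooth actions of `SL(n, ℝ)` near a fixed point in dimension less than `2 n - 2` are linearizable.
-/

set_option autoImplicit false

namespace Pool.Agent.H812

open Topology Filter Metric Set Module
open scoped ContDiff

variable {n : ℕ} {E : Type*} [NormedAddCommGroup E] [NormedSpace ℝ E] [FiniteDimensional ℝ E]

/-- the isotropy representation -/
noncomputable def isoRep {a : SLn n → E → E} (h : IsSm a) (h0 : ∀ g, a g 0 = 0) :
    SLn n →* Module.End ℝ E where
  toFun := fun g => (fderiv ℝ (a g) 0 : E →L[ℝ] E)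
  map_one' := by
    rw [h.fderiv_one]
    rfl
  map_mul' := fun g g' => by
    rw [h.fderiv_mul, h0]
    rfl

/-- **Smooth local linearization** of `SL(n, ℝ)`-actions in dimension less than `2 n - 2`. -/
theorem lz_of_dim (hn : 3 ≤ n) (hE : finrank ℝ E < 2 * n - 2) {a : SLn n → E → E} (h : IsSm a)
    (h0 : ∀ g, a g 0 = 0) : Lz a := by
  have hc : ∀ x, Continuous fun g => isoRep h h0 g x := by
    intro x
    have h1 : Continuous fun g : SLn n => fderiv ℝ (a g) 0 :=
      h.continuous_fderiv.comp (continuous_id.prodMk continuous_const)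
    exact h1.clm_apply continuous_const
  exact lz_of_rep hn h h0 (rep_class (isoRep h h0) hn hE hc)

end Pool.Agent.H812
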