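import Pool.Agent.H812.Lin2

/-!
Linearization of actions of `SL(n, ℝ)` whose linear part is the standard one plus a trivial one,
its dual, or trivial.
-/

set_option autoImplicit false

namespace Pool.Agent.H812

open Topology Filter Metric Set Matrix Matrix.SpecialLinearGroup
open scoped ContDiff

section Lz

variable {G : Type*} [Group G] [TopologicalSpace G] {E E' : Type*} [NormedAddCommGroup E]
  [NormedSpace ℝ E] [NormedAddCommGroup E'] [NormedSpace ℝ E']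

/-- local linearizability, by a global diffeomorphism -/
def Lz (a : G → E → E) : Prop :=
  ∃ Φ : E ≃ₜ E, ContDiff ℝ ∞ Φ ∧ ContDiff ℝ ∞ Φ.symm ∧ Φ 0 = 0 ∧
    ∀ᶠ p : G × E in 𝓝 (1, 0), Φ (a p.1 p.2) = fderiv ℝ (a p.1) 0 (Φ p.2)

/-- the conjugate action -/
def cj (Ψ : E ≃ₜ E') (a : G → E → E) (g : G) (z : E') : E' := Ψ (a g (Ψ.symm z))

theorem IsSm.cj {a : G → E → E} (h : IsSm a) (Ψ : E ≃ₜ E') (hΨ : ContDiff ℝ ∞ Ψ)
    (hΨ' : ContDiff ℝ ∞ Ψ.symm) : IsSm (cj Ψ a) where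
  one := fun x => by simp [H812.cj, h.one]
  mul := fun g g' x => by simp [H812.cj, h.mul]
  cont := by
    have h1 : Continuous fun p : G × E' => a p.1 (Ψ.symm p.2) :=
      h.cont.comp (continuous_fst.prodMk (Ψ.symm.continuous.comp continuous_snd))
    exact Ψ.continuous.comp h1
  smooth := fun g => hΨ.comp ((h.smooth g).comp hΨ')

theorem fderiv_symm_eq {Ψ : E ≃ₜ E'} (hΨ' : ContDiff ℝ ∞ Ψ.symm) (h0 : Ψ 0 = 0) {T : E ≃L[ℝ] E'}
    (hT : HasFDerivAt Ψ (T : E →L[ℝ] E') 0) : HasFDerivAt Ψ.symm (T.symm : E' →L[ℝ] E) 0 := by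
  have h1 : HasFDerivAt Ψ.symm (fderiv ℝ Ψ.symm 0) (Ψ 0) := by
    rw [h0]
    exact (hΨ'.differentiable (by simp) 0).hasFDerivAt
  have h2 := h1.comp 0 hT
  have h3 : (Ψ.symm ∘ Ψ : E → E) = id := by
    funext x; simp
  rw [h3] at h2
  have h4 := h2.unique (hasFDerivAt_id _)
  have h5 : fderiv ℝ Ψ.symm 0 = (T.symm : E' →L[ℝ] E) := by
    refine ContinuousLinearMap.ext fun z => ?_
    have h6 := DFunLike.congr_fun h4 (T.symm z)
    simpa using h6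
  rw [h0, h5] at h1
  exact h1

theorem cj_zero {a : G → E → E} (h0 : ∀ g, a g 0 = 0) {Ψ : E ≃ₜ E'} (hΨ0 : Ψ 0 = 0) (g : G) :
    cj Ψ a g 0 = 0 := by
  have h1 : Ψ.symm 0 = 0 := by rw [← hΨ0]; simp
  rw [H812.cj, h1, h0, hΨ0]

theorem fderiv_cj {a : G → E → E} (h : IsSm a) (h0 : ∀ g, a g 0 = 0) {Ψ : E ≃ₜ E'}
    (hΨ' : ContDiff ℝ ∞ Ψ.symm) (hΨ0 : Ψ 0 = 0) {T : E ≃L[ℝ] E'}
    (hT : HasFDerivAt Ψ (T : E →L[ℝ] E') 0) (g : G) :
    fderiv ℝ (cj Ψ a g) 0 = (T : E →L[ℝ] E').comp ((fderiv ℝ (a g) 0).comp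
      (T.symm : E' →L[ℝ] E)) := by
  have h1 : Ψ.symm 0 = 0 := by rw [← hΨ0]; simp
  have h2 := fderiv_symm_eq hΨ' hΨ0 hT
  have h3 : HasFDerivAt (a g) (fderiv ℝ (a g) 0) (Ψ.symm 0) := by
    rw [h1]
    exact ((h.smooth g).differentiable (by simp) 0).hasFDerivAt
  have h4 : HasFDerivAt Ψ (T : E →L[ℝ] E') (a g (Ψ.symm 0)) := by
    rw [h1, h0]; exact hT
  exact (h4.comp 0 (h3.comp 0 h2)).fderiv

theorem Lz.of_cj {a : G → E → E} (h : IsSm a) (h0 : ∀ g, a g 0 = 0) {Ψ : E ≃ₜ E'}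
    (hΨ : ContDiff ℝ ∞ Ψ) (hΨ' : ContDiff ℝ ∞ Ψ.symm) (hΨ0 : Ψ 0 = 0) {T : E ≃L[ℝ] E'}
    (hT : HasFDerivAt Ψ (T : E →L[ℝ] E') 0) (hl : Lz (cj Ψ a)) : Lz a := by
  obtain ⟨Φ, hΦ, hΦ', hΦ0, hev⟩ := hl
  refine ⟨(Ψ.trans Φ).trans T.symm.toHomeomorph, ?_, ?_, ?_, ?_⟩
  · exact T.symm.contDiff.comp (hΦ.comp hΨ)
  · exact hΨ'.comp (hΦ'.comp T.contDiff)
  · show T.symm (Φ (Ψ 0)) = 0
    rw [hΨ0, hΦ0, map_zero]
  · have h1 : Tendsto (fun p : G × E => (p.1, Ψ p.2)) (𝓝 (1, 0)) (𝓝 (1, 0)) := by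
      have h2 : Continuous fun p : G × E => (p.1, Ψ p.2) :=
        continuous_fst.prodMk (Ψ.continuous.comp continuous_snd)
      have h3 := h2.tendsto (1, 0)
      simp only [hΨ0] at h3
      exact h3
    filter_upwards [h1.eventually hev] with p hp
    have h4 : cj Ψ a p.1 (Ψ p.2) = Ψ (a p.1 p.2) := by simp [H812.cj]
    rw [h4, fderiv_cj h h0 hΨ' hΨ0 hT] at hp
    show T.symm (Φ (Ψ (a p.1 p.2))) = fderiv ℝ (a p.1) 0 (T.symm (Φ (Ψ p.2)))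
    rw [hp]
    simp

end Lz

section prep

variable {n : ℕ} {E : Type*} [NormedAddCommGroup E] [NormedSpace ℝ E] [FiniteDimensional ℝ E]

theorem exists_prep {a : SLn n → E → E} (h : IsSm a) (h0 : ∀ g, a g 0 = 0) :
    ∃ Ψ : E ≃ₜ E, ContDiff ℝ ∞ Ψ ∧ ContDiff ℝ ∞ Ψ.symm ∧ Ψ 0 = 0 ∧
      HasFDerivAt Ψ ((ContinuousLinearEquiv.refl ℝ E : E ≃L[ℝ] E) : E →L[ℝ] E) 0 ∧
      ∃ r > 0, ∀ k, IsOrth k → ∀ z, ‖z‖ < r → cj Ψ a k z = fderiv ℝ (a k) 0 z := by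
  have : CompactSpace (KK n) := isCompact_iff_compactSpace.1 KK_compact
  have hb : IsSm (fun k : KK n => a k.1) :=
    { one := fun x => h.one x
      mul := fun g g' x => h.mul g.1 g'.1 x
      cont := h.cont.comp ((continuous_subtype_val.comp continuous_fst).prodMk continuous_snd)
      smooth := fun g => h.smooth g.1 }
  obtain ⟨φ, hφ, hφ0, hφ1, hφe⟩ := exists_linearization hb (fun k => h0 k.1)
  obtain ⟨Ψ, hΨ, hΨ', hΨe⟩ := exists_global_diffeo φ hφ hφ0 hφ1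
  have hΨ0 : Ψ 0 = 0 := by rw [hΨe.self_of_nhds, hφ0]
  have hΨs0 : Ψ.symm 0 = 0 := Ψ.symm_apply_eq.2 hΨ0.symm
  refine ⟨Ψ, hΨ, hΨ', hΨ0, ?_, ?_⟩
  · have h1 : HasFDerivAt φ (fderiv ℝ φ 0) 0 := (hφ.differentiable (by simp) 0).hasFDerivAt
    rw [hφ1] at h1
    exact h1.congr_of_eventuallyEq hΨe
  · obtain ⟨r₁, hr₁, h1⟩ := Metric.eventually_nhds_iff_ball.1 hΨe
    obtain ⟨d, hd, h2⟩ := small_on_compact h.cont KK_compact (fun g _ => h0 g) hr₁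
    have h3 : ∀ᶠ z in 𝓝 (0 : E), ‖Ψ.symm z‖ < min d r₁ := by
      have h4 := (Ψ.symm.continuous.norm).tendsto 0
      rw [hΨs0, norm_zero] at h4
      exact h4.eventually (gt_mem_nhds (lt_min hd hr₁))
    obtain ⟨r, hr, h5⟩ := Metric.eventually_nhds_iff_ball.1 h3
    refine ⟨r, hr, fun k hk z hz => ?_⟩
    have h6 := h5 z (by rwa [mem_ball_zero_iff])
    have h7 : Ψ (Ψ.symm z) = φ (Ψ.symm z) := h1 _ (by
      rw [mem_ball_zero_iff]; exact h6.trans_le (min_le_right _ _))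
    have h8 : Ψ (a k (Ψ.symm z)) = φ (a k (Ψ.symm z)) := h1 _ (by
      rw [mem_ball_zero_iff]
      exact h2 k hk _ (h6.trans_le (min_le_left _ _)))
    rw [H812.cj, h8, hφe ⟨k, hk⟩ (Ψ.symm z), ← h7, Homeomorph.apply_symm_apply]

theorem fderiv_cj_id {a : SLn n → E → E} (h : IsSm a) (h0 : ∀ g, a g 0 = 0) {Ψ : E ≃ₜ E}
    (hΨ' : ContDiff ℝ ∞ Ψ.symm) (hΨ0 : Ψ 0 = 0)
    (hT : HasFDerivAt Ψ ((ContinuousLinearEquiv.refl ℝ E : E ≃L[ℝ] E) : E →L[ℝ] E) 0) (g : SLn n) :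
    fderiv ℝ (cj Ψ a g) 0 = fderiv ℝ (a g) 0 := by
  rw [fderiv_cj h h0 hΨ' hΨ0 hT]
  ext z
  simp

/-- linear part standard plus trivial -/
theorem lz_std (hn : 3 ≤ n) {F : Type*} [NormedAddCommGroup F] [NormedSpace ℝ F]
    [FiniteDimensional ℝ F] {a : SLn n → Vn n × F → Vn n × F} (h : IsSm a)
    (h0 : ∀ g, a g 0 = 0) (hlin : ∀ g, fderiv ℝ (a g) 0 = LL F g.1) : Lz a := by
  obtain ⟨Ψ, hΨ, hΨ', hΨ0, hT, r, hr, horth⟩ := exists_prep h h0
  refine Lz.of_cj h h0 hΨ hΨ' hΨ0 hT ?_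
  have hs := h.cj Ψ hΨ hΨ'
  have hfd := fun g => fderiv_cj_id h h0 hΨ' hΨ0 hT g
  have horth' : ∀ k, IsOrth k → ∀ z, ‖z‖ < r → cj Ψ a k z = LL F k.1 z := fun k hk z hz => by
    rw [horth k hk z hz, hlin]
  obtain ⟨δ, hδ, hδr, hfix, hder⟩ := fderiv_fixed hn hs hr horth' (fun g => by rw [hfd, hlin])
  have hstd : Std (cj Ψ a) δ :=
    { sm := hs
      hn := hn
      pos := hδ
      orth := fun k hk z hz => horth' k hk z (hz.trans_le hδr)
      fix := hfix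
      der := hder }
  obtain ⟨Φ, hΦ, hΦ', hΦ0, -, hev⟩ := hstd.linearize
  refine ⟨Φ, hΦ, hΦ', hΦ0, ?_⟩
  filter_upwards [hev] with p hp
  rw [hp, hfd, hlin]

/-- linear part trivial -/
theorem lz_triv (hn : 2 ≤ n) {a : SLn n → E → E} (h : IsSm a) (h0 : ∀ g, a g 0 = 0)
    (hlin : ∀ g, fderiv ℝ (a g) 0 = ContinuousLinearMap.id ℝ E) : Lz a := by
  have : Nontrivial (Fin n) := Fin.nontrivial_iff_two_le.2 hn
  obtain ⟨Ψ, hΨ, hΨ', hΨ0, hT, r, hr, horth⟩ := exists_prep h h0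
  refine Lz.of_cj h h0 hΨ hΨ' hΨ0 hT ?_
  have hs := h.cj Ψ hΨ hΨ'
  have hfd := fun g => fderiv_cj_id h h0 hΨ' hΨ0 hT g
  obtain ⟨t₀, ht₀, δ, hδ, hsmall⟩ := exists_small_time hs.one hs.cont hr
  have hk : ∀ k, IsOrth k → ∀ z, ‖z‖ < r → cj Ψ a k z = z := fun k hk z hz => by
    rw [horth k hk z hz, hlin]; rfl
  have hfix : ∀ z, ‖z‖ < min δ r → ∀ g, cj Ψ a g z = z := by
    intro z hz
    refine fix_of hs.one hs.mul hs.cont z ht₀ (fun k hko => hk k hko z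
      (hz.trans_le (min_le_right _ _))) fun i j hij t ht k hko => ?_
    exact hk k hko _ (hsmall i j hij t ht z (hz.trans_le (min_le_left _ _)))
  refine ⟨Homeomorph.refl E, contDiff_id, contDiff_id, rfl, ?_⟩
  have h1 : ∀ᶠ p : SLn n × E in 𝓝 (1, 0), ‖p.2‖ < min δ r := by
    have h2 : Continuous fun p : SLn n × E => ‖p.2‖ := continuous_snd.norm
    have h3 := h2.tendsto (1, 0)
    simp only [norm_zero] at h3
    exact h3.eventually (gt_mem_nhds (lt_min hδ hr))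
  filter_upwards [h1] with p hp
  show cj Ψ a p.1 p.2 = fderiv ℝ (cj Ψ a p.1) 0 p.2
  rw [hfix _ hp, hfd, hlin]
  rfl

/-- the Cartan involution -/
def inr (g : SLn n) : SLn n := (g⁻¹).transpose

theorem inr_coe (g : SLn n) : (inr g).1 = (g⁻¹).1ᵀ := rfl

theorem inr_inr (g : SLn n) : inr (inr g) = g := by
  have h1 : (inr g)⁻¹ = g.transpose := by
    rw [inv_eq_iff_mul_eq_one]
    apply Subtype.ext
    rw [Matrix.SpecialLinearGroup.coe_mul]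
    show (g⁻¹).1ᵀ * g.1ᵀ = 1
    rw [← Matrix.transpose_mul, ← Matrix.SpecialLinearGroup.coe_mul, mul_inv_cancel]
    simp
  unfold inr at h1 ⊢
  rw [h1]
  apply Subtype.ext
  show g.1ᵀᵀ = g.1
  rw [Matrix.transpose_transpose]

theorem inr_mul (g h : SLn n) : inr (g * h) = inr g * inr h := by
  apply Subtype.ext
  rw [Matrix.SpecialLinearGroup.coe_mul, inr_coe, inr_coe, inr_coe, _root_.mul_inv_rev,
    Matrix.SpecialLinearGroup.coe_mul, Matrix.transpose_mul]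

theorem inr_one : inr (1 : SLn n) = 1 := by
  apply Subtype.ext
  rw [inr_coe, inv_one]
  simp

theorem continuous_inr : Continuous (inr : SLn n → SLn n) := by
  rw [continuous_SL_iff]
  simp only [inr_coe]
  have h2 : Continuous fun g : SLn n => g.1 := continuous_SL_iff.1 continuous_id
  exact (h2.comp continuous_inv).matrix_transpose

theorem Lz.of_inr {a : SLn n → E → E} (hl : Lz (fun g => a (inr g))) : Lz a := by
  obtain ⟨Φ, hΦ, hΦ', hΦ0, hev⟩ := hl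
  refine ⟨Φ, hΦ, hΦ', hΦ0, ?_⟩
  have h1 : Tendsto (fun p : SLn n × E => (inr p.1, p.2)) (𝓝 (1, 0)) (𝓝 (1, 0)) := by
    have h2 : Continuous fun p : SLn n × E => (inr p.1, p.2) :=
      (continuous_inr.comp continuous_fst).prodMk continuous_snd
    have h3 := h2.tendsto (1, 0)
    simp only [inr_one] at h3
    exact h3
  filter_upwards [h1.eventually hev] with p hp
  simpa only [inr_inr] using hp

theorem IsSm.inr {a : SLn n → E → E} (h : IsSm a) : IsSm (fun g => a (inr g)) where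
  one := fun x => by rw [inr_one, h.one]
  mul := fun g g' x => by rw [inr_mul, h.mul]
  cont := h.cont.comp ((continuous_inr.comp continuous_fst).prodMk continuous_snd)
  smooth := fun g => h.smooth _

/-- linear part conjugate to standard plus trivial -/
theorem lz_conj (hn : 3 ≤ n) {F : Type*} [NormedAddCommGroup F] [NormedSpace ℝ F]
    [FiniteDimensional ℝ F] {a : SLn n → E → E} (h : IsSm a)
    (h0 : ∀ g, a g 0 = 0) (T : E ≃L[ℝ] Vn n × F)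
    (hlin : ∀ g x, T (fderiv ℝ (a g) 0 x) = LL F g.1 (T x)) : Lz a := by
  have hT : HasFDerivAt T.toHomeomorph (T : E →L[ℝ] Vn n × F) 0 := T.hasFDerivAt
  have hT0 : T.toHomeomorph 0 = 0 := map_zero T
  have hs1 : ContDiff ℝ ∞ T.toHomeomorph := T.contDiff
  have hs2 : ContDiff ℝ ∞ T.toHomeomorph.symm := T.symm.contDiff
  refine Lz.of_cj h h0 hs1 hs2 hT0 hT ?_
  refine lz_std hn (h.cj _ hs1 hs2) (cj_zero h0 hT0) fun g => ?_
  rw [fderiv_cj h h0 hs2 hT0 hT]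
  refine ContinuousLinearMap.ext fun z => ?_
  have h1 := hlin g (T.symm z)
  simpa using h1

/-- the three possible linear parts -/
theorem lz_of_rep (hn : 3 ≤ n) {a : SLn n → E → E} (h : IsSm a) (h0 : ∀ g, a g 0 = 0)
    (hrep : (∀ g x, fderiv ℝ (a g) 0 x = x) ∨
      (∃ (F : Submodule ℝ E) (T : E ≃L[ℝ] Vn n × F), ∀ g x,
        T (fderiv ℝ (a g) 0 x) = LL F g.1 (T x)) ∨
      (∃ (F : Submodule ℝ E) (T : E ≃L[ℝ] Vn n × F), ∀ g x,
        T (fderiv ℝ (a g) 0 x) = LL F (inr g).1 (T x))) : Lz a := by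
  rcases hrep with hr | ⟨F, T, hr⟩ | ⟨F, T, hr⟩
  · exact lz_triv (by omega) h h0 fun g => ContinuousLinearMap.ext fun x => hr g x
  · exact lz_conj hn h h0 T hr
  · refine Lz.of_inr (lz_conj hn h.inr (fun g => h0 _) T fun g x => ?_)
    rw [hr, inr_inr]

end prep

end Pool.Agent.H812
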