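import Pool.Agent.H812.RVS

/-!
Representations of `SL(n, ℝ)` of dimension less than `2 n - 2`: the weights of the sign group.
-/

set_option autoImplicit false

namespace Pool.Agent.H812

open Matrix Matrix.SpecialLinearGroup Module

section basics

variable {n : ℕ} {E : Type*} [AddCommGroup E] [Module ℝ E] (ρ : SLn n →* Module.End ℝ E)

theorem uu_add_apply {i j : Fin n} (hij : i ≠ j) (s t : ℝ) (x : E) :
    ρ (transvection hij (s + t)) x = ρ (transvection hij s) (ρ (transvection hij t) x) := by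
  rw [transvection_add, rho_mul_apply]

theorem uu_zero_apply {i j : Fin n} (hij : i ≠ j) (x : E) :
    ρ (transvection hij (0 : ℝ)) x = x := by
  rw [transvection_coeff_zero, rho_one_apply]

theorem comm_apply {g h : SLn n} (hgh : g * h = h * g) (x : E) :
    ρ g (ρ h x) = ρ h (ρ g x) := by
  rw [← rho_mul_apply, hgh, rho_mul_apply]

/-- a vector which keeps its sign is fixed -/
theorem sign_fix {i j p : Fin n} (hij : i ≠ j) (hip : i ≠ p) (hpj : p ≠ j) {ε : ℝ} (hε : ε ≠ 0)
    {x : E} (h1 : ρ (sg hip) x = ε • x)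
    (h2 : ∀ s, ρ (sg hip) (ρ (transvection hij s) x) = ε • ρ (transvection hij s) x) (s : ℝ) :
    ρ (transvection hij s) x = x := by
  have h3 : ∀ s, ρ (transvection hij (-s)) x = ρ (transvection hij s) x := by
    intro s
    have h4 := h2 s
    rw [← rho_mul_apply, sg_uu_left hij hip hpj, rho_mul_apply, h1, map_smul] at h4
    exact smul_right_injective E hε h4
  have h5 : s = s / 2 + s / 2 := by ring
  rw [h5, uu_add_apply, ← h3 (s / 2), ← uu_add_apply, add_neg_cancel, uu_zero_apply]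

theorem sf_ne_zero (S : Finset (Fin n)) (i : Fin n) : sf S i ≠ 0 := by
  unfold sf
  split_ifs <;> norm_num

theorem fix_of_mem (hn : 3 ≤ n) {i j : Fin n} (hij : i ≠ j) {S : Finset (Fin n)} {x : E}
    (hx : x ∈ VS ρ S) (h : ∀ s, ρ (transvection hij s) x ∈ VS ρ S) (s : ℝ) :
    ρ (transvection hij s) x = x := by
  obtain ⟨p, hpi, hpj⟩ := exists_ne_ne hn i j
  exact sign_fix ρ hij hpi.symm hpj (mul_ne_zero (sf_ne_zero S i) (sf_ne_zero S p))
    (hx i p hpi.symm) (fun s => h s i p hpi.symm) s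

theorem sl2_fix {i j : Fin n} (hij : i ≠ j) {x : E} (h1 : ∀ s, ρ (transvection hij s) x = x)
    (h2 : ∀ s, ρ (transvection hij.symm s) x = x) : ρ (sg hij) x = x := by
  let S : Subgroup (SpecialLinearGroup (Fin 2) ℝ) :=
    { carrier := {g | ρ (emb hij g) x = x}
      mul_mem' := fun {g h} hg hh => by
        show ρ (emb hij (g * h)) x = x
        rw [map_mul, rho_mul_apply, show ρ (emb hij h) x = x from hh]
        exact hg
      one_mem' := by
        show ρ (emb hij 1) x = x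
        rw [map_one, rho_one_apply]
      inv_mem' := fun {g} hg => by
        show ρ (emb hij g⁻¹) x = x
        have h3 : ρ (emb hij g) x = x := hg
        rw [map_inv]
        nth_rewrite 1 [← h3]
        rw [rho_inv_apply] }
  have htop : S = ⊤ := by
    refine subgroup_eq_top_of_transvections S fun p q hpq s => ?_
    show ρ (emb hij (transvection hpq s)) x = x
    fin_cases p <;> fin_cases q
    · exact absurd rfl hpq
    · have := emb_transvection hij s
      exact (congrArg (fun g => ρ g x) this).trans (h1 s)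
    · have := emb_transvection' hij s
      exact (congrArg (fun g => ρ g x) this).trans (h2 s)
    · exact absurd rfl hpq
  have h3 : diag2 (-1 : ℝ) (by norm_num) ∈ S := by rw [htop]; trivial
  have h4 : ρ (emb hij (diag2 (-1 : ℝ) (by norm_num))) x = x := h3
  rwa [emb_diag2] at h4

theorem hh_VS {i j : Fin n} (hij : i ≠ j) (t : ℝ) {S : Finset (Fin n)} {x : E}
    (hx : x ∈ VS ρ S) : ρ (hh hij t) x ∈ VS ρ S := by
  intro a b hab
  rw [comm_apply ρ (diagonal_comm (sg_coe hab) (hh_coe hij t)), hx a b hab, map_smul]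

theorem exists_scalar [FiniteDimensional ℝ E] {P : Submodule ℝ E} (hP : finrank ℝ P ≤ 1)
    (f : Module.End ℝ E) (hf : ∀ x ∈ P, f x ∈ P) : ∃ c : ℝ, ∀ x ∈ P, f x = c • x := by
  obtain ⟨v, hv⟩ := finrank_le_one_iff.1 hP
  obtain ⟨c, hc⟩ := hv ⟨f v.1, hf v.1 v.2⟩
  refine ⟨c, fun x hx => ?_⟩
  obtain ⟨d, hd⟩ := hv ⟨x, hx⟩
  have h1 : f v.1 = c • v.1 := (congrArg Subtype.val hc).symm
  have h2 : x = d • v.1 := (congrArg Subtype.val hd).symm
  rw [h2, map_smul, h1, smul_comm]

/-- the hyperbolic elements act by two different scalars -/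
theorem hh_exists [FiniteDimensional ℝ E] {p q : Fin n} (hpq : p ≠ q) {S S' : Finset (Fin n)}
    (hp : p ∈ S) (hq : q ∉ S) (hS' : S.map (Equiv.swap p q).toEmbedding = S')
    (hdim : finrank ℝ (VS ρ S) ≤ 1)
    (hZ : ∀ x ∈ VS ρ S ⊔ VS ρ S', ∀ s, ρ (transvection hpq s) x ∈ VS ρ S ⊔ VS ρ S' ∧
      ρ (transvection hpq.symm s) x ∈ VS ρ S ⊔ VS ρ S') (hne : VS ρ S ≠ ⊥) :
    ∃ (t χ χ' : ℝ), χ ≠ χ' ∧ (∀ x ∈ VS ρ S, ρ (hh hpq t) x = χ • x) ∧
      ∀ x ∈ VS ρ S', ρ (hh hpq t) x = χ' • x := by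
  have h1 : ∀ t, ∃ c : ℝ, ∀ x ∈ VS ρ S, ρ (hh hpq t) x = c • x := fun t =>
    exists_scalar hdim _ fun x hx => hh_VS ρ hpq t hx
  choose χ hχ using h1
  obtain ⟨v, hv, hv0⟩ := Submodule.exists_mem_ne_zero_of_ne_bot hne
  have hcan : ∀ a b : ℝ, a • v = b • v → a = b := fun a b hab => by
    have : (a - b) • v = 0 := by rw [sub_smul, hab, sub_self]
    exact sub_eq_zero.1 ((smul_eq_zero.1 this).resolve_right hv0)
  have hadd : ∀ s t, χ (s + t) = χ s * χ t := by
    intro s t
    apply hcan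
    rw [← hχ _ v hv, hh_add, rho_mul_apply, hχ t v hv, map_smul, hχ s v hv, smul_smul, mul_comm]
  have hzero : χ 0 = 1 := by
    apply hcan
    rw [← hχ _ v hv, hh_zero, rho_one_apply, one_smul]
  have hS'' : S'.map (Equiv.swap p q).toEmbedding = S := by
    rw [← hS', Finset.map_map]
    have : (Equiv.swap p q).toEmbedding.trans (Equiv.swap p q).toEmbedding =
        Function.Embedding.refl (Fin n) := by
      ext x
      simp
    rw [this, Finset.map_refl]
  have h2 : ∀ t, ∀ x ∈ VS ρ S', ρ (hh hpq t) x = χ (-t) • x := by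
    intro t x hx
    have h3 : ρ (wt hpq) x ∈ VS ρ S := by
      rw [← hS'']
      exact VS_mono ρ (mono_wt hpq) hx
    have h4 := hχ (-t) _ h3
    have h5 : hh hpq (-t) * wt hpq = wt hpq * hh hpq t := (wt_hh hpq t).symm
    rw [← rho_mul_apply, h5, rho_mul_apply, ← map_smul] at h4
    exact rho_inj ρ _ h4
  by_contra hcon
  push Not at hcon
  have h3 : ∀ t, χ t = χ (-t) := by
    intro t
    by_contra h4
    obtain ⟨x, hx, hx'⟩ := hcon t (χ t) (χ (-t)) h4 (hχ t)
    exact hx' (h2 t x hx)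
  have h4 : ∀ t, χ t = 1 := by
    intro t
    have h5 : t = t / 2 + t / 2 := by ring
    rw [h5, hadd]
    nth_rewrite 2 [h3]
    rw [← hadd, add_neg_cancel, hzero]
  have h5 : ∀ x ∈ VS ρ S ⊔ VS ρ S', ∀ t, ρ (hh hpq t) x = x := by
    intro x hx t
    obtain ⟨a, ha, b, hb, rfl⟩ := Submodule.mem_sup.1 hx
    rw [map_add, hχ t a ha, h2 t b hb, h4, h4, one_smul, one_smul]
  have hlog : Real.exp (Real.log 2 / 2) ^ 2 = 2 := by
    rw [← Real.exp_nat_mul]
    have : ((2 : ℕ) : ℝ) * (Real.log 2 / 2) = Real.log 2 := by push_cast; ring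
    rw [this, Real.exp_log two_pos]
  have h6 : ∀ x ∈ VS ρ S ⊔ VS ρ S', ∀ s, ρ (transvection hpq s) x = x := by
    intro x hx s
    have h7 : ρ (hh hpq (Real.log 2 / 2)) (ρ (transvection hpq s) x) =
        ρ (transvection hpq (2 * s)) (ρ (hh hpq (Real.log 2 / 2)) x) := by
      rw [← rho_mul_apply, hh_uu_same, hlog, rho_mul_apply]
    rw [h5 x hx, h5 _ ((hZ x hx s).1), two_mul, uu_add_apply] at h7
    exact (rho_inj ρ _ h7).symm
  have h8 : ∀ x ∈ VS ρ S ⊔ VS ρ S', ∀ s, ρ (transvection hpq.symm s) x = x := by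
    intro x hx s
    have h7 : ρ (hh hpq (Real.log 2 / 2)) (ρ (transvection hpq.symm (2 * s)) x) =
        ρ (transvection hpq.symm s) (ρ (hh hpq (Real.log 2 / 2)) x) := by
      rw [← rho_mul_apply, hh_uu_symm, hlog, rho_mul_apply]
      congr 3
      ring
    rw [h5 x hx, h5 _ ((hZ x hx (2 * s)).2), two_mul, uu_add_apply] at h7
    exact rho_inj ρ _ h7
  have hvZ : v ∈ VS ρ S ⊔ VS ρ S' := Submodule.mem_sup_left hv
  have h9 := sl2_fix ρ hpq (h6 v hvZ) (h8 v hvZ)
  rw [hv p q hpq, sf_mem hp, sf_not_mem hq] at h9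
  have h10 : (2 : ℝ) • v = 0 := by
    rw [two_smul]
    nth_rewrite 1 [← h9]
    simp
  exact hv0 ((smul_eq_zero.1 h10).resolve_left two_ne_zero)

/-- an operator commuting with the hyperbolic elements preserves the weight spaces -/
theorem mem_of_hh {p q : Fin n} (hpq : p ≠ q) {P P' : Submodule ℝ E} {t χ χ' : ℝ}
    (hχ : χ ≠ χ') (h1 : ∀ x ∈ P, ρ (hh hpq t) x = χ • x)
    (h2 : ∀ x ∈ P', ρ (hh hpq t) x = χ' • x) {u : SLn n} (hu : hh hpq t * u = u * hh hpq t)
    {x : E} (hx : x ∈ P) (hux : ρ u x ∈ P ⊔ P') : ρ u x ∈ P := by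
  obtain ⟨a, ha, b, hb, hab⟩ := Submodule.mem_sup.1 hux
  have h3 : ρ (hh hpq t) (ρ u x) = χ • ρ u x := by
    rw [comm_apply ρ hu, h1 x hx, map_smul]
  rw [← hab, map_add, h1 a ha, h2 b hb, smul_add, add_right_inj] at h3
  have h4 : (χ' - χ) • b = 0 := by rw [sub_smul, h3, sub_self]
  have h5 := (smul_eq_zero.1 h4).resolve_left (sub_ne_zero.2 hχ.symm)
  rw [← hab, h5, add_zero]
  exact ha

end basics

section four

variable {E : Type*} [AddCommGroup E] [Module ℝ E] [FiniteDimensional ℝ E]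
  (ρ : SLn 4 →* Module.End ℝ E)

theorem four_sets : ∀ T : Finset (Fin 4), 3 ∉ T →
    T = {0, 2} ∨ T = {1, 2} ∨ (0 ∈ T ↔ 1 ∈ T) ∨ 2 ∉ T := by decide

theorem four_Z (x : E) : x - ρ (sg (show (0 : Fin 4) ≠ 1 by decide)) x -
    ρ (sg (show (2 : Fin 4) ≠ 3 by decide)) (x - ρ (sg (show (0 : Fin 4) ≠ 1 by decide)) x) ∈
    VS ρ {0, 2} ⊔ VS ρ {1, 2} := by
  set L : E →ₗ[ℝ] E := (1 - ρ (sg (show (2 : Fin 4) ≠ 3 by decide))) *
    (1 - ρ (sg (show (0 : Fin 4) ≠ 1 by decide))) with hL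
  have h1 : (VS ρ {0, 2} ⊔ VS ρ {1, 2}).comap L = ⊤ := by
    refine VS_top ρ 3 _ fun T hT x hx => ?_
    have h2 : L x = ((1 - sf T 2 * sf T 3) * (1 - sf T 0 * sf T 1)) • x := by
      show (x - ρ (sg _) x) - ρ (sg _) (x - ρ (sg _) x) = _
      rw [hx 0 1, map_sub, map_smul, hx 2 3]
      module
    rw [Submodule.mem_comap, h2]
    rcases four_sets T hT with rfl | rfl | h3 | h3
    · exact Submodule.smul_mem _ _ (Submodule.mem_sup_left hx)
    · exact Submodule.smul_mem _ _ (Submodule.mem_sup_right hx)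
    · have h4 : sf T 0 * sf T 1 = 1 := by
        by_cases h5 : (0 : Fin 4) ∈ T
        · rw [sf_mem h5, sf_mem (h3.1 h5)]; norm_num
        · rw [sf_not_mem h5, sf_not_mem (fun h => h5 (h3.2 h))]; norm_num
      rw [h4, sub_self, mul_zero, zero_smul]
      exact Submodule.zero_mem _
    · rw [sf_not_mem h3, sf_not_mem hT, one_mul, sub_self, zero_mul, zero_smul]
      exact Submodule.zero_mem _
  have h3 : x ∈ (VS ρ {0, 2} ⊔ VS ρ {1, 2}).comap L := by rw [h1]; trivial
  exact h3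

theorem four_minus {x : E} (hx : x ∈ VS ρ {0, 2} ⊔ VS ρ {1, 2}) :
    ρ (sg (show (0 : Fin 4) ≠ 1 by decide)) x = -x ∧
      ρ (sg (show (2 : Fin 4) ≠ 3 by decide)) x = -x := by
  obtain ⟨a, ha, b, hb, rfl⟩ := Submodule.mem_sup.1 hx
  have e1 : sf ({0, 2} : Finset (Fin 4)) 0 * sf ({0, 2} : Finset (Fin 4)) 1 = -1 := by
    rw [sf_mem (by decide), sf_not_mem (by decide)]; norm_num
  have e2 : sf ({0, 2} : Finset (Fin 4)) 2 * sf ({0, 2} : Finset (Fin 4)) 3 = -1 := by
    rw [sf_mem (by decide), sf_not_mem (by decide)]; norm_num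
  have e3 : sf ({1, 2} : Finset (Fin 4)) 0 * sf ({1, 2} : Finset (Fin 4)) 1 = -1 := by
    rw [sf_not_mem (by decide), sf_mem (by decide)]; norm_num
  have e4 : sf ({1, 2} : Finset (Fin 4)) 2 * sf ({1, 2} : Finset (Fin 4)) 3 = -1 := by
    rw [sf_mem (by decide), sf_not_mem (by decide)]; norm_num
  constructor
  · rw [map_add, ha 0 1 (by decide), hb 0 1 (by decide), e1, e3, neg_one_smul, neg_one_smul,
      neg_add]
  · rw [map_add, ha 2 3 (by decide), hb 2 3 (by decide), e2, e4, neg_one_smul, neg_one_smul,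
      neg_add]

theorem four_inv {u : SLn 4} (h1 : sg (show (0 : Fin 4) ≠ 1 by decide) * u =
    u * sg (show (0 : Fin 4) ≠ 1 by decide))
    (h2 : sg (show (2 : Fin 4) ≠ 3 by decide) * u = u * sg (show (2 : Fin 4) ≠ 3 by decide))
    {x : E} (hx : x ∈ VS ρ {0, 2} ⊔ VS ρ {1, 2}) : ρ u x ∈ VS ρ {0, 2} ⊔ VS ρ {1, 2} := by
  obtain ⟨h3, h4⟩ := four_minus ρ hx
  have h5 := four_Z ρ (ρ u x)
  rw [comm_apply ρ h1, h3, map_neg, sub_neg_eq_add, map_add, comm_apply ρ h2, h4, map_neg] at h5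
  have h6 : (4 : ℝ)⁻¹ • (ρ u x + ρ u x - (-ρ u x + -ρ u x)) = ρ u x := by module
  rw [← h6]
  exact Submodule.smul_mem _ _ h5

theorem four_bot' (hE : finrank ℝ E < 6) : VS ρ {0, 2} = ⊥ := by
  by_contra hne
  have hr : finrank ℝ (VS ρ {0, 2}) ≤ 1 := by
    have h4 := card_mul_le ρ 3 (XX 3 2) (fun T hT => (mem_XX hT).1)
      (r := finrank ℝ (VS ρ {0, 2})) (fun T hT => by
        refine (finrank_VS_eq' ρ (S := {0, 2}) ?_).ge
        have := (mem_XX hT).2
        simpa using this)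
    have h5 : (4 - 1).choose 2 ≤ (XX (3 : Fin 4) 2).card := card_XX' 3 2
    have h6 : (4 - 1).choose 2 = 3 := by decide
    rw [h6] at h5
    nlinarith
  have hinv : ∀ x ∈ VS ρ {0, 2} ⊔ VS ρ {1, 2}, ∀ s,
      ρ (transvection (show (0 : Fin 4) ≠ 1 by decide) s) x ∈ VS ρ {0, 2} ⊔ VS ρ {1, 2} ∧
      ρ (transvection (show (0 : Fin 4) ≠ 1 by decide).symm s) x ∈
        VS ρ {0, 2} ⊔ VS ρ {1, 2} := by
    intro x hx s
    constructor
    · refine four_inv ρ (sg_uu_same _ _) ?_ hx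
      exact sg_uu_disj _ _ (by decide) (by decide) (by decide) (by decide) _
    · refine four_inv ρ ?_ ?_ hx
      · rw [← sg_symm]
        exact sg_uu_same _ _
      · exact sg_uu_disj _ _ (by decide) (by decide) (by decide) (by decide) _
  obtain ⟨t, χ, χ', hχ, h1, h2⟩ := hh_exists ρ (show (0 : Fin 4) ≠ 1 by decide)
    (S := {0, 2}) (S' := {1, 2}) (by decide) (by decide) (by decide) hr hinv hne
  obtain ⟨v, hv, hv0⟩ := Submodule.exists_mem_ne_zero_of_ne_bot hne
  have hZ : v ∈ VS ρ {0, 2} ⊔ VS ρ {1, 2} := Submodule.mem_sup_left hv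
  have h3 : ∀ s, ρ (transvection (show (2 : Fin 4) ≠ 3 by decide) s) v = v := by
    refine fix_of_mem ρ (by norm_num) _ hv fun s => ?_
    refine mem_of_hh ρ (show (0 : Fin 4) ≠ 1 by decide) hχ h1 h2 ?_ hv ?_
    · exact hh_uu_disj _ _ (by decide) (by decide) (by decide) (by decide) _ _
    · refine four_inv ρ ?_ (sg_uu_same _ _) hZ
      exact sg_uu_disj _ _ (by decide) (by decide) (by decide) (by decide) _
  have h4 : ∀ s, ρ (transvection (show (2 : Fin 4) ≠ 3 by decide).symm s) v = v := by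
    refine fix_of_mem ρ (by norm_num) _ hv fun s => ?_
    refine mem_of_hh ρ (show (0 : Fin 4) ≠ 1 by decide) hχ h1 h2 ?_ hv ?_
    · exact hh_uu_disj _ _ (by decide) (by decide) (by decide) (by decide) _ _
    · refine four_inv ρ ?_ ?_ hZ
      · exact sg_uu_disj _ _ (by decide) (by decide) (by decide) (by decide) _
      · rw [← sg_symm]
        exact sg_uu_same _ _
  have h5 := sl2_fix ρ _ h3 h4
  rw [(four_minus ρ hZ).2] at h5
  have h10 : (2 : ℝ) • v = 0 := by
    rw [two_smul]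
    nth_rewrite 1 [← h5]
    simp
  exact hv0 ((smul_eq_zero.1 h10).resolve_left two_ne_zero)

theorem four_bot (hE : finrank ℝ E < 6) {S : Finset (Fin 4)} (hS : S.card = 2) :
    VS ρ S = ⊥ := by
  apply Submodule.finrank_eq_zero.1
  rw [finrank_VS_eq ρ (S' := {0, 2}) (by rw [hS]; decide), four_bot' ρ hE, finrank_bot]

end four

section types

variable {n : ℕ} {E : Type*} [AddCommGroup E] [Module ℝ E] [FiniteDimensional ℝ E]
  (ρ : SLn n →* Module.End ℝ E)

/-- only the types `0` and `1` occur -/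
theorem types (hE : finrank ℝ E < 2 * n - 2) {S : Finset (Fin n)} (h1 : 2 ≤ S.card)
    (h2 : S.card + 2 ≤ n) : VS ρ S = ⊥ := by
  by_cases hn : 5 ≤ n
  · exact VS_bot_of_five ρ hn hE h1 h2
  · obtain rfl : n = 4 := by omega
    exact four_bot ρ (by omega) (by omega)

theorem VS_top' (hn : 3 ≤ n) (hE : finrank ℝ E < 2 * n - 2) (P : Submodule ℝ E)
    (h0 : VS ρ ∅ ≤ P) (h1 : ∀ i, VS ρ {i} ≤ P) : P = ⊤ := by
  refine VS_top ρ ⟨0, by omega⟩ P fun S _ => ?_
  have key : ∀ T : Finset (Fin n), T.card ≤ 1 → VS ρ T ≤ P := by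
    intro T hT
    rcases Nat.le_one_iff_eq_zero_or_eq_one.1 hT with h | h
    · rw [Finset.card_eq_zero.1 h]; exact h0
    · obtain ⟨i, rfl⟩ := Finset.card_eq_one.1 h
      exact h1 i
  by_cases h2 : S.card ≤ 1
  · exact key S h2
  · by_cases h3 : S.card + 2 ≤ n
    · rw [types ρ hE (by omega) h3]
      exact bot_le
    · rw [← VS_compl]
      apply key
      rw [Finset.card_compl, Fintype.card_fin]
      omega

theorem finrank_one (hn : 3 ≤ n) (hE : finrank ℝ E < 2 * n - 2) (i : Fin n) :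
    finrank ℝ (VS ρ {i}) ≤ 1 := by
  have h4 := card_mul_le ρ i (XX i 1) (fun T hT => (mem_XX hT).1)
    (r := finrank ℝ (VS ρ {i})) (fun T hT => by
      refine (finrank_VS_eq' ρ (S := {i}) ?_).ge
      have := (mem_XX hT).2
      simpa using this)
  rw [card_XX i le_rfl (by omega) (by omega), Nat.choose_one_right] at h4
  by_contra hcon
  have h5 : 2 ≤ finrank ℝ (VS ρ {i}) := by omega
  have h6 : n * 2 ≤ n * finrank ℝ (VS ρ {i}) := Nat.mul_le_mul_left n h5
  omega

theorem VS_ne_bot {i j : Fin n} (h : VS ρ {i} ≠ ⊥) : VS ρ {j} ≠ ⊥ := by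
  intro h1
  apply h
  apply Submodule.finrank_eq_zero.1
  rw [finrank_VS_eq ρ (S' := {j}) (by rw [Finset.card_singleton, Finset.card_singleton]), h1,
    finrank_bot]

theorem VS_single_same {i j : Fin n} (hij : i ≠ j) {x : E} (hx : x ∈ VS ρ {i} ⊔ VS ρ {j}) :
    ρ (sg hij) x = -x := by
  obtain ⟨a, ha, b, hb, rfl⟩ := Submodule.mem_sup.1 hx
  rw [map_add, ha i j hij, hb i j hij, sf_mem (Finset.mem_singleton_self i),
    sf_not_mem (by simpa using hij.symm), sf_mem (Finset.mem_singleton_self j),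
    sf_not_mem (by simpa using hij)]
  module

theorem VS_single_disj {i j p q : Fin n} (hpq : p ≠ q) (h1 : p ≠ i) (h2 : p ≠ j) (h3 : q ≠ i)
    (h4 : q ≠ j) {x : E} (hx : x ∈ VS ρ {i} ⊔ VS ρ {j}) : ρ (sg hpq) x = x := by
  obtain ⟨a, ha, b, hb, rfl⟩ := Submodule.mem_sup.1 hx
  rw [map_add, ha p q hpq, hb p q hpq, sf_not_mem (by simpa using h1),
    sf_not_mem (by simpa using h3), sf_not_mem (by simpa using h2),
    sf_not_mem (by simpa using h4)]
  module

/-- the `-1`-eigenspaces of the sign changes -/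
theorem minus_mem (hn : 3 ≤ n) (hE : finrank ℝ E < 2 * n - 2) {p q : Fin n} (hpq : p ≠ q)
    (x : E) : x - ρ (sg hpq) x ∈ VS ρ {p} ⊔ VS ρ {q} := by
  set L : E →ₗ[ℝ] E := 1 - ρ (sg hpq) with hL
  have h1 : (VS ρ {p} ⊔ VS ρ {q}).comap L = ⊤ := by
    refine VS_top' ρ hn hE _ (fun x hx => ?_) fun i x hx => ?_
    · show x - ρ (sg hpq) x ∈ VS ρ {p} ⊔ VS ρ {q}
      rw [hx p q hpq, sf_not_mem (by simp), sf_not_mem (by simp), one_mul, one_smul, sub_self]
      exact Submodule.zero_mem _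
    · show x - ρ (sg hpq) x ∈ VS ρ {p} ⊔ VS ρ {q}
      rcases eq_or_ne i p with rfl | hip
      · exact Submodule.sub_mem _ (Submodule.mem_sup_left hx)
          (by rw [hx i q hpq]; exact Submodule.smul_mem _ _ (Submodule.mem_sup_left hx))
      · rcases eq_or_ne i q with rfl | hiq
        · exact Submodule.sub_mem _ (Submodule.mem_sup_right hx)
            (by rw [hx p i hpq]; exact Submodule.smul_mem _ _ (Submodule.mem_sup_right hx))
        · rw [hx p q hpq, sf_not_mem (by simpa using hip.symm),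
            sf_not_mem (by simpa using hiq.symm), one_mul, one_smul, sub_self]
          exact Submodule.zero_mem _
  have h3 : x ∈ (VS ρ {p} ⊔ VS ρ {q}).comap L := by rw [h1]; trivial
  exact h3

theorem mem_of_minus (hn : 3 ≤ n) (hE : finrank ℝ E < 2 * n - 2) {p q : Fin n} (hpq : p ≠ q)
    {x : E} (hx : ρ (sg hpq) x = -x) : x ∈ VS ρ {p} ⊔ VS ρ {q} := by
  have h1 := minus_mem ρ hn hE hpq x
  rw [hx, sub_neg_eq_add] at h1
  have h2 : (2⁻¹ : ℝ) • (x + x) = x := by module
  rw [← h2]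
  exact Submodule.smul_mem _ _ h1

theorem pres_of_comm (hn : 3 ≤ n) (hE : finrank ℝ E < 2 * n - 2) {p q : Fin n} (hpq : p ≠ q)
    {u : SLn n} (hu : sg hpq * u = u * sg hpq) {x : E} (hx : x ∈ VS ρ {p} ⊔ VS ρ {q}) :
    ρ u x ∈ VS ρ {p} ⊔ VS ρ {q} := by
  refine mem_of_minus ρ hn hE hpq ?_
  rw [comm_apply ρ hu, VS_single_same ρ hpq hx, map_neg]

theorem exists_fourth (hn : 4 ≤ n) (i j k : Fin n) : ∃ l : Fin n, l ≠ i ∧ l ≠ j ∧ l ≠ k := by
  by_contra hcon
  push Not at hcon
  have h1 : (Finset.univ : Finset (Fin n)) ⊆ {i, j, k} := by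
    intro l _
    rw [Finset.mem_insert, Finset.mem_insert, Finset.mem_singleton]
    by_cases h : l = i
    · exact Or.inl h
    · by_cases h' : l = j
      · exact Or.inr (Or.inl h')
      · exact Or.inr (Or.inr (hcon l h h'))
  have h2 := Finset.card_le_card h1
  rw [Finset.card_univ, Fintype.card_fin] at h2
  have h3 : ({i, j, k} : Finset (Fin n)).card ≤ 3 := Finset.card_le_three
  omega

/-- root subgroups preserve the other weight spaces, for `n ≥ 4` -/
theorem other_mem_four (hn : 4 ≤ n) (hE : finrank ℝ E < 2 * n - 2) {j k p : Fin n} (hjk : j ≠ k)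
    (hpj : p ≠ j) (hpk : p ≠ k) {x : E} (hx : x ∈ VS ρ {p}) (s : ℝ) :
    ρ (transvection hjk s) x ∈ VS ρ {p} := by
  by_cases hne : VS ρ {p} = ⊥
  · rw [hne, Submodule.mem_bot] at hx
    rw [hx, map_zero]
    exact Submodule.zero_mem _
  obtain ⟨q, hqj, hqk, hqp⟩ := exists_fourth hn j k p
  have hn3 : 3 ≤ n := by omega
  obtain ⟨t, χ, χ', hχ, h1, h2⟩ := hh_exists ρ hqp.symm (S := {p}) (S' := {q})
    (Finset.mem_singleton_self p) (by simpa using hqp)
    (by rw [Finset.map_singleton]; simp) (finrank_one ρ hn3 hE p)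
    (fun y hy s => ⟨pres_of_comm ρ hn3 hE hqp.symm (sg_uu_same _ _) hy,
      pres_of_comm ρ hn3 hE hqp.symm (by rw [← sg_symm]; exact sg_uu_same _ _) hy⟩) hne
  refine mem_of_hh ρ hqp.symm hχ h1 h2 (hh_uu_disj _ _ hpj hpk hqj hqk _ _) hx ?_
  exact pres_of_comm ρ hn3 hE hqp.symm (sg_uu_disj _ _ hpj hpk hqj hqk _)
    (Submodule.mem_sup_left hx)

theorem zero_bot_three (hn : n = 3) (hE : finrank ℝ E < 2 * n - 2) {p : Fin n}
    (hne : VS ρ {p} ≠ ⊥) : VS ρ ∅ = ⊥ := by
  by_contra h0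
  have h1 : ∀ S : Finset (Fin n), VS ρ S ≠ ⊥ → 1 ≤ finrank ℝ (VS ρ S) := by
    intro S hS
    rw [Nat.one_le_iff_ne_zero]
    exact fun h => hS (Submodule.finrank_eq_zero.1 h)
  have h2 := card_mul_le ρ p (insert ∅ (XX p 1)) (fun T hT => by
      rcases Finset.mem_insert.1 hT with rfl | h
      · simp
      · exact (mem_XX h).1) (r := 1) (fun T hT => by
      rcases Finset.mem_insert.1 hT with rfl | h
      · exact h1 _ h0
      · rw [finrank_VS_eq' ρ (S := {p}) (by simpa using (mem_XX h).2)]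
        exact h1 _ hne)
  rw [Finset.card_insert_of_notMem, card_XX p le_rfl (by omega) (by omega),
    Nat.choose_one_right] at h2
  · omega
  · intro h
    have := (mem_XX h).2
    rw [Finset.card_empty] at this
    omega

theorem other_mem_three (hn : n = 3) (hE : finrank ℝ E < 2 * n - 2) {j k p : Fin n} (hjk : j ≠ k)
    (hpj : p ≠ j) (hpk : p ≠ k) {x : E} (hx : x ∈ VS ρ {p}) (s : ℝ) :
    ρ (transvection hjk s) x ∈ VS ρ {p} := by
  by_cases hne : VS ρ {p} = ⊥
  · rw [hne, Submodule.mem_bot] at hx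
    rw [hx, map_zero]
    exact Submodule.zero_mem _
  have h0 := zero_bot_three ρ hn hE hne
  have hplus : ∀ y, y + ρ (sg hjk) y ∈ VS ρ {p} := by
    intro y
    set L : E →ₗ[ℝ] E := 1 + ρ (sg hjk) with hL
    have h1 : (VS ρ {p}).comap L = ⊤ := by
      refine VS_top' ρ (by omega) hE _ (by rw [h0]; exact bot_le) fun i y hy => ?_
      show y + ρ (sg hjk) y ∈ VS ρ {p}
      rcases eq_or_ne i p with rfl | hip
      · exact Submodule.add_mem _ hy (by rw [hy j k hjk]; exact Submodule.smul_mem _ _ hy)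
      · have h2 : ρ (sg hjk) y = -y := by
          refine VS_single_same ρ hjk ?_
          have h3 : i = j ∨ i = k := by
            subst hn
            omega
          rcases h3 with rfl | rfl
          · exact Submodule.mem_sup_left hy
          · exact Submodule.mem_sup_right hy
        rw [h2, add_neg_cancel]
        exact Submodule.zero_mem _
    have h3 : y ∈ (VS ρ {p}).comap L := by rw [h1]; trivial
    exact h3
  have h1 := hplus (ρ (transvection hjk s) x)
  rw [comm_apply ρ (sg_uu_same hjk s), VS_single_disj ρ hjk hpj.symm hpj.symm hpk.symm hpk.symm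
    (Submodule.mem_sup_left hx)] at h1
  have h2 : (2⁻¹ : ℝ) • (ρ (transvection hjk s) x + ρ (transvection hjk s) x) =
    ρ (transvection hjk s) x := by module
  rw [← h2]
  exact Submodule.smul_mem _ _ h1

/-- root subgroups fix the other weight spaces -/
theorem other_fix (hn : 3 ≤ n) (hE : finrank ℝ E < 2 * n - 2) {j k p : Fin n} (hjk : j ≠ k)
    (hpj : p ≠ j) (hpk : p ≠ k) {x : E} (hx : x ∈ VS ρ {p}) (s : ℝ) :
    ρ (transvection hjk s) x = x := by
  refine fix_of_mem ρ hn hjk hx (fun s => ?_) s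
  by_cases h : 4 ≤ n
  · exact other_mem_four ρ h hE hjk hpj hpk hx s
  · exact other_mem_three ρ (by omega) hE hjk hpj hpk hx s

/-- root subgroups fix the invariants of the sign group -/
theorem zero_fix_four (hn : 4 ≤ n) (hE : finrank ℝ E < 2 * n - 2) {j k : Fin n} (hjk : j ≠ k)
    {x : E} (hx : x ∈ VS ρ ∅) (s : ℝ) : ρ (transvection hjk s) x = x := by
  have hn3 : 3 ≤ n := by omega
  refine fix_of_mem ρ hn3 hjk hx (fun s => ?_) s
  have hx' : ∀ (a b : Fin n) (hab : a ≠ b), ρ (sg hab) x = x := by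
    intro a b hab
    rw [hx a b hab, sf_not_mem (by simp), sf_not_mem (by simp), one_mul, one_smul]
  set y := ρ (transvection hjk s) x with hy
  have h1 : ρ (sg hjk) y = y := by
    rw [hy, comm_apply ρ (sg_uu_same hjk s), hx']
  have h2 : ∀ (a b : Fin n) (hab : a ≠ b), a ≠ j → a ≠ k → b ≠ j → b ≠ k →
      ρ (sg hab) y = y := by
    intro a b hab haj hak hbj hbk
    rw [hy, comm_apply ρ (sg_uu_disj hjk hab haj hak hbj hbk s), hx']
  -- one index in common
  have h3 : ∀ (a b p : Fin n) (hab : a ≠ b) (hap : a ≠ p) (hbp : b ≠ p),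
      ρ (sg hab) y = y → (∀ q (hqp : p ≠ q), q ≠ a → q ≠ b → ρ (sg hqp) y = y) →
      ρ (sg hap) y = y := by
    intro a b p hab hap hbp h4 h5
    obtain ⟨q, hqa, hqb, hqp⟩ := exists_fourth hn a b p
    have h6 := minus_mem ρ hn3 hE hap y
    set z := y - ρ (sg hap) y with hz
    have h7 : ρ (sg hqb) z = z :=
      VS_single_disj ρ hqb hqa hqp hab.symm hbp h6
    have h8 : ρ (sg hqb) y = ρ (sg hap) y := by
      have e1 : sg hqa * sg hab = sg hqb := sg_mul hqa hab hqb
      have e2 : sg hap * sg hqp.symm = sg hqa.symm := sg_mul hap hqp.symm hqa.symm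
      rw [← e1, rho_mul_apply, h4, ← sg_symm hqa, ← e2, rho_mul_apply, h5 q hqp.symm hqa hqb]
    rw [hz, map_sub, h8, comm_apply ρ (sg_comm hqb hap), h8, sg_invol] at h7
    have h9 : (2 : ℝ) • (y - ρ (sg hap) y) = 0 := by
      have : (2 : ℝ) • (y - ρ (sg hap) y) =
        (y - ρ (sg hap) y) - (ρ (sg hap) y - y) := by module
      rw [this, h7, sub_self]
    have h10 := (smul_eq_zero.1 h9).resolve_left two_ne_zero
    exact (sub_eq_zero.1 h10).symm
  have h4 : ∀ (a b : Fin n) (hab : a ≠ b), ρ (sg hab) y = y := by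
    intro a b hab
    have hkj : ρ (sg hjk.symm) y = y := by rw [sg_symm]; exact h1
    by_cases haj : a = j
    · subst haj
      by_cases hbk : b = k
      · subst hbk; exact h1
      · exact h3 a k b hjk hab (Ne.symm hbk) h1 fun q hqp hqa hqb =>
          h2 _ _ hqp hab.symm hbk hqa hqb
    · by_cases hak : a = k
      · subst hak
        by_cases hbj : b = j
        · subst hbj; exact hkj
        · exact h3 a j b hjk.symm hab (Ne.symm hbj) hkj fun q hqp hqa hqb =>
            h2 _ _ hqp hbj hab.symm hqb hqa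
      · by_cases hbj : b = j
        · subst hbj
          rw [← sg_symm hab]
          exact h3 b k a hjk hab.symm (Ne.symm hak) h1 fun q hqp hqa hqb =>
            h2 _ _ hqp hab hak hqa hqb
        · by_cases hbk : b = k
          · subst hbk
            rw [← sg_symm hab]
            exact h3 b j a hjk.symm hab.symm (Ne.symm haj) hkj fun q hqp hqa hqb =>
              h2 _ _ hqp haj hab hqb hqa
          · exact h2 a b hab haj hak hbj hbk
  intro a b hab
  rw [h4 a b hab, sf_not_mem (by simp), sf_not_mem (by simp), one_mul, one_smul]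

theorem zero_fix (hn : 3 ≤ n) (hE : finrank ℝ E < 2 * n - 2) {p : Fin n}
    (hne : VS ρ {p} ≠ ⊥) {j k : Fin n} (hjk : j ≠ k)
    {x : E} (hx : x ∈ VS ρ ∅) (s : ℝ) : ρ (transvection hjk s) x = x := by
  by_cases h : 4 ≤ n
  · exact zero_fix_four ρ h hE hjk hx s
  · rw [zero_bot_three ρ (by omega) hE hne, Submodule.mem_bot] at hx
    rw [hx, map_zero]

end types

end Pool.Agent.H812
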