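import Pool.Agent.H812.Prep

/-!
Identities in `SL(n, ℝ)`: transvections, diagonal matrices, signed permutation matrices.
-/

set_option autoImplicit false

namespace Pool.Agent.H812

open Matrix Matrix.SpecialLinearGroup

variable {n : ℕ}

theorem diag_uu {i j : Fin n} (hij : i ≠ j) {d : SLn n} {c : Fin n → ℝ}
    (hd : d.1 = Matrix.diagonal c) {s s' : ℝ} (h : c i * s = s' * c j) :
    d * transvection hij s = transvection hij s' * d := by
  apply Subtype.ext
  rw [Matrix.SpecialLinearGroup.coe_mul, Matrix.SpecialLinearGroup.coe_mul, hd, transvection_coe,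
    transvection_coe, Matrix.mul_add, Matrix.add_mul, Matrix.mul_one, Matrix.one_mul]
  congr 1
  ext p q
  rw [Matrix.diagonal_mul, Matrix.mul_diagonal, Matrix.single_apply, Matrix.single_apply]
  by_cases h1 : i = p ∧ j = q
  · obtain ⟨rfl, rfl⟩ := h1
    simpa using h
  · simp [h1]

theorem uu_three {i j k : Fin n} (hij : i ≠ j) (hjk : j ≠ k) (hik : i ≠ k) (s t : ℝ) :
    transvection hij s * transvection hjk t =
      transvection hik (s * t) * transvection hjk t * transvection hij s := by
  apply Subtype.ext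
  simp only [Matrix.SpecialLinearGroup.coe_mul, transvection_coe]
  have h1 : (single i j s : Matrix (Fin n) (Fin n) ℝ) * single j k t = single i k (s * t) :=
    Matrix.single_mul_single_same _ _ _ _ _
  have h2 : (single j k t : Matrix (Fin n) (Fin n) ℝ) * single i j s = 0 :=
    Matrix.single_mul_single_of_ne _ _ _ _ hik.symm _
  have h3 : (single i k (s * t) : Matrix (Fin n) (Fin n) ℝ) * single j k t = 0 :=
    Matrix.single_mul_single_of_ne _ _ _ _ hjk.symm _
  have h4 : (single i k (s * t) : Matrix (Fin n) (Fin n) ℝ) * single i j s = 0 :=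
    Matrix.single_mul_single_of_ne _ _ _ _ hik.symm _
  simp only [Matrix.mul_add, Matrix.add_mul, Matrix.mul_one, Matrix.one_mul, h1, h2, h3, h4,
    Matrix.zero_mul, Matrix.mul_zero, add_zero, zero_add]
  abel

/-- conjugation by the element `g` permutes the root subgroups by `τ` -/
def Mono (g : SLn n) (τ : Equiv.Perm (Fin n)) : Prop :=
  ∃ ε : Fin n → ℝ, (∀ i, ε i = 1 ∨ ε i = -1) ∧
    (∀ (i j : Fin n) (hij : i ≠ j) (s : ℝ), g * transvection hij s =
      transvection (τ.injective.ne hij) (ε i * ε j * s) * g) ∧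
    ∀ (i j : Fin n) (hij : i ≠ j), g * sg hij = sg (τ.injective.ne hij) * g

theorem Mono.one : Mono (1 : SLn n) 1 :=
  ⟨fun _ => 1, fun _ => Or.inl rfl, fun i j hij s => by
    rw [one_mul, mul_one, one_mul, one_mul]; rfl, fun i j hij => by rw [one_mul, mul_one]; rfl⟩

theorem Mono.mul {g h : SLn n} {τ σ : Equiv.Perm (Fin n)} (hg : Mono g τ) (hh : Mono h σ) :
    Mono (g * h) (τ * σ) := by
  obtain ⟨ε, h1, h2, h3⟩ := hg
  obtain ⟨ε', h1', h2', h3'⟩ := hh
  refine ⟨fun i => ε (σ i) * ε' i, fun i => ?_, fun i j hij s => ?_, fun i j hij => ?_⟩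
  · rcases h1 (σ i) with h | h <;> rcases h1' i with h' | h' <;> simp [h, h']
  · rw [mul_assoc, h2', ← mul_assoc, h2, mul_assoc]
    congr 2
    ring
  · rw [mul_assoc, h3', ← mul_assoc, h3, mul_assoc]
    rfl

theorem wt_coe {p q : Fin n} (hpq : p ≠ q) : (wt hpq).1 = Matrix.of fun a b =>
    if a = Equiv.swap p q b then (if b = q then (-1 : ℝ) else 1) else 0 := by
  ext a b
  rw [wt, emb_coe, embM_apply, Matrix.of_apply]
  rcases eq_or_ne b p with rfl | hbp
  · rw [Equiv.swap_apply_left]
    rcases eq_or_ne a b with rfl | hab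
    · simp [rot2, hpq]
    · rcases eq_or_ne a q with rfl | haq
      · simp [rot2, hpq, hpq.symm]
      · simp [rot2, hab, haq]
  · rcases eq_or_ne b q with rfl | hbq
    · rw [Equiv.swap_apply_right]
      rcases eq_or_ne a b with rfl | hab
      · simp [rot2, hpq.symm]
      · rcases eq_or_ne a p with rfl | hap
        · simp [rot2, hpq, hpq.symm]
        · simp [rot2, hab, hap]
    · rw [Equiv.swap_apply_of_ne_of_ne hbp hbq]
      simp [hbp, hbq]

theorem mono_wt {p q : Fin n} (hpq : p ≠ q) : Mono (wt hpq) (Equiv.swap p q) := by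
  set τ := Equiv.swap p q with hτ
  set ε : Fin n → ℝ := fun b => if b = q then (-1 : ℝ) else 1 with hε
  have hε1 : ∀ i, ε i = 1 ∨ ε i = -1 := by
    intro i
    rw [hε]
    simp only
    split_ifs
    · exact Or.inr rfl
    · exact Or.inl rfl
  have hε2 : ∀ i, ε i * ε i = 1 := by
    intro i
    rcases hε1 i with h | h <;> rw [h] <;> norm_num
  have hcoe : (wt hpq).1 = Matrix.of fun a b => if a = τ b then ε b else 0 := wt_coe hpq
  refine ⟨ε, hε1, fun i j hij s => ?_, fun i j hij => ?_⟩
  · apply Subtype.ext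
    rw [Matrix.SpecialLinearGroup.coe_mul, Matrix.SpecialLinearGroup.coe_mul, transvection_coe,
      transvection_coe, Matrix.mul_add, Matrix.add_mul, Matrix.mul_one, Matrix.one_mul]
    congr 1
    ext a b
    rw [Matrix.mul_apply, Matrix.mul_apply]
    simp only [Matrix.single_apply, hcoe, Matrix.of_apply]
    rw [Finset.sum_eq_single i, Finset.sum_eq_single (τ j)]
    · by_cases h1 : j = b
      · subst h1
        by_cases h2 : a = τ i
        · subst h2
          simp only [if_true, and_self]
          calc ε i * s = ε i * s * (ε j * ε j) := by rw [hε2, mul_one]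
            _ = _ := by ring
        · have h3 : ¬ (τ i = a) := fun h => h2 h.symm
          simp [h2, h3]
      · have h3 : ¬ (τ j = τ b) := fun h => h1 (τ.injective h)
        simp [h1]
    · intro c _ hc
      have h3 : ¬ (τ j = c) := fun h => hc h.symm
      simp [h3]
    · intro h; exact absurd (Finset.mem_univ _) h
    · intro c _ hc
      have h3 : ¬ (i = c) := fun h => hc h.symm
      simp [h3]
    · intro h; exact absurd (Finset.mem_univ _) h
  · apply Subtype.ext
    rw [Matrix.SpecialLinearGroup.coe_mul, Matrix.SpecialLinearGroup.coe_mul, sg_coe, sg_coe]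
    ext a b
    rw [Matrix.mul_diagonal, Matrix.diagonal_mul, hcoe, Matrix.of_apply]
    by_cases h1 : a = τ b
    · subst h1
      have h2 : (τ b = τ i ∨ τ b = τ j) ↔ (b = i ∨ b = j) := by
        rw [τ.injective.eq_iff, τ.injective.eq_iff]
      simp only [h2, if_true]
      ring
    · simp [h1]

theorem exists_mono (τ : Equiv.Perm (Fin n)) : ∃ g : SLn n, Mono g τ := by
  induction τ using Equiv.Perm.swap_induction_on with
  | one => exact ⟨1, Mono.one⟩
  | swap_mul f x y hxy ih =>
    obtain ⟨g, hg⟩ := ih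
    exact ⟨wt hxy * g, (mono_wt hxy).mul hg⟩

theorem inr_uu {i j : Fin n} (hij : i ≠ j) (s : ℝ) :
    inr (transvection hij s) = transvection hij.symm (-s) := by
  apply Subtype.ext
  rw [inr_coe, transvection_inv, transvection_coe, transvection_coe, Matrix.transpose_add,
    Matrix.transpose_one, Matrix.transpose_single]

theorem sg_inv {i j : Fin n} (hij : i ≠ j) : (sg hij)⁻¹ = sg hij := by
  rw [inv_eq_iff_mul_eq_one]
  apply Subtype.ext
  rw [Matrix.SpecialLinearGroup.coe_mul, sg_coe, Matrix.diagonal_mul_diagonal]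
  rw [Matrix.SpecialLinearGroup.coe_one, ← Matrix.diagonal_one]
  congr 1
  funext k
  split_ifs <;> norm_num

theorem sg_sq {i j : Fin n} (hij : i ≠ j) : sg hij * sg hij = 1 := by
  rw [← sg_inv hij, inv_mul_eq_one, sg_inv]

theorem inr_sg {i j : Fin n} (hij : i ≠ j) : inr (sg hij) = sg hij := by
  apply Subtype.ext
  rw [inr_coe, sg_inv, sg_coe, Matrix.diagonal_transpose]

theorem sg_symm {i j : Fin n} (hij : i ≠ j) : sg hij.symm = sg hij := by
  apply Subtype.ext
  rw [sg_coe, sg_coe]
  congr 1
  funext k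
  simp only [or_comm]

theorem sg_comm {i j k l : Fin n} (hij : i ≠ j) (hkl : k ≠ l) :
    sg hij * sg hkl = sg hkl * sg hij := diagonal_comm (sg_coe hij) (sg_coe hkl)

theorem sg_mul {i j k : Fin n} (hij : i ≠ j) (hjk : j ≠ k) (hik : i ≠ k) :
    sg hij * sg hjk = sg hik := by
  apply Subtype.ext
  rw [Matrix.SpecialLinearGroup.coe_mul, sg_coe, sg_coe, sg_coe, Matrix.diagonal_mul_diagonal]
  congr 1
  funext l
  rcases eq_or_ne l i with rfl | h1
  · simp [hij, hik]
  · rcases eq_or_ne l j with rfl | h2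
    · simp [hij.symm, hjk]
    · rcases eq_or_ne l k with rfl | h3
      · simp [hik.symm, hjk.symm]
      · simp [h1, h2, h3]

/-- conjugation by the sign change of a coordinate inverts a root subgroup -/
theorem sg_uu_left {i j p : Fin n} (hij : i ≠ j) (hip : i ≠ p) (hpj : p ≠ j) (s : ℝ) :
    sg hip * transvection hij s = transvection hij (-s) * sg hip := by
  refine diag_uu hij (sg_coe hip) ?_
  simp [hij.symm, hpj.symm]

theorem sg_uu_right {i j p : Fin n} (hij : i ≠ j) (hjp : j ≠ p) (hpi : p ≠ i) (s : ℝ) :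
    sg hjp * transvection hij s = transvection hij (-s) * sg hjp := by
  refine diag_uu hij (sg_coe hjp) ?_
  simp [hij, hpi.symm]

theorem sg_uu_same {i j : Fin n} (hij : i ≠ j) (s : ℝ) :
    sg hij * transvection hij s = transvection hij s * sg hij := by
  refine diag_uu hij (sg_coe hij) ?_
  simp

theorem sg_uu_disj {i j p q : Fin n} (hij : i ≠ j) (hpq : p ≠ q) (h1 : p ≠ i) (h2 : p ≠ j)
    (h3 : q ≠ i) (h4 : q ≠ j) (s : ℝ) :
    sg hpq * transvection hij s = transvection hij s * sg hpq := by
  refine diag_uu hij (sg_coe hpq) ?_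
  simp [h1.symm, h2.symm, h3.symm, h4.symm]

theorem hh_uu_disj {i j p q : Fin n} (hij : i ≠ j) (hpq : p ≠ q) (h1 : p ≠ i) (h2 : p ≠ j)
    (h3 : q ≠ i) (h4 : q ≠ j) (t s : ℝ) :
    hh hpq t * transvection hij s = transvection hij s * hh hpq t := by
  refine diag_uu hij (hh_coe hpq t) ?_
  simp [h1.symm, h2.symm, h3.symm, h4.symm]

theorem hh_uu_same {i j : Fin n} (hij : i ≠ j) (t s : ℝ) :
    hh hij t * transvection hij s = transvection hij (Real.exp t ^ 2 * s) * hh hij t := by
  refine diag_uu hij (hh_coe hij t) ?_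
  have := Real.exp_ne_zero t
  simp only [if_true, hij.symm, if_false]
  field_simp

theorem hh_uu_symm {i j : Fin n} (hij : i ≠ j) (t s : ℝ) :
    hh hij t * transvection hij.symm s =
      transvection hij.symm ((Real.exp t ^ 2)⁻¹ * s) * hh hij t := by
  refine diag_uu hij.symm (hh_coe hij t) ?_
  have := Real.exp_ne_zero t
  simp only [if_true, hij.symm, if_false]
  field_simp

end Pool.Agent.H812
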