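import Pool.Agent.H812.RFix

/-!
Representations of `SL(n, ℝ)` of dimension less than `2 n - 2`: classification.
-/

set_option autoImplicit false

namespace Pool.Agent.H812

open Matrix Matrix.SpecialLinearGroup Module

section plane

variable {n : ℕ} {E : Type*} [AddCommGroup E] [Module ℝ E] [FiniteDimensional ℝ E]
  (ρ : SLn n →* Module.End ℝ E)

theorem mem_span_of {P : Submodule ℝ E} (hP : finrank ℝ P ≤ 1) {v : E} (hv : v ∈ P)
    (hv0 : v ≠ 0) {x : E} (hx : x ∈ P) : ∃ c : ℝ, x = c • v := by
  obtain ⟨w, hw⟩ := finrank_le_one_iff.1 hP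
  obtain ⟨c, hc⟩ := hw ⟨v, hv⟩
  obtain ⟨d, hd⟩ := hw ⟨x, hx⟩
  have h1 : v = c • w.1 := (congrArg Subtype.val hc).symm
  have h2 : x = d • w.1 := (congrArg Subtype.val hd).symm
  have hc0 : c ≠ 0 := by
    intro h
    rw [h, zero_smul] at h1
    exact hv0 h1
  refine ⟨d * c⁻¹, ?_⟩
  rw [h2, h1, smul_smul, mul_assoc, inv_mul_cancel₀ hc0, mul_one]

/-- the two possible shapes of a root subgroup -/
theorem plane_cases (hn : 3 ≤ n) (hE : finrank ℝ E < 2 * n - 2) {j k : Fin n} (hjk : j ≠ k) :
    ((∀ (s : ℝ) (x : E), x ∈ VS ρ {j} → ρ (transvection hjk s) x = x) ∧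
      ∀ (s : ℝ) (x : E), x ∈ VS ρ {k} → ρ (transvection hjk s) x - x ∈ VS ρ {j}) ∨
    ((∀ (s : ℝ) (x : E), x ∈ VS ρ {k} → ρ (transvection hjk s) x = x) ∧
      ∀ (s : ℝ) (x : E), x ∈ VS ρ {j} → ρ (transvection hjk s) x - x ∈ VS ρ {k}) := by
  by_cases hne : VS ρ {j} = ⊥
  · left
    have hne' : VS ρ {k} = ⊥ := by
      by_contra h
      exact VS_ne_bot ρ h hne
    refine ⟨fun s x hx => ?_, fun s x hx => ?_⟩
    · rw [hne, Submodule.mem_bot] at hx
      rw [hx, map_zero]
    · rw [hne', Submodule.mem_bot] at hx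
      rw [hx, map_zero, sub_zero]
      exact Submodule.zero_mem _
  have hne' : VS ρ {k} ≠ ⊥ := VS_ne_bot ρ hne
  obtain ⟨e, he, he0⟩ := Submodule.exists_mem_ne_zero_of_ne_bot hne
  obtain ⟨e', he', he'0⟩ := Submodule.exists_mem_ne_zero_of_ne_bot hne'
  have hdj := finrank_one ρ hn hE j
  have hdk := finrank_one ρ hn hE k
  obtain ⟨p, hpj, hpk⟩ := exists_ne_ne hn j k
  -- coordinates on the plane
  have hco : ∀ x ∈ VS ρ {j} ⊔ VS ρ {k}, ∃ a c : ℝ, x = a • e + c • e' := by
    intro x hx
    obtain ⟨y, hy, z, hz, rfl⟩ := Submodule.mem_sup.1 hx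
    obtain ⟨a, rfl⟩ := mem_span_of hdj he he0 hy
    obtain ⟨c, rfl⟩ := mem_span_of hdk he' he'0 hz
    exact ⟨a, c, rfl⟩
  have hsge : ρ (sg hpj.symm) e = -e := VS_single_same ρ hpj.symm (Submodule.mem_sup_left he)
  have hsge' : ρ (sg hpj.symm) e' = e' :=
    VS_single_disj ρ hpj.symm hjk hjk hpk hpk (Submodule.mem_sup_left he')
  have huniq : ∀ a c a' c' : ℝ, a • e + c • e' = a' • e + c' • e' → a = a' ∧ c = c' := by
    intro a c a' c' h
    have h1 := congrArg (ρ (sg hpj.symm)) h
    simp only [map_add, map_smul, hsge, hsge'] at h1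
    have h2 : (2 : ℝ) • ((a - a') • e) = 0 := by
      have : (2 : ℝ) • ((a - a') • e) = ((a • e + c • e') - (a' • e + c' • e')) -
        ((a • -e + c • e') - (a' • -e + c' • e')) := by module
      rw [this, h, h1, sub_self, sub_self, sub_self]
    have h3 : (2 : ℝ) • ((c - c') • e') = 0 := by
      have : (2 : ℝ) • ((c - c') • e') = ((a • e + c • e') - (a' • e + c' • e')) +
        ((a • -e + c • e') - (a' • -e + c' • e')) := by module
      rw [this, h, h1, sub_self, sub_self, add_zero]
    have h4 := (smul_eq_zero.1 ((smul_eq_zero.1 h2).resolve_left two_ne_zero)).resolve_right he0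
    have h5 := (smul_eq_zero.1 ((smul_eq_zero.1 h3).resolve_left two_ne_zero)).resolve_right he'0
    exact ⟨sub_eq_zero.1 h4, sub_eq_zero.1 h5⟩
  have hpres : ∀ s : ℝ, ∀ x ∈ VS ρ {j} ⊔ VS ρ {k},
      ρ (transvection hjk s) x ∈ VS ρ {j} ⊔ VS ρ {k} := fun s x hx =>
    pres_of_comm ρ hn hE hjk (sg_uu_same hjk s) hx
  have h1 : ∀ s : ℝ, ∃ a c : ℝ, ρ (transvection hjk s) e = a • e + c • e' := fun s =>
    hco _ (hpres s e (Submodule.mem_sup_left he))
  have h2 : ∀ s : ℝ, ∃ b d : ℝ, ρ (transvection hjk s) e' = b • e + d • e' := fun s =>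
    hco _ (hpres s e' (Submodule.mem_sup_right he'))
  choose a c hac using h1
  choose b d hbd using h2
  -- the product rule
  have hR2 : ∀ s t : ℝ, (a (s + t) = a t * a s + c t * b s ∧ c (s + t) = a t * c s + c t * d s) ∧
      (b (s + t) = b t * a s + d t * b s ∧ d (s + t) = b t * c s + d t * d s) := by
    intro s t
    constructor
    · apply huniq
      rw [← hac, uu_add_apply, hac t, map_add, map_smul, map_smul, hac s, hbd s]
      module
    · apply huniq
      rw [← hbd, uu_add_apply, hbd t, map_add, map_smul, map_smul, hac s, hbd s]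
      module
  have h0 : (a 0 = 1 ∧ c 0 = 0) ∧ (b 0 = 0 ∧ d 0 = 1) := by
    constructor
    · apply huniq
      rw [← hac, uu_zero_apply]
      module
    · apply huniq
      rw [← hbd, uu_zero_apply]
      module
  -- the parity rule
  have hR1 : ∀ s : ℝ, (a (-s) = a s ∧ c (-s) = - c s) ∧ (b (-s) = - b s ∧ d (-s) = d s) := by
    intro s
    have h3 : ∀ x, ρ (transvection hjk (-s)) (ρ (sg hpj.symm) x) =
        ρ (sg hpj.symm) (ρ (transvection hjk s) x) := by
      intro x
      rw [← rho_mul_apply, ← rho_mul_apply, sg_uu_left hjk hpj.symm hpk]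
    constructor
    · apply huniq
      have h4 := h3 e
      rw [hsge, map_neg, hac, hac, map_add, map_smul, map_smul, hsge, hsge'] at h4
      have h5 : a (-s) • e + c (-s) • e' = -(a s • -e + c s • e') := by rw [← h4]; module
      rw [h5]
      module
    · apply huniq
      have h4 := h3 e'
      rw [hsge', hbd, hbd, map_add, map_smul, map_smul, hsge, hsge'] at h4
      rw [h4]
      module
  have hR3 : ∀ s : ℝ, a s ^ 2 = 1 + b s * c s ∧ d s ^ 2 = 1 + b s * c s := by
    intro s
    obtain ⟨⟨h3, h4⟩, h5, h6⟩ := hR2 (-s) s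
    obtain ⟨⟨h7, h8⟩, h9, h10⟩ := hR1 s
    rw [neg_add_cancel] at h3 h4 h5 h6
    rw [h0.1.1, h7, h9] at h3
    rw [h0.2.2, h8, h10] at h6
    constructor <;> linarith
  have hR4 : ∀ s : ℝ, a s = d s := by
    intro s
    obtain ⟨⟨h3, h4⟩, h5, h6⟩ := hR2 (s / 2) (s / 2)
    rw [add_halves] at h3 h6
    rw [h3, h6]
    have := hR3 (s / 2)
    nlinarith [this.1, this.2]
  -- scaling
  have hsc : ∀ (s r : ℝ), 0 < r → a (r * s) = a s := by
    intro s r hr
    obtain ⟨χ, hχ⟩ := exists_scalar hdj (ρ (hh hjk (Real.log r / 2)))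
      (fun x hx => hh_VS ρ hjk _ hx)
    obtain ⟨χ', hχ'⟩ := exists_scalar hdk (ρ (hh hjk (Real.log r / 2)))
      (fun x hx => hh_VS ρ hjk _ hx)
    have hχ0 : χ ≠ 0 := by
      intro h
      have h3 := hχ e he
      rw [h, zero_smul] at h3
      exact he0 (rho_inj ρ _ (h3.trans (map_zero _).symm))
    have hexp : Real.exp (Real.log r / 2) ^ 2 = r := by
      rw [← Real.exp_nat_mul]
      have : ((2 : ℕ) : ℝ) * (Real.log r / 2) = Real.log r := by push_cast; ring
      rw [this, Real.exp_log hr]
    have h3 : ρ (hh hjk (Real.log r / 2)) (ρ (transvection hjk s) e) =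
        ρ (transvection hjk (r * s)) (ρ (hh hjk (Real.log r / 2)) e) := by
      rw [← rho_mul_apply, hh_uu_same, hexp, rho_mul_apply]
    rw [hac, map_add, map_smul, map_smul, hχ e he, hχ' e' he', map_smul, hac] at h3
    have h4 : (a s * χ) • e + (c s * χ') • e' = (χ * a (r * s)) • e + (χ * c (r * s)) • e' := by
      calc (a s * χ) • e + (c s * χ') • e' = a s • χ • e + c s • χ' • e' := by module
        _ = _ := by rw [h3]; module
    have h5 := (huniq _ _ _ _ h4).1
    have h6 : χ * (a (r * s) - a s) = 0 := by linarith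
    have h7 := (mul_eq_zero.1 h6).resolve_left hχ0
    linarith
  have ha1 : ∀ s : ℝ, a s = 1 := by
    intro s
    have h3 := hsc s 2 two_pos
    have h4 := hsc s 3 (by norm_num)
    obtain ⟨⟨h5, -⟩, h6, -⟩ := hR2 s s
    rw [← two_mul] at h5 h6
    obtain ⟨⟨h7, -⟩, -, -⟩ := hR2 (2 * s) s
    have e3 : 2 * s + s = 3 * s := by ring
    rw [e3, h4, h3, h6, ← hR4] at h7
    have h8 := (hR3 s).1
    have h9 : a s = 2 * a s ^ 2 - 1 := by
      rw [h3] at h5
      nlinarith
    have h10 : a s = a s * a s + 2 * a s * (a s ^ 2 - 1) := by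
      have e4 : b s * c s = a s ^ 2 - 1 := by linarith
      calc a s = a s * a s + 2 * a s * (b s * c s) := by linarith
        _ = _ := by rw [e4]
    have h11 : (2 * a s + 1) * (a s - 1) = 0 := by nlinarith
    rcases mul_eq_zero.1 h11 with h12 | h12
    · have h13 : a s = -1 / 2 := by linarith
      rw [h13] at h10
      norm_num at h10
    · linarith
  have hd1 : ∀ s : ℝ, d s = 1 := fun s => by rw [← hR4, ha1]
  have hbc : ∀ s t : ℝ, b s * c t = 0 := by
    intro s t
    have := (hR2 s t).1.1
    rw [ha1, ha1, ha1] at this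
    linarith
  by_cases hc : ∀ s, c s = 0
  · left
    constructor
    · intro s x hx
      obtain ⟨r, rfl⟩ := mem_span_of hdj he he0 hx
      rw [map_smul, hac, ha1, hc]
      module
    · intro s x hx
      obtain ⟨r, rfl⟩ := mem_span_of hdk he' he'0 hx
      rw [map_smul, hbd, hd1]
      have : r • (b s • e + (1 : ℝ) • e') - r • e' = (r * b s) • e := by module
      rw [this]
      exact Submodule.smul_mem _ _ he
  · right
    push Not at hc
    obtain ⟨s₁, hs₁⟩ := hc
    have hb : ∀ s, b s = 0 := fun s => (mul_eq_zero.1 (hbc s s₁)).resolve_right hs₁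
    constructor
    · intro s x hx
      obtain ⟨r, rfl⟩ := mem_span_of hdk he' he'0 hx
      rw [map_smul, hbd, hd1, hb]
      module
    · intro s x hx
      obtain ⟨r, rfl⟩ := mem_span_of hdj he he0 hx
      rw [map_smul, hac, ha1]
      have : r • ((1 : ℝ) • e + c s • e') - r • e = (r * c s) • e' := by module
      rw [this]
      exact Submodule.smul_mem _ _ he'

/-- the root subgroup `jk` fixes the `j`-th weight vector -/
def TI (j k : Fin n) : Prop :=
  ∀ (hjk : j ≠ k) (s : ℝ) (x : E), x ∈ VS ρ {j} → ρ (transvection hjk s) x = x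

omit [FiniteDimensional ℝ E] in
theorem TI.perm {j k : Fin n} (σ : Equiv.Perm (Fin n)) (h : TI ρ (σ j) (σ k)) : TI ρ j k := by
  intro hjk s x hx
  obtain ⟨g, hg⟩ := exists_mono σ
  have h1 := VS_mono ρ hg hx
  rw [Finset.map_singleton] at h1
  obtain ⟨ε, -, h2, -⟩ := hg
  have h3 := h (σ.injective.ne hjk) (ε j * ε k * s) _ h1
  rw [← rho_mul_apply, ← h2 j k hjk s, rho_mul_apply] at h3
  exact rho_inj ρ g h3

omit [FiniteDimensional ℝ E] in
theorem TI.all {j k : Fin n} (hjk : j ≠ k) (h : TI ρ j k) (a b : Fin n) (hab : a ≠ b) :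
    TI ρ a b := by
  have h1 : j ≠ Equiv.swap a j b := by
    intro h2
    have : Equiv.swap a j b = Equiv.swap a j a := by rw [← h2, Equiv.swap_apply_left]
    exact hab ((Equiv.swap a j).injective this).symm
  apply TI.perm ρ (Equiv.swap (Equiv.swap a j b) k * Equiv.swap a j)
  rw [Equiv.Perm.mul_apply, Equiv.Perm.mul_apply, Equiv.swap_apply_left, Equiv.swap_apply_left,
    Equiv.swap_apply_of_ne_of_ne h1 hjk]
  exact h

end plane

section final

variable {n : ℕ} {E : Type*} [NormedAddCommGroup E] [NormedSpace ℝ E] [FiniteDimensional ℝ E]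
  (ρ : SLn n →* Module.End ℝ E)

omit [FiniteDimensional ℝ E] in
theorem linear_of_fix (hc : ∀ x, Continuous fun g => ρ g x) {j k : Fin n} (hjk : j ≠ k) {x : E}
    (h : ∀ s t, ρ (transvection hjk s) (ρ (transvection hjk t) x - x) =
      ρ (transvection hjk t) x - x) (s : ℝ) :
    ρ (transvection hjk s) x = x + s • (ρ (transvection hjk (1 : ℝ)) x - x) := by
  let φ : ℝ →+ E :=
    { toFun := fun s => ρ (transvection hjk s) x - x
      map_zero' := by
        show ρ (transvection hjk (0 : ℝ)) x - x = 0
        rw [uu_zero_apply, sub_self]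
      map_add' := fun s t => by
        show ρ (transvection hjk (s + t)) x - x = _
        have h1 := h s t
        rw [map_sub, ← uu_add_apply] at h1
        have h2 : ρ (transvection hjk (s + t)) x =
          ρ (transvection hjk t) x - x + ρ (transvection hjk s) x := by rw [← h1]; abel
        rw [h2]
        abel }
  have hφ : Continuous φ := by
    have h1 : Continuous fun s : ℝ => transvection hjk s := by
      rw [continuous_SL_iff]
      simp only [transvection_coe]
      refine continuous_const.add ?_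
      refine continuous_matrix fun a b => ?_
      simp only [Matrix.single_apply]
      split_ifs
      · exact continuous_id
      · exact continuous_const
    exact ((hc x).comp h1).sub continuous_const
  have h2 : φ (s • (1 : ℝ)) = s • φ 1 := map_real_smul φ hφ s 1
  have h3 : φ s = ρ (transvection hjk s) x - x := rfl
  have h4 : φ 1 = ρ (transvection hjk (1 : ℝ)) x - x := rfl
  rw [smul_eq_mul, mul_one, h3, h4] at h2
  rw [← h2]
  abel

theorem rep_of_TI (hn : 3 ≤ n) (hE : finrank ℝ E < 2 * n - 2)
    (hc : ∀ x, Continuous fun g => ρ g x) {j k : Fin n} (hjk : j ≠ k) (hne : VS ρ {j} ≠ ⊥)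
    (hTI : TI ρ j k) :
    ∃ (F : Submodule ℝ E) (T : E ≃L[ℝ] Vn n × F), ∀ (g : SLn n) (x : E),
      T (ρ g x) = LL F g.1 (T x) := by
  have hTI' : ∀ (a b : Fin n) (hab : a ≠ b) (s : ℝ) (x : E), x ∈ VS ρ {a} →
      ρ (transvection hab s) x = x := fun a b hab s x hx =>
    TI.all ρ hjk hTI a b hab hab s x hx
  have hfix : ∀ (a b : Fin n) (hab : a ≠ b) (p : Fin n), p ≠ b → ∀ (s : ℝ) (x : E),
      x ∈ VS ρ {p} → ρ (transvection hab s) x = x := by
    intro a b hab p hpb s x hx
    by_cases hpa : p = a
    · subst hpa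
      exact hTI' p b hab s x hx
    · exact other_fix ρ hn hE hab hpa hpb hx s
  have hz : ∀ (a b : Fin n) (hab : a ≠ b) (s : ℝ) (x : E), x ∈ VS ρ ∅ →
      ρ (transvection hab s) x = x := fun a b hab s x hx => zero_fix ρ hn hE hne hab hx s
  -- `φ` maps the `b`-th weight space to the `a`-th
  have hmaps : ∀ (a b : Fin n) (hab : a ≠ b) (s : ℝ) (x : E), x ∈ VS ρ {b} →
      ρ (transvection hab s) x - x ∈ VS ρ {a} := by
    intro a b hab s x hx
    rcases plane_cases ρ hn hE hab with ⟨-, h⟩ | ⟨h, -⟩
    · exact h s x hx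
    · rw [h s x hx, sub_self]
      exact Submodule.zero_mem _
  have hlin : ∀ (a b : Fin n) (hab : a ≠ b) (s : ℝ) (x : E), x ∈ VS ρ {b} →
      ρ (transvection hab s) x = x + s • (ρ (transvection hab (1 : ℝ)) x - x) := by
    intro a b hab s x hx
    exact linear_of_fix ρ hc hab (fun s t => hTI' a b hab s _ (hmaps a b hab t x hx)) s
  -- not all trivial
  have hnt : ∀ (a b : Fin n) (hab : a ≠ b) (x : E), x ∈ VS ρ {b} → x ≠ 0 →
      ρ (transvection hab (1 : ℝ)) x - x ≠ 0 := by
    intro a b hab x hx hx0 h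
    have h1 : ∀ s, ρ (transvection hab s) x = x := fun s => by
      rw [hlin a b hab s x hx, h, smul_zero, add_zero]
    have h2 : ∀ s, ρ (transvection hab.symm s) x = x := fun s => hTI' b a hab.symm s x hx
    have h3 := sl2_fix ρ hab h1 h2
    rw [VS_single_same ρ hab (Submodule.mem_sup_right hx)] at h3
    have h10 : (2 : ℝ) • x = 0 := by
      rw [two_smul]
      nth_rewrite 1 [← h3]
      simp
    exact hx0 ((smul_eq_zero.1 h10).resolve_left two_ne_zero)
  obtain ⟨f₀, hf₀, hf₀0⟩ := Submodule.exists_mem_ne_zero_of_ne_bot hne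
  -- the basis vectors
  set f : Fin n → E := fun i => if h : i ≠ j then ρ (transvection h (1 : ℝ)) f₀ - f₀ else f₀
    with hf
  have hfj : f j = f₀ := by
    rw [hf]
    simp
  have hfi : ∀ i (h : i ≠ j), f i = ρ (transvection h (1 : ℝ)) f₀ - f₀ := by
    intro i h
    rw [hf]
    simp only
    rw [dif_pos h]
  have hfm : ∀ i, f i ∈ VS ρ {i} := by
    intro i
    by_cases h : i = j
    · subst h
      rw [hfj]
      exact hf₀
    · rw [hfi i h]
      exact hmaps i j h 1 f₀ hf₀
  have hf0 : ∀ i, f i ≠ 0 := by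
    intro i
    by_cases h : i = j
    · subst h
      rw [hfj]
      exact hf₀0
    · rw [hfi i h]
      exact hnt i j h f₀ hf₀ hf₀0
  -- the main identity
  have hI1 : ∀ i (h : i ≠ j) (s : ℝ), ρ (transvection h s) f₀ = f₀ + s • f i := by
    intro i h s
    rw [hlin i j h s f₀ hf₀, hfi i h]
  have hI2 : ∀ (a b : Fin n) (hab : a ≠ b) (s : ℝ), a ≠ j → b ≠ j →
      ρ (transvection hab s) (f b) = f b + s • f a := by
    intro a b hab s haj hbj
    have h1 := congrArg (fun g => ρ g f₀) (uu_three hab hbj haj s 1)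
    simp only [mul_one] at h1
    rw [rho_mul_apply, rho_mul_apply, rho_mul_apply, hI1 b hbj 1,
      hfix a b hab j hbj.symm s f₀ hf₀, hI1 b hbj 1, one_smul, map_add, map_add,
      hfix a b hab j hbj.symm s f₀ hf₀, hI1 a haj s, hfix a j haj b hbj s (f b) (hfm b)] at h1
    have h2 : ρ (transvection hab s) (f b) = f₀ + ρ (transvection hab s) (f b) - f₀ := by abel
    rw [h2, h1]
    abel
  have hI3 : ∀ (b : Fin n) (hb : j ≠ b) (s : ℝ), ρ (transvection hb s) (f b) = f b + s • f j := by
    intro b hb s
    obtain ⟨k', hk'j, hk'b⟩ := exists_ne_ne hn j b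
    obtain ⟨β, hβ⟩ := mem_span_of (finrank_one ρ hn hE j) hf₀ hf₀0
      (hmaps j b hb s (f b) (hfm b))
    have h0 : ρ (transvection hb s) (f b) = f b + β • f₀ := by rw [← hβ]; abel
    have h1 := congrArg (fun g => ρ g (f b)) (uu_three hk'j hb hk'b 1 s)
    simp only [one_mul] at h1
    rw [rho_mul_apply, rho_mul_apply, rho_mul_apply, h0,
      hfix k' j hk'j b hb.symm 1 (f b) (hfm b), h0, map_add, map_smul, hI1 k' hk'j 1,
      hfix k' j hk'j b hb.symm 1 (f b) (hfm b), map_add, map_smul,
      hfix k' b hk'b j hb s f₀ hf₀, hI2 k' b hk'b s hk'j hb.symm] at h1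
    have h2 : β • f k' = s • f k' := by
      have e1 : β • f k' = (f b + β • (f₀ + (1 : ℝ) • f k')) - f b - β • f₀ := by module
      rw [e1, h1]
      module
    have h3 : β = s := by
      have : (β - s) • f k' = 0 := by rw [sub_smul, h2, sub_self]
      exact sub_eq_zero.1 ((smul_eq_zero.1 this).resolve_right (hf0 k'))
    rw [h0, h3, hfj]
  have hmain : ∀ (a b : Fin n) (hab : a ≠ b) (s : ℝ),
      ρ (transvection hab s) (f b) = f b + s • f a := by
    intro a b hab s
    by_cases hbj : b = j
    · subst hbj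
      rw [hfj]
      exact hI1 a hab s
    · by_cases haj : a = j
      · subst haj
        exact hI3 b hab s
      · exact hI2 a b hab s haj hbj
  -- the linear isomorphism
  set F : Submodule ℝ E := VS ρ ∅ with hF
  let S : (Vn n × F) →ₗ[ℝ] E :=
    { toFun := fun p => (∑ i, p.1 i • f i) + (p.2 : E)
      map_add' := fun p q => by
        simp only [Prod.fst_add, Prod.snd_add, PiLp.add_apply, add_smul, Finset.sum_add_distrib,
          Submodule.coe_add]
        abel
      map_smul' := fun c p => by
        simp only [Prod.smul_fst, Prod.smul_snd, PiLp.smul_apply, smul_eq_mul, mul_smul,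
          Submodule.coe_smul, RingHom.id_apply, smul_add, Finset.smul_sum] }
  have hSapp : ∀ (v : Vn n) (y : F), S (v, y) = (∑ i, v i • f i) + (y : E) := fun v y => rfl
  have hSsurj : LinearMap.range S = ⊤ := by
    refine VS_top' ρ hn hE _ (fun x hx => ?_) fun i x hx => ?_
    · refine ⟨(0, ⟨x, hx⟩), ?_⟩
      rw [hSapp]
      simp
    · obtain ⟨c, rfl⟩ := mem_span_of (finrank_one ρ hn hE i) (hfm i) (hf0 i) hx
      refine ⟨(c • ee i, 0), ?_⟩
      rw [hSapp]
      simp [ee_apply]
  have hsgf : ∀ (a b : Fin n) (hab : a ≠ b) (l : Fin n), ρ (sg hab) (f l) =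
      (if l = a ∨ l = b then (-1 : ℝ) else 1) • f l := by
    intro a b hab l
    rw [hfm l a b hab]
    congr 1
    by_cases h1 : l = a
    · subst h1
      rw [sf_mem (Finset.mem_singleton_self _), sf_not_mem (by simpa using hab.symm)]
      simp
    · by_cases h2 : l = b
      · subst h2
        rw [sf_not_mem (by simpa using hab), sf_mem (Finset.mem_singleton_self _)]
        simp
      · rw [sf_not_mem (by simpa using Ne.symm h1), sf_not_mem (by simpa using Ne.symm h2)]
        simp [h1, h2]
  have hSinj : Function.Injective S := by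
    rw [← LinearMap.ker_eq_bot, LinearMap.ker_eq_bot']
    rintro ⟨v, y⟩ hvy
    rw [hSapp] at hvy
    -- apply `1 - σ_ab`
    have h1 : ∀ (a b : Fin n) (hab : a ≠ b), v a • f a + v b • f b = 0 := by
      intro a b hab
      have h2 := congrArg (fun x => x - ρ (sg hab) x) hvy
      simp only [map_zero, sub_zero, map_add, map_sum, map_smul, hsgf a b hab] at h2
      have h3 : ρ (sg hab) (y : E) = y := by
        rw [y.2 a b hab, sf_not_mem (by simp), sf_not_mem (by simp), one_mul, one_smul]
      rw [h3, add_sub_add_right_eq_sub, ← Finset.sum_sub_distrib] at h2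
      have h4 : ∀ l, v l • f l - v l • (if l = a ∨ l = b then (-1 : ℝ) else 1) • f l =
          (if l = a then (2 * v l) • f l else 0) + (if l = b then (2 * v l) • f l else 0) := by
        intro l
        by_cases h5 : l = a
        · subst h5
          simp only [true_or, if_true, hab, if_false, add_zero]
          module
        · by_cases h6 : l = b
          · subst h6
            simp only [or_true, if_true, h5, if_false, zero_add]
            module
          · simp [h5, h6]
      simp only [h4, Finset.sum_add_distrib, Finset.sum_ite_eq', Finset.mem_univ, if_true] at h2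
      have h5 : v a • f a + v b • f b = (2⁻¹ : ℝ) • ((2 * v a) • f a + (2 * v b) • f b) := by
        module
      rw [h5, h2, smul_zero]
    have h2 : ∀ a, v a = 0 := by
      intro a
      obtain ⟨b, hba, -⟩ := exists_ne_ne hn a a
      obtain ⟨c, hca, hcb⟩ := exists_ne_ne hn a b
      have h3 := congrArg (ρ (sg hca)) (h1 a b hba.symm)
      rw [map_add, map_smul, map_smul, hsgf c a hca, hsgf c a hca, map_zero,
        if_pos (Or.inr rfl), if_neg (by
          rintro (h | h)
          · exact hcb h.symm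
          · exact hba h)] at h3
      have h4 := h1 a b hba.symm
      have h5 : (2 * v a) • f a = 0 := by
        have : (2 * v a) • f a = (v a • f a + v b • f b) -
          (v a • (-1 : ℝ) • f a + v b • (1 : ℝ) • f b) := by module
        rw [this, h3, h4, sub_self]
      have h6 := (smul_eq_zero.1 h5).resolve_right (hf0 a)
      linarith
    have h3 : v = 0 := vext fun a => h2 a
    rw [h3] at hvy
    simp only [PiLp.zero_apply, zero_smul, Finset.sum_const_zero, zero_add] at hvy
    rw [h3]
    refine Prod.ext rfl (Subtype.ext hvy)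
  let S' : (Vn n × F) ≃ₗ[ℝ] E := LinearEquiv.ofBijective S ⟨hSinj, LinearMap.range_eq_top.1 hSsurj⟩
  let T : E ≃L[ℝ] (Vn n × F) := S'.symm.toContinuousLinearEquiv
  have hequiv : ∀ (g : SLn n) (p : Vn n × F), ρ g (S p) = S (LL F g.1 p) := by
    have : Nontrivial (Fin n) := Fin.nontrivial_iff_two_le.2 (by omega)
    intro g
    refine transvection_ind (fun g => ∀ p : Vn n × F, ρ g (S p) = S (LL F g.1 p)) ?_ ?_ g
    · rintro a b hab s ⟨v, y⟩
      rw [LL_apply, hSapp, hSapp, map_add, map_sum, hz a b hab s y y.2]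
      congr 1
      have h1 : ∀ l, ρ (transvection hab s) (v l • f l) =
          v l • f l + (if l = b then (v l * s) • f a else 0) := by
        intro l
        rw [map_smul]
        by_cases hl : l = b
        · subst hl
          rw [hmain, if_pos rfl, smul_add, smul_smul]
        · rw [hfix a b hab l hl s (f l) (hfm l), if_neg hl, add_zero]
      simp only [h1, Finset.sum_add_distrib, Finset.sum_ite_eq', Finset.mem_univ, if_true]
      have h2 : ∀ l, mv (transvection hab s).1 v l = v l + (if l = a then s * v b else 0) := by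
        intro l
        rw [mv_apply, transvection_coe]
        simp only [Matrix.add_apply, Matrix.one_apply, Matrix.single_apply, add_mul, ite_mul,
          one_mul, zero_mul, Finset.sum_add_distrib, Finset.sum_ite_eq, Finset.mem_univ, if_true]
        congr 1
        by_cases hl : l = a
        · subst hl
          simp
        · have hl' : ¬ a = l := fun h => hl h.symm
          simp [hl, hl']
      simp only [h2, add_smul, Finset.sum_add_distrib, ite_smul, zero_smul, Finset.sum_ite_eq',
        Finset.mem_univ, if_true]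
      rw [mul_comm (v b) s]
    · intro A B hA hB p
      rw [rho_mul_apply, hB, hA, Matrix.SpecialLinearGroup.coe_mul, LL_mul]
      rfl
  refine ⟨F, T, fun g x => ?_⟩
  obtain ⟨p, rfl⟩ := S'.surjective x
  have h1 : T (S' p) = p := S'.symm_apply_apply p
  have h2 : S' p = S p := rfl
  rw [h1, h2, hequiv g p]
  exact S'.symm_apply_apply _

/-- **Classification** of continuous representations of `SL(n, ℝ)` of dimension less than
`2 n - 2`. -/
theorem rep_class (hn : 3 ≤ n) (hE : finrank ℝ E < 2 * n - 2)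
    (hc : ∀ x, Continuous fun g => ρ g x) :
    (∀ (g : SLn n) (x : E), ρ g x = x) ∨
    (∃ (F : Submodule ℝ E) (T : E ≃L[ℝ] Vn n × F), ∀ (g : SLn n) (x : E),
      T (ρ g x) = LL F g.1 (T x)) ∨
    (∃ (F : Submodule ℝ E) (T : E ≃L[ℝ] Vn n × F), ∀ (g : SLn n) (x : E),
      T (ρ g x) = LL F (inr g).1 (T x)) := by
  have hnt : Nontrivial (Fin n) := Fin.nontrivial_iff_two_le.2 (by omega)
  set j : Fin n := ⟨0, by omega⟩ with hj
  obtain ⟨k, hkj, -⟩ := exists_ne_ne hn j j
  by_cases hne : VS ρ {j} = ⊥
  · left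
    have h0 : VS ρ ∅ = ⊤ := by
      refine VS_top' ρ hn hE _ le_rfl fun i => ?_
      have : VS ρ {i} = ⊥ := by
        by_contra h
        exact VS_ne_bot ρ h hne
      rw [this]
      exact bot_le
    have h1 : ∀ (a b : Fin n) (hab : a ≠ b) (s : ℝ) (x : E),
        ρ (transvection hab s) x = x := by
      intro a b hab s x
      refine fix_of_mem ρ hn hab (S := ∅) (by rw [h0]; trivial) (fun s => by rw [h0]; trivial) s
    intro g
    refine transvection_ind (fun g => ∀ x, ρ g x = x) h1 ?_ g
    intro A B hA hB x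
    rw [rho_mul_apply, hB, hA]
  · right
    rcases plane_cases ρ hn hE hkj.symm with ⟨h, -⟩ | ⟨h, -⟩
    · left
      exact rep_of_TI ρ hn hE hc hkj.symm hne fun _ s x hx => h s x hx
    · right
      -- pass to the dual action
      let ι : SLn n →* SLn n :=
        { toFun := inr
          map_one' := inr_one
          map_mul' := inr_mul }
      set ρ' : SLn n →* Module.End ℝ E := ρ.comp ι with hρ'
      have happ : ∀ g x, ρ' g x = ρ (inr g) x := fun g x => rfl
      have hVS : ∀ S, VS ρ' S = VS ρ S := by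
        intro S
        ext x
        rw [mem_VS, mem_VS]
        simp only [happ, inr_sg]
      have hTI : TI ρ' k j := by
        intro hkj' s x hx
        rw [hVS] at hx
        rw [happ, inr_uu]
        exact h (-s) x hx
      obtain ⟨F, T, hT⟩ := rep_of_TI ρ' hn hE (fun x => (hc x).comp continuous_inr) hkj
        (by rw [hVS]; exact VS_ne_bot ρ hne) hTI
      refine ⟨F, T, fun g x => ?_⟩
      have h1 := hT (inr g) x
      rw [happ, inr_inr] at h1
      exact h1

end final

end Pool.Agent.H812
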