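import Pool.Agent.H812.RGrp

/-!
Weight spaces of the group of diagonal sign matrices.
-/

set_option autoImplicit false

namespace Pool.Agent.H812

open Matrix Matrix.SpecialLinearGroup Module

section sf

variable {n : ℕ}

/-- the sign function of a set -/
def sf (S : Finset (Fin n)) (i : Fin n) : ℝ := if i ∈ S then -1 else 1

theorem sf_mem {S : Finset (Fin n)} {i : Fin n} (h : i ∈ S) : sf S i = -1 := if_pos h

theorem sf_not_mem {S : Finset (Fin n)} {i : Fin n} (h : i ∉ S) : sf S i = 1 := if_neg h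

theorem sf_compl (S : Finset (Fin n)) (i : Fin n) : sf Sᶜ i = - sf S i := by
  by_cases h : i ∈ S
  · rw [sf_mem h, sf_not_mem (by simpa using h)]; norm_num
  · rw [sf_not_mem h, sf_mem (by simpa using h)]

theorem sf_map (τ : Equiv.Perm (Fin n)) (S : Finset (Fin n)) (i : Fin n) :
    sf (S.map τ.toEmbedding) (τ i) = sf S i := by
  unfold sf
  simp

theorem sf_inj {S S' : Finset (Fin n)} (h : ∀ i, sf S i = sf S' i) : S = S' := by
  ext i
  have h1 := h i
  by_cases h2 : i ∈ S <;> by_cases h3 : i ∈ S'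
  · simp [h2, h3]
  · rw [sf_mem h2, sf_not_mem h3] at h1; norm_num at h1
  · rw [sf_not_mem h2, sf_mem h3] at h1; norm_num at h1
  · simp [h2, h3]

theorem exists_perm_map {S S' : Finset (Fin n)} (h : S.card = S'.card) :
    ∃ τ : Equiv.Perm (Fin n), S.map τ.toEmbedding = S' := by
  classical
  let e : {x // x ∈ S} ≃ {x // x ∈ S'} := Finset.equivOfCardEq h
  refine ⟨e.extendSubtype, ?_⟩
  refine Finset.eq_of_subset_of_card_le ?_ (by rw [Finset.card_map, h])
  intro x hx
  rw [Finset.mem_map] at hx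
  obtain ⟨y, hy, rfl⟩ := hx
  exact e.extendSubtype_mem y hy

end sf

section invol

variable {E : Type*} [AddCommGroup E] [Module ℝ E]

theorem maxGen_of_invol {f : Module.End ℝ E} (hf : ∀ x, f (f x) = x) {μ : ℝ} {x : E} :
    x ∈ f.maxGenEigenspace μ ↔ f x = μ • x := by
  rw [Module.End.mem_maxGenEigenspace]
  have key : ∀ (k : ℕ) (x : E), ((f - μ • (1 : Module.End ℝ E)) ^ k) x = 0 → f x = μ • x := by
    intro k
    induction k with
    | zero =>
      intro x hx
      rw [pow_zero, Module.End.one_apply] at hx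
      rw [hx, map_zero, smul_zero]
    | succ k ih =>
      intro x hx
      rw [pow_succ, Module.End.mul_apply] at hx
      have h1 := ih _ hx
      have h2 : (f - μ • (1 : Module.End ℝ E)) x = f x - μ • x := rfl
      rw [h2, map_sub, hf, map_smul] at h1
      -- x - μ f x = μ f x - μ² x
      have h3 : (1 + μ ^ 2) • x = (2 * μ) • f x := by
        have : x - μ • f x - μ • (f x - μ • x) = 0 := by rw [h1, sub_self]
        have h4 : (1 + μ ^ 2) • x - (2 * μ) • f x = x - μ • f x - μ • (f x - μ • x) := by module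
        rw [this] at h4
        exact sub_eq_zero.1 h4
      have h5 : (1 + μ ^ 2) • f x = (2 * μ) • x := by
        have := congrArg f h3
        rw [map_smul, map_smul, hf] at this
        exact this
      have h6 : ((1 - μ ^ 2) ^ 2) • x = 0 := by
        have h7 : ((1 + μ ^ 2) * (1 + μ ^ 2)) • x = ((2 * μ) * (2 * μ)) • x := by
          rw [mul_smul, h3, smul_comm, h5, ← mul_smul]
        have h8 : ((1 - μ ^ 2) ^ 2) • x = ((1 + μ ^ 2) * (1 + μ ^ 2)) • x -
          ((2 * μ) * (2 * μ)) • x := by module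
        rw [h8, h7, sub_self]
      rcases smul_eq_zero.1 h6 with h7 | h7
      · have h8 : μ ^ 2 = 1 := by nlinarith [pow_eq_zero_iff (n := 2) (by norm_num) |>.1 h7]
        have h9 : (2 : ℝ) • f x = (2 : ℝ) • (μ • x) := by
          calc (2 : ℝ) • f x = (1 + μ ^ 2) • f x := by rw [h8]; norm_num
            _ = _ := by rw [h5, mul_smul]
        exact smul_right_injective E (two_ne_zero' ℝ) h9
      · rw [h7, map_zero, smul_zero]
  constructor
  · rintro ⟨k, hk⟩
    exact key k x hk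
  · intro h
    refine ⟨1, ?_⟩
    rw [pow_one]
    show f x - μ • x = 0
    rw [h, sub_self]

theorem iSup_maxGen_of_invol {f : Module.End ℝ E} (hf : ∀ x, f (f x) = x) :
    ⨆ μ, f.maxGenEigenspace μ = ⊤ := by
  rw [eq_top_iff]
  intro x _
  have h1 : x = (2⁻¹ : ℝ) • (x + f x) + (2⁻¹ : ℝ) • (x - f x) := by module
  rw [h1]
  refine Submodule.add_mem _ ?_ ?_
  · refine Submodule.mem_iSup_of_mem 1 ?_
    rw [maxGen_of_invol hf, map_smul, map_add, hf]
    module
  · refine Submodule.mem_iSup_of_mem (-1) ?_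
    rw [maxGen_of_invol hf, map_smul, map_sub, hf]
    module

end invol

section VS

variable {n : ℕ} {E : Type*} [AddCommGroup E] [Module ℝ E] (ρ : SLn n →* Module.End ℝ E)

/-- the weight spaces of the group of diagonal sign matrices -/
def VS (S : Finset (Fin n)) : Submodule ℝ E where
  carrier := {x | ∀ (i j : Fin n) (hij : i ≠ j), ρ (sg hij) x = (sf S i * sf S j) • x}
  add_mem' := fun {x y} hx hy i j hij => by rw [map_add, hx, hy, smul_add]
  zero_mem' := fun i j hij => by rw [map_zero, smul_zero]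
  smul_mem' := fun c x hx i j hij => by rw [map_smul, hx, smul_comm]

theorem mem_VS {S : Finset (Fin n)} {x : E} :
    x ∈ VS ρ S ↔ ∀ (i j : Fin n) (hij : i ≠ j), ρ (sg hij) x = (sf S i * sf S j) • x := Iff.rfl

theorem VS_compl (S : Finset (Fin n)) : VS ρ Sᶜ = VS ρ S := by
  ext x
  rw [mem_VS, mem_VS]
  simp only [sf_compl, neg_mul_neg]

theorem rho_mul_apply (g h : SLn n) (x : E) : ρ (g * h) x = ρ g (ρ h x) := by
  rw [map_mul]; rfl

theorem rho_one_apply (x : E) : ρ 1 x = x := by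
  rw [map_one]; rfl

theorem rho_inv_apply (g : SLn n) (x : E) : ρ g⁻¹ (ρ g x) = x := by
  rw [← rho_mul_apply, inv_mul_cancel, rho_one_apply]

theorem rho_apply_inv (g : SLn n) (x : E) : ρ g (ρ g⁻¹ x) = x := by
  rw [← rho_mul_apply, mul_inv_cancel, rho_one_apply]

theorem rho_inj (g : SLn n) : Function.Injective (ρ g) := fun x y h => by
  rw [← rho_inv_apply ρ g x, h, rho_inv_apply]

theorem sg_invol {i j : Fin n} (hij : i ≠ j) (x : E) : ρ (sg hij) (ρ (sg hij) x) = x := by
  rw [← rho_mul_apply, sg_sq, rho_one_apply]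

theorem VS_mono {g : SLn n} {τ : Equiv.Perm (Fin n)} (hg : Mono g τ) {S : Finset (Fin n)} {x : E}
    (hx : x ∈ VS ρ S) : ρ g x ∈ VS ρ (S.map τ.toEmbedding) := by
  obtain ⟨ε, -, -, h3⟩ := hg
  intro a b hab
  obtain ⟨i, rfl⟩ := τ.surjective a
  obtain ⟨j, rfl⟩ := τ.surjective b
  have hij : i ≠ j := fun h => hab (congrArg τ h)
  have h4 := h3 i j hij
  rw [← rho_mul_apply, ← h4, rho_mul_apply, hx i j hij, map_smul, sf_map, sf_map]

variable [FiniteDimensional ℝ E]

theorem finrank_VS_le (τ : Equiv.Perm (Fin n)) (S : Finset (Fin n)) :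
    finrank ℝ (VS ρ S) ≤ finrank ℝ (VS ρ (S.map τ.toEmbedding)) := by
  obtain ⟨g, hg⟩ := exists_mono τ
  let L : VS ρ S →ₗ[ℝ] VS ρ (S.map τ.toEmbedding) :=
    (ρ g).restrict fun x hx => VS_mono ρ hg hx
  refine LinearMap.finrank_le_finrank_of_injective (f := L) fun x y hxy => ?_
  have h1 : ρ g x.1 = ρ g y.1 := congrArg Subtype.val hxy
  exact Subtype.ext (rho_inj ρ g h1)

theorem finrank_VS_eq {S S' : Finset (Fin n)} (h : S.card = S'.card) :
    finrank ℝ (VS ρ S) = finrank ℝ (VS ρ S') := by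
  obtain ⟨τ, rfl⟩ := exists_perm_map h
  refine le_antisymm (finrank_VS_le ρ τ S) ?_
  obtain ⟨σ, hσ⟩ := exists_perm_map h.symm
  have := finrank_VS_le ρ σ (S.map τ.toEmbedding)
  rwa [hσ] at this

theorem finrank_VS_eq' {S S' : Finset (Fin n)} (h : S'.card = S.card ∨ S'.card = n - S.card) :
    finrank ℝ (VS ρ S') = finrank ℝ (VS ρ S) := by
  rcases h with h | h
  · exact finrank_VS_eq ρ h
  · rw [← VS_compl ρ S]
    refine finrank_VS_eq ρ ?_
    rw [Finset.card_compl, Fintype.card_fin, h]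

/-- the commuting involutions -/
noncomputable def fi (i₀ i : Fin n) : Module.End ℝ E := if h : i₀ ≠ i then ρ (sg h) else 1

theorem fi_invol (i₀ i : Fin n) (x : E) : fi ρ i₀ i (fi ρ i₀ i x) = x := by
  unfold fi
  split_ifs with h
  · exact sg_invol ρ h x
  · rfl

theorem fi_comm (i₀ i j : Fin n) : Commute (fi ρ i₀ i) (fi ρ i₀ j) := by
  unfold fi
  split_ifs with h1 h2 h2
  · show ρ (sg h1) * ρ (sg h2) = ρ (sg h2) * ρ (sg h1)
    rw [← map_mul, ← map_mul, sg_comm]
  · exact Commute.one_right _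
  · exact Commute.one_left _
  · exact Commute.one_left _

theorem mem_fi_iff (i₀ : Fin n) (χ : Fin n → ℝ) (x : E) :
    x ∈ ⨅ i, (fi ρ i₀ i).maxGenEigenspace (χ i) ↔ ∀ i, fi ρ i₀ i x = χ i • x := by
  rw [Submodule.mem_iInf]
  exact forall_congr' fun i => maxGen_of_invol (fi_invol ρ i₀ i)

theorem VS_top (i₀ : Fin n) (P : Submodule ℝ E) (h : ∀ S, i₀ ∉ S → VS ρ S ≤ P) : P = ⊤ := by
  have h1 := Module.End.iSup_iInf_maxGenEigenspace_eq_top_of_iSup_maxGenEigenspace_eq_top_of_commute
    (fi ρ i₀) (fun i j _ => fi_comm ρ i₀ i j) (fun i => iSup_maxGen_of_invol (fi_invol ρ i₀ i))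
  rw [eq_top_iff, ← h1]
  refine iSup_le fun χ x hx => ?_
  rw [mem_fi_iff] at hx
  by_cases hx0 : x = 0
  · rw [hx0]; exact P.zero_mem
  have hχ : ∀ i, χ i = 1 ∨ χ i = -1 := by
    intro i
    have h2 := fi_invol ρ i₀ i x
    rw [hx i, map_smul, hx i, smul_smul] at h2
    have h3 : (χ i * χ i - 1) • x = 0 := by rw [sub_smul, h2, one_smul, sub_self]
    have h4 := (smul_eq_zero.1 h3).resolve_right hx0
    have h5 : (χ i - 1) * (χ i + 1) = 0 := by linarith
    rcases mul_eq_zero.1 h5 with h6 | h6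
    · left; linarith
    · right; linarith
  have hχ0 : χ i₀ = 1 := by
    have h2 := hx i₀
    have h3 : fi ρ i₀ i₀ x = x := by
      unfold fi
      rw [dif_neg (by simp)]
      rfl
    rw [h3] at h2
    rcases hχ i₀ with h4 | h4
    · exact h4
    · rw [h4, neg_one_smul] at h2
      exfalso
      apply hx0
      have h5 : (2 : ℝ) • x = 0 := by rw [two_smul]; nth_rewrite 1 [h2]; simp
      exact (smul_eq_zero.1 h5).resolve_left two_ne_zero
  set S : Finset (Fin n) := Finset.univ.filter fun i => χ i = -1 with hS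
  have hsf : ∀ i, sf S i = χ i := by
    intro i
    rcases hχ i with h2 | h2
    · rw [sf_not_mem, h2]
      rw [hS, Finset.mem_filter, h2]
      norm_num
    · rw [sf_mem, h2]
      rw [hS, Finset.mem_filter]
      exact ⟨Finset.mem_univ _, h2⟩
  have hi₀ : i₀ ∉ S := by
    rw [hS, Finset.mem_filter, hχ0]
    norm_num
  refine h S hi₀ ?_
  have hi : ∀ i (hi : i₀ ≠ i), ρ (sg hi) x = χ i • x := by
    intro i hi
    have := hx i
    unfold fi at this
    rwa [dif_pos hi] at this
  intro i j hij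
  rw [hsf, hsf]
  by_cases h2 : i₀ = i
  · subst h2
    rw [hi j hij, hχ0, one_mul]
  · by_cases h3 : i₀ = j
    · subst h3
      rw [← sg_symm hij, hi i h2, hχ0, mul_one]
    · rw [← sg_mul (Ne.symm h2) h3 hij, rho_mul_apply, hi j h3, map_smul, sg_symm h2, hi i h2,
        smul_smul, mul_comm]

theorem VS_indep (i₀ : Fin n) : iSupIndep fun S : {S : Finset (Fin n) // i₀ ∉ S} => VS ρ S.1 := by
  have h1 := Module.End.independent_iInf_maxGenEigenspace_of_forall_mapsTo (fi ρ i₀)
    (fun i j φ => Module.End.mapsTo_maxGenEigenspace_of_comm (fi_comm ρ i₀ j i) φ)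
  have h2 : Function.Injective fun S : {S : Finset (Fin n) // i₀ ∉ S} => fun i => sf S.1 i := by
    intro S S' h
    exact Subtype.ext (sf_inj fun i => congrFun h i)
  refine (h1.comp h2).mono fun S x hx => ?_
  show x ∈ ⨅ i, (fi ρ i₀ i).maxGenEigenspace (sf S.1 i)
  rw [mem_fi_iff]
  intro i
  unfold fi
  split_ifs with h3
  · rw [hx i₀ i h3, sf_not_mem S.2, one_mul]
  · have h4 : i₀ = i := not_not.1 h3
    rw [← h4, sf_not_mem S.2, one_smul]
    rfl

theorem card_mul_le (i₀ : Fin n) (X : Finset (Finset (Fin n))) (hX : ∀ S ∈ X, i₀ ∉ S) {r : ℕ}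
    (hr : ∀ S ∈ X, r ≤ finrank ℝ (VS ρ S)) : X.card * r ≤ finrank ℝ E := by
  classical
  have h1 : iSupIndep fun S : X => VS ρ S.1 := by
    have h2 : Function.Injective fun S : X =>
        (⟨S.1, hX S.1 S.2⟩ : {S : Finset (Fin n) // i₀ ∉ S}) := by
      intro S S' h
      exact Subtype.ext (congrArg (fun T => T.1) h)
    exact (VS_indep ρ i₀).comp h2
  have h3 := h1.dfinsupp_lsum_injective
  have h4 : finrank ℝ (DirectSum X fun S => VS ρ S.1) ≤ finrank ℝ E :=
    LinearMap.finrank_le_finrank_of_injective h3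
  rw [Module.finrank_directSum] at h4
  refine le_trans ?_ h4
  calc X.card * r = ∑ _S : X, r := by simp
    _ ≤ _ := Finset.sum_le_sum fun S _ => hr S.1 S.2

/-- the normalized sets of type `s` -/
def XX (i₀ : Fin n) (s : ℕ) : Finset (Finset (Fin n)) :=
  Finset.powersetCard s (Finset.univ.erase i₀) ∪ Finset.powersetCard (n - s) (Finset.univ.erase i₀)

theorem mem_XX {i₀ : Fin n} {s : ℕ} {S : Finset (Fin n)} (h : S ∈ XX i₀ s) :
    i₀ ∉ S ∧ (S.card = s ∨ S.card = n - s) := by
  unfold XX at h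
  rw [Finset.mem_union, Finset.mem_powersetCard, Finset.mem_powersetCard] at h
  rcases h with ⟨h1, h2⟩ | ⟨h1, h2⟩
  · exact ⟨fun h3 => by simpa using h1 h3, Or.inl h2⟩
  · exact ⟨fun h3 => by simpa using h1 h3, Or.inr h2⟩

theorem card_XX (i₀ : Fin n) {s : ℕ} (hs1 : 1 ≤ s) (hs2 : s + 1 ≤ n) (hs : 2 * s ≠ n) :
    (XX i₀ s).card = n.choose s := by
  unfold XX
  rw [Finset.card_union_of_disjoint, Finset.card_powersetCard, Finset.card_powersetCard,
    Finset.card_erase_of_mem (Finset.mem_univ _), Finset.card_univ, Fintype.card_fin]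
  · obtain ⟨m, rfl⟩ : ∃ m, n = m + 1 := ⟨n - 1, by omega⟩
    obtain ⟨t, rfl⟩ : ∃ t, s = t + 1 := ⟨s - 1, by omega⟩
    rw [Nat.choose_succ_succ, add_comm]
    congr 1
    simp only [Nat.add_sub_cancel]
    rw [← Nat.choose_symm (show t ≤ m by omega)]
    congr 1
    omega
  · rw [Finset.disjoint_left]
    intro S h1 h2
    rw [Finset.mem_powersetCard] at h1 h2
    omega

theorem card_XX' (i₀ : Fin n) (s : ℕ) : (n - 1).choose s ≤ (XX i₀ s).card := by
  unfold XX
  calc (n - 1).choose s = (Finset.powersetCard s (Finset.univ.erase i₀)).card := by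
        rw [Finset.card_powersetCard, Finset.card_erase_of_mem (Finset.mem_univ _),
          Finset.card_univ, Fintype.card_fin]
    _ ≤ _ := Finset.card_le_card Finset.subset_union_left

theorem choose_two_le {M s : ℕ} (h1 : 2 ≤ s) (h2 : s + 2 ≤ M) : M.choose 2 ≤ M.choose s := by
  have key : ∀ s, 2 ≤ s → s ≤ M / 2 → M.choose 2 ≤ M.choose s := by
    intro s hs
    induction s, hs using Nat.le_induction with
    | base => intro _; exact le_rfl
    | succ k hk ih =>
      intro h
      exact (ih (by omega)).trans (Nat.choose_le_succ_of_lt_half_left (by omega))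
  by_cases h : s ≤ M / 2
  · exact key s h1 h
  · rw [← Nat.choose_symm (show s ≤ M by omega)]
    exact key (M - s) (by omega) (by omega)

theorem XX_card_ge (i₀ : Fin n) (hn : 5 ≤ n) {s : ℕ} (h1 : 2 ≤ s) (h2 : s + 2 ≤ n) :
    2 * n - 2 ≤ (XX i₀ s).card := by
  by_cases hs : 2 * s = n
  · refine le_trans ?_ (card_XX' i₀ s)
    have h3 := choose_two_le (M := n - 1) h1 (by omega)
    refine le_trans ?_ h3
    rw [Nat.choose_two_right, Nat.le_div_iff_mul_le two_pos]
    obtain ⟨m, rfl⟩ : ∃ m, n = m + 6 := ⟨n - 6, by omega⟩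
    have e1 : m + 6 - 1 = m + 5 := by omega
    have e2 : m + 5 - 1 = m + 4 := by omega
    have e3 : 2 * (m + 6) - 2 = 2 * m + 10 := by omega
    rw [e1, e2, e3]
    nlinarith
  · rw [card_XX i₀ (by omega) (by omega) hs]
    refine le_trans ?_ (choose_two_le h1 h2)
    rw [Nat.choose_two_right, Nat.le_div_iff_mul_le two_pos]
    obtain ⟨m, rfl⟩ : ∃ m, n = m + 5 := ⟨n - 5, by omega⟩
    have e1 : m + 5 - 1 = m + 4 := by omega
    have e3 : 2 * (m + 5) - 2 = 2 * m + 8 := by omega
    rw [e1, e3]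
    nlinarith

/-- For `n ≥ 5` only the types `0` and `1` occur in dimension less than `2 n - 2`. -/
theorem VS_bot_of_five (hn : 5 ≤ n) (hE : finrank ℝ E < 2 * n - 2) {S : Finset (Fin n)}
    (h1 : 2 ≤ S.card) (h2 : S.card + 2 ≤ n) : VS ρ S = ⊥ := by
  by_contra hcon
  have h3 : 1 ≤ finrank ℝ (VS ρ S) := by
    rw [Nat.one_le_iff_ne_zero]
    intro h
    exact hcon (Submodule.finrank_eq_zero.1 h)
  have i₀ : Fin n := ⟨0, by omega⟩
  have h4 := card_mul_le ρ i₀ (XX i₀ S.card) (fun T hT => (mem_XX hT).1) (r := 1) (fun T hT => by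
    rw [finrank_VS_eq' ρ (mem_XX hT).2]; exact h3)
  have h5 := XX_card_ge i₀ hn h1 h2
  omega

end VS

end Pool.Agent.H812
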